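import Pool.Agent.Work.MP_1d0aa8_co.Defs
import Pool.Agent.Work.MP_1d0aa8_co.Stmts

/-! Bundle of small proof modules (one section per former module). -/

section

/-!
# MP_1d0aa8_co: basic API for `hull`, `APc`, `apset` and own triples
-/

set_option autoImplicit false

namespace Pool.Agent.Work.MP_1d0aa8_co

open Finset
open scoped Classical

theorem mem_hull {x u v y : ℤ} : y ∈ hull x u v ↔
    (min x (min u v) ≤ y ∧ y ≤ max x (max u v)) ∧ ((Int.gcd (u - x) (v - x) : ℕ) : ℤ) ∣ y - x := by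
  unfold hull
  rw [mem_filter, mem_Icc]

theorem hull_comm (x u v : ℤ) : hull x u v = hull x v u := by
  ext y
  rw [mem_hull, mem_hull, min_comm u v, max_comm u v, Int.gcd_comm]

theorem hull_rot (x u v : ℤ) : hull x u v = hull u x v := by
  ext y
  rw [mem_hull, mem_hull]
  have h1 : Int.gcd (u - x) (v - x) = Int.gcd (x - u) (v - u) := by
    apply Nat.dvd_antisymm
    · apply Int.dvd_gcd
      · have := Int.gcd_dvd_left (u - x) (v - x)
        have h2 : x - u = -(u - x) := by ring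
        rw [h2]; exact (dvd_neg).2 this
      · have h3 := Int.gcd_dvd_left (u - x) (v - x)
        have h4 := Int.gcd_dvd_right (u - x) (v - x)
        have h5 : v - u = (v - x) - (u - x) := by ring
        rw [h5]; exact dvd_sub h4 h3
    · apply Int.dvd_gcd
      · have := Int.gcd_dvd_left (x - u) (v - u)
        have h2 : u - x = -(x - u) := by ring
        rw [h2]; exact (dvd_neg).2 this
      · have h3 := Int.gcd_dvd_left (x - u) (v - u)
        have h4 := Int.gcd_dvd_right (x - u) (v - u)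
        have h5 : v - x = (v - u) - (x - u) := by ring
        rw [h5]; exact dvd_sub h4 h3
  have h2 : min x (min u v) = min u (min x v) := by rw [min_left_comm]
  have h3 : max x (max u v) = max u (max x v) := by rw [max_left_comm]
  rw [h2, h3, h1]
  have h4 : ((Int.gcd (x - u) (v - u) : ℕ) : ℤ) ∣ y - x ↔
      ((Int.gcd (x - u) (v - u) : ℕ) : ℤ) ∣ y - u := by
    have h5 := Int.gcd_dvd_left (x - u) (v - u)
    have h6 : y - u = (y - x) + (x - u) := by ring
    rw [h6]
    exact (dvd_add_left h5).symm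
  rw [h4]

theorem left_mem_hull (x u v : ℤ) : x ∈ hull x u v := by
  rw [mem_hull]
  refine ⟨⟨min_le_left _ _, le_max_left _ _⟩, by simp⟩

theorem mid_mem_hull (x u v : ℤ) : u ∈ hull x u v := by
  rw [hull_rot]; exact left_mem_hull u x v

theorem right_mem_hull (x u v : ℤ) : v ∈ hull x u v := by
  rw [hull_comm]; exact mid_mem_hull x v u

theorem APc.hull_sub {S : Finset ℤ} (h : APc S) {x u v : ℤ} (hx : x ∈ S) (hu : u ∈ S) (hv : v ∈ S) :
    hull x u v ⊆ S := h.2 x hx u hu v hv

/-- An own triple determines the member. -/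
theorem Fam.own_unique {N : ℕ} {F : Finset (Finset ℤ)} (hF : Fam N F) {A B : Finset ℤ} (hA : A ∈ F)
    (hB : B ∈ F) {x u v : ℤ} (h1 : x ∈ A) (h2 : u ∈ A) (h3 : v ∈ A) (h4 : x ∈ B) (h5 : u ∈ B)
    (h6 : v ∈ B) (h : ¬ hull x u v ⊆ A) : A = B := by
  by_contra hne
  have h7 := hF.ap A hA B hB hne
  have h8 := h7.hull_sub (mem_inter.2 ⟨h1, h4⟩) (mem_inter.2 ⟨h2, h5⟩) (mem_inter.2 ⟨h3, h6⟩)
  exact h (h8.trans inter_subset_left)

theorem hull_same (x u : ℤ) : hull x u u = {x, u} := by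
  ext y
  rw [mem_hull, mem_insert, mem_singleton]
  constructor
  · rintro ⟨⟨h1, h2⟩, h3⟩
    rw [Int.gcd_self] at h3
    rw [Int.natCast_natAbs, abs_dvd] at h3
    obtain ⟨c, hc⟩ := h3
    rw [min_self] at h1
    rw [max_self] at h2
    by_cases hu : u = x
    · left; rw [hu] at hc; linarith [hc]
    · rcases lt_or_gt_of_ne hu with h | h
      · rw [min_eq_right h.le] at h1
        rw [max_eq_left h.le] at h2
        have h4 : 0 ≤ c := by
          by_contra hn
          have : (u - x) * c > 0 := mul_pos_of_neg_of_neg (by linarith) (by linarith)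
          linarith
        have h5 : c ≤ 1 := by
          by_contra hn
          have : (u - x) * c ≤ (u - x) * 2 := mul_le_mul_of_nonpos_left (by linarith) (by linarith)
          linarith
        have h6 : c = 0 ∨ c = 1 := by omega
        rcases h6 with rfl | rfl
        · left; linarith
        · right; linarith
      · rw [min_eq_left h.le] at h1
        rw [max_eq_right h.le] at h2
        have h4 : 0 ≤ c := by
          by_contra hn
          have : (u - x) * c < 0 := mul_neg_of_pos_of_neg (by linarith) (by linarith)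
          linarith
        have h5 : c ≤ 1 := by
          by_contra hn
          have : (u - x) * 2 ≤ (u - x) * c := mul_le_mul_of_nonneg_left (by linarith) (by linarith)
          linarith
        have h6 : c = 0 ∨ c = 1 := by omega
        rcases h6 with rfl | rfl
        · left; linarith
        · right; linarith
  · rintro (rfl | rfl)
    · have := left_mem_hull y u u
      rwa [mem_hull] at this
    · have := mid_mem_hull x y y
      rwa [mem_hull] at this

theorem hull_left (x u : ℤ) : hull x u x = {x, u} := by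
  rw [hull_rot, hull_same, pair_comm]

theorem hull_left' (x u : ℤ) : hull x x u = {x, u} := by
  rw [hull_comm, hull_left]

/-! ### `apset` -/

theorem mem_apset {a : ℤ} {d k : ℕ} {y : ℤ} :
    y ∈ apset a d k ↔ ∃ i : ℕ, i ≤ k ∧ y = a + i * d := by
  unfold apset
  rw [mem_image]
  constructor
  · rintro ⟨i, hi, rfl⟩
    exact ⟨i, by rw [mem_range] at hi; omega, rfl⟩
  · rintro ⟨i, hi, rfl⟩
    exact ⟨i, by rw [mem_range]; omega, rfl⟩

theorem mem_apset' {a : ℤ} {d k : ℕ} (hd : 1 ≤ d) {y : ℤ} :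
    y ∈ apset a d k ↔ a ≤ y ∧ y ≤ a + k * d ∧ (d : ℤ) ∣ y - a := by
  rw [mem_apset]
  have hd' : (0 : ℤ) < d := by exact_mod_cast hd
  constructor
  · rintro ⟨i, hi, rfl⟩
    refine ⟨le_add_of_nonneg_right (by positivity), ?_, ⟨i, by ring⟩⟩
    have : (i : ℤ) * d ≤ k * d := mul_le_mul_of_nonneg_right (by exact_mod_cast hi) hd'.le
    linarith
  · rintro ⟨h1, h2, c, hc⟩
    have hc0 : 0 ≤ c := by
      by_contra hn
      have : (d : ℤ) * c < 0 := mul_neg_of_pos_of_neg hd' (by linarith)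
      linarith
    have hck : c ≤ k := by
      by_contra hn
      have : (d : ℤ) * (k + 1) ≤ (d : ℤ) * c := mul_le_mul_of_nonneg_left (by linarith) hd'.le
      nlinarith
    refine ⟨c.toNat, by omega, ?_⟩
    rw [Int.toNat_of_nonneg hc0]
    linarith [mul_comm c (d : ℤ)]

theorem card_apset {a : ℤ} {d k : ℕ} (hd : 1 ≤ d) : (apset a d k).card = k + 1 := by
  unfold apset
  rw [card_image_of_injective _ ?_, card_range]
  intro i j hij
  have hd' : (0 : ℤ) < d := by exact_mod_cast hd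
  have h1 : (i : ℤ) * d = (j : ℤ) * d := by simpa using hij
  exact_mod_cast mul_right_cancel₀ hd'.ne' h1

/-- A set which contains everything congruent to `x` modulo `e` between `x` and its points, and
whose points are all congruent to `x` modulo `e`, is a progression. -/
theorem APc_of_step {A : Finset ℤ} {x e : ℤ} (hx : x ∈ A) (h1 : ∀ w ∈ A, e ∣ w - x)
    (h2 : ∀ w ∈ A, ∀ y : ℤ, min x w ≤ y → y ≤ max x w → e ∣ y - x → y ∈ A) : APc A := by
  refine ⟨⟨x, hx⟩, ?_⟩
  intro p hp u hu v hv y hy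
  rw [mem_hull] at hy
  obtain ⟨⟨hy1, hy2⟩, hy3⟩ := hy
  have hg : e ∣ ((Int.gcd (u - p) (v - p) : ℕ) : ℤ) := by
    apply Int.dvd_coe_gcd
    · have : u - p = (u - x) - (p - x) := by ring
      rw [this]; exact dvd_sub (h1 u hu) (h1 p hp)
    · have : v - p = (v - x) - (p - x) := by ring
      rw [this]; exact dvd_sub (h1 v hv) (h1 p hp)
  have hyx : e ∣ y - x := by
    have : y - x = (y - p) + (p - x) := by ring
    rw [this]; exact dvd_add (hg.trans hy3) (h1 p hp)
  rcases le_total y x with hle | hle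
  · have : p ≤ y ∨ u ≤ y ∨ v ≤ y := by
      by_contra hn
      push Not at hn
      have := lt_min hn.1 (lt_min hn.2.1 hn.2.2)
      omega
    rcases this with h | h | h
    · exact h2 p hp y ((min_le_right _ _).trans h) (hle.trans (le_max_left _ _)) hyx
    · exact h2 u hu y ((min_le_right _ _).trans h) (hle.trans (le_max_left _ _)) hyx
    · exact h2 v hv y ((min_le_right _ _).trans h) (hle.trans (le_max_left _ _)) hyx
  · have : y ≤ p ∨ y ≤ u ∨ y ≤ v := by
      by_contra hn
      push Not at hn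
      have := max_lt hn.1 (max_lt hn.2.1 hn.2.2)
      omega
    rcases this with h | h | h
    · exact h2 p hp y ((min_le_left _ _).trans hle) (h.trans (le_max_right _ _)) hyx
    · exact h2 u hu y ((min_le_left _ _).trans hle) (h.trans (le_max_right _ _)) hyx
    · exact h2 v hv y ((min_le_left _ _).trans hle) (h.trans (le_max_right _ _)) hyx

theorem APc_apset (a : ℤ) (d k : ℕ) : APc (apset a d k) := by
  apply APc_of_step (x := a) (e := (d : ℤ))
  · rw [mem_apset]; exact ⟨0, Nat.zero_le _, by simp⟩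
  · intro w hw
    rw [mem_apset] at hw
    obtain ⟨i, -, rfl⟩ := hw
    exact ⟨i, by ring⟩
  · intro w hw y h1 h2 h3
    rcases Nat.eq_zero_or_pos d with rfl | hd
    · simp only [Nat.cast_zero, zero_dvd_iff] at h3
      rw [mem_apset]; exact ⟨0, Nat.zero_le _, by simp; linarith⟩
    · rw [mem_apset' hd] at hw ⊢
      obtain ⟨hw1, hw2, -⟩ := hw
      rw [min_eq_left hw1] at h1
      rw [max_eq_right hw1] at h2
      exact ⟨h1, h2.trans hw2, h3⟩

/-- The neighbour argument: if `w0 ≠ x` is a point of `A` nearest to `x` (on its side of `x`) which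
is bad at `x`, then `A` is a progression. -/
theorem APc_of_bad_nbr {A : Finset ℤ} {x w0 : ℤ} (hx : x ∈ A) (_hw0 : w0 ∈ A) (hne : w0 ≠ x)
    (hmin : ∀ y ∈ A, (x < y ∧ y < w0) ∨ (w0 < y ∧ y < x) → False) (hbad : BadAt A x w0) :
    APc A := by
  have hdvd : ∀ w ∈ A, (w0 - x) ∣ w - x := by
    intro w hw
    set g : ℕ := Int.gcd (w0 - x) (w - x) with hg
    have hgd : (g : ℤ) ∣ w0 - x := Int.gcd_dvd_left _ _
    have hgw : (g : ℤ) ∣ w - x := Int.gcd_dvd_right _ _
    have hsub := hbad w hw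
    have hgpos : 0 < (g : ℤ) := by
      have : g ≠ 0 := by
        intro h0
        rw [h0] at hgd
        simp only [Nat.cast_zero, zero_dvd_iff] at hgd
        exact hne (by linarith)
      exact_mod_cast Nat.pos_of_ne_zero this
    rcases lt_or_gt_of_ne hne with hlt | hgt
    · -- w0 < x
      obtain ⟨c, hc⟩ := hgd
      have hgle : (g : ℤ) ≤ x - w0 := by
        have h1 : (g : ℤ) ∣ x - w0 := ⟨-c, by rw [mul_neg, ← hc]; ring⟩
        exact Int.le_of_dvd (by linarith) h1
      have hmem : x - g ∈ A := by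
        apply hsub
        rw [mem_hull]
        refine ⟨⟨?_, ?_⟩, ?_⟩
        · exact (min_le_right _ _).trans ((min_le_left _ _).trans (by linarith))
        · exact le_trans (by linarith) (le_max_left _ _)
        · rw [← hg]; exact ⟨-1, by ring⟩
      by_cases heq : x - g = w0
      · have : (g : ℤ) = x - w0 := by linarith
        rw [this] at hgw
        have h2 : w0 - x = -(x - w0) := by ring
        rw [h2]; exact (neg_dvd).2 hgw
      · exfalso
        exact hmin _ hmem (Or.inr ⟨lt_of_le_of_ne (by linarith) (Ne.symm heq), by linarith⟩)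
    · have hgle : (g : ℤ) ≤ w0 - x := Int.le_of_dvd (by linarith) hgd
      have hmem : x + g ∈ A := by
        apply hsub
        rw [mem_hull]
        refine ⟨⟨?_, ?_⟩, ?_⟩
        · exact (min_le_left _ _).trans (by linarith)
        · exact le_trans (by linarith) ((le_max_left _ _).trans (le_max_right _ _))
        · rw [← hg]; exact ⟨1, by ring⟩
      by_cases heq : x + g = w0
      · have : (g : ℤ) = w0 - x := by linarith
        rw [← this]; exact hgw
      · exfalso
        exact hmin _ hmem (Or.inl ⟨by linarith, lt_of_le_of_ne (by linarith) heq⟩)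
  apply APc_of_step hx hdvd
  intro w hw y h1 h2 h3
  apply hbad w hw
  rw [mem_hull]
  refine ⟨⟨?_, ?_⟩, ?_⟩
  · refine le_trans (le_min (min_le_left _ _) ?_) h1
    exact (min_le_right _ _).trans (min_le_right _ _)
  · refine le_trans h2 (max_le (le_max_left _ _) ?_)
    exact (le_max_right _ _).trans (le_max_right _ _)
  · exact (Int.gcd_dvd_left _ _).trans h3

/-- A set through `x` in which every hull at `x` is inside is a progression. -/
theorem APc_of_hulls {A : Finset ℤ} {x : ℤ} (hx : x ∈ A)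
    (h : ∀ u ∈ A, ∀ v ∈ A, u < v → u ≠ x → v ≠ x → hull x u v ⊆ A) : APc A := by
  have h' : ∀ u ∈ A, ∀ v ∈ A, hull x u v ⊆ A := by
    intro u hu v hv
    by_cases hux : u = x
    · rw [hux, hull_left']
      intro y hy
      rw [mem_insert, mem_singleton] at hy
      rcases hy with rfl | rfl <;> assumption
    by_cases hvx : v = x
    · rw [hvx, hull_left]
      intro y hy
      rw [mem_insert, mem_singleton] at hy
      rcases hy with rfl | rfl <;> assumption
    rcases lt_trichotomy u v with hlt | heq | hgt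
    · exact h u hu v hv hlt hux hvx
    · rw [heq, hull_same]
      intro y hy
      rw [mem_insert, mem_singleton] at hy
      rcases hy with rfl | rfl <;> assumption
    · rw [hull_comm]; exact h v hv u hu hgt hvx hux
  by_cases hone : A = {x}
  · rw [hone]
    have := APc_apset x 1 0
    have h2 : apset x 1 0 = {x} := by
      ext y; rw [mem_apset, mem_singleton]
      constructor
      · rintro ⟨i, hi, rfl⟩
        have : i = 0 := by omega
        rw [this]; simp
      · rintro rfl; exact ⟨0, le_rfl, by simp⟩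
    rwa [h2] at this
  · have hne : (A.erase x).Nonempty := by
      rw [nonempty_iff_ne_empty]
      intro h0
      apply hone
      ext y
      rw [mem_singleton]
      constructor
      · intro hy
        by_contra hyx
        have : y ∈ A.erase x := mem_erase.2 ⟨hyx, hy⟩
        rw [h0] at this
        simp at this
      · rintro rfl; exact hx
    obtain ⟨w0, hw0, hmin⟩ := exists_min_image (A.erase x) (fun w => |w - x|) hne
    rw [mem_erase] at hw0
    apply APc_of_bad_nbr hx hw0.2 hw0.1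
    · intro y hy hcase
      have hyx : y ≠ x := by rcases hcase with h | h <;> omega
      have := hmin y (mem_erase.2 ⟨hyx, hy⟩)
      rcases hcase with h | h
      · rw [abs_of_pos (by linarith), abs_of_pos (by linarith)] at this
        linarith
      · rw [abs_of_neg (by linarith), abs_of_neg (by linarith)] at this
        linarith
    · intro w hw; exact h' w0 hw0.2 w hw

/-- A non-AP through `x` has an own pair at `x`. -/
theorem exists_own_at {A : Finset ℤ} {x : ℤ} (hx : x ∈ A) (h : ¬ APc A) :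
    ∃ u ∈ A, ∃ v ∈ A, u < v ∧ u ≠ x ∧ v ≠ x ∧ ¬ hull x u v ⊆ A := by
  by_contra hn
  push Not at hn
  exact h (APc_of_hulls hx hn)

theorem APc_of_card_le_two {A : Finset ℤ} (hne : A.Nonempty) (h : A.card ≤ 2) : APc A := by
  obtain ⟨x, hx⟩ := hne
  by_contra hn
  obtain ⟨u, hu, v, hv, huv, hux, hvx, -⟩ := exists_own_at hx hn
  have hsub : ({x, u, v} : Finset ℤ) ⊆ A := by
    intro y hy
    simp only [mem_insert, mem_singleton] at hy
    rcases hy with rfl | rfl | rfl <;> assumption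
  have hc : ({x, u, v} : Finset ℤ).card = 3 := by
    rw [card_insert_of_notMem, card_insert_of_notMem, card_singleton]
    · rw [mem_singleton]; exact huv.ne
    · rw [mem_insert, mem_singleton]; push Not; exact ⟨hux.symm, hvx.symm⟩
  have := card_le_card hsub
  omega

/-- Every progression is an `apset`. -/
theorem APc.exists_apset {S : Finset ℤ} (h : APc S) :
    ∃ (a : ℤ) (d k : ℕ), 1 ≤ d ∧ S = apset a d k := by
  have hne := h.1
  set m := S.min' hne with hm
  set M := S.max' hne with hM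
  have hmS : m ∈ S := S.min'_mem hne
  have hMS : M ∈ S := S.max'_mem hne
  by_cases hone : m = M
  · refine ⟨m, 1, 0, le_rfl, ?_⟩
    ext y
    rw [mem_apset]
    constructor
    · intro hy
      refine ⟨0, le_rfl, ?_⟩
      have h1 : m ≤ y := S.min'_le y hy
      have h2 : y ≤ M := S.le_max' y hy
      simp; omega
    · rintro ⟨i, hi, rfl⟩
      have : i = 0 := by omega
      rw [this]; simpa using hmS
  · have hlt : m < M := lt_of_le_of_ne (S.min'_le _ hMS) hone
    have hne2 : (S.erase m).Nonempty := ⟨M, mem_erase.2 ⟨hlt.ne', hMS⟩⟩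
    set m2 := (S.erase m).min' hne2 with hm2
    have hm2S : m2 ∈ S.erase m := (S.erase m).min'_mem hne2
    rw [mem_erase] at hm2S
    have hmm2 : m < m2 := lt_of_le_of_ne (S.min'_le _ hm2S.2) (Ne.symm hm2S.1)
    have hdvd : ∀ w ∈ S, (m2 - m) ∣ w - m := by
      intro w hw
      set g : ℕ := Int.gcd (m2 - m) (w - m) with hg
      have hgd : (g : ℤ) ∣ m2 - m := Int.gcd_dvd_left _ _
      have hgw : (g : ℤ) ∣ w - m := Int.gcd_dvd_right _ _
      have hgle : (g : ℤ) ≤ m2 - m := Int.le_of_dvd (by linarith) hgd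
      have hgpos : 0 < (g : ℤ) := by
        have : g ≠ 0 := by
          intro h0
          rw [h0] at hgd
          simp only [Nat.cast_zero, zero_dvd_iff] at hgd
          linarith
        exact_mod_cast Nat.pos_of_ne_zero this
      have hmem : m + g ∈ S := by
        apply h.hull_sub hmS hm2S.2 hw
        rw [mem_hull]
        refine ⟨⟨(min_le_left _ _).trans (by linarith), le_trans (by linarith)
          ((le_max_left _ _).trans (le_max_right _ _))⟩, ⟨1, by rw [← hg]; ring⟩⟩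
      have h3 : m2 ≤ m + g := (S.erase m).min'_le _ (mem_erase.2 ⟨by omega, hmem⟩)
      have h4 : (g : ℤ) = m2 - m := by linarith
      rw [← h4]; exact hgw
    have hMd := hdvd M hMS
    obtain ⟨c, hc⟩ := hMd
    have hcpos : 0 < c := by
      by_contra hn
      have : (m2 - m) * c ≤ 0 := mul_nonpos_of_nonneg_of_nonpos (by linarith) (by linarith)
      linarith
    have hdn : ((m2 - m).toNat : ℤ) = m2 - m := Int.toNat_of_nonneg (by linarith)
    have hcn : (c.toNat : ℤ) = c := Int.toNat_of_nonneg hcpos.le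
    refine ⟨m, (m2 - m).toNat, c.toNat, by omega, ?_⟩
    ext y
    rw [mem_apset' (by omega), hdn, hcn]
    constructor
    · intro hy
      refine ⟨S.min'_le y hy, ?_, hdvd y hy⟩
      have := S.le_max' y hy
      rw [← hM] at this
      linarith [mul_comm c (m2 - m)]
    · rintro ⟨h1, h2, h3⟩
      apply h.hull_sub hmS hm2S.2 hMS
      rw [mem_hull]
      refine ⟨⟨(min_le_left _ _).trans h1, ?_⟩, (Int.gcd_dvd_left _ _).trans h3⟩
      refine le_trans ?_ ((le_max_right _ _).trans (le_max_right _ _))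
      linarith [mul_comm c (m2 - m)]

theorem Pd_mem {F : Finset (Finset ℤ)} {d : ℕ} {A : Finset ℤ} :
    A ∈ Pd F d ↔ A ∈ F ∧ ∃ (a : ℤ) (k : ℕ), 1 ≤ k ∧ A = apset a d k := by
  unfold Pd; rw [mem_filter]

theorem Fam.meet {N : ℕ} {F : Finset (Finset ℤ)} (hF : Fam N F) {A B : Finset ℤ} (hA : A ∈ F)
    (hB : B ∈ F) (hne : A ≠ B) : (A ∩ B).Nonempty := (hF.ap A hA B hB hne).1

theorem Fam.mem_Icc {N : ℕ} {F : Finset (Finset ℤ)} (hF : Fam N F) {A : Finset ℤ} (hA : A ∈ F)
    {y : ℤ} (hy : y ∈ A) : 1 ≤ y ∧ y ≤ N := Finset.mem_Icc.1 (hF.sub A hA hy)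

theorem lg_one_le {N : ℕ} (hN : 1 ≤ N) : 1 ≤ lg N := by
  unfold lg
  have : 0 ≤ Real.log N := Real.log_nonneg (by exact_mod_cast hN)
  linarith

end Pool.Agent.Work.MP_1d0aa8_co

end

section

/-!
# APTOT: the number of AP members
-/

set_option autoImplicit false

namespace Pool.Agent.Work.MP_1d0aa8_co

open Finset
open scoped Classical

theorem aptot_large : ∃ N0 : ℕ, ∀ N : ℕ, N0 ≤ N → 1 ≤ N ∧
    1 + 10 * (N : ℝ) * (1 + Real.log N) + 10 * N ≤ 0.00075 * (N : ℝ) ^ 2 := by
  have h := (Real.isLittleO_pow_log_id_atTop (n := 1)).def (show (0 : ℝ) < 0.00001 by norm_num)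
  have h' := (tendsto_natCast_atTop_atTop (R := ℝ)).eventually h
  obtain ⟨N0, hN0⟩ := Filter.eventually_atTop.1 (h'.and (Filter.eventually_ge_atTop 1000000))
  refine ⟨N0, fun N hN => ?_⟩
  obtain ⟨h1, h2⟩ := hN0 N hN
  have h3 : (1000000 : ℝ) ≤ N := by exact_mod_cast h2
  have hn : ‖(N : ℝ)‖ = N := Real.norm_of_nonneg (Nat.cast_nonneg N)
  rw [id, pow_one, hn, Real.norm_of_nonneg (Real.log_natCast_nonneg N)] at h1
  refine ⟨by omega, ?_⟩
  have h4 : (N : ℝ) * Real.log N ≤ N * (0.00001 * N) := mul_le_mul_of_nonneg_left h1 (by linarith)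
  nlinarith

theorem thmAPtot (h1 : SSplit) (h2 : SCount) (h3 : SZeta) : SAPtot := by
  obtain ⟨N0, hN0⟩ := aptot_large
  refine ⟨N0, fun N hN F hF => ?_⟩
  obtain ⟨hN1, hNL⟩ := hN0 N hN
  have hs := h1 N F F hF (Finset.Subset.refl F)
  have hs' : ((F.filter (fun A => APc A)).card : ℝ) ≤
      1 + ∑ d ∈ Icc 1 N, (((Pd F d).filter (fun A => A ∈ F)).card : ℝ) := by
    exact_mod_cast hs
  have hterm : ∀ d ∈ Icc 1 N, (((Pd F d).filter (fun A => A ∈ F)).card : ℝ) ≤
      (N : ℝ) ^ 2 / 4 * (1 / (d : ℝ) ^ 2) + 10 * N * (d : ℝ)⁻¹ + 10 := by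
    intro d hd
    rw [Finset.mem_Icc] at hd
    have hd0 : (0 : ℝ) < d := by exact_mod_cast hd.1
    have hc := h2 N F ((Pd F d).filter (fun A => A ∈ F)) d 0 hN1 hF hd.1 hd.2
      (Finset.filter_subset _ _) (fun A _ => Nat.cast_nonneg _) le_rfl
    have hNd : (0 : ℝ) ≤ (N : ℝ) / d := by positivity
    rw [sub_zero, sub_zero, max_eq_left hNd, max_eq_left (by positivity)] at hc
    refine hc.trans (le_of_eq ?_)
    field_simp
    ring
  have hharm : ∑ d ∈ Icc 1 N, ((d : ℝ))⁻¹ ≤ 1 + Real.log N := by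
    have := harmonic_le_one_add_log N
    rw [harmonic_eq_sum_Icc] at this
    push_cast at this
    exact this
  have hsum := Finset.sum_le_sum hterm
  rw [Finset.sum_add_distrib, Finset.sum_add_distrib, ← Finset.mul_sum, ← Finset.mul_sum,
    Finset.sum_const, Nat.card_Icc, Nat.add_sub_cancel, nsmul_eq_mul] at hsum
  have hN0' : (0 : ℝ) ≤ N := Nat.cast_nonneg N
  have hz := h3 N
  have e1 : (N : ℝ) ^ 2 / 4 * ∑ d ∈ Icc 1 N, (1 : ℝ) / (d : ℝ) ^ 2 ≤ (N : ℝ) ^ 2 / 4 * 1.645 :=
    mul_le_mul_of_nonneg_left hz (by positivity)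
  have e2 : 10 * (N : ℝ) * ∑ d ∈ Icc 1 N, ((d : ℝ))⁻¹ ≤ 10 * N * (1 + Real.log N) :=
    mul_le_mul_of_nonneg_left hharm (by positivity)
  linarith

end Pool.Agent.Work.MP_1d0aa8_co

end

section

/-!
# MP_1d0aa8_co: AREA
-/

set_option autoImplicit false

namespace Pool.Agent.Work.MP_1d0aa8_co

open Finset
open scoped Classical

namespace AreaAux

/-- Splitting off the last column. -/
lemma split_col (D : Finset (ℕ × ℕ)) (a n : ℕ) (h : ∀ p ∈ D, p.1 ≤ a + 1)
    (hn : ∀ p ∈ D, p.1 = a + 1 → p.2 < n) :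
    D.card ≤ (D.filter (fun p => p.1 ≤ a)).card + n := by
  have h1 : D = D.filter (fun p => p.1 ≤ a) ∪ D.filter (fun p => p.1 = a + 1) := by
    ext p
    simp only [mem_union, mem_filter]
    constructor
    · intro hp
      have := h p hp
      rcases Nat.lt_or_ge a p.1 with h2 | h2
      · right; exact ⟨hp, by omega⟩
      · left; exact ⟨hp, h2⟩
    · rintro (hp | hp) <;> exact hp.1
  have h2 : (D.filter (fun p => p.1 = a + 1)).card ≤ n := by
    have h3 : (D.filter (fun p => p.1 = a + 1)).card ≤ (range n).card := by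
      apply card_le_card_of_injOn (fun p => p.2)
      · intro p hp
        rw [mem_coe, mem_filter] at hp
        rw [mem_coe, mem_range]
        exact hn p hp.1 hp.2
      · intro p hp q hq hpq
        rw [mem_coe, mem_filter] at hp hq
        exact Prod.ext (hp.2.trans hq.2.symm) hpq
    rwa [card_range] at h3
  calc D.card = (D.filter (fun p => p.1 ≤ a) ∪ D.filter (fun p => p.1 = a + 1)).card := by rw [← h1]
    _ ≤ (D.filter (fun p => p.1 ≤ a)).card + (D.filter (fun p => p.1 = a + 1)).card :=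
      card_union_le _ _
    _ ≤ _ := by omega

lemma col_zero (D : Finset (ℕ × ℕ)) (n : ℕ) (h : ∀ p ∈ D, p.1 = 0 ∧ p.2 < n) : D.card ≤ n := by
  have h3 : D.card ≤ (range n).card := by
    apply card_le_card_of_injOn (fun p => p.2)
    · intro p hp
      rw [mem_coe, mem_range]
      exact (h p hp).2
    · intro p hp q hq hpq
      exact Prod.ext ((h p hp).1.trans (h q hq).1.symm) hpq
  rwa [card_range] at h3

lemma tri (T : ℕ) : ∀ (a : ℕ) (D : Finset (ℕ × ℕ)), a ≤ T → (∀ p ∈ D, p.1 ≤ a ∧ p.1 + p.2 ≤ T) →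
    2 * D.card + a * (a + 1) ≤ 2 * ((a + 1) * (T + 1)) := by
  intro a
  induction a with
  | zero =>
    intro D _ h
    have := col_zero D (T + 1) (fun p hp => by have := h p hp; omega)
    omega
  | succ a ih =>
    intro D haT h
    have h1 := split_col D a (T - a) (fun p hp => (h p hp).1) (fun p hp hp1 => by
      have := h p hp; omega)
    have h2 := ih (D.filter (fun p => p.1 ≤ a)) (by omega) (fun p hp => by
      rw [mem_filter] at hp
      exact ⟨hp.2, (h p hp.1).2⟩)
    obtain ⟨c, hc⟩ : ∃ c, T = a + 1 + c := ⟨T - (a + 1), by omega⟩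
    have h3 : T - a = c + 1 := by omega
    rw [h3] at h1
    subst hc
    nlinarith

lemma corner (b T : ℕ) (hb : b ≤ T) : ∀ (m : ℕ) (D : Finset (ℕ × ℕ)), m ≤ b →
    (∀ p ∈ D, p.1 ≤ T - b + m ∧ p.2 ≤ b ∧ p.1 + p.2 ≤ T) →
    2 * D.card + m * (m + 1) ≤ 2 * ((T - b + m + 1) * (b + 1)) := by
  intro m
  induction m with
  | zero =>
    intro D _ h
    have h1 : D ⊆ range (T - b + 1) ×ˢ range (b + 1) := by
      intro p hp
      have := h p hp
      rw [mem_product, mem_range, mem_range]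
      omega
    have h2 := card_le_card h1
    rw [card_product, card_range, card_range] at h2
    simpa using Nat.mul_le_mul_left 2 h2
  | succ m ih =>
    intro D hmb h
    have h1 := split_col D (T - b + m) (b - m) (fun p hp => by have := h p hp; omega)
      (fun p hp hp1 => by have := h p hp; omega)
    have h2 := ih (D.filter (fun p => p.1 ≤ T - b + m)) (by omega) (fun p hp => by
      rw [mem_filter] at hp
      have := h p hp.1
      exact ⟨hp.2, this.2⟩)
    obtain ⟨c, hc⟩ : ∃ c, b = m + 1 + c := ⟨b - (m + 1), by omega⟩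
    have h3 : b - m = c + 1 := by omega
    rw [h3] at h1
    generalize T - b = e at *
    subst hc
    nlinarith

end AreaAux

open AreaAux in
theorem thmArea : SArea := by
  intro D a b T h
  have tri' : ∀ a' : ℕ, ∀ D' : Finset (ℕ × ℕ), a' ≤ T → (∀ p ∈ D', p.1 ≤ a' ∧ p.1 + p.2 ≤ T) →
      (D'.card : ℝ) ≤ a' * T - (a' : ℝ) ^ 2 / 2 + (a' + T + 1) := by
    intro a' D' ha' hD'
    have h1 := tri T a' D' ha' hD'
    have h2 : (2 : ℝ) * D'.card + a' * (a' + 1) ≤ 2 * ((a' + 1) * (T + 1)) := by exact_mod_cast h1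
    have h3 : (0 : ℝ) ≤ a' := Nat.cast_nonneg _
    nlinarith
  have hE : (0 : ℝ) ≤ a := Nat.cast_nonneg _
  have hE2 : (0 : ℝ) ≤ b := Nat.cast_nonneg _
  have hE3 : (0 : ℝ) ≤ T := Nat.cast_nonneg _
  refine ⟨?_, ?_, ?_, ?_, ?_⟩
  · have h1 := tri' T D le_rfl (fun p hp => by have := h p hp; omega)
    nlinarith
  · have h1 : D ⊆ range (a + 1) ×ˢ range (b + 1) := by
      intro p hp
      have := h p hp
      rw [mem_product, mem_range, mem_range]
      omega
    have h2 := card_le_card h1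
    rw [card_product, card_range, card_range] at h2
    have h3 : (D.card : ℝ) ≤ (a + 1) * (b + 1) := by exact_mod_cast h2
    nlinarith
  · intro haT
    have haT' : a ≤ T := by exact_mod_cast haT
    have h1 := tri' a D haT' (fun p hp => by have := h p hp; omega)
    nlinarith
  · intro hbT
    have hbT' : b ≤ T := by exact_mod_cast hbT
    have h1 := tri' b (D.map ⟨Prod.swap, Prod.swap_injective⟩) hbT' (fun p hp => by
      rw [mem_map] at hp
      obtain ⟨q, hq, rfl⟩ := hp
      have := h q hq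
      simp only [Function.Embedding.coeFn_mk, Prod.fst_swap, Prod.snd_swap]
      omega)
    rw [card_map] at h1
    nlinarith
  · intro haT hbT hTab
    have haT' : a ≤ T := by exact_mod_cast haT
    have hbT' : b ≤ T := by exact_mod_cast hbT
    have hTab' : T ≤ a + b := by exact_mod_cast hTab
    have h1 := corner b T hbT' (a + b - T) D (by omega) (fun p hp => by have := h p hp; omega)
    have h2 : T - b + (a + b - T) = a := by omega
    rw [h2] at h1
    obtain ⟨m, hm⟩ : ∃ m, a + b = T + m := ⟨a + b - T, by omega⟩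
    have h3 : a + b - T = m := by omega
    rw [h3] at h1
    have h4 : (a : ℝ) + b - T = m := by
      have : (a : ℝ) + b = T + m := by exact_mod_cast hm
      linarith
    rw [h4]
    have h5 : (2 : ℝ) * D.card + m * (m + 1) ≤ 2 * ((a + 1) * (b + 1)) := by exact_mod_cast h1
    have h6 : (0 : ℝ) ≤ m := Nat.cast_nonneg _
    nlinarith

end Pool.Agent.Work.MP_1d0aa8_co

end

section

/-!
# MP_1d0aa8_co, item BAD
-/

set_option autoImplicit false

namespace Pool.Agent.Work.MP_1d0aa8_co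

open Finset
open scoped Classical

theorem bad_mem_hull {x u v y : ℤ} : y ∈ hull x u v ↔
    (min x (min u v) ≤ y ∧ y ≤ max x (max u v)) ∧
      ((Int.gcd (u - x) (v - x) : ℕ) : ℤ) ∣ y - x := by
  rw [hull, mem_filter, mem_Icc]

theorem bad_own_unique {N : ℕ} {F : Finset (Finset ℤ)} (hF : Fam N F) {A B : Finset ℤ}
    (hA : A ∈ F) (hB : B ∈ F) {x u v : ℤ} (h1 : x ∈ A) (h2 : u ∈ A) (h3 : v ∈ A)
    (h4 : ¬ hull x u v ⊆ A) (h5 : x ∈ B) (h6 : u ∈ B) (h7 : v ∈ B) : A = B := by
  by_contra hne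
  have h := (hF.ap A hA B hB hne).2 x (mem_inter.2 ⟨h1, h5⟩) u (mem_inter.2 ⟨h2, h6⟩) v
    (mem_inter.2 ⟨h3, h7⟩)
  exact h4 (h.trans inter_subset_left)

theorem one_le_lg {N : ℕ} (hN : 1 ≤ N) : 1 ≤ lg N := by
  rw [lg]
  have : 0 ≤ Real.log N := Real.log_nonneg (by exact_mod_cast hN)
  linarith

/-- The structure at a bad point on the side `s` of `x`: neighbour argument. -/
theorem bad_neighbour {A : Finset ℤ} {x y : ℤ} {s : ℤ} (hs : s = 1 ∨ s = -1) (hx : x ∈ A)
    (hy : y ∈ A) (n : ℕ) (hn : 0 < n) (hyn : y = x + s * n) (hbad : BadAt A x y) :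
    ∃ d : ℕ, 0 < d ∧ d ∣ n ∧ x + s * d ∈ A ∧ ∀ m : ℕ, 0 < m → x + s * m ∈ A → d ≤ m := by
  have hex : ∃ m : ℕ, 0 < m ∧ x + s * m ∈ A := ⟨n, hn, by rw [← hyn]; exact hy⟩
  obtain ⟨hd0, hdA⟩ := Nat.find_spec hex
  set d := Nat.find hex with hd
  have hmin : ∀ m : ℕ, 0 < m → x + s * m ∈ A → d ≤ m := fun m h1 h2 => Nat.find_min' hex ⟨h1, h2⟩
  refine ⟨d, hd0, ?_, hdA, hmin⟩
  have hdn : d ≤ n := hmin n hn (by rw [← hyn]; exact hy)
  -- the point `x + s gcd(n, d)`
  have hg0 : 0 < Nat.gcd n d := Nat.gcd_pos_of_pos_left _ hn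
  have hgd : Nat.gcd n d ≤ d := Nat.gcd_le_right _ hd0
  have hmem : x + s * (Nat.gcd n d : ℕ) ∈ hull x y (x + s * d) := by
    rw [bad_mem_hull]
    have h1 : Int.gcd (y - x) (x + s * d - x) = Nat.gcd n d := by
      rw [hyn]
      rcases hs with h | h <;> subst h <;> simp
    rw [h1]
    refine ⟨?_, ?_⟩
    · have a1 : ((Nat.gcd n d : ℕ) : ℤ) ≤ d := by exact_mod_cast hgd
      have a2 : (d : ℤ) ≤ n := by exact_mod_cast hdn
      have a3 : (0 : ℤ) < (Nat.gcd n d : ℕ) := by exact_mod_cast hg0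
      rw [hyn]
      rcases hs with h | h <;> subst h
      · constructor
        · exact (min_le_left _ _).trans (by linarith)
        · exact le_trans (by linarith) ((le_max_left _ _).trans (le_max_right _ _))
      · constructor
        · exact ((min_le_right _ _).trans (min_le_left _ _)).trans (by linarith)
        · exact le_trans (by linarith) (le_max_left _ _)
    · rw [add_sub_cancel_left]
      exact Dvd.intro_left _ rfl
  have h2 := hmin _ hg0 (hbad _ hdA hmem)
  have h3 : Nat.gcd n d = d := le_antisymm hgd h2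
  rw [← h3]
  exact Nat.gcd_dvd_left n d

/-- If all points of `A` are congruent to `x` modulo `d` and all hulls with `x`, `x + s d` are in
`A`, then `A` is a progression. -/
theorem bad_apc {A : Finset ℤ} {x : ℤ} {s : ℤ} (hs : s = 1 ∨ s = -1) (hx : x ∈ A) (d : ℕ)
    (hmod : ∀ w ∈ A, (d : ℤ) ∣ w - x) (hh : ∀ w ∈ A, hull x (x + s * d) w ⊆ A) : APc A := by
  refine ⟨⟨x, hx⟩, ?_⟩
  intro u hu v hv w hw t ht
  rw [bad_mem_hull] at ht
  obtain ⟨⟨ht1, ht2⟩, ht3⟩ := ht
  -- `d ∣ t - x`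
  have hdt : (d : ℤ) ∣ t - x := by
    have e1 : (d : ℤ) ∣ v - u := by
      have := dvd_sub (hmod v hv) (hmod u hu)
      have e : v - x - (u - x) = v - u := by ring
      rwa [e] at this
    have e2 : (d : ℤ) ∣ w - u := by
      have := dvd_sub (hmod w hw) (hmod u hu)
      have e : w - x - (u - x) = w - u := by ring
      rwa [e] at this
    have e3 : (d : ℤ) ∣ ((Int.gcd (v - u) (w - u) : ℕ) : ℤ) := Int.dvd_coe_gcd e1 e2
    have e4 := dvd_add (e3.trans ht3) (hmod u hu)
    have e : t - u + (u - x) = t - x := by ring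
    rwa [e] at e4
  -- a point `z` of `A` beyond `t`
  have key : ∀ z ∈ A, (x ≤ t ∧ t ≤ z) ∨ (z ≤ t ∧ t ≤ x) → t ∈ A := by
    intro z hz hzt
    apply hh z hz
    rw [bad_mem_hull]
    have hg : Int.gcd (x + s * d - x) (z - x) = d := by
      have h1 : Int.gcd (x + s * d - x) (z - x) = Int.gcd (d : ℤ) (z - x) := by
        rcases hs with h | h <;> subst h <;> simp
      rw [h1]
      have h2 := Int.gcd_eq_left (Int.natCast_nonneg d) (hmod z hz)
      exact_mod_cast h2
    rw [hg]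
    refine ⟨?_, hdt⟩
    rcases hzt with ⟨b1, b2⟩ | ⟨b1, b2⟩
    · exact ⟨(min_le_left _ _).trans b1, b2.trans ((le_max_right _ _).trans (le_max_right _ _))⟩
    · exact ⟨((min_le_right _ _).trans (min_le_right _ _)).trans b1, b2.trans (le_max_left _ _)⟩
  rcases le_total x t with hxt | hxt
  · rcases le_max_iff.1 ht2 with h | h
    · exact key u hu (Or.inl ⟨hxt, h⟩)
    · rcases le_max_iff.1 h with h | h
      · exact key v hv (Or.inl ⟨hxt, h⟩)
      · exact key w hw (Or.inl ⟨hxt, h⟩)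
  · rcases min_le_iff.1 ht1 with h | h
    · exact key u hu (Or.inr ⟨h, hxt⟩)
    · rcases min_le_iff.1 h with h | h
      · exact key v hv (Or.inr ⟨h, hxt⟩)
      · exact key w hw (Or.inr ⟨h, hxt⟩)

/-- The number of points of `[N]` congruent to `x` modulo `d`. -/
theorem bad_count_mod (N : ℕ) (x : ℤ) (d : ℕ) (hd : 1 ≤ d) :
    (((Icc 1 (N : ℤ)).filter (fun w => (d : ℤ) ∣ w - x)).card : ℝ) ≤ (N : ℝ) / d + 1 := by
  have hd0 : (0 : ℤ) < d := by exact_mod_cast hd
  have h1 : (Icc 1 (N : ℤ)).filter (fun w => (d : ℤ) ∣ w - x) =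
      (Ico 1 ((N : ℤ) + 1)).filter (fun w => w ≡ x [ZMOD d]) := by
    ext w
    rw [mem_filter, mem_filter, mem_Icc, mem_Ico, Int.lt_add_one_iff]
    constructor
    · rintro ⟨a, b⟩
      exact ⟨a, (Int.modEq_iff_dvd.2 (by rwa [← dvd_neg, neg_sub] at b))⟩
    · rintro ⟨a, b⟩
      refine ⟨a, ?_⟩
      have := Int.modEq_iff_dvd.1 b
      rwa [← dvd_neg, neg_sub] at this
  have h2 := Int.Ico_filter_modEq_card 1 ((N : ℤ) + 1) (r := (d : ℤ)) hd0 x
  rw [← h1] at h2
  have h3 : (((Icc 1 (N : ℤ)).filter (fun w => (d : ℤ) ∣ w - x)).card : ℚ) ≤ (N : ℚ) / d + 1 := by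
    have h4 : ((((Icc 1 (N : ℤ)).filter (fun w => (d : ℤ) ∣ w - x)).card : ℤ) : ℚ) =
        ((max (⌈(((N : ℤ) + 1 : ℤ) - x) / ((d : ℤ) : ℚ)⌉ - ⌈((1 : ℤ) - x) / ((d : ℤ) : ℚ)⌉) 0 : ℤ) : ℚ) := by
      exact_mod_cast h2
    rw [show (((Icc 1 (N : ℤ)).filter (fun w => (d : ℤ) ∣ w - x)).card : ℚ) =
      ((((Icc 1 (N : ℤ)).filter (fun w => (d : ℤ) ∣ w - x)).card : ℤ) : ℚ) by push_cast; rfl, h4]
    have hdq : (0 : ℚ) < d := by exact_mod_cast hd
    push_cast
    apply max_le
    · have c1 := Int.ceil_lt_add_one ((((N : ℚ) + 1) - x) / (d : ℚ))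
      have c2 := Int.le_ceil ((1 - (x : ℚ)) / (d : ℚ))
      have c3 : (((N : ℚ) + 1) - x) / (d : ℚ) - (1 - (x : ℚ)) / (d : ℚ) = N / d := by
        rw [← sub_div]; congr 1; ring
      linarith
    · positivity
  clear h1 h2
  generalize ((Icc 1 (N : ℤ)).filter (fun w => (d : ℤ) ∣ w - x)).card = c at h3 ⊢
  have h5 : (((c : ℚ) : ℚ) : ℝ) ≤ (((N : ℚ) / d + 1 : ℚ) : ℝ) := by exact_mod_cast h3
  push_cast at h5
  exact h5

/-- The pairs `(d, w)` with `d ∣ w - x`. -/
theorem bad_count_pairs (N : ℕ) (hN : 1 ≤ N) (x : ℤ) :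
    ((((Icc 1 N) ×ˢ (Icc 1 (N : ℤ))).filter
      (fun p : ℕ × ℤ => (p.1 : ℤ) ∣ p.2 - x)).card : ℝ) ≤ 2 * N * lg N := by
  have h1 : ((Icc 1 N) ×ˢ (Icc 1 (N : ℤ))).filter (fun p : ℕ × ℤ => (p.1 : ℤ) ∣ p.2 - x) =
      (Icc 1 N).biUnion (fun d => ((Icc 1 (N : ℤ)).filter (fun w => (d : ℤ) ∣ w - x)).image
        (fun w => (d, w))) := by
    ext ⟨d, w⟩
    simp only [mem_filter, mem_product, mem_biUnion, mem_image, Prod.mk.injEq]
    constructor
    · rintro ⟨⟨a, b⟩, c⟩
      exact ⟨d, a, w, ⟨b, c⟩, rfl, rfl⟩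
    · rintro ⟨d', a, w', ⟨b, c⟩, rfl, rfl⟩
      exact ⟨⟨a, b⟩, c⟩
  rw [h1]
  have h2 : (((Icc 1 N).biUnion (fun d => ((Icc 1 (N : ℤ)).filter
      (fun w => (d : ℤ) ∣ w - x)).image (fun w => (d, w)))).card : ℝ) ≤
      ∑ d ∈ Icc 1 N, ((N : ℝ) / d + 1) := by
    have hb := card_biUnion_le (s := Icc 1 N) (t := fun d => ((Icc 1 (N : ℤ)).filter
      (fun w => (d : ℤ) ∣ w - x)).image (fun w => (d, w)))
    have hb2 : (((Icc 1 N).biUnion (fun d => ((Icc 1 (N : ℤ)).filter
      (fun w => (d : ℤ) ∣ w - x)).image (fun w => (d, w)))).card : ℝ) ≤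
      ∑ d ∈ Icc 1 N, ((((Icc 1 (N : ℤ)).filter
      (fun w => (d : ℤ) ∣ w - x)).image (fun w => (d, w))).card : ℝ) := by exact_mod_cast hb
    refine hb2.trans (sum_le_sum fun d hd => ?_)
    have hc : ((((Icc 1 (N : ℤ)).filter
      (fun w => (d : ℤ) ∣ w - x)).image (fun w => (d, w))).card : ℝ) ≤
      (((Icc 1 (N : ℤ)).filter (fun w => (d : ℤ) ∣ w - x)).card : ℝ) := by
      exact_mod_cast card_image_le
    exact hc.trans (bad_count_mod N x d (mem_Icc.1 hd).1)
  refine h2.trans ?_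
  rw [sum_add_distrib, sum_const, Nat.card_Icc, Nat.add_sub_cancel, nsmul_eq_mul, mul_one]
  have h3 : ∑ d ∈ Icc 1 N, (N : ℝ) / d = N * ((harmonic N : ℚ) : ℝ) := by
    rw [harmonic_eq_sum_Icc, Rat.cast_sum, mul_sum]
    refine sum_congr rfl fun d _ => ?_
    push_cast
    rw [div_eq_mul_inv]
  have h4 : ((harmonic N : ℚ) : ℝ) ≤ lg N := harmonic_le_one_add_log N
  have h5 := one_le_lg hN
  have hN0 : (0 : ℝ) ≤ N := Nat.cast_nonneg N
  rw [h3]
  nlinarith [mul_le_mul_of_nonneg_left h4 hN0, mul_le_mul_of_nonneg_left h5 hN0]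

/-- The count for one side. -/
theorem bad_side (h : SDiv) (N : ℕ) (F : Finset (Finset ℤ)) (x : ℤ) (s : ℤ)
    (hs : s = 1 ∨ s = -1) (hN : 1 ≤ N) (hF : Fam N F) (hx : x ∈ Icc 1 (N : ℤ)) :
    (((NA F x).filter (fun A => ∃ n : ℕ, 0 < n ∧ x + s * n ∈ A ∧ BadAt A x (x + s * n))).card : ℝ)
      ≤ 3 * N * lg N ^ 3 := by
  set G := (NA F x).filter (fun A => ∃ n : ℕ, 0 < n ∧ x + s * n ∈ A ∧ BadAt A x (x + s * n))
    with hG
  -- the relations
  let RA : Finset ℤ → ℕ × ℕ × ℕ → Prop := fun A t =>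
    x + s * t.2.1 ∈ A ∧ x + s * t.2.2 ∈ A ∧ ¬ hull x (x + s * t.2.1) (x + s * t.2.2) ⊆ A
  let RB : Finset ℤ → ℕ × ℤ → Prop := fun A p =>
    x + s * p.1 ∈ A ∧ p.2 ∈ A ∧ ¬ hull x (x + s * p.1) p.2 ⊆ A
  let TA := ((Icc 1 N) ×ˢ ((Icc 1 N) ×ˢ (Icc 1 N))).filter
    (fun t : ℕ × ℕ × ℕ => t.2.1 ∣ t.1 ∧ t.2.2 ∣ t.1)
  let TB := ((Icc 1 N) ×ˢ (Icc 1 (N : ℤ))).filter (fun p : ℕ × ℤ => (p.1 : ℤ) ∣ p.2 - x)
  have hGF : ∀ A ∈ G, A ∈ F ∧ x ∈ A ∧ ¬ APc A := by
    intro A hA
    have := (mem_filter.1 hA).1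
    rw [NA, mem_filter] at this
    exact ⟨this.1, this.2.1, this.2.2⟩
  have hbound : ∀ A ∈ G, ∀ m : ℕ, x + s * m ∈ A → m ≤ N := by
    intro A hA m hm
    have h1 := mem_Icc.1 (hF.sub A (hGF A hA).1 hm)
    have h2 := mem_Icc.1 hx
    rcases hs with h | h <;> subst h
    · have : (m : ℤ) ≤ N := by linarith
      exact_mod_cast this
    · have : (m : ℤ) ≤ N := by linarith
      exact_mod_cast this
  have hsplit : ∀ A ∈ G, (∃ t ∈ TA, RA A t) ∨ (∃ p ∈ TB, RB A p) := by
    intro A hA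
    obtain ⟨hAF, hxA, hnap⟩ := hGF A hA
    obtain ⟨n, hn, hyA, hbad⟩ := (mem_filter.1 hA).2
    obtain ⟨d, hd0, hdn, hdA, hmin⟩ := bad_neighbour hs hxA hyA n hn rfl hbad
    have hnN := hbound A hA n hyA
    have hdN := hbound A hA d hdA
    by_cases hcase : ∀ w ∈ A, (d : ℤ) ∣ w - x
    · right
      by_contra hcon
      push Not at hcon
      apply hnap
      refine bad_apc hs hxA d hcase fun w hw => ?_
      by_contra hnot
      refine hcon (d, w) ?_ ⟨hdA, hw, hnot⟩
      rw [mem_filter, mem_product, mem_Icc]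
      exact ⟨⟨⟨hd0, hdN⟩, hF.sub A hAF hw⟩, hcase w hw⟩
    · left
      push Not at hcase
      obtain ⟨w, hw, hdw⟩ := hcase
      -- `g = gcd (n, w - x)`
      set g : ℕ := Int.gcd (x + s * n - x) (w - x) with hg
      have hgn : g ∣ n := by
        have : (g : ℤ) ∣ (x + s * n - x) := Int.gcd_dvd_left _ _
        rw [add_sub_cancel_left] at this
        rcases hs with h | h <;> subst h
        · rw [one_mul] at this
          exact_mod_cast this
        · rw [neg_one_mul, dvd_neg] at this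
          exact_mod_cast this
      have hg0 : 0 < g := Nat.pos_of_dvd_of_pos hgn hn
      have hgle : g ≤ n := Nat.le_of_dvd hn hgn
      have hdg : ¬ d ∣ g := by
        intro hc
        apply hdw
        have h1 : (g : ℤ) ∣ w - x := Int.gcd_dvd_right _ _
        exact (Int.natCast_dvd_natCast.2 hc).trans h1
      have hgA : x + s * g ∈ A := by
        apply hbad w hw
        rw [bad_mem_hull, ← hg]
        have a1 : (g : ℤ) ≤ n := by exact_mod_cast hgle
        have a3 : (0 : ℤ) < g := by exact_mod_cast hg0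
        refine ⟨?_, ?_⟩
        · rcases hs with h | h <;> subst h
          · constructor
            · exact (min_le_left _ _).trans (by linarith)
            · exact le_trans (by linarith) ((le_max_left _ _).trans (le_max_right _ _))
          · constructor
            · exact ((min_le_right _ _).trans (min_le_left _ _)).trans (by linarith)
            · exact le_trans (by linarith) (le_max_left _ _)
        · rw [add_sub_cancel_left]
          exact Dvd.intro_left _ rfl
      refine ⟨(n, d, g), ?_, hdA, hgA, ?_⟩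
      · rw [mem_filter, mem_product, mem_product, mem_Icc, mem_Icc, mem_Icc]
        exact ⟨⟨⟨hn, hnN⟩, ⟨hd0, hdN⟩, ⟨hg0, hgle.trans hnN⟩⟩, hdn, hgn⟩
      · -- `x + s gcd(d, g)` is in the hull but not in `A`
        intro hsub
        have he0 : 0 < Nat.gcd d g := Nat.gcd_pos_of_pos_left _ hd0
        have hed : Nat.gcd d g ≤ d := Nat.gcd_le_left _ hd0
        have hmem : x + s * (Nat.gcd d g : ℕ) ∈ hull x (x + s * d) (x + s * g) := by
          rw [bad_mem_hull]
          have h1 : Int.gcd (x + s * d - x) (x + s * g - x) = Nat.gcd d g := by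
            rcases hs with h | h <;> subst h <;> simp
          rw [h1]
          have a1 : ((Nat.gcd d g : ℕ) : ℤ) ≤ d := by exact_mod_cast hed
          have a3 : (0 : ℤ) < (Nat.gcd d g : ℕ) := by exact_mod_cast he0
          refine ⟨?_, ?_⟩
          · rcases hs with h | h <;> subst h
            · constructor
              · exact (min_le_left _ _).trans (by linarith)
              · exact le_trans (by linarith) ((le_max_left _ _).trans (le_max_right _ _))
            · constructor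
              · exact ((min_le_right _ _).trans (min_le_left _ _)).trans (by linarith)
              · exact le_trans (by linarith) (le_max_left _ _)
          · rw [add_sub_cancel_left]
            exact Dvd.intro_left _ rfl
        have h2 := hmin _ he0 (hsub hmem)
        have h3 : Nat.gcd d g = d := le_antisymm hed h2
        apply hdg
        rw [← h3]
        exact Nat.gcd_dvd_right d g
  have hcov : G ⊆ (G.filter (fun A => ∃ t ∈ TA, RA A t)) ∪ (G.filter (fun A => ∃ p ∈ TB, RB A p)) := by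
    intro A hA
    rcases hsplit A hA with h | h
    · exact mem_union.2 (Or.inl (mem_filter.2 ⟨hA, h⟩))
    · exact mem_union.2 (Or.inr (mem_filter.2 ⟨hA, h⟩))
  have hcA : (G.filter (fun A => ∃ t ∈ TA, RA A t)).card ≤ TA.card := by
    refine Finset.card_le_card_of_forall_subsingleton RA (fun A hA => (mem_filter.1 hA).2) ?_
    rintro t _ A hA B hB
    have hA1 := hGF A (mem_filter.1 hA.1).1
    have hB1 := hGF B (mem_filter.1 hB.1).1
    exact bad_own_unique hF hA1.1 hB1.1 hA1.2.1 hA.2.1 hA.2.2.1 hA.2.2.2 hB1.2.1 hB.2.1 hB.2.2.1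
  have hcB : (G.filter (fun A => ∃ p ∈ TB, RB A p)).card ≤ TB.card := by
    refine Finset.card_le_card_of_forall_subsingleton RB (fun A hA => (mem_filter.1 hA).2) ?_
    rintro t _ A hA B hB
    have hA1 := hGF A (mem_filter.1 hA.1).1
    have hB1 := hGF B (mem_filter.1 hB.1).1
    exact bad_own_unique hF hA1.1 hB1.1 hA1.2.1 hA.2.1 hA.2.2.1 hA.2.2.2 hB1.2.1 hB.2.1 hB.2.2.1
  have hTA : (TA.card : ℝ) ≤ N * lg N ^ 3 := h N hN
  have hTB : (TB.card : ℝ) ≤ 2 * N * lg N := bad_count_pairs N hN x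
  have hG1 : (G.card : ℝ) ≤ (TA.card : ℝ) + TB.card := by
    have := (card_le_card hcov).trans (card_union_le _ _)
    have h2 := this.trans (add_le_add hcA hcB)
    exact_mod_cast h2
  have hl := one_le_lg hN
  have hN0 : (0 : ℝ) ≤ N := Nat.cast_nonneg N
  have hl3 : lg N ≤ lg N ^ 3 := by nlinarith [sq_nonneg (lg N - 1)]
  nlinarith [mul_le_mul_of_nonneg_left hl3 hN0]

theorem thmBad (h : SDiv) : SBad := by
  intro N F x hN hF hx
  have h1 := bad_side h N F x 1 (Or.inl rfl) hN hF hx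
  have h2 := bad_side h N F x (-1) (Or.inr rfl) hN hF hx
  have hcov : (NA F x).filter (fun A => ∃ y ∈ A, y ≠ x ∧ BadAt A x y) ⊆
      ((NA F x).filter (fun A => ∃ n : ℕ, 0 < n ∧ x + 1 * n ∈ A ∧ BadAt A x (x + 1 * n))) ∪
      ((NA F x).filter (fun A => ∃ n : ℕ, 0 < n ∧ x + -1 * n ∈ A ∧ BadAt A x (x + -1 * n))) := by
    intro A hA
    obtain ⟨hA1, y, hy, hyx, hb⟩ := mem_filter.1 hA
    rw [mem_union, mem_filter, mem_filter]
    rcases lt_or_gt_of_ne hyx with hlt | hgt
    · right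
      refine ⟨hA1, (x - y).toNat, ?_, ?_⟩
      · omega
      · have e : x + -1 * (((x - y).toNat : ℕ) : ℤ) = y := by
          rw [Int.toNat_of_nonneg (by linarith)]; ring
        rw [e]
        exact ⟨hy, hb⟩
    · left
      refine ⟨hA1, (y - x).toNat, ?_, ?_⟩
      · omega
      · have e : x + 1 * (((y - x).toNat : ℕ) : ℤ) = y := by
          rw [Int.toNat_of_nonneg (by linarith)]; ring
        rw [e]
        exact ⟨hy, hb⟩
  have h3 := (card_le_card hcov).trans (card_union_le _ _)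
  have h4 : (((NA F x).filter (fun A => ∃ y ∈ A, y ≠ x ∧ BadAt A x y)).card : ℝ) ≤
      (((NA F x).filter (fun A => ∃ n : ℕ, 0 < n ∧ x + 1 * n ∈ A ∧
        BadAt A x (x + 1 * n))).card : ℝ) +
      ((NA F x).filter (fun A => ∃ n : ℕ, 0 < n ∧ x + -1 * n ∈ A ∧
        BadAt A x (x + -1 * n))).card := by exact_mod_cast h3
  linarith

end Pool.Agent.Work.MP_1d0aa8_co

end

section

/-!
# MP_1d0aa8_co, item CASES
-/

set_option autoImplicit false

namespace Pool.Agent.Work.MP_1d0aa8_co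

open Finset
open scoped Classical

namespace ItCASES

theorem lg_small (ε : ℝ) (hε : 0 < ε) : ∃ N0 : ℕ, ∀ N : ℕ, N0 ≤ N → lg N ^ 3 ≤ ε * Real.sqrt N := by
  have h1 : (fun x : ℝ => Real.log x ^ 3) =o[Filter.atTop] (fun x : ℝ => x) :=
    Real.isLittleO_pow_log_id_atTop (n := 3)
  have h2 := h1.def (show 0 < ε / 27 by positivity)
  rw [Filter.eventually_atTop] at h2
  obtain ⟨y0, hy0⟩ := h2
  refine ⟨⌈(max y0 3) ^ 2⌉₊, fun N hN => ?_⟩
  have hN' : (max y0 3) ^ 2 ≤ (N : ℝ) := (Nat.le_ceil _).trans (by exact_mod_cast hN)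
  have hpos : (0 : ℝ) ≤ max y0 3 := le_trans (by norm_num) (le_max_right _ _)
  have hs : max y0 3 ≤ Real.sqrt N := by
    rw [← Real.sqrt_sq hpos]; exact Real.sqrt_le_sqrt hN'
  have hs0 : y0 ≤ Real.sqrt N := (le_max_left _ _).trans hs
  have hs3 : 3 ≤ Real.sqrt N := (le_max_right _ _).trans hs
  have h3 := hy0 (Real.sqrt N) hs0
  have hlog : 1 ≤ Real.log (Real.sqrt N) := by
    rw [← Real.log_exp 1]
    exact Real.log_le_log (Real.exp_pos 1) (Real.exp_one_lt_d9.le.trans (by linarith))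
  have hNpos : (0 : ℝ) ≤ N := Nat.cast_nonneg N
  have hlg : lg N = 1 + 2 * Real.log (Real.sqrt N) := by
    unfold lg
    rw [Real.log_sqrt hNpos]; ring
  have h4 : lg N ≤ 3 * Real.log (Real.sqrt N) := by rw [hlg]; linarith
  have h5 : 0 ≤ lg N := by rw [hlg]; linarith
  have h6 : lg N ^ 3 ≤ (3 * Real.log (Real.sqrt N)) ^ 3 := pow_le_pow_left₀ h5 h4 3
  rw [Real.norm_of_nonneg (by positivity), Real.norm_of_nonneg (by positivity)] at h3
  calc lg N ^ 3 ≤ (3 * Real.log (Real.sqrt N)) ^ 3 := h6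
    _ = 27 * Real.log (Real.sqrt N) ^ 3 := by ring
    _ ≤ 27 * (ε / 27 * Real.sqrt N) := by linarith
    _ = ε * Real.sqrt N := by ring

theorem bad_of_exc {A : Finset ℤ} {x y : ℤ} (h : (Exc A x y).card < 1) : BadAt A x y := by
  have h1 : Exc A x y = ∅ := by
    rw [← card_eq_zero]; omega
  intro w hw
  by_contra hn
  have : w ∈ Exc A x y := by rw [Exc, mem_filter]; exact ⟨hw, hn⟩
  rw [h1] at this
  exact absurd this (notMem_empty w)

end ItCASES

open ItCASES in
theorem thmCaseS (h1 : SLarge) (h2 : SAPtot) (h3 : SExcCount) (h4 : SBad) (h5 : STypeAB)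
    (h6 : SQuasi) : SCaseS := by
  intro C hC
  have hC0 : 0 < C := by linarith
  obtain ⟨N1, hN1⟩ := h2
  set η : ℝ := 0.01 / C with hη
  have hη0 : 0 < η := by positivity
  set θ : ℕ := ⌈100 * C ^ 2⌉₊ with hθ
  have hθC : 100 * C ^ 2 ≤ (θ : ℝ) := Nat.le_ceil _
  have hθ1 : 1 ≤ θ := by
    have : (1 : ℝ) ≤ θ := by nlinarith
    exact_mod_cast this
  obtain ⟨K, N2, hQ⟩ := h6 η C θ hη0 hC0 hθ1
  obtain ⟨N3, hN3⟩ := lg_small (0.001 / C) (by positivity)
  obtain ⟨N4, hN4⟩ := lg_small (0.01 / (|K| + 1)) (by positivity)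
  refine ⟨N1 + N2 + N3 + N4 + 100, fun N hN F hF hcard => ?_⟩
  by_contra hcon
  push Not at hcon
  have hN100 : (100 : ℝ) ≤ N := by
    have : 100 ≤ N := by omega
    exact_mod_cast this
  have hN1' : 1 ≤ N := by omega
  have hNpos : (0 : ℝ) < N := by linarith
  set s : ℝ := Real.sqrt N with hs
  have hss : s * s = N := Real.mul_self_sqrt hNpos.le
  have hs1 : 1 ≤ s := by
    rw [hs, ← Real.sqrt_one]; exact Real.sqrt_le_sqrt (by linarith)
  have hs0 : 0 < s := by linarith
  -- small members avoiding a point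
  choose! g hgF hgx hgc using hcon
  -- smallest member
  have hFne : F.Nonempty := by
    rw [← card_pos]
    have : (0 : ℝ) < F.card := by nlinarith
    exact_mod_cast this
  obtain ⟨B, hB, hBmin⟩ := exists_min_image F card hFne
  have h1mem : (1 : ℤ) ∈ Icc 1 (N : ℤ) := by
    rw [mem_Icc]; exact ⟨le_rfl, by exact_mod_cast hN1'⟩
  have hBc : (B.card : ℝ) ≤ C * s := by
    have h := hBmin (g 1) (hgF 1 h1mem)
    have h' : (B.card : ℝ) ≤ ((g 1).card : ℝ) := by exact_mod_cast h
    exact h'.trans (hgc 1 h1mem)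
  have hBsub : B ⊆ Icc 1 (N : ℤ) := hF.sub B hB
  -- non-AP members
  have hsplit : (F.filter (fun A => APc A)).card + (F.filter (fun A => ¬ APc A)).card = F.card :=
    card_filter_add_card_filter_not _
  have hsplitR : ((F.filter (fun A => APc A)).card : ℝ) + ((F.filter (fun A => ¬ APc A)).card : ℝ)
      = F.card := by exact_mod_cast hsplit
  have hAP := hN1 N (by omega) F hF
  have hNAcard : 0.078 * (N : ℝ) ^ 2 ≤ ((F.filter (fun A => ¬ APc A)).card : ℝ) := by linarith
  -- large members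
  have hCs : 4 ≤ C * s := by nlinarith
  have hL := h1 N F (C * s) hF hCs
  have hLarge : ((F.filter (fun A => ¬ APc A ∧ C * s ≤ (A.card : ℝ))).card : ℝ)
      ≤ 0.02 * (N : ℝ) ^ 2 := by
    have e1 : (C * s) ^ 2 = C ^ 2 * N := by rw [← hss]; ring
    rw [e1] at hL
    have e2 : (400 : ℝ) ≤ C ^ 2 := by nlinarith
    set q : ℝ := ((F.filter (fun A => ¬ APc A ∧ C * s ≤ (A.card : ℝ))).card : ℝ) with hq
    have hq0 : 0 ≤ q := Nat.cast_nonneg _
    have e3 : q * (400 * N) ≤ q * (C ^ 2 * N) :=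
      mul_le_mul_of_nonneg_left (mul_le_mul_of_nonneg_right e2 hNpos.le) hq0
    have e4 : q * (400 * N) ≤ 8 * (N : ℝ) ^ 3 := e3.trans hL
    have e5 : (N : ℝ) * (400 * q) ≤ (N : ℝ) * (8 * (N : ℝ) ^ 2) := by
      calc (N : ℝ) * (400 * q) = q * (400 * N) := by ring
        _ ≤ 8 * (N : ℝ) ^ 3 := e4
        _ = (N : ℝ) * (8 * (N : ℝ) ^ 2) := by ring
    have e6 := le_of_mul_le_mul_left e5 hNpos
    linarith
  -- the rest
  set R : Finset (Finset ℤ) := F.filter (fun A => ¬ APc A ∧ (A.card : ℝ) < C * s) with hR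
  have hcov : (F.filter (fun A => ¬ APc A)) ⊆
      (F.filter (fun A => ¬ APc A ∧ C * s ≤ (A.card : ℝ))) ∪ R := by
    intro A hA
    rw [mem_filter] at hA
    rw [mem_union, mem_filter, hR, mem_filter]
    rcases le_or_gt (C * s) (A.card : ℝ) with h | h
    · exact Or.inl ⟨hA.1, hA.2, h⟩
    · exact Or.inr ⟨hA.1, hA.2, h⟩
  have hRcard : 0.058 * (N : ℝ) ^ 2 ≤ (R.card : ℝ) := by
    have e1 := (card_le_card hcov).trans (card_union_le _ _)
    have e2 : ((F.filter (fun A => ¬ APc A)).card : ℝ) ≤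
        ((F.filter (fun A => ¬ APc A ∧ C * s ≤ (A.card : ℝ))).card : ℝ) + (R.card : ℝ) := by
      exact_mod_cast e1
    linarith
  -- every member of R other than B has a pair
  have hpair : ∀ A ∈ R, A ≠ B → ∃ x ∈ B, x ∈ A ∧ ∃ y ∈ g x, y ∈ A ∧ y ≠ x := by
    intro A hA hne
    rw [hR, mem_filter] at hA
    obtain ⟨x, hx⟩ := hF.meet hA.1 hB hne
    rw [mem_inter] at hx
    have hxI : x ∈ Icc 1 (N : ℤ) := hBsub hx.2
    have hne' : A ≠ g x := by
      intro h; exact hgx x hxI (h ▸ hx.1)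
    obtain ⟨y, hy⟩ := hF.meet hA.1 (hgF x hxI) hne'
    rw [mem_inter] at hy
    refine ⟨x, hx.2, hx.1, y, hy.2, hy.1, ?_⟩
    intro h; exact hgx x hxI (h ▸ hy.2)
  -- counting the exceptional part for a parameter t
  have hEXC : ∀ t : ℕ, 1 ≤ t →
      (((B.biUnion fun x => (g x).biUnion fun y => if x = y then ∅ else
        F.filter (fun A => x ∈ A ∧ y ∈ A ∧ t ≤ (Exc A x y).card)).card : ℕ) : ℝ)
        ≤ (B.card : ℝ) * (C * s * (N / t)) := by
    intro t ht
    have ht' : (0 : ℝ) < t := by exact_mod_cast ht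
    have step1 : ∀ x ∈ B, ((((g x).biUnion fun y => if x = y then ∅ else
        F.filter (fun A => x ∈ A ∧ y ∈ A ∧ t ≤ (Exc A x y).card)).card : ℕ) : ℝ)
        ≤ C * s * (N / t) := by
      intro x hx
      have hxI := hBsub hx
      have b1 : ((((g x).biUnion fun y => if x = y then ∅ else
        F.filter (fun A => x ∈ A ∧ y ∈ A ∧ t ≤ (Exc A x y).card)).card : ℕ) : ℝ) ≤
          ∑ y ∈ g x, (((if x = y then ∅ else
            F.filter (fun A => x ∈ A ∧ y ∈ A ∧ t ≤ (Exc A x y).card)) : Finset _).card : ℝ) := by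
        exact_mod_cast card_biUnion_le
      have b2 : ∑ y ∈ g x, (((if x = y then ∅ else
            F.filter (fun A => x ∈ A ∧ y ∈ A ∧ t ≤ (Exc A x y).card)) : Finset _).card : ℝ) ≤
          ∑ y ∈ g x, (N : ℝ) / t := by
        refine sum_le_sum fun y _ => ?_
        by_cases hxy : x = y
        · rw [if_pos hxy, card_empty]; push_cast; positivity
        · rw [if_neg hxy, le_div_iff₀ ht']
          exact_mod_cast h3 N F x y t hF hxy
      rw [sum_const, nsmul_eq_mul] at b2
      refine b1.trans (b2.trans ?_)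
      exact mul_le_mul_of_nonneg_right (hgc x hxI) (by positivity)
    have c1 : (((B.biUnion fun x => (g x).biUnion fun y => if x = y then ∅ else
        F.filter (fun A => x ∈ A ∧ y ∈ A ∧ t ≤ (Exc A x y).card)).card : ℕ) : ℝ) ≤
        ∑ x ∈ B, ((((g x).biUnion fun y => if x = y then ∅ else
        F.filter (fun A => x ∈ A ∧ y ∈ A ∧ t ≤ (Exc A x y).card)).card : ℕ) : ℝ) := by
      exact_mod_cast card_biUnion_le
    refine c1.trans ((sum_le_sum step1).trans ?_)
    rw [sum_const, nsmul_eq_mul]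
  have hlg3 : C * s * (6 * N * lg N ^ 3) ≤ 0.006 * (N : ℝ) ^ 2 := by
    have e1 := hN3 N (by omega)
    calc C * s * (6 * N * lg N ^ 3) ≤ C * s * (6 * N * (0.001 / C * s)) := by gcongr
      _ = 0.006 * N * (s * s) := by field_simp; ring
      _ = 0.006 * (N : ℝ) ^ 2 := by rw [hss]; ring
  have hone : (1 : ℝ) ≤ 0.0001 * (N : ℝ) ^ 2 := by nlinarith
  have hN2pos : (0 : ℝ) < (N : ℝ) ^ 2 := by positivity
  rcases le_or_gt (B.card : ℝ) (η * s) with hcase | hcase
  · -- case 1
    have hsub : R ⊆ {B} ∪ ((B.biUnion fun x => (g x).biUnion fun y => if x = y then ∅ else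
        F.filter (fun A => x ∈ A ∧ y ∈ A ∧ 1 ≤ (Exc A x y).card)) ∪
        (B.biUnion fun x => (NA F x).filter (fun A => ∃ y ∈ A, y ≠ x ∧ BadAt A x y))) := by
      intro A hA
      rw [mem_union, mem_union, mem_singleton]
      by_cases hAB : A = B
      · exact Or.inl hAB
      right
      obtain ⟨x, hxB, hxA, y, hyg, hyA, hyx⟩ := hpair A hA hAB
      rw [hR, mem_filter] at hA
      rcases Nat.lt_or_ge (Exc A x y).card 1 with he | he
      · right
        rw [mem_biUnion]
        refine ⟨x, hxB, ?_⟩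
        rw [mem_filter, NA, mem_filter]
        exact ⟨⟨hA.1, hxA, hA.2.1⟩, y, hyA, hyx, bad_of_exc he⟩
      · left
        rw [mem_biUnion]
        refine ⟨x, hxB, ?_⟩
        rw [mem_biUnion]
        refine ⟨y, hyg, ?_⟩
        rw [if_neg (Ne.symm hyx), mem_filter]
        exact ⟨hA.1, hxA, hyA, he⟩
    have hc1 := (card_le_card hsub).trans ((card_union_le _ _).trans
      (Nat.add_le_add_left (card_union_le _ _) _))
    rw [card_singleton] at hc1
    have hc2 : (R.card : ℝ) ≤ 1 + ((((B.biUnion fun x => (g x).biUnion fun y => if x = y then ∅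
        else F.filter (fun A => x ∈ A ∧ y ∈ A ∧ 1 ≤ (Exc A x y).card)).card : ℕ) : ℝ) +
        (((B.biUnion fun x => (NA F x).filter (fun A => ∃ y ∈ A, y ≠ x ∧ BadAt A x y)).card : ℕ)
          : ℝ)) := by exact_mod_cast hc1
    have hc3 := hEXC 1 le_rfl
    have hc4 : (B.card : ℝ) * (C * s * (N / ((1 : ℕ) : ℝ))) ≤ 0.01 * (N : ℝ) ^ 2 := by
      calc (B.card : ℝ) * (C * s * (N / ((1 : ℕ) : ℝ))) ≤ (η * s) * (C * s * (N / ((1 : ℕ) : ℝ))) := by
            gcongr
        _ = (η * C) * (s * s) * N := by push_cast; ring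
        _ = 0.01 * (N : ℝ) ^ 2 := by
          rw [hss, hη]; field_simp
    have hc5 : (((B.biUnion fun x => (NA F x).filter
        (fun A => ∃ y ∈ A, y ≠ x ∧ BadAt A x y)).card : ℕ) : ℝ) ≤
        (B.card : ℝ) * (6 * N * lg N ^ 3) := by
      have c1 : (((B.biUnion fun x => (NA F x).filter
        (fun A => ∃ y ∈ A, y ≠ x ∧ BadAt A x y)).card : ℕ) : ℝ) ≤
          ∑ x ∈ B, (((NA F x).filter (fun A => ∃ y ∈ A, y ≠ x ∧ BadAt A x y)).card : ℝ) := by
        exact_mod_cast card_biUnion_le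
      refine c1.trans ((sum_le_sum fun x hx => h4 N F x hN1' hF (hBsub hx)).trans ?_)
      rw [sum_const, nsmul_eq_mul]
    have hlgnn : 0 ≤ 6 * (N : ℝ) * lg N ^ 3 := by
      have := lg_one_le hN1'
      positivity
    have hc6 : (B.card : ℝ) * (6 * N * lg N ^ 3) ≤ 0.006 * (N : ℝ) ^ 2 :=
      (mul_le_mul_of_nonneg_right hBc hlgnn).trans hlg3
    linarith
  · -- case 2
    have hsub : R ⊆ {B} ∪ ((B.biUnion fun x => (g x).biUnion fun y => if x = y then ∅ else
        F.filter (fun A => x ∈ A ∧ y ∈ A ∧ θ ≤ (Exc A x y).card)) ∪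
        ((B.biUnion fun x => F.filter (fun A => x ∈ A ∧ ¬ APc A ∧ ¬ Quasi θ A ∧
          ∃ y ∈ A, y ≠ x ∧ (Exc A x y).card < θ)) ∪
        (F.filter (fun A => Quasi θ A ∧ η * s ≤ (A.card : ℝ) ∧ (A.card : ℝ) ≤ C * s)))) := by
      intro A hA
      rw [mem_union, mem_union, mem_union, mem_singleton]
      by_cases hAB : A = B
      · exact Or.inl hAB
      right
      obtain ⟨x, hxB, hxA, y, hyg, hyA, hyx⟩ := hpair A hA hAB
      rw [hR, mem_filter] at hA
      rcases Nat.lt_or_ge (Exc A x y).card θ with he | he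
      · right
        by_cases hq : Quasi θ A
        · right
          rw [mem_filter]
          refine ⟨hA.1, hq, ?_, hA.2.2.le⟩
          have := hBmin A hA.1
          have h' : (B.card : ℝ) ≤ (A.card : ℝ) := by exact_mod_cast this
          exact hcase.le.trans h'
        · left
          rw [mem_biUnion]
          refine ⟨x, hxB, ?_⟩
          rw [mem_filter]
          exact ⟨hA.1, hxA, hA.2.1, hq, y, hyA, hyx, he⟩
      · left
        rw [mem_biUnion]
        refine ⟨x, hxB, ?_⟩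
        rw [mem_biUnion]
        refine ⟨y, hyg, ?_⟩
        rw [if_neg (Ne.symm hyx), mem_filter]
        exact ⟨hA.1, hxA, hyA, he⟩
    have hc1 := (card_le_card hsub).trans ((card_union_le _ _).trans
      (Nat.add_le_add_left ((card_union_le _ _).trans
        (Nat.add_le_add_left (card_union_le _ _) _)) _))
    rw [card_singleton] at hc1
    have hc2 : (R.card : ℝ) ≤ 1 + ((((B.biUnion fun x => (g x).biUnion fun y => if x = y then ∅
        else F.filter (fun A => x ∈ A ∧ y ∈ A ∧ θ ≤ (Exc A x y).card)).card : ℕ) : ℝ) +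
        ((((B.biUnion fun x => F.filter (fun A => x ∈ A ∧ ¬ APc A ∧ ¬ Quasi θ A ∧
          ∃ y ∈ A, y ≠ x ∧ (Exc A x y).card < θ)).card : ℕ) : ℝ) +
        (((F.filter (fun A => Quasi θ A ∧ η * s ≤ (A.card : ℝ) ∧ (A.card : ℝ) ≤ C * s)).card : ℕ)
          : ℝ))) := by exact_mod_cast hc1
    have hc3 := hEXC θ hθ1
    have hθpos : (0 : ℝ) < θ := by exact_mod_cast hθ1
    have hc4 : (B.card : ℝ) * (C * s * (N / (θ : ℝ))) ≤ 0.01 * (N : ℝ) ^ 2 := by
      calc (B.card : ℝ) * (C * s * (N / (θ : ℝ))) ≤ (C * s) * (C * s * (N / (θ : ℝ))) := by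
            gcongr
        _ = C ^ 2 * (s * s) * N / θ := by ring
        _ = C ^ 2 * (N : ℝ) ^ 2 / θ := by rw [hss]; ring
        _ ≤ 0.01 * (N : ℝ) ^ 2 := by
          rw [div_le_iff₀ hθpos]
          nlinarith [mul_le_mul_of_nonneg_left hθC hN2pos.le]
    have hlgnn : 0 ≤ 6 * (N : ℝ) * lg N ^ 3 := by
      have := lg_one_le hN1'
      positivity
    have hc5 : (((B.biUnion fun x => F.filter (fun A => x ∈ A ∧ ¬ APc A ∧ ¬ Quasi θ A ∧
          ∃ y ∈ A, y ≠ x ∧ (Exc A x y).card < θ)).card : ℕ) : ℝ) ≤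
        (B.card : ℝ) * (6 * N * lg N ^ 3) := by
      have c1 : (((B.biUnion fun x => F.filter (fun A => x ∈ A ∧ ¬ APc A ∧ ¬ Quasi θ A ∧
          ∃ y ∈ A, y ≠ x ∧ (Exc A x y).card < θ)).card : ℕ) : ℝ) ≤
          ∑ x ∈ B, ((F.filter (fun A => x ∈ A ∧ ¬ APc A ∧ ¬ Quasi θ A ∧
          ∃ y ∈ A, y ≠ x ∧ (Exc A x y).card < θ)).card : ℝ) := by
        exact_mod_cast card_biUnion_le
      refine c1.trans ((sum_le_sum fun x hx => h5 N F x θ hN1' hF (hBsub hx)).trans ?_)
      rw [sum_const, nsmul_eq_mul]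
    have hc6 : (B.card : ℝ) * (6 * N * lg N ^ 3) ≤ 0.006 * (N : ℝ) ^ 2 :=
      (mul_le_mul_of_nonneg_right hBc hlgnn).trans hlg3
    have hc7 := hQ N (by omega) F hF
    have hc8 : K * N * s * lg N ≤ 0.01 * (N : ℝ) ^ 2 := by
      have hl1 := lg_one_le hN1'
      have e1 := hN4 N (by omega)
      have e2 : lg N ≤ lg N ^ 3 := by nlinarith [mul_le_mul hl1 hl1 (by norm_num) (by linarith)]
      have e3 : lg N ≤ 0.01 / (|K| + 1) * s := e2.trans e1
      have hK : K ≤ |K| + 1 := (le_abs_self K).trans (by linarith)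
      calc K * N * s * lg N ≤ (|K| + 1) * N * s * lg N := by gcongr
        _ ≤ (|K| + 1) * N * s * (0.01 / (|K| + 1) * s) := by gcongr
        _ = 0.01 * N * (s * s) := by field_simp
        _ = 0.01 * (N : ℝ) ^ 2 := by rw [hss]; ring
    linarith

end Pool.Agent.Work.MP_1d0aa8_co

end

section

/-!
# MP_1d0aa8_co, item COP: coprime pairs in a down-closed set
-/

set_option autoImplicit false

namespace Pool.Agent.Work.MP_1d0aa8_co

open Finset
open scoped Classical

namespace ItCOP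

/-- Points of `D` with both coordinates divisible by `k`. -/
noncomputable def Dk (D : Finset (ℕ × ℕ)) (k : ℕ) : Finset (ℕ × ℕ) :=
  D.filter (fun p => k ∣ p.1 ∧ k ∣ p.2)

noncomputable def ind (k : ℕ) (p : ℕ × ℕ) : ℝ := if k ∣ p.1 ∧ k ∣ p.2 then 1 else 0

theorem ind_nonneg (k : ℕ) (p : ℕ × ℕ) : 0 ≤ ind k p := by
  unfold ind; split_ifs <;> norm_num

theorem ind_le (k : ℕ) (p : ℕ × ℕ) : ind k p ≤ 1 := by
  unfold ind; split_ifs <;> norm_num

theorem ind_mul {a b : ℕ} (h : Nat.Coprime a b) (p : ℕ × ℕ) :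
    ind a p * ind b p = ind (a * b) p := by
  unfold ind
  have h0 : ∀ x : ℕ, a * b ∣ x ↔ a ∣ x ∧ b ∣ x := fun x =>
    ⟨fun hx => ⟨(Dvd.intro b rfl).trans hx, (Dvd.intro_left a rfl).trans hx⟩,
      fun hx => Nat.Coprime.mul_dvd_of_dvd_of_dvd h hx.1 hx.2⟩
  have h1 : (a * b ∣ p.1 ∧ a * b ∣ p.2) ↔ (a ∣ p.1 ∧ a ∣ p.2) ∧ (b ∣ p.1 ∧ b ∣ p.2) := by
    rw [h0, h0]
    tauto
  by_cases ha : a ∣ p.1 ∧ a ∣ p.2 <;> by_cases hb : b ∣ p.1 ∧ b ∣ p.2
  · rw [if_pos ha, if_pos hb, if_pos (h1.mpr ⟨ha, hb⟩)]; norm_num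
  · rw [if_neg hb, if_neg (fun h => hb (h1.mp h).2)]; norm_num
  · rw [if_neg ha, if_neg (fun h => ha (h1.mp h).1)]; norm_num
  · rw [if_neg ha, if_neg (fun h => ha (h1.mp h).1)]; norm_num

theorem sum_ind (D : Finset (ℕ × ℕ)) (k : ℕ) : ∑ p ∈ D, ind k p = ((Dk D k).card : ℝ) := by
  unfold ind Dk
  rw [Finset.sum_boole]

theorem inj_aux {k x y a b : ℕ} (hx : k ∣ x) (hy : k ∣ y) (ha : a < k) (hb : b < k)
    (hx1 : a ≤ x) (hy1 : b ≤ y) (h : x - a = y - b) : x = y ∧ a = b := by
  obtain ⟨u, rfl⟩ := hx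
  obtain ⟨v, rfl⟩ := hy
  have huv : u = v := by
    rcases lt_trichotomy u v with h1 | h1 | h1
    · exfalso
      have : k * (u + 1) ≤ k * v := Nat.mul_le_mul_left k h1
      rw [Nat.mul_add, Nat.mul_one] at this
      omega
    · exact h1
    · exfalso
      have : k * (v + 1) ≤ k * u := Nat.mul_le_mul_left k h1
      rw [Nat.mul_add, Nat.mul_one] at this
      omega
  subst huv
  exact ⟨rfl, by omega⟩

theorem upper (n : ℕ) (D : Finset (ℕ × ℕ)) (hD : ∀ p ∈ D, 1 ≤ p.1 ∧ p.1 ≤ n ∧ 1 ≤ p.2 ∧ p.2 ≤ n)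
    (hdown : ∀ p ∈ D, ∀ i j : ℕ, 1 ≤ i → i ≤ p.1 → 1 ≤ j → j ≤ p.2 → (i, j) ∈ D) (k : ℕ)
    (hk : 1 ≤ k) : (k : ℝ) ^ 2 * ((Dk D k).card : ℝ) ≤ (D.card : ℝ) := by
  have h : ((Dk D k) ×ˢ (range k ×ˢ range k)).card ≤ D.card := by
    refine Finset.card_le_card_of_injOn (fun t => (t.1.1 - t.2.1, t.1.2 - t.2.2)) ?_ ?_
    · rintro ⟨⟨i, j⟩, ⟨a, b⟩⟩ ht
      simp only [Finset.coe_product, Set.mem_prod, Finset.mem_coe, Dk, Finset.mem_filter,
        Finset.mem_range] at ht
      obtain ⟨⟨hij, hki, hkj⟩, ha, hb⟩ := ht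
      obtain ⟨h1, h2, h3, h4⟩ := hD _ hij
      have e1 := Nat.le_of_dvd h1 hki
      have e2 := Nat.le_of_dvd h3 hkj
      simp only at h1 h2 h3 h4
      exact hdown _ hij _ _ (show 1 ≤ i - a by omega) (show i - a ≤ i by omega)
        (show 1 ≤ j - b by omega) (show j - b ≤ j by omega)
    · rintro ⟨⟨i, j⟩, ⟨a, b⟩⟩ ht ⟨⟨i', j'⟩, ⟨a', b'⟩⟩ ht' h
      simp only [Finset.coe_product, Set.mem_prod, Finset.mem_coe, Dk, Finset.mem_filter,
        Finset.mem_range] at ht ht'
      obtain ⟨⟨hij, hki, hkj⟩, ha, hb⟩ := ht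
      obtain ⟨⟨hij', hki', hkj'⟩, ha', hb'⟩ := ht'
      obtain ⟨h1, -, h3, -⟩ := hD _ hij
      obtain ⟨h1', -, h3', -⟩ := hD _ hij'
      have e1 := Nat.le_of_dvd h1 hki
      have e2 := Nat.le_of_dvd h3 hkj
      have e1' := Nat.le_of_dvd h1' hki'
      have e2' := Nat.le_of_dvd h3' hkj'
      simp only [Prod.mk.injEq] at h
      obtain ⟨q1, q2⟩ := inj_aux hki hki' ha ha' (by omega) (by omega) h.1
      obtain ⟨q3, q4⟩ := inj_aux hkj hkj' hb hb' (by omega) (by omega) h.2
      rw [q1, q2, q3, q4]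
  rw [Finset.card_product, Finset.card_product, Finset.card_range] at h
  have h' : (((Dk D k).card * (k * k) : ℕ) : ℝ) ≤ D.card := by exact_mod_cast h
  push_cast at h'
  linarith

theorem lower (n : ℕ) (D : Finset (ℕ × ℕ)) (hD : ∀ p ∈ D, 1 ≤ p.1 ∧ p.1 ≤ n ∧ 1 ≤ p.2 ∧ p.2 ≤ n)
    (hdown : ∀ p ∈ D, ∀ i j : ℕ, 1 ≤ i → i ≤ p.1 → 1 ≤ j → j ≤ p.2 → (i, j) ∈ D) (k : ℕ)
    (hk : 1 ≤ k) : (D.card : ℝ) ≤ 2 * k * n + (k : ℝ) ^ 2 * ((Dk D k).card : ℝ) := by
  have h : D ⊆ (range k ×ˢ Icc 1 n) ∪ (Icc 1 n ×ˢ range k) ∪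
      ((Dk D k) ×ˢ (range k ×ˢ range k)).image (fun t => (t.1.1 + t.2.1, t.1.2 + t.2.2)) := by
    rintro ⟨i, j⟩ hij
    obtain ⟨h1, h2, h3, h4⟩ := hD _ hij
    simp only at h1 h2 h3 h4
    rw [Finset.mem_union, Finset.mem_union, Finset.mem_product, Finset.mem_product,
      Finset.mem_range, Finset.mem_range, Finset.mem_Icc, Finset.mem_Icc]
    by_cases hi : i < k
    · exact Or.inl (Or.inl ⟨hi, h3, h4⟩)
    by_cases hj : j < k
    · exact Or.inl (Or.inr ⟨⟨h1, h2⟩, hj⟩)
    right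
    have hk0 : 0 < k := hk
    have m1 : k * (i / k) + i % k = i := Nat.div_add_mod i k
    have m2 : k * (j / k) + j % k = j := Nat.div_add_mod j k
    have d1 : 1 ≤ i / k := Nat.div_pos (not_lt.mp hi) hk0
    have d2 : 1 ≤ j / k := Nat.div_pos (not_lt.mp hj) hk0
    have p1 : 1 ≤ k * (i / k) := Nat.mul_pos hk0 d1
    have p2 : 1 ≤ k * (j / k) := Nat.mul_pos hk0 d2
    rw [Finset.mem_image]
    refine ⟨((k * (i / k), k * (j / k)), (i % k, j % k)), ?_, ?_⟩
    · rw [Finset.mem_product, Finset.mem_product, Finset.mem_range, Finset.mem_range]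
      refine ⟨?_, Nat.mod_lt _ hk0, Nat.mod_lt _ hk0⟩
      unfold Dk
      rw [Finset.mem_filter]
      exact ⟨hdown _ hij _ _ p1 (by simp only; omega) p2 (by simp only; omega),
        Dvd.intro _ rfl, Dvd.intro _ rfl⟩
    · simp only [m1, m2]
  have h' := (Finset.card_le_card h).trans ((Finset.card_union_le _ _).trans
    (add_le_add (Finset.card_union_le _ _) Finset.card_image_le))
  rw [Finset.card_product, Finset.card_product, Finset.card_product, Finset.card_product,
    Finset.card_range, Nat.card_Icc, Nat.add_sub_cancel] at h'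
  have h2 : (D.card : ℝ) ≤ ((k * n + n * k + (Dk D k).card * (k * k) : ℕ) : ℝ) := by
    exact_mod_cast h'
  push_cast at h2
  linarith

/-- The tail of the sum of `1/k²` over `k` coprime to `210`. -/
noncomputable def TT (n : ℕ) : ℝ :=
  ∑ k ∈ (Icc 11 n).filter (fun k => Nat.Coprime k 210), (1 : ℝ) / (k : ℝ) ^ 2

theorem TT_50 : TT 50 ≤ 0.0269 := by
  have h : (∑ k ∈ (Icc 11 50).filter (fun k => Nat.Coprime k 210), (1 : ℚ) / (k : ℚ) ^ 2)
      ≤ 269 / 10000 := by
    decide +kernel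
  have h2 : ((∑ k ∈ (Icc 11 50).filter (fun k => Nat.Coprime k 210), (1 : ℚ) / (k : ℚ) ^ 2 : ℚ) : ℝ)
      ≤ ((269 / 10000 : ℚ) : ℝ) := by exact_mod_cast h
  push_cast at h2
  unfold TT
  norm_num at h2 ⊢
  convert h2

theorem TT_mono {m n : ℕ} (h : m ≤ n) : TT m ≤ TT n := by
  unfold TT
  refine Finset.sum_le_sum_of_subset_of_nonneg ?_ (fun _ _ _ => by positivity)
  exact Finset.filter_subset_filter _ (Finset.Icc_subset_Icc_right h)

theorem TT_even (m : ℕ) : TT (2 * (25 + m)) ≤ 0.0369 - 1 / (4 * ((25 : ℝ) + m)) := by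
  induction m with
  | zero =>
    have := TT_50
    norm_num at this ⊢
    linarith
  | succ m ih =>
    have e : TT (2 * (25 + (m + 1))) ≤ TT (2 * (25 + m)) + 1 / (2 * ((25 : ℝ) + m) + 1) ^ 2 := by
      have hs : (Icc 11 (2 * (25 + (m + 1)))).filter (fun k => Nat.Coprime k 210) ⊆
          insert (2 * (25 + m) + 1) ((Icc 11 (2 * (25 + m))).filter (fun k => Nat.Coprime k 210)) := by
        intro k hk
        rw [Finset.mem_filter, Finset.mem_Icc] at hk
        rw [Finset.mem_insert, Finset.mem_filter, Finset.mem_Icc]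
        obtain ⟨⟨h1, h2⟩, h3⟩ := hk
        have hodd : ¬ 2 ∣ k := by
          intro h
          have : 2 ∣ Nat.gcd k 210 := Nat.dvd_gcd h (by norm_num)
          rw [h3] at this
          omega
        by_cases hk2 : k = 2 * (25 + m) + 1
        · exact Or.inl hk2
        · right
          refine ⟨⟨h1, ?_⟩, h3⟩
          omega
      unfold TT
      refine (Finset.sum_le_sum_of_subset_of_nonneg hs (fun _ _ _ => by positivity)).trans ?_
      rw [Finset.sum_insert]
      · push_cast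
        linarith
      · rw [Finset.mem_filter, Finset.mem_Icc]
        omega
    refine e.trans ?_
    have h1 : (1 : ℝ) / (2 * ((25 : ℝ) + m) + 1) ^ 2 ≤
        1 / (4 * ((25 : ℝ) + m)) - 1 / (4 * ((25 : ℝ) + m + 1)) := by
      have hm : (0 : ℝ) < (25 : ℝ) + m := by positivity
      have e2 : 1 / (4 * ((25 : ℝ) + m)) - 1 / (4 * ((25 : ℝ) + m + 1)) =
          1 / (4 * ((25 : ℝ) + m) * ((25 : ℝ) + m + 1)) := by
        field_simp
        ring
      rw [e2]
      apply one_div_le_one_div_of_le (by positivity)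
      nlinarith
    push_cast
    have e3 : (25 : ℝ) + (m + 1) = 25 + m + 1 := by ring
    rw [e3]
    linarith

theorem TT_le (n : ℕ) : TT n ≤ 0.0369 := by
  refine (TT_mono (show n ≤ 2 * (25 + n) by omega)).trans ((TT_even n).trans ?_)
  have : (0 : ℝ) ≤ 1 / (4 * ((25 : ℝ) + n)) := by positivity
  linarith

theorem point (n : ℕ) (p : ℕ × ℕ) (h1 : 1 ≤ p.1) (h2 : p.1 ≤ n) :
    (1 - ind 2 p) * (1 - ind 3 p) * (1 - ind 5 p) * (1 - ind 7 p) -
      ∑ k ∈ (Icc 11 n).filter (fun k => Nat.Coprime k 210), ind k p ≤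
      if Nat.Coprime p.1 p.2 then 1 else 0 := by
  have f : ∀ k, 0 ≤ 1 - ind k p ∧ 1 - ind k p ≤ 1 := fun k =>
    ⟨by linarith [ind_le k p], by linarith [ind_nonneg k p]⟩
  have hprod : (1 - ind 2 p) * (1 - ind 3 p) * (1 - ind 5 p) * (1 - ind 7 p) ≤ 1 := by
    have a1 := mul_le_one₀ (f 2).2 (f 3).1 (f 3).2
    have a2 := mul_le_one₀ a1 (f 5).1 (f 5).2
    exact mul_le_one₀ a2 (f 7).1 (f 7).2
  have hsum : 0 ≤ ∑ k ∈ (Icc 11 n).filter (fun k => Nat.Coprime k 210), ind k p :=
    Finset.sum_nonneg fun k _ => ind_nonneg k p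
  split_ifs with hc
  · linarith
  · set g := Nat.gcd p.1 p.2 with hg
    have hgpos : 0 < g := Nat.gcd_pos_of_pos_left _ h1
    have hg1 : g ∣ p.1 := Nat.gcd_dvd_left _ _
    have hg2 : g ∣ p.2 := Nat.gcd_dvd_right _ _
    have hgne : g ≠ 1 := hc
    have key : ∀ q, q ∣ g → ind q p = 1 := by
      intro q hq
      unfold ind
      rw [if_pos ⟨hq.trans hg1, hq.trans hg2⟩]
    by_cases q2 : 2 ∣ g
    · rw [key 2 q2]; linarith
    by_cases q3 : 3 ∣ g
    · rw [key 3 q3]; linarith
    by_cases q5 : 5 ∣ g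
    · rw [key 5 q5]; linarith
    by_cases q7 : 7 ∣ g
    · rw [key 7 q7]; linarith
    have hmem : g ∈ (Icc 11 n).filter (fun k => Nat.Coprime k 210) := by
      rw [Finset.mem_filter, Finset.mem_Icc]
      refine ⟨⟨?_, (Nat.le_of_dvd h1 hg1).trans h2⟩, ?_⟩
      · by_contra hlt
        have : g < 11 := not_le.mp hlt
        interval_cases g <;> omega
      · have : (210 : ℕ) = 2 * (3 * (5 * 7)) := by norm_num
        rw [this]
        refine Nat.Coprime.mul_right ?_ (Nat.Coprime.mul_right ?_ (Nat.Coprime.mul_right ?_ ?_))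
        · exact ((Nat.Prime.coprime_iff_not_dvd Nat.prime_two).mpr q2).symm
        · exact ((Nat.Prime.coprime_iff_not_dvd Nat.prime_three).mpr q3).symm
        · exact ((Nat.Prime.coprime_iff_not_dvd Nat.prime_five).mpr q5).symm
        · exact ((Nat.Prime.coprime_iff_not_dvd (by norm_num)).mpr q7).symm
    have : ind g p ≤ ∑ k ∈ (Icc 11 n).filter (fun k => Nat.Coprime k 210), ind k p :=
      Finset.single_le_sum (fun k _ => ind_nonneg k p) hmem
    rw [key g dvd_rfl] at this
    linarith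

end ItCOP

open ItCOP

theorem thmCop : SCop := by
  intro n D hD hdown
  have U := upper n D hD hdown
  have L := lower n D hD hdown
  -- the sum over D
  have h1 : ∑ p ∈ D, ((1 - ind 2 p) * (1 - ind 3 p) * (1 - ind 5 p) * (1 - ind 7 p) -
      ∑ k ∈ (Icc 11 n).filter (fun k => Nat.Coprime k 210), ind k p) ≤
      ((D.filter (fun p => Nat.Coprime p.1 p.2)).card : ℝ) := by
    rw [← Finset.sum_boole]
    exact Finset.sum_le_sum fun p hp => point n p (hD p hp).1 (hD p hp).2.1
  rw [Finset.sum_sub_distrib, Finset.sum_comm] at h1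
  have h2 : ∑ k ∈ (Icc 11 n).filter (fun k => Nat.Coprime k 210), ∑ p ∈ D, ind k p ≤
      0.0369 * (D.card : ℝ) := by
    calc ∑ k ∈ (Icc 11 n).filter (fun k => Nat.Coprime k 210), ∑ p ∈ D, ind k p
        ≤ ∑ k ∈ (Icc 11 n).filter (fun k => Nat.Coprime k 210), (1 : ℝ) / (k : ℝ) ^ 2 * D.card := by
          refine Finset.sum_le_sum fun k hk => ?_
          rw [Finset.mem_filter, Finset.mem_Icc] at hk
          have hk0 : (0 : ℝ) < k := by exact_mod_cast (by omega : 0 < k)
          rw [sum_ind, one_div, inv_mul_eq_div, le_div_iff₀ (by positivity), mul_comm]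
          exact U k (by omega)
      _ = TT n * D.card := by rw [← Finset.sum_mul]; rfl
      _ ≤ 0.0369 * (D.card : ℝ) := mul_le_mul_of_nonneg_right (TT_le n) (Nat.cast_nonneg _)
  have h3 : ∑ p ∈ D, (1 - ind 2 p) * (1 - ind 3 p) * (1 - ind 5 p) * (1 - ind 7 p) =
      (D.card : ℝ) - (Dk D 2).card - (Dk D 3).card - (Dk D 5).card - (Dk D 7).card
      + (Dk D 6).card + (Dk D 10).card + (Dk D 14).card + (Dk D 15).card + (Dk D 21).card
      + (Dk D 35).card - (Dk D 30).card - (Dk D 42).card - (Dk D 70).card - (Dk D 105).card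
      + (Dk D 210).card := by
    rw [← sum_ind D 2, ← sum_ind D 3, ← sum_ind D 5, ← sum_ind D 7, ← sum_ind D 6,
      ← sum_ind D 10, ← sum_ind D 14, ← sum_ind D 15, ← sum_ind D 21, ← sum_ind D 35,
      ← sum_ind D 30, ← sum_ind D 42, ← sum_ind D 70, ← sum_ind D 105, ← sum_ind D 210]
    have hc : (D.card : ℝ) = ∑ p ∈ D, (1 : ℝ) := by simp
    rw [hc]
    simp only [← Finset.sum_sub_distrib, ← Finset.sum_add_distrib]
    refine Finset.sum_congr rfl fun p _ => ?_
    have i6 : ind 6 p = ind 2 p * ind 3 p :=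
      (ind_mul (a := 2) (b := 3) (by norm_num) p).symm
    have i10 : ind 10 p = ind 2 p * ind 5 p :=
      (ind_mul (a := 2) (b := 5) (by norm_num) p).symm
    have i14 : ind 14 p = ind 2 p * ind 7 p :=
      (ind_mul (a := 2) (b := 7) (by norm_num) p).symm
    have i15 : ind 15 p = ind 3 p * ind 5 p :=
      (ind_mul (a := 3) (b := 5) (by norm_num) p).symm
    have i21 : ind 21 p = ind 3 p * ind 7 p :=
      (ind_mul (a := 3) (b := 7) (by norm_num) p).symm
    have i35 : ind 35 p = ind 5 p * ind 7 p :=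
      (ind_mul (a := 5) (b := 7) (by norm_num) p).symm
    have i30 : ind 30 p = ind 2 p * ind 15 p :=
      (ind_mul (a := 2) (b := 15) (by norm_num) p).symm
    have i42 : ind 42 p = ind 2 p * ind 21 p :=
      (ind_mul (a := 2) (b := 21) (by norm_num) p).symm
    have i70 : ind 70 p = ind 2 p * ind 35 p :=
      (ind_mul (a := 2) (b := 35) (by norm_num) p).symm
    have i105 : ind 105 p = ind 3 p * ind 35 p :=
      (ind_mul (a := 3) (b := 35) (by norm_num) p).symm
    have i210 : ind 210 p = ind 2 p * ind 105 p :=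
      (ind_mul (a := 2) (b := 105) (by norm_num) p).symm
    rw [i210, i105, i70, i42, i30, i35, i21, i15, i14, i10, i6]
    ring
  rw [h3] at h1
  have u2 := U 2 (by norm_num)
  have u3 := U 3 (by norm_num)
  have u5 := U 5 (by norm_num)
  have u7 := U 7 (by norm_num)
  have u30 := U 30 (by norm_num)
  have u42 := U 42 (by norm_num)
  have u70 := U 70 (by norm_num)
  have u105 := U 105 (by norm_num)
  have l6 := L 6 (by norm_num)
  have l10 := L 10 (by norm_num)
  have l14 := L 14 (by norm_num)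
  have l15 := L 15 (by norm_num)
  have l21 := L 21 (by norm_num)
  have l35 := L 35 (by norm_num)
  have l210 := L 210 (by norm_num)
  have hn : (0 : ℝ) ≤ n := Nat.cast_nonneg n
  have hDn : (0 : ℝ) ≤ D.card := Nat.cast_nonneg _
  push_cast at u2 u3 u5 u7 u30 u42 u70 u105 l6 l10 l14 l15 l21 l35 l210
  norm_num at u2 u3 u5 u7 u30 u42 u70 u105 l6 l10 l14 l15 l21 l35 l210 h2 ⊢
  linarith

end Pool.Agent.Work.MP_1d0aa8_co

end

section

/-!
# MP_1d0aa8_co, item COUNT
-/

set_option autoImplicit false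

namespace Pool.Agent.Work.MP_1d0aa8_co

open Finset
open scoped Classical

namespace ItCOUNT

/-- The triangle `u + v < s`. -/
def tri (s : ℕ) : Finset (ℕ × ℕ) := (range s ×ˢ range s).filter (fun p => p.1 + p.2 < s)

theorem mem_tri {s : ℕ} {p : ℕ × ℕ} : p ∈ tri s ↔ p.1 + p.2 < s := by
  unfold tri
  rw [mem_filter, mem_product, mem_range, mem_range]
  constructor
  · exact fun h => h.2
  · intro h
    exact ⟨⟨by omega, by omega⟩, h⟩

theorem card_tri (s : ℕ) : 2 * (tri s).card = s * (s + 1) := by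
  induction s with
  | zero => rfl
  | succ s ih =>
    have h : tri (s + 1) = tri s ∪ HasAntidiagonal.antidiagonal s := by
      ext p
      rw [mem_union, mem_tri, mem_tri, HasAntidiagonal.mem_antidiagonal]
      omega
    have hd : Disjoint (tri s) (HasAntidiagonal.antidiagonal s) := by
      rw [disjoint_left]
      intro p hp hq
      rw [mem_tri] at hp
      rw [HasAntidiagonal.mem_antidiagonal] at hq
      omega
    rw [h, card_union_of_disjoint hd, Nat.card_antidiagonal, mul_add, ih]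
    ring

/-- The number of lattice points in a rectangle below a line. -/
theorem card_region (P Q S : ℕ) (hS : S ≤ P + Q + 1) :
    2 * ((tri (S + 1)).filter (fun p => p.1 ≤ P ∧ p.2 ≤ Q)).card + (S - P) * (S - P + 1)
      + (S - Q) * (S - Q + 1) ≤ (S + 1) * (S + 2) := by
  have h1 : (tri (S - P)).card ≤ ((tri (S + 1)).filter (fun p => P < p.1)).card := by
    refine card_le_card_of_injOn (fun p => (p.1 + P + 1, p.2)) ?_ ?_
    · intro p hp
      have hp' := mem_tri.1 (mem_coe.1 hp)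
      refine mem_coe.2 (mem_filter.2 ⟨mem_tri.2 ?_, ?_⟩)
      · simp only
        omega
      · simp only
        omega
    · intro p _ q _ h
      simp only [Prod.mk.injEq] at h
      ext
      · omega
      · exact h.2
  have h2 : (tri (S - Q)).card ≤ ((tri (S + 1)).filter (fun p => Q < p.2)).card := by
    refine card_le_card_of_injOn (fun p => (p.1, p.2 + Q + 1)) ?_ ?_
    · intro p hp
      have hp' := mem_tri.1 (mem_coe.1 hp)
      refine mem_coe.2 (mem_filter.2 ⟨mem_tri.2 ?_, ?_⟩)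
      · simp only
        omega
      · simp only
        omega
    · intro p _ q _ h
      simp only [Prod.mk.injEq] at h
      ext
      · exact h.1
      · omega
  have d1 : Disjoint ((tri (S + 1)).filter (fun p => P < p.1))
      ((tri (S + 1)).filter (fun p => Q < p.2)) := by
    rw [disjoint_left]
    intro p hp hq
    rw [mem_filter, mem_tri] at hp
    rw [mem_filter] at hq
    omega
  have d2 : Disjoint ((tri (S + 1)).filter (fun p => p.1 ≤ P ∧ p.2 ≤ Q))
      ((tri (S + 1)).filter (fun p => P < p.1) ∪ (tri (S + 1)).filter (fun p => Q < p.2)) := by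
    rw [disjoint_left]
    intro p hp hq
    rw [mem_filter] at hp
    rw [mem_union, mem_filter, mem_filter] at hq
    omega
  have h3 : (tri (S + 1)).filter (fun p => p.1 ≤ P ∧ p.2 ≤ Q) ∪
      ((tri (S + 1)).filter (fun p => P < p.1) ∪ (tri (S + 1)).filter (fun p => Q < p.2)) ⊆
      tri (S + 1) := by
    intro p hp
    rw [mem_union, mem_union, mem_filter, mem_filter, mem_filter] at hp
    tauto
  have h4 := card_le_card h3
  rw [card_union_of_disjoint d2, card_union_of_disjoint d1] at h4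
  have e1 := card_tri (S + 1)
  have e2 := card_tri (S - P)
  have e3 := card_tri (S - Q)
  nlinarith

/-- The final real inequality. -/
theorem final (n n0 p q s X Y D : ℝ) (hn0 : 0 ≤ n0) (h1 : p + q ≤ n) (h2 : n ≤ p + q + 2)
    (h3 : s ≤ p + q + 1 - n0) (h4 : p + q + 1 - n0 < s + 1) (hs : 0 ≤ s) (hX : s - p ≤ X)
    (hX0 : 0 ≤ X) (hY : s - q ≤ Y) (hY0 : 0 ≤ Y) (hn : 0 ≤ n)
    (hD : 2 * D + X * (X + 1) + Y * (Y + 1) ≤ (s + 1) * (s + 2)) :
    D ≤ (max (n - n0) 0) ^ 2 / 2 - (max (n / 2 - n0) 0) ^ 2 + 10 * (n + 1) := by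
  set t := max (n - n0) 0 with ht
  have ht0 : 0 ≤ t := le_max_right _ _
  have ht1 : n - n0 ≤ t := le_max_left _ _
  have ht2 : t ≤ n := max_le (by linarith) hn
  have hs1 : s ≤ t + 1 := by linarith
  have hs2 : (s + 1) * (s + 2) ≤ (t + 2) * (t + 3) := by
    apply mul_le_mul <;> linarith
  have hXY : (X + Y) ^ 2 ≤ 2 * (X ^ 2 + Y ^ 2) := by nlinarith [sq_nonneg (X - Y)]
  rcases le_total (n / 2 - n0) 0 with hm | hm
  · rw [max_eq_right hm]
    nlinarith [mul_nonneg hX0 hX0, mul_nonneg hY0 hY0]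
  · rw [max_eq_left hm]
    set m := n / 2 - n0 with hmdef
    have hm2 : m ≤ n / 2 := by linarith
    have h5 : 2 * m - 2 ≤ X + Y := by linarith
    have h6 : 4 * m ^ 2 - 8 * m ≤ (X + Y) ^ 2 := by
      rcases le_total m 1 with h | h
      · have : 4 * m ^ 2 - 8 * m ≤ 0 := by nlinarith
        exact this.trans (sq_nonneg _)
      · have : (2 * m - 2) ^ 2 ≤ (X + Y) ^ 2 := by
          apply pow_le_pow_left₀ <;> linarith
        nlinarith
    nlinarith

theorem final0 (n n0 : ℝ) (hn0 : 0 ≤ n0) (hn : 0 ≤ n) :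
    0 ≤ (max (n - n0) 0) ^ 2 / 2 - (max (n / 2 - n0) 0) ^ 2 + 10 * (n + 1) := by
  have h0 : 0 ≤ (max (n - n0) 0) ^ 2 := sq_nonneg _
  rcases le_total (n / 2 - n0) 0 with hm | hm
  · rw [max_eq_right hm]
    linarith
  · rw [max_eq_left hm, max_eq_left (by linarith)]
    nlinarith

end ItCOUNT

open ItCOUNT in
theorem thmCount : SCount := by
  intro N F G d n0 hN hF hd hdN hG hn hn0
  have hNd : (0 : ℝ) ≤ (N : ℝ) / d := by positivity
  rcases G.eq_empty_or_nonempty with hGe | hGne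
  · rw [hGe, card_empty, Nat.cast_zero]
    exact final0 _ _ hn0 hNd
  have hG' : ∀ A ∈ G, ∃ (a : ℤ) (k : ℕ), 1 ≤ k ∧ A = apset a d k := fun A hA => (Pd_mem.1 (hG hA)).2
  choose! a k hk hA using hG'
  obtain ⟨A0, hA0, hmax⟩ := exists_max_image G a hGne
  set z := a A0 with hz
  have hdz : (0 : ℤ) < d := by exact_mod_cast hd
  have hmem : ∀ A ∈ G, ∀ y, y ∈ A ↔ (a A ≤ y ∧ y ≤ a A + k A * d ∧ (d : ℤ) ∣ y - a A) := by
    intro A hAG y
    have h := mem_apset' (a := a A) (k := k A) hd (y := y)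
    rw [← hA A hAG] at h
    exact h
  have hlo : ∀ A ∈ G, 1 ≤ a A := by
    intro A hAG
    have h1 : a A ∈ A := by
      rw [hmem A hAG]
      refine ⟨le_rfl, ?_, by rw [sub_self]; exact dvd_zero _⟩
      have : (0 : ℤ) ≤ (k A : ℤ) * d := by positivity
      linarith
    exact (hF.mem_Icc (Pd_mem.1 (hG hAG)).1 h1).1
  have hhi : ∀ A ∈ G, a A + k A * d ≤ N := by
    intro A hAG
    have h1 : a A + k A * d ∈ A := by
      rw [hmem A hAG]
      have : (0 : ℤ) ≤ (k A : ℤ) * d := by positivity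
      refine ⟨by linarith, le_rfl, ?_⟩
      rw [add_sub_cancel_left]
      exact dvd_mul_left _ _
    exact (hF.mem_Icc (Pd_mem.1 (hG hAG)).1 h1).2
  -- every member contains `z`
  have hz1 : ∀ A ∈ G, (d : ℤ) ∣ z - a A ∧ z ≤ a A + k A * d := by
    intro A hAG
    by_cases hAA : A = A0
    · subst hAA
      refine ⟨by rw [hz, sub_self]; exact dvd_zero _, ?_⟩
      have : (0 : ℤ) ≤ (k A : ℤ) * d := by positivity
      linarith
    · obtain ⟨y, hy⟩ := hF.meet (Pd_mem.1 (hG hAG)).1 (Pd_mem.1 (hG hA0)).1 hAA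
      rw [mem_inter] at hy
      obtain ⟨hy1, hy2⟩ := hy
      rw [hmem A hAG] at hy1
      rw [hmem A0 hA0] at hy2
      obtain ⟨b1, b2, b3⟩ := hy1
      obtain ⟨c1, c2, c3⟩ := hy2
      refine ⟨?_, by linarith⟩
      have := dvd_sub b3 c3
      have e : y - a A - (y - a A0) = z - a A := by rw [hz]; ring
      rwa [e] at this
  have hz0 : 1 ≤ z := hlo A0 hA0
  have hzN : z ≤ N := by
    have h1 := hhi A0 hA0
    have : (0 : ℤ) ≤ (k A0 : ℤ) * d := by positivity
    linarith
  obtain ⟨P, hP⟩ := Int.eq_ofNat_of_zero_le (Int.ediv_nonneg (by linarith : 0 ≤ z - 1) hdz.le)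
  obtain ⟨Q, hQ⟩ := Int.eq_ofNat_of_zero_le (Int.ediv_nonneg (by linarith : 0 ≤ (N : ℤ) - z) hdz.le)
  have hP1 : (P : ℤ) * d ≤ z - 1 := by rw [← hP]; exact Int.ediv_mul_le _ hdz.ne'
  have hQ1 : (Q : ℤ) * d ≤ N - z := by rw [← hQ]; exact Int.ediv_mul_le _ hdz.ne'
  have hP2 : z - 1 < ((P : ℤ) + 1) * d := by rw [← hP]; exact Int.lt_ediv_add_one_mul_self _ hdz
  have hQ2 : (N : ℤ) - z < ((Q : ℤ) + 1) * d := by rw [← hQ]; exact Int.lt_ediv_add_one_mul_self _ hdz
  -- the coordinates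
  have hcoord : ∀ A ∈ G, ∃ α γ : ℕ, A = apset (z - α * d) d (α + γ) ∧ α ≤ P ∧ γ ≤ Q ∧
      n0 ≤ (α : ℝ) + γ + 1 := by
    intro A hAG
    obtain ⟨⟨c, hc⟩, h2⟩ := hz1 A hAG
    have hc0 : 0 ≤ c := by
      by_contra hneg
      have h3 := hmax A hAG
      have : (d : ℤ) * c < 0 := mul_neg_of_pos_of_neg hdz (by linarith)
      linarith
    obtain ⟨α, rfl⟩ := Int.eq_ofNat_of_zero_le hc0
    have hαk : α ≤ k A := by
      have h3 : (α : ℤ) * d ≤ (k A : ℤ) * d := by linarith [mul_comm (d : ℤ) (α : ℤ)]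
      exact_mod_cast le_of_mul_le_mul_right h3 hdz
    obtain ⟨γ, hγ⟩ := Nat.exists_eq_add_of_le hαk
    have haA : a A = z - α * d := by linarith [mul_comm (d : ℤ) (α : ℤ)]
    refine ⟨α, γ, ?_, ?_, ?_, ?_⟩
    · rw [← haA, ← hγ]; exact hA A hAG
    · have h3 := hlo A hAG
      have h4 : (α : ℤ) * d < ((P : ℤ) + 1) * d := by linarith
      have h5 := lt_of_mul_lt_mul_right h4 hdz.le
      have h6 : (α : ℤ) ≤ P := by linarith
      exact_mod_cast h6
    · have h3 := hhi A hAG
      rw [hγ, haA] at h3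
      push_cast at h3
      have h4 : (γ : ℤ) * d < ((Q : ℤ) + 1) * d := by nlinarith
      have h5 := lt_of_mul_lt_mul_right h4 hdz.le
      have h6 : (γ : ℤ) ≤ Q := by linarith
      exact_mod_cast h6
    · have h3 := hn A hAG
      rw [hA A hAG, card_apset hd, hγ] at h3
      push_cast at h3
      exact h3
  have hdr : (0 : ℝ) < d := by exact_mod_cast hd
  have hp1 : (P : ℝ) + Q ≤ (N : ℝ) / d := by
    rw [le_div_iff₀ hdr]
    have : ((P : ℤ) + Q) * d ≤ N := by linarith
    exact_mod_cast this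
  have hp2 : (N : ℝ) / d ≤ (P : ℝ) + Q + 2 := by
    rw [div_le_iff₀ hdr]
    have : (N : ℤ) ≤ ((P : ℤ) + Q + 2) * d := by linarith
    exact_mod_cast this
  have hpos : 0 ≤ (P : ℝ) + Q + 1 - n0 := by
    obtain ⟨α, γ, _, h2, h3, h4⟩ := hcoord A0 hA0
    have h2' : (α : ℝ) ≤ P := by exact_mod_cast h2
    have h3' : (γ : ℝ) ≤ Q := by exact_mod_cast h3
    linarith
  set S := ⌊(P : ℝ) + Q + 1 - n0⌋₊ with hSdef
  have hS1 : (S : ℝ) ≤ (P : ℝ) + Q + 1 - n0 := Nat.floor_le hpos
  have hS2 : (P : ℝ) + Q + 1 - n0 < (S : ℝ) + 1 := Nat.lt_floor_add_one _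
  have hS3 : S ≤ P + Q + 1 := by
    have : (S : ℝ) ≤ (P : ℝ) + Q + 1 := by linarith
    exact_mod_cast this
  have hreg := card_region P Q S hS3
  have hcard : G.card ≤ ((tri (S + 1)).filter (fun p => p.1 ≤ P ∧ p.2 ≤ Q)).card := by
    refine Finset.card_le_card_of_forall_subsingleton
      (fun (A : Finset ℤ) (p : ℕ × ℕ) => ∃ α γ : ℕ, A = apset (z - α * d) d (α + γ) ∧
        p.1 + α = P ∧ p.2 + γ = Q) ?_ ?_
    · intro A hAG
      obtain ⟨α, γ, h1, h2, h3, h4⟩ := hcoord A hAG
      refine ⟨(P - α, Q - γ), ?_, α, γ, h1, ?_, ?_⟩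
      · rw [mem_filter, mem_tri]
        refine ⟨?_, Nat.sub_le _ _, Nat.sub_le _ _⟩
        have h5 : ((P - α : ℕ) : ℝ) + ((Q - γ : ℕ) : ℝ) ≤ (P : ℝ) + Q + 1 - n0 := by
          rw [Nat.cast_sub h2, Nat.cast_sub h3]
          linarith
        have h6 : (P - α) + (Q - γ) ≤ S := by
          rw [hSdef]
          apply Nat.le_floor
          push_cast
          exact h5
        exact Nat.lt_succ_of_le h6
      · exact Nat.sub_add_cancel h2
      · exact Nat.sub_add_cancel h3
    · rintro p _ A ⟨_, α, γ, h1, h2, h3⟩ B ⟨_, α', γ', h1', h2', h3'⟩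
      have e1 : α = α' := by omega
      have e2 : γ = γ' := by omega
      rw [h1, h1', e1, e2]
  have hgr : (2 : ℝ) * G.card + ((S - P : ℕ) : ℝ) * (((S - P : ℕ) : ℝ) + 1) +
      ((S - Q : ℕ) : ℝ) * (((S - Q : ℕ) : ℝ) + 1) ≤ ((S : ℝ) + 1) * ((S : ℝ) + 2) := by
    have : 2 * G.card + (S - P) * (S - P + 1) + (S - Q) * (S - Q + 1) ≤ (S + 1) * (S + 2) := by
      omega
    exact_mod_cast this
  have hX : (S : ℝ) - P ≤ ((S - P : ℕ) : ℝ) := by
    rw [sub_le_iff_le_add]
    have : S ≤ (S - P) + P := by omega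
    exact_mod_cast this
  have hY : (S : ℝ) - Q ≤ ((S - Q : ℕ) : ℝ) := by
    rw [sub_le_iff_le_add]
    have : S ≤ (S - Q) + Q := by omega
    exact_mod_cast this
  exact final ((N : ℝ) / d) n0 P Q S _ _ G.card hn0 hp1 hp2 hS1 hS2 (Nat.cast_nonneg _) hX
    (Nat.cast_nonneg _) hY (Nat.cast_nonneg _) hNd hgr

end Pool.Agent.Work.MP_1d0aa8_co

end

section

/-!
# COVER: covered pairs at scale `d` against AP members of difference `d`
-/

set_option autoImplicit false

namespace Pool.Agent.Work.MP_1d0aa8_co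

open Finset
open scoped Classical

namespace ItCOVER

/-- The parameters `(i, j)` of the members of difference `d` through `x`. -/
noncomputable def prm (F : Finset (Finset ℤ)) (x : ℤ) (d l0 r0 : ℕ) : Finset (ℕ × ℕ) :=
  ((range (l0 + 1)) ×ˢ (range (r0 + 1))).filter
    (fun q => apset (x - q.1 * d) d (q.1 + q.2) ∈ F ∧ 1 ≤ q.1 + q.2)

theorem mem_prm {F : Finset (Finset ℤ)} {x : ℤ} {d l0 r0 : ℕ} {q : ℕ × ℕ} :
    q ∈ prm F x d l0 r0 ↔ (q.1 ≤ l0 ∧ q.2 ≤ r0) ∧
      (apset (x - q.1 * d) d (q.1 + q.2) ∈ F ∧ 1 ≤ q.1 + q.2) := by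
  unfold prm
  rw [mem_filter, mem_product, mem_range, mem_range, Nat.lt_succ_iff, Nat.lt_succ_iff]

theorem mem_ap {x y : ℤ} {d i j : ℕ} (hd : 1 ≤ d) :
    y ∈ apset (x - i * d) d (i + j) ↔ x - i * d ≤ y ∧ y ≤ x + j * d ∧ (d : ℤ) ∣ y - x := by
  rw [mem_apset' hd]
  have h1 : x - (i : ℤ) * d + ((i + j : ℕ) : ℤ) * d = x + j * d := by push_cast; ring
  have h2 : (d : ℤ) ∣ y - (x - (i : ℤ) * d) ↔ (d : ℤ) ∣ y - x := by
    have : y - (x - (i : ℤ) * d) = (y - x) + d * i := by ring
    rw [this, dvd_add_left (Dvd.intro _ rfl)]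
  rw [h1, h2]

theorem card_Qd_le {N : ℕ} {F : Finset (Finset ℤ)} {x : ℤ} {d : ℕ} (hF : Fam N F) (hd : 1 ≤ d)
    {l0 r0 : ℕ} (hl : ∀ i : ℕ, (i : ℤ) * d ≤ x - 1 → i ≤ l0)
    (hr : ∀ j : ℕ, (j : ℤ) * d ≤ N - x → j ≤ r0) :
    (Qd F x d).card ≤ (prm F x d l0 r0).card := by
  have hsub : Qd F x d ⊆ (prm F x d l0 r0).image
      (fun q : ℕ × ℕ => apset (x - q.1 * d) d (q.1 + q.2)) := by
    intro A hA
    unfold Qd at hA
    rw [mem_filter, Pd_mem] at hA
    obtain ⟨⟨hAF, a, k, hk, rfl⟩, hx⟩ := hA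
    rw [mem_apset] at hx
    obtain ⟨i, hi, hxi⟩ := hx
    have e1 : x - (i : ℤ) * d = a := by rw [hxi]; ring
    have e2 : i + (k - i) = k := by omega
    have ha : a ∈ apset a d k := mem_apset.2 ⟨0, Nat.zero_le _, by simp⟩
    have hb : a + k * d ∈ apset a d k := mem_apset.2 ⟨k, le_rfl, rfl⟩
    have h1 := (hF.mem_Icc hAF ha).1
    have h2 := (hF.mem_Icc hAF hb).2
    rw [mem_image]
    refine ⟨(i, k - i), ?_, ?_⟩
    · rw [mem_prm]
      refine ⟨⟨hl i (by linarith), hr (k - i) ?_⟩, ?_, ?_⟩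
      · rw [Nat.cast_sub hi]
        have : ((k : ℤ) - i) * d = k * d - i * d := by ring
        rw [this]
        linarith
      · change apset (x - (i : ℤ) * d) d (i + (k - i)) ∈ F
        rw [e1, e2]
        exact hAF
      · change 1 ≤ i + (k - i)
        omega
    · change apset (x - (i : ℤ) * d) d (i + (k - i)) = apset a d k
      rw [e1, e2]
  exact (card_le_card hsub).trans card_image_le

theorem card_boxcov_le {N : ℕ} {F : Finset (Finset ℤ)} {x : ℤ} {d : ℕ} (hF : Fam N F)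
    (hd : 1 ≤ d) (l0 r0 M : ℕ) :
    (BoxCov M (prm F x d l0 r0)).card ≤ (CovS N F x d).card := by
  have hd' : (0 : ℤ) < d := by exact_mod_cast hd
  refine card_le_card_of_injOn (fun p => (x + d * p.1, x + d * p.2)) ?_ ?_
  · intro p hp
    rw [mem_coe, BoxCov, mem_filter] at hp
    obtain ⟨-, hlt, h1, h2, hg, q, hq, hq1, hq2⟩ := hp
    obtain ⟨-, hqF, -⟩ := mem_prm.1 hq
    set A := apset (x - (q.1 : ℤ) * d) d (q.1 + q.2) with hA
    have hxA : x ∈ A := by
      rw [hA, mem_ap hd]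
      refine ⟨?_, ?_, by simp⟩
      · have : (0 : ℤ) ≤ (q.1 : ℤ) * d := by positivity
        linarith
      · have : (0 : ℤ) ≤ (q.2 : ℤ) * d := by positivity
        linarith
    have hmem : ∀ t : ℤ, -(q.1 : ℤ) ≤ t → t ≤ q.2 → x + d * t ∈ A := by
      intro t ht1 ht2
      rw [hA, mem_ap hd]
      refine ⟨?_, ?_, ⟨t, by ring⟩⟩
      · have : (d : ℤ) * -(q.1 : ℤ) ≤ d * t := mul_le_mul_of_nonneg_left ht1 hd'.le
        linarith
      · have : (d : ℤ) * t ≤ d * (q.2 : ℤ) := mul_le_mul_of_nonneg_left ht2 hd'.le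
        linarith
    have hA1 := hmem p.1 hq1 (by linarith)
    have hA2 := hmem p.2 (by linarith) hq2
    rw [mem_coe, CovS, mem_filter, Cov, mem_filter, Prs, mem_filter, mem_product]
    refine ⟨⟨⟨⟨hF.sub A hqF hA1, hF.sub A hqF hA2⟩, ?_, ?_, ?_⟩, A, hqF, APc_apset _ _ _, hxA,
      hA1, hA2⟩, ?_⟩
    · change x + d * p.1 < x + d * p.2
      have : (d : ℤ) * p.1 < d * p.2 := mul_lt_mul_of_pos_left hlt hd'
      linarith
    · change x + d * p.1 ≠ x
      intro h
      have : (d : ℤ) * p.1 = 0 := by linarith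
      rcases mul_eq_zero.1 this with h' | h'
      · linarith
      · exact h1 h'
    · change x + d * p.2 ≠ x
      intro h
      have : (d : ℤ) * p.2 = 0 := by linarith
      rcases mul_eq_zero.1 this with h' | h'
      · linarith
      · exact h2 h'
    · change Int.gcd (x + d * p.1 - x) (x + d * p.2 - x) = d
      rw [add_sub_cancel_left, add_sub_cancel_left, Int.gcd_mul_left, hg, Int.natAbs_natCast,
        mul_one]
  · intro p _ p' _ h
    have h1 := congrArg Prod.fst h
    have h2 := congrArg Prod.snd h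
    simp only at h1 h2
    refine Prod.ext ?_ ?_
    · exact mul_left_cancel₀ hd'.ne' (by linarith)
    · exact mul_left_cancel₀ hd'.ne' (by linarith)

theorem main_ineq (X a N d l0 r0 a0 Q C B : ℝ) (hd : 1 ≤ d) (hdN : d ≤ N) (ha : 0 ≤ a)
    (h1 : X ≤ d * l0 + d) (h1' : d * l0 ≤ X) (hl0 : 0 ≤ l0) (hr0 : 0 ≤ r0)
    (h2 : a ≤ d * a0) (ha0 : 0 ≤ a0) (h3 : d * (l0 + r0) ≤ N) (hQ0 : 0 ≤ Q) (hQB : Q ≤ B)
    (hB : B ≤ (l0 + 1) * (r0 + 1)) (hC : 0 ≤ C)
    (hbox : 1.174 * (l0 + a0) * B ≤ l0 * C + 1000 * (l0 + r0 + 1) ^ 2) :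
    1.174 * (X + a) * Q ≤ X * C + 5000 * N ^ 2 / d := by
  have hd0 : 0 < d := by linarith
  have hN0 : 0 < N := by linarith
  set s : ℝ := l0 + r0 + 1 with hs
  have hs0 : 0 ≤ s := by positivity
  have hBs : B ≤ s ^ 2 := by
    refine hB.trans ?_
    rw [hs]
    nlinarith [mul_nonneg hl0 hr0, mul_nonneg hl0 hl0, mul_nonneg hr0 hr0]
  have hsN : d * s ≤ 2 * N := by rw [hs]; nlinarith
  have hB0 : 0 ≤ B := hQ0.trans hQB
  -- multiply the box inequality by `d`
  have h4 : 1.174 * (d * l0 + d * a0) * B ≤ (d * l0) * C + 1000 * (d * s ^ 2) := by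
    have := mul_le_mul_of_nonneg_left hbox hd0.le
    nlinarith
  have h5 : 1.174 * (X + a) * Q ≤ 1.174 * (d * l0 + d * a0 + d) * B := by
    have e1 : X + a ≤ d * l0 + d * a0 + d := by linarith
    have e2 : 0 ≤ d * l0 + d * a0 + d := by positivity
    calc 1.174 * (X + a) * Q ≤ 1.174 * (d * l0 + d * a0 + d) * Q := by nlinarith
      _ ≤ 1.174 * (d * l0 + d * a0 + d) * B := by
          exact mul_le_mul_of_nonneg_left hQB (by positivity)
  have h6 : (d * l0) * C ≤ X * C := mul_le_mul_of_nonneg_right h1' hC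
  have h7 : d * B ≤ d * s ^ 2 := mul_le_mul_of_nonneg_left hBs hd0.le
  have h8 : d * s ^ 2 ≤ 4 * N ^ 2 / d := by
    rw [le_div_iff₀ hd0]
    have : (d * s) ^ 2 ≤ (2 * N) ^ 2 := pow_le_pow_left₀ (by positivity) hsN 2
    nlinarith
  have h9 : 1.174 * (d * l0 + d * a0 + d) * B =
      1.174 * (d * l0 + d * a0) * B + 1.174 * (d * B) := by ring
  have h10 : 5000 * N ^ 2 / d = 1250 * (4 * N ^ 2 / d) := by ring
  have h11 : 0 ≤ 4 * N ^ 2 / d := by positivity
  rw [h10]
  linarith

end ItCOVER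

open ItCOVER in
theorem thmCover (h : SBox) : SCover := by
  intro N F x a d hN hF hx hd hdN hxa hright
  rw [mem_Icc] at hx
  have hd' : (0 : ℤ) < d := by exact_mod_cast hd
  obtain ⟨X, hX⟩ : ∃ X : ℕ, (X : ℤ) = x - 1 := ⟨(x - 1).toNat, by omega⟩
  obtain ⟨Y, hY⟩ : ∃ Y : ℕ, (Y : ℤ) = N - x := ⟨((N : ℤ) - x).toNat, by omega⟩
  set l0 := X / d with hl0
  set r0 := Y / d with hr0
  set a0 := (a + d - 1) / d with ha0
  have hl : ∀ i : ℕ, (i : ℤ) * d ≤ x - 1 → i ≤ l0 := by
    intro i hi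
    rw [hl0, Nat.le_div_iff_mul_le (by omega)]
    rw [← hX] at hi
    exact_mod_cast hi
  have hr : ∀ j : ℕ, (j : ℤ) * d ≤ N - x → j ≤ r0 := by
    intro j hj
    rw [hr0, Nat.le_div_iff_mul_le (by omega)]
    rw [← hY] at hj
    exact_mod_cast hj
  have hQ := card_Qd_le (x := x) hF hd hl hr
  set B := prm F x d l0 r0 with hB
  have hBprop : ∀ q ∈ B, q.1 ≤ l0 ∧ a0 ≤ q.2 ∧ q.2 ≤ r0 := by
    intro q hq
    obtain ⟨⟨h1, h2⟩, hqF, -⟩ := mem_prm.1 hq
    refine ⟨h1, ?_, h2⟩
    have hxA : x ∈ apset (x - (q.1 : ℤ) * d) d (q.1 + q.2) := by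
      rw [mem_ap hd]
      refine ⟨?_, ?_, by simp⟩
      · have : (0 : ℤ) ≤ (q.1 : ℤ) * d := by positivity
        linarith
      · have : (0 : ℤ) ≤ (q.2 : ℤ) * d := by positivity
        linarith
    obtain ⟨y, hy, hxy⟩ := hright _ hqF hxA (APc_apset _ _ _)
    rw [mem_ap hd] at hy
    have h3 : (a : ℤ) ≤ q.2 * d := by linarith [hy.2.1]
    have h4 : a ≤ q.2 * d := by exact_mod_cast h3
    rw [ha0]
    have : (a + d - 1) / d < q.2 + 1 := by
      rw [Nat.div_lt_iff_lt_mul (by omega)]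
      have : (q.2 + 1) * d = q.2 * d + d := by ring
      omega
    omega
  have hbox := h B l0 r0 a0 hBprop
  have hcov := card_boxcov_le (x := x) hF hd l0 r0 (l0 + r0)
  have hBcard : B.card ≤ (l0 + 1) * (r0 + 1) := by
    calc B.card ≤ ((range (l0 + 1)) ×ˢ (range (r0 + 1))).card := by
          rw [hB, prm]; exact card_filter_le _ _
      _ = (l0 + 1) * (r0 + 1) := by rw [card_product, card_range, card_range]
  have hXr : (x : ℝ) - 1 = (X : ℝ) := by
    have : ((X : ℤ) : ℝ) = ((x - 1 : ℤ) : ℝ) := by rw [hX]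
    push_cast at this
    exact this.symm
  rw [hXr]
  have q1 : X ≤ d * l0 + d := by
    have := Nat.lt_div_mul_add (a := X) (b := d) (by omega)
    rw [hl0, mul_comm d]
    omega
  have q1' : d * l0 ≤ X := by rw [hl0]; exact Nat.mul_div_le X d
  have q2' : d * r0 ≤ Y := by rw [hr0]; exact Nat.mul_div_le Y d
  have q2 : a ≤ d * a0 := by
    have h5 := Nat.lt_div_mul_add (a := a + d - 1) (b := d) (by omega)
    rw [ha0, mul_comm d]
    omega
  have q3 : d * (l0 + r0) ≤ N := by
    have : X + Y ≤ N := by omega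
    have : d * (l0 + r0) = d * l0 + d * r0 := by ring
    omega
  refine main_ineq (X : ℝ) a N d l0 r0 a0 _ _ (B.card : ℝ) (by exact_mod_cast hd)
    (by exact_mod_cast hdN) (Nat.cast_nonneg _) (by exact_mod_cast q1) (by exact_mod_cast q1')
    (Nat.cast_nonneg _) (Nat.cast_nonneg _) (by exact_mod_cast q2) (Nat.cast_nonneg _)
    (by exact_mod_cast q3) (Nat.cast_nonneg _) (by exact_mod_cast hQ) (by exact_mod_cast hBcard)
    (Nat.cast_nonneg _) ?_
  refine hbox.trans ?_
  have hc' : ((BoxCov (l0 + r0) B).card : ℝ) ≤ ((CovS N F x d).card : ℝ) := by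
    exact_mod_cast hcov
  have := mul_le_mul_of_nonneg_left hc' (Nat.cast_nonneg l0 : (0 : ℝ) ≤ l0)
  linarith

end Pool.Agent.Work.MP_1d0aa8_co

end

section

/-!
# MP_1d0aa8_co: item COVER2 (covered pairs at scale 2 by intervals)
-/

set_option autoImplicit false

namespace Pool.Agent.Work.MP_1d0aa8_co

open Finset
open scoped Classical

namespace COVER2

/-- The halved arms of a set at `x`. -/
noncomputable def arm (x : ℤ) (A : Finset ℤ) : ℕ × ℕ :=
  ((A.filter (fun y => y < x)).card / 2, (A.filter (fun y => x < y)).card / 2)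

theorem apset_one (p : ℤ) (k : ℕ) : apset p 1 k = Icc p (p + k) := by
  ext y
  rw [mem_apset' (le_refl 1), Finset.mem_Icc]
  simp

/-- A member of `Qd F x 1` is an interval `[x - i, x + j]`. -/
theorem exists_arms {N : ℕ} {F : Finset (Finset ℤ)} {x : ℤ} (hF : Fam N F) {A : Finset ℤ}
    (hA : A ∈ Qd F x 1) : ∃ i j : ℕ, A = Icc (x - i) (x + j) ∧ (i : ℤ) ≤ x - 1 ∧
      (j : ℤ) ≤ N - x := by
  unfold Qd at hA
  rw [mem_filter, Pd_mem] at hA
  obtain ⟨⟨hAF, p, k, hk, rfl⟩, hx⟩ := hA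
  have hs := hF.sub _ hAF
  rw [apset_one] at hs hx ⊢
  rw [Finset.mem_Icc] at hx
  have h1 : p ∈ Icc p (p + (k : ℤ)) := by rw [Finset.mem_Icc]; omega
  have h2 : p + (k : ℤ) ∈ Icc p (p + (k : ℤ)) := by rw [Finset.mem_Icc]; omega
  have h3 := Finset.mem_Icc.1 (hs h1)
  have h4 := Finset.mem_Icc.1 (hs h2)
  refine ⟨(x - p).toNat, (p + k - x).toNat, ?_, ?_, ?_⟩
  · rw [Int.toNat_of_nonneg (by omega), Int.toNat_of_nonneg (by omega)]
    congr 1 <;> ring
  · rw [Int.toNat_of_nonneg (by omega)]; omega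
  · rw [Int.toNat_of_nonneg (by omega)]; omega

theorem arm_Icc (x : ℤ) (i j : ℕ) : arm x (Icc (x - i) (x + j)) = (i / 2, j / 2) := by
  unfold arm
  have h1 : (Icc (x - (i : ℤ)) (x + j)).filter (fun y => y < x) = Ico (x - i) x := by
    ext y; rw [mem_filter, Finset.mem_Icc, Finset.mem_Ico]; omega
  have h2 : (Icc (x - (i : ℤ)) (x + j)).filter (fun y => x < y) = Ioc x (x + j) := by
    ext y; rw [mem_filter, Finset.mem_Icc, Finset.mem_Ioc]; omega
  rw [h1, h2, Int.card_Ico, Int.card_Ioc]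
  have h3 : (x - (x - (i : ℤ))).toNat = i := by omega
  have h4 : (x + (j : ℤ) - x).toNat = j := by omega
  rw [h3, h4]

theorem fiber_card {N : ℕ} {F : Finset (Finset ℤ)} {x : ℤ} (hF : Fam N F) (b : ℕ × ℕ) :
    ((Qd F x 1).filter (fun A => arm x A = b)).card ≤ 4 := by
  have hsub : (Qd F x 1).filter (fun A => arm x A = b) ⊆
      (range 2 ×ˢ range 2).image (fun e : ℕ × ℕ =>
        Icc (x - ((2 * b.1 + e.1 : ℕ) : ℤ)) (x + ((2 * b.2 + e.2 : ℕ) : ℤ))) := by
    intro A hA
    rw [mem_filter] at hA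
    obtain ⟨hA, hb⟩ := hA
    obtain ⟨i, j, rfl, -, -⟩ := exists_arms hF hA
    rw [arm_Icc] at hb
    rw [mem_image]
    refine ⟨(i % 2, j % 2), ?_, ?_⟩
    · rw [mem_product, mem_range, mem_range]
      exact ⟨Nat.mod_lt _ (by norm_num), Nat.mod_lt _ (by norm_num)⟩
    · rw [← hb]
      simp only
      rw [Nat.div_add_mod, Nat.div_add_mod]
  refine (card_le_card hsub).trans (card_image_le.trans ?_)
  rw [card_product, card_range]

theorem cov_card {N : ℕ} {F : Finset (Finset ℤ)} {x : ℤ} (hF : Fam N F) (M : ℕ) :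
    (BoxCov M ((Qd F x 1).image (arm x))).card ≤ (CovS N F x 2).card := by
  refine card_le_card_of_injOn (fun p : ℤ × ℤ => (x + 2 * p.1, x + 2 * p.2)) ?_ ?_
  · rintro ⟨u, v⟩ hp
    rw [mem_coe] at hp
    unfold BoxCov at hp
    rw [mem_filter] at hp
    obtain ⟨-, huv, hu, hv, hg, q, hq, h1, h2⟩ := hp
    rw [mem_image] at hq
    obtain ⟨A, hA, rfl⟩ := hq
    obtain ⟨i, j, hAe, hi, hj⟩ := exists_arms hF hA
    unfold Qd at hA
    rw [mem_filter, Pd_mem] at hA
    obtain ⟨⟨hAF, p, k, hk, hap⟩, hx⟩ := hA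
    have hAP : APc A := by rw [hap]; exact APc_apset _ _ _
    rw [hAe, arm_Icc] at h1 h2
    simp only at huv hu hv hg h1 h2
    have e1 : ((i / 2 : ℕ) : ℤ) * 2 ≤ i := by omega
    have e2 : ((j / 2 : ℕ) : ℤ) * 2 ≤ j := by omega
    rw [mem_coe]
    unfold CovS Cov Prs
    rw [mem_filter, mem_filter, mem_filter, mem_product, Finset.mem_Icc, Finset.mem_Icc]
    simp only
    refine ⟨⟨⟨⟨⟨?_, ?_⟩, ⟨?_, ?_⟩⟩, ?_, ?_, ?_⟩, A, hAF, hAP, hx, ?_, ?_⟩, ?_⟩
    · omega
    · omega
    · omega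
    · omega
    · omega
    · omega
    · omega
    · rw [hAe, Finset.mem_Icc]; omega
    · rw [hAe, Finset.mem_Icc]; omega
    · have e3 : x + 2 * u - x = 2 * u := by ring
      have e4 : x + 2 * v - x = 2 * v := by ring
      rw [e3, e4, Int.gcd_mul_left, hg]
      rfl
  · rintro ⟨u, v⟩ - ⟨u', v'⟩ - h
    simp only [Prod.mk.injEq] at h ⊢
    omega

end COVER2

open COVER2 in
/-- COVER2. -/
theorem thmCover2 (h : SBox) : SCover2 := by
  intro N F x a hN hF hx hxa hmem
  rw [Finset.mem_Icc] at hx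
  obtain ⟨hx1, hxN⟩ := hx
  set B : Finset (ℕ × ℕ) := (Qd F x 1).image (arm x) with hB
  set l0 : ℕ := ((x - 1) / 2).toNat with hl0
  set r0 : ℕ := ((N - x) / 2).toNat with hr0
  set a0 : ℕ := a / 2 with ha0
  have hBq : ∀ q ∈ B, q.1 ≤ l0 ∧ a0 ≤ q.2 ∧ q.2 ≤ r0 := by
    intro q hq
    rw [hB, mem_image] at hq
    obtain ⟨A, hA, rfl⟩ := hq
    obtain ⟨i, j, hAe, hi, hj⟩ := exists_arms hF hA
    unfold Qd at hA
    rw [mem_filter, Pd_mem] at hA
    obtain ⟨⟨hAF, p, k, hk, hap⟩, hxA⟩ := hA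
    have hAP : APc A := by rw [hap]; exact APc_apset _ _ _
    obtain ⟨y, hy, hya⟩ := hmem A hAF hxA hAP
    rw [hAe, Finset.mem_Icc] at hy
    rw [hAe, arm_Icc]
    simp only
    refine ⟨by omega, by omega, by omega⟩
  have hbox := h B l0 r0 a0 hBq
  have hQ : (Qd F x 1).card ≤ 4 * B.card :=
    card_le_mul_card_image (Qd F x 1) 4 (fun b _ => fiber_card hF b)
  have hC : (BoxCov (l0 + r0) B).card ≤ (CovS N F x 2).card := cov_card hF _
  have hBc : B.card ≤ (l0 + 1) * (r0 + 1) := by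
    have hsub : B ⊆ range (l0 + 1) ×ˢ range (r0 + 1) := by
      intro q hq
      have := hBq q hq
      rw [mem_product, mem_range, mem_range]
      omega
    refine (card_le_card hsub).trans ?_
    rw [card_product, card_range, card_range]
  have hsum : l0 + r0 + 1 ≤ N := by omega
  have hl : (2 * l0 : ℤ) ≤ x - 1 := by omega
  have hl' : x - 1 ≤ 2 * l0 + 1 := by omega
  have ha' : a ≤ 2 * a0 + 1 := by omega
  -- real versions
  have hQr : ((Qd F x 1).card : ℝ) ≤ 4 * (B.card : ℝ) := by exact_mod_cast hQ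
  have hCr : ((BoxCov (l0 + r0) B).card : ℝ) ≤ ((CovS N F x 2).card : ℝ) := by exact_mod_cast hC
  have hBcr : (B.card : ℝ) ≤ (N : ℝ) ^ 2 := by
    have h1 : (l0 + 1) * (r0 + 1) ≤ N ^ 2 := by
      rw [pow_two]
      exact Nat.mul_le_mul (by omega) (by omega)
    exact_mod_cast hBc.trans h1
  have hsr : (l0 : ℝ) + r0 + 1 ≤ N := by exact_mod_cast hsum
  have hlr : 2 * (l0 : ℝ) ≤ (x : ℝ) - 1 := by
    have : ((2 * l0 : ℤ) : ℝ) ≤ ((x - 1 : ℤ) : ℝ) := by exact_mod_cast hl
    push_cast at this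
    linarith
  have hlr' : (x : ℝ) - 1 ≤ 2 * (l0 : ℝ) + 1 := by
    have : ((x - 1 : ℤ) : ℝ) ≤ ((2 * l0 + 1 : ℤ) : ℝ) := by exact_mod_cast hl'
    push_cast at this
    linarith
  have har : (a : ℝ) ≤ 2 * (a0 : ℝ) + 1 := by exact_mod_cast ha'
  have hl0' : (0 : ℝ) ≤ l0 := Nat.cast_nonneg _
  have ha0' : (0 : ℝ) ≤ a0 := Nat.cast_nonneg _
  have hB0 : (0 : ℝ) ≤ B.card := Nat.cast_nonneg _
  have hC0 : (0 : ℝ) ≤ (CovS N F x 2).card := Nat.cast_nonneg _
  have hxr : (0 : ℝ) ≤ (x : ℝ) - 1 + a := by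
    have : (0 : ℝ) ≤ (a : ℝ) := Nat.cast_nonneg _
    linarith
  have s1 : 1.174 * (((x : ℝ) - 1) + a) * ((Qd F x 1).card : ℝ) / 4
      ≤ 1.174 * (((x : ℝ) - 1) + a) * (B.card : ℝ) := by
    have : 1.174 * (((x : ℝ) - 1) + a) * ((Qd F x 1).card : ℝ)
        ≤ 1.174 * (((x : ℝ) - 1) + a) * (4 * (B.card : ℝ)) :=
      mul_le_mul_of_nonneg_left hQr (by positivity)
    linarith
  have s2 : 1.174 * (((x : ℝ) - 1) + a) * (B.card : ℝ)
      ≤ 1.174 * (2 * ((l0 : ℝ) + a0) + 2) * (B.card : ℝ) := by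
    apply mul_le_mul_of_nonneg_right _ hB0
    linarith
  have s3 : (l0 : ℝ) * ((BoxCov (l0 + r0) B).card : ℝ) * 2
      ≤ ((x : ℝ) - 1) * ((CovS N F x 2).card : ℝ) := by
    calc (l0 : ℝ) * ((BoxCov (l0 + r0) B).card : ℝ) * 2
        ≤ (l0 : ℝ) * ((CovS N F x 2).card : ℝ) * 2 := by
          have := mul_le_mul_of_nonneg_left hCr hl0'
          linarith
      _ = (2 * (l0 : ℝ)) * ((CovS N F x 2).card : ℝ) := by ring
      _ ≤ _ := mul_le_mul_of_nonneg_right hlr hC0
  have s4 : ((l0 : ℝ) + r0 + 1) ^ 2 ≤ (N : ℝ) ^ 2 := by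
    apply pow_le_pow_left₀ _ hsr
    have : (0 : ℝ) ≤ r0 := Nat.cast_nonneg _
    linarith
  have s5 : 1.174 * (2 * ((l0 : ℝ) + a0) + 2) * (B.card : ℝ)
      = 2 * (1.174 * ((l0 : ℝ) + a0) * (B.card : ℝ)) + 2.348 * (B.card : ℝ) := by ring
  rw [s5] at s2
  have hN2 : (0 : ℝ) ≤ (N : ℝ) ^ 2 := by positivity
  linarith

end Pool.Agent.Work.MP_1d0aa8_co

end

section

/-!
# DELTA: the number of intervals avoiding `x`
-/

set_option autoImplicit false

namespace Pool.Agent.Work.MP_1d0aa8_co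

open Finset
open scoped Classical

theorem delta_apset (p : ℤ) (k : ℕ) : apset p 1 k = Icc p (p + k) := by
  ext y
  rw [apset, mem_image, mem_Icc]
  constructor
  · rintro ⟨i, hi, rfl⟩
    rw [mem_range] at hi
    constructor <;> push_cast <;> omega
  · rintro ⟨h1, h2⟩
    refine ⟨(y - p).toNat, ?_, ?_⟩
    · rw [mem_range]
      omega
    · push_cast
      omega

/-- The two gaps of an interval. -/
noncomputable def deltaMap (N : ℕ) (x : ℤ) (A : Finset ℤ) : ℕ × ℕ :=
  if h : A.Nonempty then ((A.min' h - x).toNat, ((N : ℤ) - A.max' h).toNat) else (0, 0)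

theorem deltaMap_Icc (N : ℕ) (x p q : ℤ) (h : p ≤ q) :
    deltaMap N x (Icc p q) = ((p - x).toNat, ((N : ℤ) - q).toNat) := by
  have hne : (Icc p q).Nonempty := nonempty_Icc.2 h
  have hmin : (Icc p q).min' hne = p := by
    apply le_antisymm
    · exact min'_le _ _ (left_mem_Icc.2 h)
    · exact (le_min'_iff _ _).2 fun y hy => (mem_Icc.1 hy).1
  have hmax : (Icc p q).max' hne = q := by
    apply le_antisymm
    · exact (max'_le_iff _ _).2 fun y hy => (mem_Icc.1 hy).2
    · exact le_max' _ _ (right_mem_Icc.2 h)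
  rw [deltaMap, dif_pos hne, hmin, hmax]

theorem thmDelta (h : SArea) : SDelta := by
  intro N F x a b T hF hx hright ha hb hT
  have hstr : ∀ A ∈ Sd F x 1, ∃ p q : ℤ, p ≤ q ∧ A = Icc p q ∧ x < p ∧ q ≤ N := by
    intro A hA
    have hA1 := hA
    rw [Sd, mem_filter, Pd, mem_filter] at hA1
    obtain ⟨⟨hAF, p, k, _, rfl⟩, _⟩ := hA1
    have hp : p ≤ p + (k : ℤ) := by omega
    have h1 : p ∈ apset p 1 k := by
      rw [delta_apset]
      exact left_mem_Icc.2 hp
    have h2 : p + (k : ℤ) ∈ apset p 1 k := by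
      rw [delta_apset]
      exact right_mem_Icc.2 hp
    exact ⟨p, p + k, hp, delta_apset p k, hright _ hA p h1, (mem_Icc.1 (hF.sub _ hAF h2)).2⟩
  set D : Finset (ℕ × ℕ) := (Sd F x 1).image (deltaMap N x) with hD
  have hinj : Set.InjOn (deltaMap N x) (Sd F x 1 : Finset (Finset ℤ)) := by
    intro A hA B hB hAB
    obtain ⟨p, q, hpq, rfl, hxp, hqN⟩ := hstr A hA
    obtain ⟨p', q', hpq', rfl, hxp', hqN'⟩ := hstr B hB
    rw [deltaMap_Icc N x p q hpq, deltaMap_Icc N x p' q' hpq', Prod.mk.injEq] at hAB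
    have h1 : p = p' := by omega
    have h2 : q = q' := by omega
    rw [h1, h2]
  have hcard : D.card = (Sd F x 1).card := card_image_of_injOn hinj
  have hbd : ∀ t ∈ D, t.1 ≤ a ∧ t.2 ≤ b ∧ t.1 + t.2 ≤ T := by
    intro t ht
    rw [hD, mem_image] at ht
    obtain ⟨A, hA, rfl⟩ := ht
    have h1 := ha A hA
    have h2 := hb A hA
    have h3 := hT A hA
    obtain ⟨p, q, hpq, rfl, hxp, hqN⟩ := hstr A hA
    obtain ⟨y, hy, hya⟩ := h1
    obtain ⟨z, hz, hzb⟩ := h2
    rw [mem_Icc] at hy hz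
    rw [Int.card_Icc] at h3
    rw [deltaMap_Icc N x p q hpq]
    simp only
    refine ⟨by omega, by omega, by omega⟩
  have h5 := h D a b T hbd
  rw [hcard] at h5
  exact h5

end Pool.Agent.Work.MP_1d0aa8_co

end

section

/-!
# MP_1d0aa8_co: DIV
-/

set_option autoImplicit false

namespace Pool.Agent.Work.MP_1d0aa8_co

open Finset
open scoped Classical

namespace DivAux

lemma harm (N : ℕ) : ∑ i ∈ Icc 1 N, (1 : ℝ) / (i : ℝ) ≤ lg N := by
  have h1 := harmonic_le_one_add_log N
  have h2 : ((harmonic N : ℚ) : ℝ) = ∑ i ∈ Icc 1 N, (1 : ℝ) / (i : ℝ) := by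
    rw [harmonic_eq_sum_Icc]
    push_cast
    simp only [one_div]
  rw [← h2]
  exact h1

lemma fiber_card (N d g : ℕ) (hd : 1 ≤ d) (hg : 1 ≤ g) :
    ((Icc 1 N).filter (fun n => d ∣ n ∧ g ∣ n)).card ≤ N / Nat.lcm d g := by
  have hl : 0 < Nat.lcm d g := Nat.lcm_pos hd hg
  have h1 : (Icc 1 N).filter (fun n => d ∣ n ∧ g ∣ n) ⊆
      (Icc 1 (N / Nat.lcm d g)).image (fun m => m * Nat.lcm d g) := by
    intro n hn
    rw [mem_filter, mem_Icc] at hn
    obtain ⟨m, hm⟩ := Nat.lcm_dvd hn.2.1 hn.2.2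
    rw [mem_image]
    refine ⟨m, ?_, by rw [hm, mul_comm]⟩
    rw [mem_Icc]
    constructor
    · rcases Nat.eq_zero_or_pos m with h | h
      · rw [h, mul_zero] at hm; omega
      · exact h
    · rw [Nat.le_div_iff_mul_le hl, mul_comm, ← hm]
      exact hn.1.2
  refine (card_le_card h1).trans (card_image_le.trans ?_)
  simp

end DivAux

open DivAux in
theorem thmDiv : SDiv := by
  intro N hN
  set I := Icc 1 N with hI
  set S := ((I ×ˢ (I ×ˢ I)).filter (fun t : ℕ × ℕ × ℕ => t.2.1 ∣ t.1 ∧ t.2.2 ∣ t.1)) with hS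
  have h1 : S.card = ∑ b ∈ I ×ˢ I, (S.filter (fun t => t.2 = b)).card := by
    apply card_eq_sum_card_fiberwise
    intro t ht
    rw [mem_coe, hS, mem_filter, mem_product] at ht
    exact ht.1.2
  have h2 : ∀ b ∈ I ×ˢ I, (S.filter (fun t => t.2 = b)).card ≤ N / Nat.lcm b.1 b.2 := by
    intro b hb
    rw [mem_product, hI, mem_Icc, mem_Icc] at hb
    refine le_trans ?_ (fiber_card N b.1 b.2 hb.1.1 hb.2.1)
    apply card_le_card_of_injOn (fun t => t.1)
    · intro t ht
      rw [mem_coe, mem_filter, hS, mem_filter, mem_product] at ht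
      obtain ⟨⟨ht1, ht2⟩, ht3⟩ := ht
      rw [mem_coe, mem_filter]
      rw [← ht3]
      exact ⟨ht1.1, ht2⟩
    · intro t ht u hu htu
      rw [mem_coe, mem_filter] at ht hu
      exact Prod.ext htu (ht.2.trans hu.2.symm)
  have h3 : (S.card : ℝ) ≤ ∑ b ∈ I ×ˢ I, (N : ℝ) * (1 / (Nat.lcm b.1 b.2 : ℝ)) := by
    rw [h1]
    push_cast
    apply sum_le_sum
    intro b hb
    have := h2 b hb
    calc ((S.filter (fun t => t.2 = b)).card : ℝ) ≤ ((N / Nat.lcm b.1 b.2 : ℕ) : ℝ) := by
          exact_mod_cast this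
      _ ≤ (N : ℝ) / (Nat.lcm b.1 b.2 : ℝ) := Nat.cast_div_le
      _ = _ := by ring
  have h4 : ∑ b ∈ I ×ˢ I, (1 : ℝ) / (Nat.lcm b.1 b.2 : ℝ) ≤
      ∑ t ∈ I ×ˢ (I ×ˢ I), (1 / (t.1 : ℝ)) * ((1 / (t.2.1 : ℝ)) * (1 / (t.2.2 : ℝ))) := by
    have h5 : ∑ b ∈ I ×ˢ I, (1 : ℝ) / (Nat.lcm b.1 b.2 : ℝ) =
        ∑ t ∈ (I ×ˢ I).image (fun b => (Nat.gcd b.1 b.2, b.1 / Nat.gcd b.1 b.2,
          b.2 / Nat.gcd b.1 b.2)), (1 / (t.1 : ℝ)) * ((1 / (t.2.1 : ℝ)) * (1 / (t.2.2 : ℝ))) := by
      rw [sum_image]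
      · apply sum_congr rfl
        intro b hb
        rw [mem_product, hI, mem_Icc, mem_Icc] at hb
        have hg : 0 < Nat.gcd b.1 b.2 := Nat.gcd_pos_of_pos_left _ hb.1.1
        set g := Nat.gcd b.1 b.2 with hgdef
        have hu : g * (b.1 / g) = b.1 := Nat.mul_div_cancel' (Nat.gcd_dvd_left b.1 b.2)
        have hv : g * (b.2 / g) = b.2 := Nat.mul_div_cancel' (Nat.gcd_dvd_right b.1 b.2)
        have hlcm : Nat.lcm b.1 b.2 = g * ((b.1 / g) * (b.2 / g)) := by
          have e1 : g * Nat.lcm b.1 b.2 = b.1 * b.2 := Nat.gcd_mul_lcm b.1 b.2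
          have e2 : b.1 * b.2 = g * (g * ((b.1 / g) * (b.2 / g))) := by
            calc b.1 * b.2 = (g * (b.1 / g)) * (g * (b.2 / g)) := by rw [hu, hv]
              _ = _ := by ring
          exact Nat.eq_of_mul_eq_mul_left hg (e1.trans e2)
        rw [hlcm]
        push_cast
        rw [one_div_mul_one_div, one_div_mul_one_div]
      · intro b hb c hc hbc
        have e1 : Nat.gcd b.1 b.2 = Nat.gcd c.1 c.2 := congrArg Prod.fst hbc
        have e2 : b.1 / Nat.gcd b.1 b.2 = c.1 / Nat.gcd c.1 c.2 :=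
          congrArg (fun t => t.2.1) hbc
        have e3 : b.2 / Nat.gcd b.1 b.2 = c.2 / Nat.gcd c.1 c.2 :=
          congrArg (fun t => t.2.2) hbc
        apply Prod.ext
        · rw [← Nat.mul_div_cancel' (Nat.gcd_dvd_left b.1 b.2),
            ← Nat.mul_div_cancel' (Nat.gcd_dvd_left c.1 c.2), e2, e1]
        · rw [← Nat.mul_div_cancel' (Nat.gcd_dvd_right b.1 b.2),
            ← Nat.mul_div_cancel' (Nat.gcd_dvd_right c.1 c.2), e3, e1]
    rw [h5]
    apply sum_le_sum_of_subset_of_nonneg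
    · intro t ht
      rw [mem_image] at ht
      obtain ⟨b, hb, rfl⟩ := ht
      rw [mem_product, hI, mem_Icc, mem_Icc] at hb
      have hg : 0 < Nat.gcd b.1 b.2 := Nat.gcd_pos_of_pos_left _ hb.1.1
      rw [mem_product, mem_product]
      simp only [hI, mem_Icc]
      refine ⟨⟨hg, (Nat.gcd_le_left _ hb.1.1).trans hb.1.2⟩, ⟨?_, ?_⟩, ⟨?_, ?_⟩⟩
      · exact Nat.div_pos (Nat.gcd_le_left _ hb.1.1) hg
      · exact (Nat.div_le_self _ _).trans hb.1.2
      · exact Nat.div_pos (Nat.gcd_le_right _ hb.2.1) hg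
      · exact (Nat.div_le_self _ _).trans hb.2.2
    · intro t _ _
      positivity
  have h6 : ∑ t ∈ I ×ˢ (I ×ˢ I), (1 / (t.1 : ℝ)) * ((1 / (t.2.1 : ℝ)) * (1 / (t.2.2 : ℝ))) =
      (∑ i ∈ I, 1 / (i : ℝ)) ^ 3 := by
    rw [sum_product]
    simp only [← mul_sum]
    rw [← sum_mul, sum_product]
    simp only [← mul_sum]
    rw [← sum_mul]
    ring
  have h7 : (∑ i ∈ I, 1 / (i : ℝ)) ^ 3 ≤ lg N ^ 3 := by
    apply pow_le_pow_left₀ _ (harm N)
    apply sum_nonneg
    intro i _
    positivity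
  calc (S.card : ℝ) ≤ ∑ b ∈ I ×ˢ I, (N : ℝ) * (1 / (Nat.lcm b.1 b.2 : ℝ)) := h3
    _ = N * ∑ b ∈ I ×ˢ I, (1 / (Nat.lcm b.1 b.2 : ℝ)) := by rw [mul_sum]
    _ ≤ N * lg N ^ 3 := by
      apply mul_le_mul_of_nonneg_left _ (Nat.cast_nonneg _)
      exact h4.trans (h6.le.trans h7)

end Pool.Agent.Work.MP_1d0aa8_co

end

section

set_option autoImplicit false

namespace Pool.Agent.Work.MP_1d0aa8_co

open Finset
open scoped Classical

theorem thmExcCount : SExcCount := by
  intro N F x y θ hF _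
  set G := F.filter (fun A => x ∈ A ∧ y ∈ A ∧ θ ≤ (Exc A x y).card) with hG
  have hdis : (G : Set (Finset ℤ)).PairwiseDisjoint (fun A => Exc A x y) := by
    intro A hA B hB hAB
    rw [Function.onFun, Finset.disjoint_left]
    intro w hw hw'
    rw [Finset.mem_coe, hG, Finset.mem_filter] at hA hB
    rw [Exc, Finset.mem_filter] at hw hw'
    have hap := hF.ap A hA.1 B hB.1 hAB
    have hsub := hap.2 x (Finset.mem_inter.2 ⟨hA.2.1, hB.2.1⟩) y
      (Finset.mem_inter.2 ⟨hA.2.2.1, hB.2.2.1⟩) w (Finset.mem_inter.2 ⟨hw.1, hw'.1⟩)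
    exact hw.2 (hsub.trans Finset.inter_subset_left)
  have hsub : G.biUnion (fun A => Exc A x y) ⊆ Icc 1 (N : ℤ) := by
    intro w hw
    rw [Finset.mem_biUnion] at hw
    obtain ⟨A, hA, hw⟩ := hw
    rw [hG, Finset.mem_filter] at hA
    rw [Exc, Finset.mem_filter] at hw
    exact hF.sub A hA.1 hw.1
  have h1 := Finset.card_le_card hsub
  rw [Finset.card_biUnion hdis, Int.card_Icc] at h1
  have h2 : G.card * θ ≤ ∑ A ∈ G, (Exc A x y).card := by
    rw [← smul_eq_mul]
    refine Finset.card_nsmul_le_sum G _ θ fun A hA => ?_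
    rw [hG, Finset.mem_filter] at hA
    exact hA.2.2.2
  have h3 : ((N : ℤ) + 1 - 1).toNat = N := by
    rw [add_sub_cancel_right, Int.toNat_natCast]
  rw [h3] at h1
  exact h2.trans h1

end Pool.Agent.Work.MP_1d0aa8_co

end

section

/-!
# MP_1d0aa8_co: item EXTRAS (members avoiding `x` which are not intervals)
-/

set_option autoImplicit false

namespace Pool.Agent.Work.MP_1d0aa8_co

open Finset
open scoped Classical

namespace ItEXTRAS

/-- A large subset of `[N]` contains two consecutive integers. -/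
theorem exists_consec (N : ℕ) (S : Finset ℤ) (hS : S ⊆ Icc 1 (N : ℤ)) (h : N + 1 < 2 * S.card) :
    ∃ t ∈ S, t + 1 ∈ S := by
  by_contra hcon
  push Not at hcon
  have hdisj : Disjoint S (S.image (fun t => t + 1)) := by
    rw [Finset.disjoint_left]
    intro a ha hb
    rw [Finset.mem_image] at hb
    obtain ⟨t, ht, rfl⟩ := hb
    exact hcon t ht ha
  have hsub : S ∪ S.image (fun t => t + 1) ⊆ Icc 1 ((N : ℤ) + 1) := by
    intro a ha
    rw [Finset.mem_union] at ha
    rw [Finset.mem_Icc]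
    rcases ha with ha | ha
    · have := Finset.mem_Icc.1 (hS ha)
      constructor <;> linarith [this.1, this.2]
    · rw [Finset.mem_image] at ha
      obtain ⟨t, ht, rfl⟩ := ha
      have := Finset.mem_Icc.1 (hS ht)
      constructor <;> linarith [this.1, this.2]
  have hcard := Finset.card_le_card hsub
  rw [Finset.card_union_of_disjoint hdisj,
    Finset.card_image_of_injective _ (add_left_injective (1 : ℤ)), Int.card_Icc] at hcard
  have h3 : ((N : ℤ) + 1 + 1 - 1).toNat = N + 1 := by omega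
  rw [h3] at hcard
  omega

/-- A progression with two consecutive elements is an interval. -/
theorem ordConn (S : Finset ℤ) (hap : APc S) (t : ℤ) (ht : t ∈ S) (ht1 : t + 1 ∈ S) (u v y : ℤ)
    (hu : u ∈ S) (hv : v ∈ S) (huy : u ≤ y) (hyv : y ≤ v) : y ∈ S := by
  have key : ∀ w ∈ S, min t w ≤ y → y ≤ max (t + 1) w → y ∈ S := by
    intro w hw h1 h2
    refine hap.2 t ht (t + 1) ht1 w hw ?_
    unfold hull
    rw [Finset.mem_filter, Finset.mem_Icc]
    refine ⟨⟨?_, ?_⟩, ?_⟩
    · refine le_trans ?_ h1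
      exact min_le_min le_rfl (min_le_right _ _)
    · refine h2.trans ?_
      exact le_max_right _ _
    · have : Int.gcd (t + 1 - t) (w - t) = 1 := by
        rw [add_sub_cancel_left]
        exact Int.one_gcd
      rw [this]
      simp
  rcases le_or_gt y t with h | h
  · refine key u hu ?_ ?_
    · exact (min_le_right _ _).trans huy
    · exact le_trans (by linarith) (le_max_left _ _)
  · refine key v hv ?_ ?_
    · exact (min_le_left _ _).trans h.le
    · exact hyv.trans (le_max_right _ _)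

/-- An order connected finite set with at least two elements is `apset a 1 k`. -/
theorem eq_apset (S : Finset ℤ) (hc : 2 ≤ S.card)
    (h : ∀ u ∈ S, ∀ v ∈ S, ∀ y, u ≤ y → y ≤ v → y ∈ S) :
    ∃ (a : ℤ) (k : ℕ), 1 ≤ k ∧ S = apset a 1 k := by
  have hne : S.Nonempty := Finset.card_pos.1 (by omega)
  set a := S.min' hne with ha
  set b := S.max' hne with hb
  have hab : a ≤ b := Finset.min'_le_max' S hne
  have hS : S = Icc a b := by
    ext y
    rw [Finset.mem_Icc]
    constructor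
    · intro hy
      exact ⟨Finset.min'_le S y hy, Finset.le_max' S y hy⟩
    · rintro ⟨h1, h2⟩
      exact h a (Finset.min'_mem S hne) b (Finset.max'_mem S hne) y h1 h2
  refine ⟨a, (b - a).toNat, ?_, ?_⟩
  · rw [hS, Int.card_Icc] at hc
    omega
  · rw [hS]
    ext y
    unfold apset
    rw [Finset.mem_Icc, Finset.mem_image]
    constructor
    · rintro ⟨h1, h2⟩
      refine ⟨(y - a).toNat, ?_, ?_⟩
      · rw [Finset.mem_range]
        omega
      · push_cast
        omega
    · rintro ⟨i, hi, rfl⟩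
      rw [Finset.mem_range] at hi
      push_cast
      omega

end ItEXTRAS

open ItEXTRAS in
theorem thmExtras : SExtras := by
  intro N F x k hF hx hN hbig h2
  have hxI := Finset.mem_Icc.1 hx
  -- the members avoiding `x`
  have hAv : ∀ B ∈ Av F x, B ∈ F ∧ x ∉ B := fun B hB => Finset.mem_filter.1 hB
  have hsub : ∀ B ∈ Av F x, B ⊆ (Icc 1 (N : ℤ)).erase x := by
    intro B hB y hy
    rw [Finset.mem_erase]
    exact ⟨fun h => (hAv B hB).2 (h ▸ hy), hF.sub B (hAv B hB).1 hy⟩
  have hcardE : ((Icc 1 (N : ℤ)).erase x).card = N - 1 := by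
    rw [Finset.card_erase_of_mem hx, Int.card_Icc]
    omega
  have hcard : ∀ B ∈ Av F x, N ≤ B.card + 1 + k ∧ B.card ≤ N - 1 := by
    intro B hB
    refine ⟨hbig B (hAv B hB).1 (hAv B hB).2, ?_⟩
    rw [← hcardE]
    exact Finset.card_le_card (hsub B hB)
  have hN1 : 1 ≤ N := by omega
  -- `k ≥ 1`
  have hk : 1 ≤ k := by
    by_contra hk0
    have hk0' : k = 0 := by omega
    obtain ⟨B, hB, B', hB', hne⟩ := Finset.one_lt_card.1 (show 1 < (Av F x).card by omega)
    have e1 : B = (Icc 1 (N : ℤ)).erase x :=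
      Finset.eq_of_subset_of_card_le (hsub B hB) (by
        have := hcard B hB
        rw [hcardE]
        omega)
    have e2 : B' = (Icc 1 (N : ℤ)).erase x :=
      Finset.eq_of_subset_of_card_le (hsub B' hB') (by
        have := hcard B' hB'
        rw [hcardE]
        omega)
    exact hne (e1.trans e2.symm)
  -- intersections
  have hint : ∀ B ∈ Av F x, ∀ B' ∈ Av F x, N ≤ (B ∩ B').card + 1 + 2 * k := by
    intro B hB B' hB'
    have h1 := Finset.card_union_add_card_inter B B'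
    have h2' : (B ∪ B').card ≤ N - 1 := by
      rw [← hcardE]
      exact Finset.card_le_card (Finset.union_subset (hsub B hB) (hsub B' hB'))
    have h3 := hcard B hB
    have h4 := hcard B' hB'
    omega
  have hconn : ∀ B ∈ Av F x, ∀ B' ∈ Av F x, B ≠ B' → ∀ u ∈ B ∩ B', ∀ v ∈ B ∩ B', ∀ y,
      u ≤ y → y ≤ v → y ∈ B ∩ B' := by
    intro B hB B' hB' hne u hu v hv y h1 h2'
    obtain ⟨t, ht, ht1⟩ := exists_consec N (B ∩ B')
      (Finset.inter_subset_left.trans (hF.sub B (hAv B hB).1)) (by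
        have := hint B hB B' hB'
        omega)
    exact ordConn (B ∩ B') (hF.ap B (hAv B hB).1 B' (hAv B' hB').1 hne) t ht ht1 u v y hu hv h1 h2'
  constructor
  · -- the number of members which are not intervals
    set E := (Av F x).filter (fun A => A ∉ Sd F x 1) with hE
    have hEAv : ∀ B ∈ E, B ∈ Av F x := fun B hB => (Finset.mem_filter.1 hB).1
    -- private points
    have hpriv : ∀ B ∈ E, ∃ c ∈ B, ∀ B' ∈ Av F x, B' ≠ B → c ∉ B' := by
      intro B hB
      by_contra hcon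
      push Not at hcon
      have hBA := hEAv B hB
      refine (Finset.mem_filter.1 hB).2 ?_
      have hcB := hcard B hBA
      obtain ⟨a, j, hj, hBe⟩ := eq_apset B (by omega) (by
        intro u hu v hv y huy hyv
        obtain ⟨B1, hB1, hne1, hu1⟩ := hcon u hu
        obtain ⟨B2, hB2, hne2, hv2⟩ := hcon v hv
        -- a common point of `B ∩ B1` and `B ∩ B2`
        have h1 := hint B hBA B1 hB1
        have h2' := hint B hBA B2 hB2
        obtain ⟨z, hz⟩ : ((B ∩ B1) ∩ (B ∩ B2)).Nonempty := by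
          rw [← Finset.card_pos]
          have h3 := Finset.card_union_add_card_inter (B ∩ B1) (B ∩ B2)
          have h4 : ((B ∩ B1) ∪ (B ∩ B2)).card ≤ N - 1 := by
            rw [← hcardE]
            refine Finset.card_le_card (Finset.union_subset ?_ ?_)
            · exact Finset.inter_subset_left.trans (hsub B hBA)
            · exact Finset.inter_subset_left.trans (hsub B hBA)
          omega
        rw [Finset.mem_inter] at hz
        rcases le_total y z with hyz | hzy
        · exact (Finset.mem_inter.1 (hconn B hBA B1 hB1 hne1.symm u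
            (Finset.mem_inter.2 ⟨hu, hu1⟩) z hz.1 y huy hyz)).1
        · exact (Finset.mem_inter.1 (hconn B hBA B2 hB2 hne2.symm z hz.2 v
            (Finset.mem_inter.2 ⟨hv, hv2⟩) y hzy hyv)).1)
      unfold Sd Pd
      rw [Finset.mem_filter, Finset.mem_filter]
      exact ⟨⟨(hAv B hBA).1, a, j, hj, hBe⟩, (hAv B hBA).2⟩
    rcases E.eq_empty_or_nonempty with he | ⟨B0, hB0⟩
    · rw [he, Finset.card_empty]
      omega
    · choose! c hc1 hc2 using hpriv
      have hle : (E.erase B0).card ≤ (((Icc 1 (N : ℤ)).erase x) \ B0).card := by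
        refine Finset.card_le_card_of_injOn c ?_ ?_
        · intro B hB
          rw [Finset.mem_coe, Finset.mem_erase] at hB
          rw [Finset.mem_coe, Finset.mem_sdiff]
          exact ⟨hsub B (hEAv B hB.2) (hc1 B hB.2), hc2 B hB.2 B0 (hEAv B0 hB0) hB.1.symm⟩
        · intro B hB B' hB' hcc
          rw [Finset.mem_coe, Finset.mem_erase] at hB hB'
          by_contra hne
          refine hc2 B hB.2 B' (hEAv B' hB'.2) (fun h => hne h.symm) ?_
          rw [hcc]
          exact hc1 B' hB'.2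
      rw [Finset.card_sdiff_of_subset (hsub B0 (hEAv B0 hB0)), hcardE,
        Finset.card_erase_of_mem hB0] at hle
      have := hcard B0 (hEAv B0 hB0)
      omega
  · -- the position of `x`
    obtain ⟨B, hB, B', hB', hne⟩ := Finset.one_lt_card.1 (show 1 < (Av F x).card by omega)
    have h1 := hint B hB B' hB'
    have hxS : x ∉ B ∩ B' := fun h => (hAv B hB).2 (Finset.mem_inter.1 h).1
    have hSub : B ∩ B' ⊆ Icc 1 (N : ℤ) :=
      Finset.inter_subset_left.trans (hF.sub B (hAv B hB).1)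
    by_cases hlt : ∃ u ∈ B ∩ B', u < x
    · right
      obtain ⟨u, hu, hux⟩ := hlt
      have hall : B ∩ B' ⊆ Icc 1 (x - 1) := by
        intro v hv
        rw [Finset.mem_Icc]
        refine ⟨(Finset.mem_Icc.1 (hSub hv)).1, ?_⟩
        by_contra hcon
        have hxv : x ≤ v := by omega
        exact hxS (hconn B hB B' hB' hne u hu v hv x hux.le hxv)
      have h3 := Finset.card_le_card hall
      rw [Int.card_Icc] at h3
      omega
    · left
      push Not at hlt
      have hall : B ∩ B' ⊆ Icc (x + 1) (N : ℤ) := by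
        intro v hv
        rw [Finset.mem_Icc]
        refine ⟨?_, (Finset.mem_Icc.1 (hSub hv)).2⟩
        have h3 := hlt v hv
        rcases h3.lt_or_eq with h4 | h4
        · omega
        · exact absurd (h4 ▸ hv) hxS
      have h3 := Finset.card_le_card hall
      rw [Int.card_Icc] at h3
      omega

end Pool.Agent.Work.MP_1d0aa8_co

end

section

/-!
# LARGE: few large non-AP members
-/

set_option autoImplicit false

namespace Pool.Agent.Work.MP_1d0aa8_co

open Finset
open scoped Classical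

theorem large_mem_hull (x u v y : ℤ) : y ∈ hull x u v ↔
    (min x (min u v) ≤ y ∧ y ≤ max x (max u v)) ∧ ((Int.gcd (u - x) (v - x) : ℕ) : ℤ) ∣ y - x := by
  rw [hull, mem_filter, mem_Icc]

/-- A set with consecutive points `u`, `v` all of whose hulls with `u`, `v` are inside is an AP. -/
theorem large_run (A : Finset ℤ) (u v : ℤ) (hu : u ∈ A) (_hv : v ∈ A) (huv : u < v)
    (hgap : ∀ w ∈ A, u < w → v ≤ w) (h : ∀ w ∈ A, hull u v w ⊆ A) : APc A := by
  -- the difference divides everything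
  have hdvd : ∀ w ∈ A, v - u ∣ w - u := by
    intro w hw
    set e : ℤ := ((Int.gcd (v - u) (w - u) : ℕ) : ℤ) with he
    have he1 : e ∣ v - u := Int.gcd_dvd_left _ _
    have he2 : e ∣ w - u := Int.gcd_dvd_right _ _
    have hle : e ≤ v - u := Int.le_of_dvd (by omega) he1
    have hpos : 0 < e := by
      have : 0 < Int.gcd (v - u) (w - u) := Int.gcd_pos_of_ne_zero_left _ (by omega)
      omega
    have hmem : u + e ∈ hull u v w := by
      rw [large_mem_hull]
      refine ⟨⟨?_, ?_⟩, ?_⟩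
      · exact (min_le_left _ _).trans (by omega)
      · exact le_trans (by omega : u + e ≤ v) ((le_max_left v w).trans (le_max_right _ _))
      · rw [add_sub_cancel_left]
    have h1 := hgap (u + e) (h w hw hmem) (by omega)
    have h2 : e = v - u := by omega
    rw [← h2]
    exact he2
  -- full between two points of `A`
  have hfull : ∀ w ∈ A, ∀ y : ℤ, v - u ∣ y - u → min u w ≤ y → y ≤ max u w → y ∈ A := by
    intro w hw y hy h1 h2
    refine h w hw ?_
    rw [large_mem_hull]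
    refine ⟨⟨?_, ?_⟩, ?_⟩
    · refine le_trans ?_ h1
      exact le_min (min_le_left _ _) ((min_le_right _ _).trans (min_le_right _ _))
    · refine h2.trans ?_
      exact max_le (le_max_left _ _) ((le_max_right _ _).trans (le_max_right _ _))
    · exact (Int.gcd_dvd_left _ _).trans hy
  refine ⟨⟨u, hu⟩, ?_⟩
  intro a ha b hb c hc y hy
  rw [large_mem_hull] at hy
  obtain ⟨⟨h1, h2⟩, h3⟩ := hy
  have hd : v - u ∣ y - u := by
    have h4 : v - u ∣ ((Int.gcd (b - a) (c - a) : ℕ) : ℤ) := by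
      apply Int.dvd_coe_gcd
      · have := Int.dvd_sub (hdvd b hb) (hdvd a ha)
        have h5 : b - u - (a - u) = b - a := by ring
        rwa [h5] at this
      · have := Int.dvd_sub (hdvd c hc) (hdvd a ha)
        have h5 : c - u - (a - u) = c - a := by ring
        rwa [h5] at this
    have h5 := Int.dvd_add (h4.trans h3) (hdvd a ha)
    have h6 : y - a + (a - u) = y - u := by ring
    rwa [h6] at h5
  rcases le_total u y with huy | huy
  · -- a point of `A` at or beyond `y`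
    have : ∃ w ∈ A, y ≤ w := by
      rcases le_max_iff.1 h2 with h | h
      · exact ⟨a, ha, h⟩
      · rcases le_max_iff.1 h with h | h
        · exact ⟨b, hb, h⟩
        · exact ⟨c, hc, h⟩
    obtain ⟨w, hw, hyw⟩ := this
    exact hfull w hw y hd ((min_le_left _ _).trans huy) (hyw.trans (le_max_right _ _))
  · have : ∃ w ∈ A, w ≤ y := by
      rcases min_le_iff.1 h1 with h | h
      · exact ⟨a, ha, h⟩
      · rcases min_le_iff.1 h with h | h
        · exact ⟨b, hb, h⟩
        · exact ⟨c, hc, h⟩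
    obtain ⟨w, hw, hyw⟩ := this
    exact hfull w hw y hd ((min_le_right _ _).trans hyw) (huy.trans (le_max_left _ _))

/-- Points with a large gap on the right are few. -/
theorem large_bad (N : ℕ) (A : Finset ℤ) (hA : A ⊆ Icc 1 (N : ℤ)) (L : ℕ) :
    (A.filter (fun u => (∃ v ∈ A, u < v) ∧ ∀ v ∈ A, u < v → u + L < v)).card * (L + 1) ≤ N := by
  set D := A.filter (fun u => (∃ v ∈ A, u < v) ∧ ∀ v ∈ A, u < v → u + L < v) with hD
  have h1 : ((D ×ˢ range (L + 1)).image (fun t : ℤ × ℕ => t.1 + (t.2 : ℤ))) ⊆ Icc 1 (N : ℤ) := by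
    intro z hz
    rw [mem_image] at hz
    obtain ⟨⟨u, i⟩, ht, rfl⟩ := hz
    rw [mem_product, mem_range] at ht
    obtain ⟨hu, hi⟩ := ht
    simp only at hu hi ⊢
    rw [hD, mem_filter] at hu
    obtain ⟨huA, ⟨v, hv, huv⟩, hgap⟩ := hu
    have h2 := hgap v hv huv
    have h3 := mem_Icc.1 (hA huA)
    have h4 := mem_Icc.1 (hA hv)
    rw [mem_Icc]
    constructor <;> omega
  have h2 : Set.InjOn (fun t : ℤ × ℕ => t.1 + (t.2 : ℤ)) (D ×ˢ range (L + 1) : Finset (ℤ × ℕ)) := by
    rintro ⟨u, i⟩ ht ⟨u', i'⟩ ht' he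
    rw [Finset.mem_coe, mem_product, mem_range] at ht ht'
    obtain ⟨hu, hi⟩ := ht
    obtain ⟨hu', hi'⟩ := ht'
    simp only at hu hi hu' hi' he
    rw [hD, mem_filter] at hu hu'
    have huu : u = u' := by
      rcases lt_trichotomy u u' with h | h | h
      · have := hu.2.2 u' hu'.1 h
        omega
      · exact h
      · have := hu'.2.2 u hu.1 h
        omega
    rw [huu] at he
    have : i = i' := by omega
    rw [huu, this]
  have h3 := card_le_card h1
  rw [card_image_of_injOn h2, card_product, card_range, Int.card_Icc] at h3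
  have h4 : ((N : ℤ) + 1 - 1).toNat = N := by simp
  rwa [h4] at h3

theorem thmLarge : SLarge := by
  intro N F s hF hs
  set G := F.filter (fun A => ¬ APc A ∧ s ≤ (A.card : ℝ)) with hG
  by_cases hG0 : G = ∅
  · rw [hG0]
    simp
  have hN : 1 ≤ N := by
    obtain ⟨A, hA⟩ := Finset.nonempty_iff_ne_empty.2 hG0
    rw [hG, mem_filter] at hA
    have h1 : 0 < A.card := by
      have : (0 : ℝ) < A.card := by linarith [hA.2.2]
      exact_mod_cast this
    obtain ⟨a, ha⟩ := card_pos.1 h1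
    have := mem_Icc.1 (hF.sub A hA.1 ha)
    omega
  have hNR : (1 : ℝ) ≤ N := by exact_mod_cast hN
  have hs0 : (0 : ℝ) < s := by linarith
  set L : ℕ := ⌊4 * (N : ℝ) / s⌋₊ with hL
  have hL1 : (L : ℝ) * s ≤ 4 * N := by
    have h1 : (L : ℝ) ≤ 4 * N / s := Nat.floor_le (by positivity)
    calc (L : ℝ) * s ≤ 4 * N / s * s := mul_le_mul_of_nonneg_right h1 hs0.le
      _ = 4 * N := by field_simp
  have hL2 : 4 * (N : ℝ) < (L + 1) * s := by
    have h1 : 4 * (N : ℝ) / s < L + 1 := Nat.lt_floor_add_one _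
    rwa [div_lt_iff₀ hs0] at h1
  set T : Finset (ℤ × ℤ × ℤ) := (Icc 1 (N : ℤ)) ×ˢ ((Icc 1 (L : ℤ)) ×ˢ (Icc 1 (N : ℤ))) with hT
  set TA : Finset ℤ → Finset (ℤ × ℤ × ℤ) := fun A =>
    T.filter (fun t => t.1 ∈ A ∧ t.1 + t.2.1 ∈ A ∧ t.2.2 ∈ A ∧
      ¬ hull t.1 (t.1 + t.2.1) t.2.2 ⊆ A) with hTA
  -- disjointness
  have hdisj : ∀ A ∈ G, ∀ B ∈ G, A ≠ B → Disjoint (TA A) (TA B) := by
    intro A hA B hB hAB
    rw [Finset.disjoint_left]
    intro t ht ht'
    rw [hTA] at ht ht'
    simp only [mem_filter] at ht ht'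
    rw [hG, mem_filter] at hA hB
    have h1 := hF.ap A hA.1 B hB.1 hAB
    have h2 := h1.2 t.1 (mem_inter.2 ⟨ht.2.1, ht'.2.1⟩) (t.1 + t.2.1)
      (mem_inter.2 ⟨ht.2.2.1, ht'.2.2.1⟩) t.2.2 (mem_inter.2 ⟨ht.2.2.2.1, ht'.2.2.2.1⟩)
    exact ht.2.2.2.2 (h2.trans inter_subset_left)
  -- many triples for each member
  have hmany : ∀ A ∈ G, s / 2 ≤ ((TA A).card : ℝ) := by
    intro A hA
    have hA' := hA
    rw [hG, mem_filter] at hA'
    obtain ⟨hAF, hnap, hcard⟩ := hA'
    have hsub := hF.sub A hAF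
    set bad := A.filter (fun u => (∃ v ∈ A, u < v) ∧ ∀ v ∈ A, u < v → u + L < v) with hbad
    set good := A.filter (fun u => ∃ v ∈ A, u < v ∧ v ≤ u + L) with hgood
    set top := A.filter (fun u => ∀ v ∈ A, ¬ u < v) with htop
    have hunion : A ⊆ bad ∪ good ∪ top := by
      intro u hu
      rw [mem_union, mem_union, hbad, hgood, htop, mem_filter, mem_filter, mem_filter]
      by_cases h1 : ∃ v ∈ A, u < v
      · by_cases h2 : ∃ v ∈ A, u < v ∧ v ≤ u + L
        · exact Or.inl (Or.inr ⟨hu, h2⟩)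
        · push Not at h2
          exact Or.inl (Or.inl ⟨hu, h1, h2⟩)
      · push Not at h1
        exact Or.inr ⟨hu, fun v hv => not_lt.2 (h1 v hv)⟩
    have htop1 : top.card ≤ 1 := by
      rw [card_le_one]
      intro a ha b hb
      rw [htop, mem_filter] at ha hb
      exact le_antisymm (not_lt.1 (hb.2 a ha.1)) (not_lt.1 (ha.2 b hb.1))
    have hc1 : A.card ≤ bad.card + good.card + top.card :=
      (card_le_card hunion).trans ((card_union_le _ _).trans
        (Nat.add_le_add_right (card_union_le _ _) _))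
    have hbadc := large_bad N A hsub L
    rw [← hbad] at hbadc
    have hbadR : (bad.card : ℝ) ≤ s / 4 := by
      have h1 : (bad.card : ℝ) * (L + 1) ≤ N := by exact_mod_cast hbadc
      have h2 : (bad.card : ℝ) * (4 * N) ≤ s * N := by
        calc (bad.card : ℝ) * (4 * N) ≤ (bad.card : ℝ) * ((L + 1) * s) :=
              mul_le_mul_of_nonneg_left hL2.le (Nat.cast_nonneg _)
          _ = (bad.card : ℝ) * (L + 1) * s := by ring
          _ ≤ N * s := mul_le_mul_of_nonneg_right h1 hs0.le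
          _ = s * N := by ring
      have h3 : (bad.card : ℝ) * 4 * N ≤ s * N := by linarith
      have h4 := le_of_mul_le_mul_right h3 (by linarith)
      linarith
    have hgoodR : s / 2 ≤ (good.card : ℝ) := by
      have h1 : (A.card : ℝ) ≤ bad.card + good.card + top.card := by exact_mod_cast hc1
      have h2 : (top.card : ℝ) ≤ 1 := by exact_mod_cast htop1
      linarith
    have himg : good ⊆ (TA A).image (fun t => t.1) := by
      intro u hu
      rw [hgood, mem_filter] at hu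
      obtain ⟨huA, v0, hv0, huv0, hv0L⟩ := hu
      -- the successor
      have hne : (A.filter (fun v => u < v)).Nonempty := ⟨v0, mem_filter.2 ⟨hv0, huv0⟩⟩
      set v := (A.filter (fun v => u < v)).min' hne with hv
      have hvm : v ∈ A.filter (fun v => u < v) := min'_mem _ hne
      rw [mem_filter] at hvm
      have hvmin : ∀ w ∈ A, u < w → v ≤ w := fun w hw huw =>
        min'_le _ _ (mem_filter.2 ⟨hw, huw⟩)
      have hex : ∃ w ∈ A, ¬ hull u v w ⊆ A := by
        by_contra hcon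
        push Not at hcon
        exact hnap (large_run A u v huA hvm.1 hvm.2 hvmin hcon)
      obtain ⟨w, hw, hwn⟩ := hex
      rw [mem_image]
      refine ⟨(u, v - u, w), ?_, rfl⟩
      have h1 := mem_Icc.1 (hsub huA)
      have h2 := mem_Icc.1 (hsub hw)
      have h3 := hvmin v0 hv0 huv0
      have h4 : u + (v - u) = v := by ring
      rw [hTA]
      simp only [mem_filter]
      rw [h4]
      refine ⟨?_, huA, hvm.1, hw, hwn⟩
      rw [hT, mem_product, mem_product, mem_Icc, mem_Icc, mem_Icc]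
      refine ⟨⟨h1.1, h1.2⟩, ⟨?_, ?_⟩, ⟨h2.1, h2.2⟩⟩ <;> simp only <;> omega
    have h5 : good.card ≤ (TA A).card := (card_le_card himg).trans card_image_le
    have h6 : (good.card : ℝ) ≤ (TA A).card := by exact_mod_cast h5
    linarith
  -- the count
  have hcount : ∑ A ∈ G, (TA A).card ≤ N * (L * N) := by
    rw [← card_biUnion hdisj]
    have h1 : G.biUnion TA ⊆ T := by
      intro t ht
      rw [mem_biUnion] at ht
      obtain ⟨A, _, ht⟩ := ht
      exact (mem_filter.1 ht).1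
    refine (card_le_card h1).trans ?_
    rw [hT, card_product, card_product, Int.card_Icc, Int.card_Icc]
    simp
  have hcountR : ∑ A ∈ G, ((TA A).card : ℝ) ≤ N * (L * N) := by exact_mod_cast hcount
  have hlow : (G.card : ℝ) * (s / 2) ≤ ∑ A ∈ G, ((TA A).card : ℝ) := by
    rw [← nsmul_eq_mul]
    exact card_nsmul_le_sum G _ _ hmany
  have hfin : (G.card : ℝ) * s ≤ 2 * (N * (L * N)) := by linarith
  calc (G.card : ℝ) * s ^ 2 = (G.card : ℝ) * s * s := by ring
    _ ≤ 2 * (N * (L * N)) * s := mul_le_mul_of_nonneg_right hfin hs0.le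
    _ = 2 * N * N * (L * s) := by ring
    _ ≤ 2 * N * N * (4 * N) := mul_le_mul_of_nonneg_left hL1 (by positivity)
    _ = 8 * (N : ℝ) ^ 3 := by ring

end Pool.Agent.Work.MP_1d0aa8_co

end

section

/-!
# MP_1d0aa8_co: item MARGIN
-/

set_option autoImplicit false

namespace Pool.Agent.Work.MP_1d0aa8_co

open Finset
open scoped Classical

namespace Margin

theorem mem_hull' (x u v y : ℤ) : y ∈ hull x u v ↔
    (min x (min u v) ≤ y ∧ y ≤ max x (max u v)) ∧ ((Int.gcd (u - x) (v - x) : ℕ) : ℤ) ∣ y - x := by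
  unfold hull
  rw [mem_filter, mem_Icc]

/-- the degenerate hull -/
theorem hull_self (x u : ℤ) (A : Finset ℤ) (hx : x ∈ A) (hu : u ∈ A) : hull x u u ⊆ A := by
  intro y hy
  rw [mem_hull'] at hy
  obtain ⟨⟨h1, h2⟩, h3⟩ := hy
  rw [Int.gcd_self, Int.natCast_natAbs, abs_dvd] at h3
  rcases lt_trichotomy u x with h | h | h
  · have h4 : u ≤ y := by
      rw [min_self, min_eq_right h.le] at h1
      exact h1
    have h5 : y ≤ x := by
      rw [max_self, max_eq_left h.le] at h2
      exact h2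
    by_cases hyx : y = x
    · rw [hyx]; exact hx
    · have h6 : u - x ≠ 0 := by omega
      have h7 := Int.le_of_dvd (a := x - u) (b := x - y) (by omega) (by
        have := (neg_dvd.2 (dvd_neg.2 h3))
        rwa [neg_sub, neg_sub] at this)
      have : y = u := by omega
      rw [this]; exact hu
  · subst h
    rw [min_self, min_self] at h1
    rw [max_self, max_self] at h2
    have : y = u := le_antisymm h2 h1
    rw [this]; exact hx
  · have h4 : x ≤ y := by
      rw [min_self, min_eq_left h.le] at h1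
      exact h1
    have h5 : y ≤ u := by
      rw [max_self, max_eq_right h.le] at h2
      exact h2
    by_cases hyx : y = x
    · rw [hyx]; exact hx
    · have h7 := Int.le_of_dvd (by omega) h3
      have : y = u := by omega
      rw [this]; exact hu

theorem hull_x (x u : ℤ) (A : Finset ℤ) (hx : x ∈ A) (hu : u ∈ A) : hull x u x ⊆ A := by
  have : hull x u x = hull x u u := by
    ext y
    rw [mem_hull', mem_hull', sub_self, Int.gcd_zero_right, Int.gcd_self]
    have h1 : min x (min u x) = min x (min u u) := by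
      rw [min_self, min_comm u x, ← min_assoc, min_self]
    have h2 : max x (max u x) = max x (max u u) := by
      rw [max_self, max_comm u x, ← max_assoc, max_self]
    rw [h1, h2]
  rw [this]
  exact hull_self x u A hx hu

theorem hull_comm' (x u v : ℤ) : hull x u v = hull x v u := by
  ext y
  rw [mem_hull', mem_hull', Int.gcd_comm, min_comm u v, max_comm u v]

/-- a set closed under all hulls at `x` is a progression -/
theorem apc_of_closed (A : Finset ℤ) (x : ℤ) (hx : x ∈ A)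
    (h : ∀ u ∈ A, ∀ v ∈ A, hull x u v ⊆ A) : APc A := by
  refine ⟨⟨x, hx⟩, ?_⟩
  by_cases htriv : ∀ y ∈ A, y = x
  · intro p hp u hu v hv y hy
    rw [htriv p hp, htriv u hu, htriv v hv] at hy
    exact h x hx x hx hy
  · push Not at htriv
    obtain ⟨y0, hy0, hy0x⟩ := htriv
    -- nearest point
    obtain ⟨y1, hy1, hmin⟩ := exists_min_image (A.filter (fun y => y ≠ x)) (fun y => (y - x).natAbs)
      ⟨y0, mem_filter.2 ⟨hy0, hy0x⟩⟩
    rw [mem_filter] at hy1
    have hdvd : ∀ w ∈ A, (y1 - x) ∣ (w - x) := by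
      intro w hw
      have hgp : 0 < Int.gcd (y1 - x) (w - x) := by
        apply Int.gcd_pos_of_ne_zero_left
        have := hy1.2
        omega
      have hgd : ((Int.gcd (y1 - x) (w - x) : ℕ) : ℤ) ∣ y1 - x := Int.gcd_dvd_left ..
      have hgw : ((Int.gcd (y1 - x) (w - x) : ℕ) : ℤ) ∣ w - x := Int.gcd_dvd_right ..
      set g := Int.gcd (y1 - x) (w - x) with hg
      have hgle : g ≤ (y1 - x).natAbs := by
        apply Nat.le_of_dvd
        · have := hy1.2
          omega
        · exact Int.natCast_dvd.1 hgd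
      have hge : (y1 - x).natAbs ≤ g := by
        rcases lt_or_gt_of_ne hy1.2 with hlt | hgt
        · have hm : x - g ∈ hull x y1 w := by
            rw [mem_hull']
            refine ⟨⟨?_, ?_⟩, ?_⟩
            · have : min x (min y1 w) ≤ y1 := le_trans (min_le_right _ _) (min_le_left _ _)
              omega
            · have : x ≤ max x (max y1 w) := le_max_left _ _
              omega
            · rw [← hg]
              have : x - (g : ℤ) - x = -(g : ℤ) := by ring
              rw [this]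
              exact dvd_neg.2 dvd_rfl
          have hmA := h y1 hy1.1 w hw hm
          have := hmin (x - g) (mem_filter.2 ⟨hmA, by omega⟩)
          omega
        · have hm : x + g ∈ hull x y1 w := by
            rw [mem_hull']
            refine ⟨⟨?_, ?_⟩, ?_⟩
            · have : min x (min y1 w) ≤ x := min_le_left _ _
              omega
            · have : y1 ≤ max x (max y1 w) := le_trans (le_max_left _ _) (le_max_right _ _)
              omega
            · rw [← hg]
              have : x + (g : ℤ) - x = (g : ℤ) := by ring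
              rw [this]
          have hmA := h y1 hy1.1 w hw hm
          have := hmin (x + g) (mem_filter.2 ⟨hmA, by omega⟩)
          omega
      have hgeq : g = (y1 - x).natAbs := le_antisymm hgle hge
      rw [hgeq, Int.natCast_natAbs, abs_dvd] at hgw
      exact hgw
    -- everything between x and w, congruent mod d, is in A
    have hfull : ∀ w ∈ A, ∀ y : ℤ, (y1 - x) ∣ (y - x) → min x w ≤ y → y ≤ max x w → y ∈ A := by
      intro w hw y hy h1 h2
      apply h y1 hy1.1 w hw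
      rw [mem_hull']
      refine ⟨⟨?_, ?_⟩, ?_⟩
      · refine le_trans ?_ h1
        exact min_le_min_left _ (min_le_right _ _)
      · refine le_trans h2 ?_
        exact max_le_max_left _ (le_max_right _ _)
      · have hd := hdvd w hw
        have : ((Int.gcd (y1 - x) (w - x) : ℕ) : ℤ) ∣ y1 - x := Int.gcd_dvd_left ..
        exact this.trans hy
    intro p hp u hu v hv y hy
    rw [mem_hull'] at hy
    obtain ⟨⟨h1, h2⟩, h3⟩ := hy
    have hd : (y1 - x) ∣ (y - x) := by
      have hp' := hdvd p hp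
      have hu' := hdvd u hu
      have hv' := hdvd v hv
      have hup : (y1 - x) ∣ (u - p) := by
        have := dvd_sub hu' hp'
        simpa using this
      have hvp : (y1 - x) ∣ (v - p) := by
        have := dvd_sub hv' hp'
        simpa using this
      have hg : (y1 - x) ∣ ((Int.gcd (u - p) (v - p) : ℕ) : ℤ) := Int.dvd_coe_gcd hup hvp
      have := dvd_add (hg.trans h3) hp'
      simpa using this
    -- y between two elements of A
    rcases le_total x y with hxy | hxy
    · rcases le_total p (max u v) with hc | hc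
      · rw [max_eq_right hc] at h2
        rcases le_total u v with hc' | hc'
        · rw [max_eq_right hc'] at h2
          exact hfull v hv y hd (le_trans (min_le_left _ _) hxy) (le_trans h2 (le_max_right _ _))
        · rw [max_eq_left hc'] at h2
          exact hfull u hu y hd (le_trans (min_le_left _ _) hxy) (le_trans h2 (le_max_right _ _))
      · rw [max_eq_left hc] at h2
        exact hfull p hp y hd (le_trans (min_le_left _ _) hxy) (le_trans h2 (le_max_right _ _))
    · rcases le_total p (min u v) with hc | hc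
      · rw [min_eq_left hc] at h1
        exact hfull p hp y hd (le_trans (min_le_right _ _) h1) (le_trans hxy (le_max_left _ _))
      · rw [min_eq_right hc] at h1
        rcases le_total u v with hc' | hc'
        · rw [min_eq_left hc'] at h1
          exact hfull u hu y hd (le_trans (min_le_right _ _) h1) (le_trans hxy (le_max_left _ _))
        · rw [min_eq_right hc'] at h1
          exact hfull v hv y hd (le_trans (min_le_right _ _) h1) (le_trans hxy (le_max_left _ _))

/-- an own pair, sorted -/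
theorem sort_pair {A : Finset ℤ} {x z w : ℤ} (hx : x ∈ A) (hz : z ∈ A) (hw : w ∈ A)
    (h : ¬ hull x z w ⊆ A) (P : ℤ × ℤ → Prop) (hP : P (z, w)) (hP' : P (w, z)) :
    ∃ u ∈ A, ∃ v ∈ A, u < v ∧ u ≠ x ∧ v ≠ x ∧ ¬ hull x u v ⊆ A ∧ P (u, v) := by
  have hwx : w ≠ x := by
    rintro rfl
    exact h (hull_x w z A hx hz)
  have hzx : z ≠ x := by
    rintro rfl
    apply h
    rw [hull_comm']
    exact hull_x z w A hx hw
  have hzw : z ≠ w := by
    rintro rfl
    exact h (hull_self x z A hx hz)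
  rcases lt_or_gt_of_ne hzw with h' | h'
  · exact ⟨z, hz, w, hw, h', hzx, hwx, h, hP⟩
  · refine ⟨w, hw, z, hz, h', hwx, hzx, ?_, hP'⟩
    rw [hull_comm']
    exact h

end Margin

open Margin

theorem thmMargin (h1 : SMarginA) (h2 : SMarginB) (h3 : SNearAB) : SMargin := by
  intro N F x k a b hN A hA
  have hAB := h3 N F x k a b hN
  obtain ⟨ha1, hb1, hcore⟩ := hAB
  unfold NA at hA
  rw [mem_filter] at hA
  obtain ⟨hAF, hxA, hnAP⟩ := hA
  have hsub := hN.fam.sub A hAF
  have hx := mem_Icc.1 hN.hx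
  have hk := hN.hk
  have mem : ∀ I ∈ Sd F x 1, I ∈ F ∧ x ∉ I := by
    intro I hI
    unfold Sd Pd at hI
    rw [mem_filter, mem_filter] at hI
    exact ⟨hI.1.1, hI.2⟩
  have meet : ∀ I ∈ Sd F x 1, ∃ y ∈ A, y ∈ I := by
    intro I hI
    obtain ⟨hIF, hxI⟩ := mem I hI
    have hne : A ≠ I := by
      rintro rfl
      exact hxI hxA
    obtain ⟨y, hy⟩ := (hN.fam.ap A hAF I hIF hne).1
    rw [mem_inter] at hy
    exact ⟨y, hy.1, hy.2⟩
  -- forbidden pairs
  have hforb : ∀ p ∈ Forb N F x, x < p.1 ∧ p.1 ≤ x + a ∧ (N : ℤ) - b < p.2 ∧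
      ∃ I ∈ Sd F x 1, ∀ y ∈ I, p.1 < y ∧ y < p.2 := by
    intro p hp
    unfold Forb at hp
    rw [mem_filter] at hp
    obtain ⟨_, hp1, I, hI, hI'⟩ := hp
    have h4 := hI' _ (hN.ha I hI)
    have h5 := hI' _ (hN.hb I hI)
    exact ⟨hp1, by omega, by omega, I, hI, hI'⟩
  by_cases hbad : ∃ z ∈ A, x + a + 1 ≤ z ∧ z ≤ (N : ℤ) - b ∧ ¬ BadAt A x z
  · -- (i)
    obtain ⟨z, hz, hz1, hz2, hzb⟩ := hbad
    unfold BadAt at hzb
    push Not at hzb
    obtain ⟨w, hw, hown⟩ := hzb
    apply sort_pair hxA hz hw hown (fun p => p ∉ Forb N F x)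
    · intro hp
      have := hforb _ hp
      simp only at this
      omega
    · intro hp
      have := hforb _ hp
      simp only at this
      omega
  · push Not at hbad
    by_cases hcp : ∃ z ∈ A, x + a + 1 ≤ z ∧ z ≤ (N : ℤ) - b
    · -- (iii)
      obtain ⟨z0, hz0, hz01, hz02⟩ := hcp
      obtain ⟨z, hz, hzmax⟩ := exists_max_image
        (A.filter (fun z => x + a + 1 ≤ z ∧ z ≤ (N : ℤ) - b)) (fun z => z)
        ⟨z0, mem_filter.2 ⟨hz0, hz01, hz02⟩⟩
      rw [mem_filter] at hz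
      obtain ⟨hzA, hz1, hz2⟩ := hz
      have hall : ∀ y ∈ A, x + a + 1 ≤ y → y ≤ (N : ℤ) - b → BadAt A x y ∧ y ≤ z := by
        intro y hy hy1 hy2
        exact ⟨hbad y hy hy1 hy2, hzmax y (mem_filter.2 ⟨hy, hy1, hy2⟩)⟩
      by_cases hbig : x + 6 * k ≤ z
      · exact absurd (h1 N k a b x z A hx.1 hk ha1 hb1 hsub hxA hzA hz1 hz2 hall hbig) hnAP
      · push Not at hbig
        have hB := h2 N k a b x z A hx.1 hk ha1 hb1 hsub hxA hzA hz1 hz2 hall hbig
        have hex : ∃ u ∈ A, ∃ v ∈ A, ¬ hull x u v ⊆ A := by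
          by_contra hcon
          push Not at hcon
          exact hnAP (apc_of_closed A x hxA hcon)
        obtain ⟨u, hu, v, hv, huv⟩ := hex
        apply sort_pair hxA hu hv huv (fun p => p ∉ Forb N F x)
        · intro hp
          have h6 := (hforb _ hp).2.2.1
          have h7 := hB v hv
          simp only at h6
          omega
        · intro hp
          have h6 := (hforb _ hp).2.2.1
          have h7 := hB u hu
          simp only at h6
          omega
    · -- (ii)
      push Not at hcp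
      obtain ⟨I1, hI1, hI1'⟩ := hN.ha'
      obtain ⟨I2, hI2, hI2'⟩ := hN.hb'
      obtain ⟨p, hpA, hpI⟩ := meet I1 hI1
      obtain ⟨q, hqA, hqI⟩ := meet I2 hI2
      have hp1 := hI1' p hpI
      have hp2 := hcp p hpA hp1
      have hq1 := hI2' q hqI
      have hq2 := hN.right I2 hI2 q hqI
      have hq3 : q < x + a + 1 := by
        by_contra hcon
        push Not at hcon
        exact absurd hq1 (not_le.2 (hcp q hqA hcon))
      obtain ⟨u, hu, humax⟩ := exists_max_image
        (A.filter (fun z => x < z ∧ z ≤ x + a)) (fun z => z)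
        ⟨q, mem_filter.2 ⟨hqA, hq2, by omega⟩⟩
      obtain ⟨v, hv, hvmin⟩ := exists_min_image
        (A.filter (fun z => (N : ℤ) - b < z)) (fun z => z)
        ⟨p, mem_filter.2 ⟨hpA, hp2⟩⟩
      rw [mem_filter] at hu hv
      obtain ⟨huA, hu1, hu2⟩ := hu
      obtain ⟨hvA, hv1⟩ := hv
      refine ⟨u, huA, v, hvA, by omega, by omega, by omega, ?_, ?_⟩
      · -- own
        intro hown
        have hgp : 0 < Int.gcd (u - x) (v - x) := by
          apply Int.gcd_pos_of_ne_zero_left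
          omega
        have hgd : ((Int.gcd (u - x) (v - x) : ℕ) : ℤ) ∣ u - x := Int.gcd_dvd_left ..
        set g := Int.gcd (u - x) (v - x) with hg
        have hgle : (g : ℤ) ≤ u - x := Int.le_of_dvd (by omega) hgd
        -- the point x + (a / g + 1) g
        have hm : x + (a / g + 1 : ℤ) * g ∈ hull x u v := by
          rw [mem_hull']
          have e1 : (a : ℤ) < (a / g + 1 : ℤ) * g := by
            have := Int.lt_ediv_add_one_mul_self (a : ℤ) (show (0 : ℤ) < g by exact_mod_cast hgp)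
            exact this
          have e2 : (a / g + 1 : ℤ) * g ≤ a + g := by
            have := Int.ediv_mul_le (a : ℤ) (show (g : ℤ) ≠ 0 by exact_mod_cast hgp.ne')
            linarith
          refine ⟨⟨?_, ?_⟩, ?_⟩
          · have : min x (min u v) ≤ x := min_le_left _ _
            omega
          · have : v ≤ max x (max u v) := le_trans (le_max_right _ _) (le_max_right _ _)
            omega
          · rw [← hg]
            have : x + (a / g + 1 : ℤ) * g - x = (a / g + 1 : ℤ) * g := by ring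
            rw [this]
            exact dvd_mul_left _ _
        have hmA := hown hm
        have e1 : (a : ℤ) < (a / g + 1 : ℤ) * g := by
          have := Int.lt_ediv_add_one_mul_self (a : ℤ) (show (0 : ℤ) < g by exact_mod_cast hgp)
          exact this
        have e2 : (a / g + 1 : ℤ) * g ≤ a + g := by
          have := Int.ediv_mul_le (a : ℤ) (show (g : ℤ) ≠ 0 by exact_mod_cast hgp.ne')
          linarith
        have := hcp _ hmA (by omega)
        omega
      · intro hp
        obtain ⟨_, _, _, I, hI, hI'⟩ := hforb _ hp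
        simp only at hI'
        obtain ⟨y, hyA, hyI⟩ := meet I hI
        have h8 := hI' y hyI
        have h9 := hN.right I hI y hyI
        by_cases hy : y ≤ x + a
        · have := humax y (mem_filter.2 ⟨hyA, h9, hy⟩)
          omega
        · have h10 := hcp y hyA (by omega)
          have := hvmin y (mem_filter.2 ⟨hyA, h10⟩)
          omega

end Pool.Agent.Work.MP_1d0aa8_co

end

section

/-!
# MP_1d0aa8_co, item MEET
-/

set_option autoImplicit false

namespace Pool.Agent.Work.MP_1d0aa8_co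

open Finset
open scoped Classical

namespace ItMEET

theorem hull_swap (x u v : ℤ) : hull x u v = hull x v u := by
  unfold hull
  rw [min_comm u v, max_comm u v, Int.gcd_comm]

theorem hull_deg1 {A : Finset ℤ} {x y : ℤ} (hx : x ∈ A) (hy : y ∈ A) (hxy : y ≠ x) :
    hull x y x ⊆ A := by
  intro z hz
  unfold hull at hz
  rw [mem_filter, mem_Icc, sub_self, Int.gcd_zero_right, Int.natCast_natAbs, abs_dvd] at hz
  obtain ⟨⟨h1, h2⟩, c, hc⟩ := hz
  have hd : y - x ≠ 0 := sub_ne_zero.2 hxy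
  have hc01 : c = 0 ∨ c = 1 := by
    rcases lt_or_gt_of_ne hd with h | h
    · have h3 : min x (min y x) = y := by omega
      have h4 : max x (max y x) = x := by omega
      rw [h3] at h1
      rw [h4] at h2
      have h5 : c < 2 := by
        by_contra hcc
        have : (y - x) * c ≤ (y - x) * 2 := by nlinarith
        omega
      have h6 : 0 ≤ c := by
        by_contra hcc
        have : (y - x) * c ≥ (y - x) * (-1) := by nlinarith
        omega
      omega
    · have h3 : min x (min y x) = x := by omega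
      have h4 : max x (max y x) = y := by omega
      rw [h3] at h1
      rw [h4] at h2
      have h5 : c < 2 := by
        by_contra hcc
        have : (y - x) * 2 ≤ (y - x) * c := by nlinarith
        omega
      have h6 : 0 ≤ c := by
        by_contra hcc
        have : (y - x) * c ≤ (y - x) * (-1) := by nlinarith
        omega
      omega
  rcases hc01 with rfl | rfl
  · have : z = x := by omega
    rwa [this]
  · have : z = y := by omega
    rwa [this]

theorem hull_deg2 {A : Finset ℤ} {x y : ℤ} (hx : x ∈ A) (hy : y ∈ A) (hxy : y ≠ x) :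
    hull x y y ⊆ A := by
  have h : hull x y y = hull x y x := by
    unfold hull
    rw [sub_self, Int.gcd_zero_right, Int.gcd_self]
    congr 2
    · omega
    · omega
  rw [h]
  exact hull_deg1 hx hy hxy

/-- The number of ordered pairs `u < v` of elements of `S`. -/
theorem card_pairs (S : Finset ℤ) :
    ((S ×ˢ S).filter (fun p : ℤ × ℤ => p.1 < p.2)).card = S.card.choose 2 := by
  have h1 : S.offDiag = (S ×ˢ S).filter (fun p : ℤ × ℤ => p.1 < p.2) ∪
      (S ×ˢ S).filter (fun p : ℤ × ℤ => p.2 < p.1) := by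
    ext p
    simp only [mem_offDiag, mem_union, mem_filter, mem_product]
    constructor
    · rintro ⟨h1, h2, h3⟩
      rcases lt_or_gt_of_ne h3 with h | h
      · exact Or.inl ⟨⟨h1, h2⟩, h⟩
      · exact Or.inr ⟨⟨h1, h2⟩, h⟩
    · rintro (⟨⟨h1, h2⟩, h⟩ | ⟨⟨h1, h2⟩, h⟩)
      · exact ⟨h1, h2, h.ne⟩
      · exact ⟨h1, h2, h.ne'⟩
  have h2 : Disjoint ((S ×ˢ S).filter (fun p : ℤ × ℤ => p.1 < p.2))
      ((S ×ˢ S).filter (fun p : ℤ × ℤ => p.2 < p.1)) := by
    rw [disjoint_left]
    intro p hp hp'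
    rw [mem_filter] at hp hp'
    exact absurd hp.2 (not_lt.2 hp'.2.le)
  have h3 : ((S ×ˢ S).filter (fun p : ℤ × ℤ => p.2 < p.1)).card =
      ((S ×ˢ S).filter (fun p : ℤ × ℤ => p.1 < p.2)).card := by
    refine card_bij' (fun p _ => (p.2, p.1)) (fun p _ => (p.2, p.1)) ?_ ?_ ?_ ?_
    · intro p hp
      rw [mem_filter, mem_product] at hp ⊢
      exact ⟨⟨hp.1.2, hp.1.1⟩, hp.2⟩
    · intro p hp
      rw [mem_filter, mem_product] at hp ⊢
      exact ⟨⟨hp.1.2, hp.1.1⟩, hp.2⟩
    · intro p _; rfl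
    · intro p _; rfl
  have h4 := congrArg Finset.card h1
  rw [card_union_of_disjoint h2, h3, offDiag_card] at h4
  rw [Nat.choose_two_right]
  have h5 : S.card * (S.card - 1) = S.card * S.card - S.card := by
    rw [Nat.mul_sub_one]
  rw [h5, h4]
  omega

theorem own_not {N : ℕ} {F : Finset (Finset ℤ)} (hF : Fam N F) {A A' : Finset ℤ} (hA : A ∈ F)
    (hA' : A' ∈ F) {x u v : ℤ} (hx : x ∈ A) (hu : u ∈ A) (hv : v ∈ A) (hx' : x ∈ A')
    (hu' : u ∈ A') (hv' : v ∈ A') (hh : ¬ hull x u v ⊆ A) : A = A' := by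
  by_contra hne
  have h := (hF.ap A hA A' hA' hne).2 x (mem_inter.2 ⟨hx, hx'⟩) u (mem_inter.2 ⟨hu, hu'⟩) v
    (mem_inter.2 ⟨hv, hv'⟩)
  exact hh (h.trans inter_subset_left)

theorem card_Prs (N : ℕ) {x : ℤ} (hx : x ∈ Icc 1 (N : ℤ)) :
    (Prs N x).card = (N - 1).choose 2 := by
  have h : Prs N x = (((Icc 1 (N : ℤ)).erase x) ×ˢ ((Icc 1 (N : ℤ)).erase x)).filter
      (fun p : ℤ × ℤ => p.1 < p.2) := by
    ext p
    unfold Prs
    simp only [mem_filter, mem_product, mem_erase]
    tauto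
  rw [h, card_pairs, card_erase_of_mem hx, Int.card_Icc]
  congr 1
  omega

theorem card_miss {N : ℕ} {x : ℤ} (hx : x ∈ Icc 1 (N : ℤ)) {B : Finset ℤ}
    (hB : B ⊆ Icc 1 (N : ℤ)) (hxB : x ∉ B) :
    ((Prs N x).filter (fun p => p.1 ∉ B ∧ p.2 ∉ B)).card = (N - 1 - B.card).choose 2 := by
  have h : (Prs N x).filter (fun p => p.1 ∉ B ∧ p.2 ∉ B) =
      ((((Icc 1 (N : ℤ)).erase x) \ B) ×ˢ (((Icc 1 (N : ℤ)).erase x) \ B)).filter
      (fun p : ℤ × ℤ => p.1 < p.2) := by
    ext p
    unfold Prs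
    simp only [mem_filter, mem_product, mem_erase, mem_sdiff]
    tauto
  have hB' : B ⊆ (Icc 1 (N : ℤ)).erase x := by
    intro y hy
    rw [mem_erase]
    exact ⟨fun h => hxB (h ▸ hy), hB hy⟩
  rw [h, card_pairs, card_sdiff_of_subset hB', card_erase_of_mem hx, Int.card_Icc]
  congr 1
  omega

end ItMEET

open ItMEET in
/-- MEET -/
theorem thmMeet (h : SBad) : SMeet := by
  intro N F x B hN hF hx hB hxB
  set G := (NA F x).filter (fun A => ¬ ∃ y ∈ A, y ≠ x ∧ BadAt A x y) with hG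
  have hbad := h N F x hN hF hx
  have hsplit : (NA F x).card =
      ((NA F x).filter (fun A => ∃ y ∈ A, y ≠ x ∧ BadAt A x y)).card + G.card := by
    rw [hG, Finset.card_filter_add_card_filter_not]
  -- choose the pair
  have key : ∀ A ∈ G, ∃ p : ℤ × ℤ, p ∈ Prs N x ∧ p.1 ∈ A ∧ p.2 ∈ A ∧
      (p.1 ∈ B ∨ p.2 ∈ B) ∧ ¬ hull x p.1 p.2 ⊆ A := by
    intro A hA
    rw [hG, mem_filter] at hA
    obtain ⟨hA, hnb⟩ := hA
    unfold NA at hA
    rw [mem_filter] at hA
    obtain ⟨hAF, hxA, hnap⟩ := hA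
    have hne : A ≠ B := fun e => hxB (e ▸ hxA)
    obtain ⟨y, hy⟩ := (hF.ap A hAF B hB hne).1
    rw [mem_inter] at hy
    have hyx : y ≠ x := fun e => hxB (e ▸ hy.2)
    push Not at hnb
    have hb := hnb y hy.1 hyx
    unfold BadAt at hb
    push Not at hb
    obtain ⟨w, hwA, hw⟩ := hb
    have hwx : w ≠ x := by
      rintro rfl
      exact hw (hull_deg1 hxA hy.1 hyx)
    have hwy : w ≠ y := by
      rintro rfl
      exact hw (hull_deg2 hxA hy.1 hyx)
    have hyN := hF.sub A hAF hy.1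
    have hwN := hF.sub A hAF hwA
    rcases lt_or_gt_of_ne hwy with hlt | hlt
    · refine ⟨(w, y), ?_, hwA, hy.1, Or.inr hy.2, ?_⟩
      · unfold Prs
        rw [mem_filter, mem_product]
        exact ⟨⟨hwN, hyN⟩, hlt, hwx, hyx⟩
      · change ¬ hull x w y ⊆ A
        rw [hull_swap]
        exact hw
    · refine ⟨(y, w), ?_, hy.1, hwA, Or.inl hy.2, hw⟩
      unfold Prs
      rw [mem_filter, mem_product]
      exact ⟨⟨hyN, hwN⟩, hlt, hyx, hwx⟩
  choose! f hf1 hf2 hf3 hf4 hf5 using key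
  have hGF : ∀ A ∈ G, A ∈ F ∧ x ∈ A ∧ ¬ APc A := by
    intro A hA
    rw [hG, mem_filter] at hA
    have := hA.1
    unfold NA at this
    rw [mem_filter] at this
    exact this
  have hinj : Set.InjOn f (G : Set (Finset ℤ)) := by
    intro A hA A' hA' he
    have hA := mem_coe.1 hA
    have hA' := mem_coe.1 hA'
    refine own_not hF (hGF A hA).1 (hGF A' hA').1 (hGF A hA).2.1 (hf2 A hA) (hf3 A hA)
      (hGF A' hA').2.1 ?_ ?_ (hf5 A hA)
    · rw [he]; exact hf2 A' hA'
    · rw [he]; exact hf3 A' hA'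
  have hcard : (G.image f).card = G.card := card_image_of_injOn hinj
  -- first bound
  have hb1 : G.card + (N - 1 - B.card).choose 2 ≤ (N - 1).choose 2 := by
    rw [← hcard, ← card_miss hx (hF.sub B hB) hxB, ← card_Prs N hx, ← card_union_of_disjoint]
    · refine card_le_card (union_subset ?_ (filter_subset _ _))
      intro p hp
      obtain ⟨A, hA, rfl⟩ := mem_image.1 hp
      exact hf1 A hA
    · rw [disjoint_left]
      intro p hp hp'
      obtain ⟨A, hA, rfl⟩ := mem_image.1 hp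
      rw [mem_filter] at hp'
      rcases hf4 A hA with h | h
      · exact hp'.2.1 h
      · exact hp'.2.2 h
  have hb2 : G.card + (Cov N F x).card ≤ (N - 1).choose 2 := by
    rw [← hcard, ← card_Prs N hx, ← card_union_of_disjoint]
    · refine card_le_card (union_subset ?_ (filter_subset _ _))
      intro p hp
      obtain ⟨A, hA, rfl⟩ := mem_image.1 hp
      exact hf1 A hA
    · rw [disjoint_left]
      intro p hp hp'
      obtain ⟨A, hA, rfl⟩ := mem_image.1 hp
      unfold Cov at hp'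
      rw [mem_filter] at hp'
      obtain ⟨-, A', hA'F, hap, hxA', h1, h2⟩ := hp'
      have he := own_not hF (hGF A hA).1 hA'F (hGF A hA).2.1 (hf2 A hA) (hf3 A hA) hxA' h1 h2
        (hf5 A hA)
      exact (hGF A hA).2.2 (he ▸ hap)
  have hb1' : (G.card : ℝ) + ((N - 1 - B.card).choose 2 : ℕ) ≤ ((N - 1).choose 2 : ℕ) := by
    exact_mod_cast hb1
  have hb2' : (G.card : ℝ) + ((Cov N F x).card : ℕ) ≤ ((N - 1).choose 2 : ℕ) := by
    exact_mod_cast hb2
  rw [hsplit, Nat.cast_add]
  rcases le_total (((N - 1 - B.card).choose 2 : ℕ) : ℝ) ((Cov N F x).card : ℝ) with hm | hm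
  · rw [max_eq_right hm]
    linarith
  · rw [max_eq_left hm]
    linarith

end Pool.Agent.Work.MP_1d0aa8_co

end
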