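import Pool.Agent.Work.MP_1d0aa8_co.Stmts
import Pool.Agent.Work.MP_1d0aa8_co.Bd.B01

/-! Bundle of small proof modules (one section per former module). -/

section

set_option autoImplicit false

namespace Pool.Agent.Work.MP_1d0aa8_co

open Finset
open scoped Classical

namespace MargAuxA

theorem mh {x u v y : ℤ} : y ∈ hull x u v ↔
    (min x (min u v) ≤ y ∧ y ≤ max x (max u v)) ∧
      ((Int.gcd (u - x) (v - x) : ℕ) : ℤ) ∣ y - x := by
  unfold hull
  simp only [mem_filter, mem_Icc]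

theorem apc_of_run {A : Finset ℤ} {x d : ℤ} (hx : x ∈ A) (h1 : ∀ w ∈ A, d ∣ w - x)
    (h2 : ∀ w ∈ A, ∀ y : ℤ, d ∣ y - x → min x w ≤ y → y ≤ max x w → y ∈ A) : APc A := by
  refine ⟨⟨x, hx⟩, ?_⟩
  intro x1 hx1 u hu v hv y hy
  rw [mh] at hy
  obtain ⟨⟨hlo, hhi⟩, hg⟩ := hy
  have hd : d ∣ y - x := by
    have h3 : d ∣ ((Int.gcd (u - x1) (v - x1) : ℕ) : ℤ) := by
      apply Int.dvd_coe_gcd
      · have := dvd_sub (h1 u hu) (h1 x1 hx1)
        simpa using this
      · have := dvd_sub (h1 v hv) (h1 x1 hx1)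
        simpa using this
    have h4 := dvd_add (h3.trans hg) (h1 x1 hx1)
    simpa using h4
  rcases le_total x y with hxy | hxy
  · have : ∃ w ∈ A, y ≤ w := by
      rcases le_max_iff.1 hhi with h | h
      · exact ⟨x1, hx1, h⟩
      · rcases le_max_iff.1 h with h | h
        · exact ⟨u, hu, h⟩
        · exact ⟨v, hv, h⟩
    obtain ⟨w, hw, hyw⟩ := this
    exact h2 w hw y hd (by omega) (by omega)
  · have : ∃ w ∈ A, w ≤ y := by
      rcases min_le_iff.1 hlo with h | h
      · exact ⟨x1, hx1, h⟩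
      · rcases min_le_iff.1 h with h | h
        · exact ⟨u, hu, h⟩
        · exact ⟨v, hv, h⟩
    obtain ⟨w, hw, hyw⟩ := this
    exact h2 w hw y hd (by omega) (by omega)

/-- gcd facts: `e = gcd p q` with `p > 0`. -/
theorem gcdpos {p q : ℤ} (hp : 0 < p) :
    0 < ((Int.gcd p q : ℕ) : ℤ) ∧ ((Int.gcd p q : ℕ) : ℤ) ≤ p := by
  have h1 : ((Int.gcd p q : ℕ) : ℤ) ∣ p := Int.gcd_dvd_left ..
  refine ⟨?_, Int.le_of_dvd hp h1⟩
  have : Int.gcd p q ≠ 0 := by
    intro h
    rw [Int.gcd_eq_zero_iff] at h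
    omega
  omega

/-- A number coprime to `W` a bit below `W / 2`. -/
theorem exists_jstar (W : ℤ) (hW : 6 ≤ W) :
    ∃ j : ℤ, W - 4 ≤ 2 * j ∧ 2 * j ≤ W ∧ IsCoprime j W := by
  rcases Int.emod_two_eq_zero_or_one W with h | h
  · obtain ⟨V, rfl⟩ : ∃ V, W = 2 * V := ⟨W / 2, by omega⟩
    rcases Int.emod_two_eq_zero_or_one V with h' | h'
    · -- V even, j = V - 1
      obtain ⟨m, rfl⟩ : ∃ m, V = 2 * m := ⟨V / 2, by omega⟩
      refine ⟨2 * m - 1, by omega, by omega, ?_⟩
      -- 4m = 2(2m-1) + 2 ; 1 = ...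
      have h1 : IsCoprime (2 * m - 1) (2 : ℤ) := ⟨-1, m, by ring⟩
      have h2 : IsCoprime (2 * m - 1) (2 * m : ℤ) := ⟨-1, 1, by ring⟩
      exact h1.mul_right h2
    · obtain ⟨m, rfl⟩ : ∃ m, V = 2 * m + 1 := ⟨V / 2, by omega⟩
      refine ⟨2 * m - 1, by omega, by omega, ?_⟩
      have h1 : IsCoprime (2 * m - 1) (2 : ℤ) := ⟨-1, m, by ring⟩
      have h2 : IsCoprime (2 * m - 1) (2 * m + 1 : ℤ) := by
        refine ⟨m, 1 - m, by ring⟩
      exact h1.mul_right h2
  · obtain ⟨m, rfl⟩ : ∃ m, W = 2 * m + 1 := ⟨W / 2, by omega⟩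
    exact ⟨m, by omega, by omega, ⟨-2, 1, by ring⟩⟩

end MargAuxA

open MargAuxA in
theorem thmMarginA : SMarginA := by
  intro N k a b x z A hx1 hN hxa hxb hsub hxA hzA hz1 hz2 hcore hM
  have hbad : ∀ y ∈ A, x + a + 1 ≤ y → y ≤ (N : ℤ) - b → ∀ w ∈ A, ∀ t : ℤ,
      min x (min y w) ≤ t → t ≤ max x (max y w) →
      ((Int.gcd (y - x) (w - x) : ℕ) : ℤ) ∣ t - x → t ∈ A := by
    intro y hy h1 h2 w hw t ht1 ht2 ht3
    exact (hcore y hy h1 h2).1 w hw (mh.2 ⟨⟨ht1, ht2⟩, ht3⟩)
  obtain ⟨y0, hy0, hmin0⟩ := Finset.exists_min_image (A.filter (fun y => x < y)) id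
    ⟨z, by simp only [mem_filter]; exact ⟨hzA, by omega⟩⟩
  simp only [mem_filter, id] at hy0 hmin0
  obtain ⟨d, hd⟩ : ∃ d, d = y0 - x := ⟨_, rfl⟩
  have hdpos : 0 < d := by omega
  have hdA : x + d ∈ A := by
    have : x + d = y0 := by omega
    rw [this]; exact hy0.1
  have hmin : ∀ w ∈ A, x < w → x + d ≤ w := by
    intro w hw hxw
    have := hmin0 w ⟨hw, hxw⟩
    omega
  -- core points are congruent to x mod d
  have L1 : ∀ y ∈ A, x + a + 1 ≤ y → y ≤ (N : ℤ) - b → d ∣ y - x := by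
    intro y hy h1 h2
    have hg := gcdpos (p := d) (q := y - x) hdpos
    have hg' : ((Int.gcd (y - x) (x + d - x) : ℕ) : ℤ) = ((Int.gcd d (y - x) : ℕ) : ℤ) := by
      rw [Int.gcd_comm]; simp
    have hy' := hmin y hy (by omega)
    have ht : x + ((Int.gcd d (y - x) : ℕ) : ℤ) ∈ A := by
      apply hbad y hy h1 h2 (x + d) hdA
      · omega
      · omega
      · rw [hg']; simp
    have h3 := hmin _ ht (by omega)
    have h4 : ((Int.gcd d (y - x) : ℕ) : ℤ) = d := by omega
    rw [← h4]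
    exact Int.gcd_dvd_right ..
  have hzd : d ∣ z - x := L1 z hzA hz1 hz2
  have hdz : x + d ≤ z := hmin z hzA (by omega)
  -- the run from x to z
  have hrun : ∀ t : ℤ, x ≤ t → t ≤ z → d ∣ t - x → t ∈ A := by
    intro t h1 h2 h3
    apply hbad z hzA hz1 hz2 (x + d) hdA
    · omega
    · omega
    · refine dvd_trans ?_ h3
      have : ((Int.gcd (z - x) (x + d - x) : ℕ) : ℤ) ∣ x + d - x := Int.gcd_dvd_right ..
      simpa using this
  by_cases hda : (a : ℤ) < d
  · -- x + d is a core point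
    have hc : ∀ w ∈ A, d ∣ w - x := by
      intro w hw
      have hg := gcdpos (p := d) (q := w - x) hdpos
      have hg' : ((Int.gcd (x + d - x) (w - x) : ℕ) : ℤ) = ((Int.gcd d (w - x) : ℕ) : ℤ) := by
        simp
      have ht : x + ((Int.gcd d (w - x) : ℕ) : ℤ) ∈ A := by
        apply hbad (x + d) hdA (by omega) (by omega) w hw
        · omega
        · omega
        · rw [hg']; simp
      have h3 := hmin _ ht (by omega)
      have h4 : ((Int.gcd d (w - x) : ℕ) : ℤ) = d := by omega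
      rw [← h4]
      exact Int.gcd_dvd_right ..
    apply apc_of_run hxA hc
    intro w hw y hyd h1 h2
    apply hbad (x + d) hdA (by omega) (by omega) w hw
    · omega
    · omega
    · refine dvd_trans ?_ hyd
      have : ((Int.gcd (x + d - x) (w - x) : ℕ) : ℤ) ∣ x + d - x := Int.gcd_dvd_left ..
      simpa using this
  · have hda' : d ≤ a := by omega
    have hk1 : 1 ≤ k := by omega
    -- (A)
    have hc : ∀ w ∈ A, d ∣ w - x := by
      intro w hw
      by_contra hnd
      obtain ⟨g, hg⟩ : ∃ g : ℤ, g = ((Int.gcd (z - x) (w - x) : ℕ) : ℤ) := ⟨_, rfl⟩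
      have hgp := gcdpos (p := z - x) (q := w - x) (by omega)
      rw [← hg] at hgp
      have hgM : g ∣ z - x := by rw [hg]; exact Int.gcd_dvd_left ..
      have hgw : g ∣ w - x := by rw [hg]; exact Int.gcd_dvd_right ..
      have hndg : ¬ d ∣ g := fun h => hnd (h.trans hgw)
      -- x + j g in A
      have hj : ∀ s : ℤ, g ∣ s → 0 ≤ s → s ≤ z - x → x + s ∈ A := by
        intro s h1 h2 h3
        apply hbad z hzA hz1 hz2 w hw
        · omega
        · omega
        · rw [← hg]; simpa using h1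
      have hjd : ∀ s : ℤ, g ∣ s → (a : ℤ) < s → s ≤ z - x → d ∣ s := by
        intro s h1 h2 h3
        have := L1 (x + s) (hj s h1 (by omega) h3) (by omega) (by omega)
        simpa using this
      obtain ⟨t, ht⟩ := hgM
      have ht0 : 0 < t := by
        by_contra h
        push Not at h
        nlinarith [hgp.1]
      rcases eq_or_lt_of_le (Int.add_one_le_of_lt ht0) with h1 | h1
      · have : t = 1 := by omega
        subst this
        apply hndg
        have : g = z - x := by rw [ht]; ring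
        rw [this]; exact hzd
      · have ht2 : 2 ≤ t := by omega
        have hhalf : 2 * g ≤ z - x := by rw [ht]; nlinarith [hgp.1]
        have h2 : d ∣ (z - x) - g := by
          apply hjd
          · rw [ht]; exact dvd_sub (dvd_mul_right g t) (dvd_refl g)
          · omega
          · omega
        apply hndg
        have := dvd_sub hzd h2
        simpa using this
    apply apc_of_run hxA hc
    intro w hw y hyd h1 h2
    rcases le_total x w with hxw | hxw
    · rcases le_or_gt w z with hwz | hwz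
      · exact hrun y (by omega) (by omega) hyd
      · -- (B)
        have hwb : (N : ℤ) - b < w := by
          by_contra hcon
          push Not at hcon
          have := (hcore w hw (by omega) hcon).2
          omega
        have hwN : w ≤ N := (mem_Icc.1 (hsub hw)).2
        have hW2 : w - x ≤ 2 * (z - x) := by
          by_contra hcon
          push Not at hcon
          obtain ⟨e, he⟩ : ∃ e : ℤ, e = ((Int.gcd (z - x) (w - x) : ℕ) : ℤ) := ⟨_, rfl⟩
          have hep := gcdpos (p := z - x) (q := w - x) (by omega)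
          rw [← he] at hep
          have heM : e ∣ z - x := by rw [he]; exact Int.gcd_dvd_left ..
          have hew : e ∣ w - x := by rw [he]; exact Int.gcd_dvd_right ..
          have hze : z + e ∈ A := by
            apply hbad z hzA hz1 hz2 w hw
            · omega
            · omega
            · rw [← he]
              have : z + e - x = (z - x) + e := by ring
              rw [this]; exact dvd_add heM (dvd_refl e)
          have hze2 : (N : ℤ) - b < z + e := by
            by_contra hcon2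
            push Not at hcon2
            have := (hcore (z + e) hze (by omega) hcon2).2
            omega
          have hwze : e ∣ w - z - e := by
            have := dvd_sub (dvd_sub hew heM) (dvd_refl e)
            have h5 : w - x - (z - x) - e = w - z - e := by ring
            rwa [h5] at this
          have : e ≤ w - z - e := Int.le_of_dvd (by omega) hwze
          omega
        obtain ⟨W, hW⟩ := hc w hw
        have hW6 : 6 ≤ W := by
          by_contra hcon
          push Not at hcon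
          have : W ≤ 5 := by omega
          have h6 : d * W ≤ d * 5 := by
            apply mul_le_mul_of_nonneg_left this (by omega)
          omega
        obtain ⟨j, hj1, hj2, hj3⟩ := exists_jstar W hW6
        have hb1 : 2 * (d * j) ≤ w - x := by
          have h8 : d * (2 * j) ≤ d * W := mul_le_mul_of_nonneg_left hj2 (by omega)
          have h9 : 2 * (d * j) = d * (2 * j) := by ring
          omega
        have hb2 : w - x - 4 * d ≤ 2 * (d * j) := by
          have h8 : d * (W - 4) ≤ d * (2 * j) := mul_le_mul_of_nonneg_left hj1 (by omega)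
          have h9 : 2 * (d * j) = d * (2 * j) := by ring
          have h10 : d * (W - 4) = d * W - 4 * d := by ring
          omega
        have hmem : x + d * j ∈ A := hrun _ (by omega) (by omega) (by simp)
        apply hbad (x + d * j) hmem (by omega) (by omega) w hw
        · omega
        · omega
        · refine dvd_trans ?_ hyd
          obtain ⟨p, q, hpq⟩ := hj3
          have e1 : ((Int.gcd (x + d * j - x) (w - x) : ℕ) : ℤ) ∣ x + d * j - x :=
            Int.gcd_dvd_left ..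
          have e2 : ((Int.gcd (x + d * j - x) (w - x) : ℕ) : ℤ) ∣ w - x :=
            Int.gcd_dvd_right ..
          have e3 := dvd_add (e1.mul_left p) (e2.mul_left q)
          have e4 : p * (x + d * j - x) + q * (w - x) = d := by
            rw [hW]
            have : p * (x + d * j - x) + q * (d * W) = d * (p * j + q * W) := by ring
            rw [this, hpq]; ring
          rwa [e4] at e3
    · -- (C)
      rcases eq_or_lt_of_le hxw with hxw | hxw
      · have : y = x := by omega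
        rw [this]; exact hxA
      have hw1 : 1 ≤ w := (mem_Icc.1 (hsub hw)).1
      obtain ⟨W, hW⟩ := hc w hw
      obtain ⟨m, hm⟩ := hzd
      have hWneg : W < 0 := by
        by_contra hcon
        push Not at hcon
        have : 0 ≤ d * W := mul_nonneg (by omega) hcon
        omega
      -- j = 1 mod W, m + W < j ≤ m
      have hem0 := Int.emod_nonneg (m - 1) (b := W) (by omega)
      have hem1 := Int.emod_lt_abs (m - 1) (b := W) (by omega)
      rw [abs_of_neg hWneg] at hem1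
      obtain ⟨j, hj⟩ : ∃ j, j = m - (m - 1) % W := ⟨_, rfl⟩
      have hj1 : j ≤ m := by omega
      have hj2 : m + W < j := by omega
      have hb1 : d * j ≤ z - x := by
        rw [hm]; exact mul_le_mul_of_nonneg_left hj1 (by omega)
      have hb2 : (z - x) + (w - x) ≤ d * j := by
        rw [hm, hW, ← mul_add]; exact mul_le_mul_of_nonneg_left (by omega) (by omega)
      have hmem : x + d * j ∈ A := hrun _ (by omega) (by omega) (by simp)
      apply hbad (x + d * j) hmem (by omega) (by omega) w hw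
      · omega
      · omega
      · refine dvd_trans ?_ hyd
        have e1 : ((Int.gcd (x + d * j - x) (w - x) : ℕ) : ℤ) ∣ x + d * j - x :=
          Int.gcd_dvd_left ..
        have e2 : ((Int.gcd (x + d * j - x) (w - x) : ℕ) : ℤ) ∣ w - x :=
          Int.gcd_dvd_right ..
        -- j = 1 + W * q
        have hq : j = 1 + W * ((m - 1) / W) := by
          have := Int.mul_ediv_add_emod (m - 1) W
          omega
        have e3 := dvd_sub e1 (e2.mul_left ((m - 1) / W))
        have e4 : x + d * j - x - (m - 1) / W * (w - x) = d := by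
          rw [hW]
          have h7 : x + d * j - x = d * j := by ring
          rw [h7]
          nth_rewrite 1 [hq]
          ring
        rwa [e4] at e3

end Pool.Agent.Work.MP_1d0aa8_co

end

section

set_option autoImplicit false

namespace Pool.Agent.Work.MP_1d0aa8_co

open Finset
open scoped Classical

namespace MargAux

theorem mh {x u v y : ℤ} : y ∈ hull x u v ↔
    (min x (min u v) ≤ y ∧ y ≤ max x (max u v)) ∧
      ((Int.gcd (u - x) (v - x) : ℕ) : ℤ) ∣ y - x := by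
  unfold hull
  simp only [mem_filter, mem_Icc]

end MargAux

open MargAux in
theorem thmMarginB : SMarginB := by
  intro N k a b x z A hx1 hN hxa hxb hsub hxA hzA hz1 hz2 hcore hM y hy
  by_contra hcon
  push Not at hcon
  have hbad := (hcore z hzA hz1 hz2).1
  set e : ℤ := ((Int.gcd (z - x) (y - x) : ℕ) : ℤ) with he
  have he1 : e ∣ z - x := Int.gcd_dvd_left ..
  have he2 : e ≤ z - x := Int.le_of_dvd (by omega) he1
  have he0 : 0 < e := by
    have : Int.gcd (z - x) (y - x) ≠ 0 := by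
      intro h
      rw [Int.gcd_eq_zero_iff] at h
      omega
    omega
  have hmem : z + e ∈ A := by
    apply hbad y hy
    rw [mh]
    refine ⟨⟨by omega, by omega⟩, ?_⟩
    rw [← he]
    have : z + e - x = (z - x) + e := by ring
    rw [this]
    exact dvd_add he1 (dvd_refl e)
  have := (hcore (z + e) hmem (by omega) (by omega)).2
  omega

end Pool.Agent.Work.MP_1d0aa8_co

end

section

/-!
# MP_1d0aa8_co: item NEARAB
-/

set_option autoImplicit false

namespace Pool.Agent.Work.MP_1d0aa8_co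

open Finset
open scoped Classical

theorem thmNearAB : SNearAB := by
  intro N F x k a b h
  have mem : ∀ A ∈ Sd F x 1, A ∈ F ∧ x ∉ A := by
    intro A hA
    unfold Sd Pd at hA
    rw [mem_filter, mem_filter] at hA
    exact ⟨hA.1.1, hA.2⟩
  have card_le : ∀ (A : Finset ℤ) (l r : ℤ), (∀ y ∈ A, l ≤ y ∧ y ≤ r) → l ≤ r + 1 →
      (A.card : ℤ) ≤ r + 1 - l := by
    intro A l r hA hlr
    have h1 : A.card ≤ (Icc l r).card := card_le_card fun y hy => mem_Icc.2 (hA y hy)
    rw [Int.card_Icc] at h1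
    omega
  obtain ⟨A, hA, hA'⟩ := h.ha'
  obtain ⟨B, hB, hB'⟩ := h.hb'
  obtain ⟨hAF, hxA⟩ := mem A hA
  obtain ⟨hBF, hxB⟩ := mem B hB
  have hAsub := h.fam.sub A hAF
  have h1 := h.ha B hB
  have h2 := hB' _ h1
  have h3 := mem_Icc.1 h.hx
  refine ⟨?_, ?_, h2⟩
  · have h4 := card_le A (x + a + 1) N (fun y hy => ⟨hA' y hy, (mem_Icc.1 (hAsub hy)).2⟩) (by omega)
    have h5 := h.big A hAF hxA
    omega
  · have h4 := card_le B (x + 1) ((N : ℤ) - b) (fun y hy => ⟨h.right B hB y hy, hB' y hy⟩) (by omega)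
    have h5 := h.big B hBF hxB
    omega

end Pool.Agent.Work.MP_1d0aa8_co

end

section

/-!
# MP_1d0aa8_co: item NEARCOUNT
-/

set_option autoImplicit false

namespace Pool.Agent.Work.MP_1d0aa8_co

open Finset
open scoped Classical

theorem nc_mem {F : Finset (Finset ℤ)} {x : ℤ} {A : Finset ℤ} (hA : A ∈ Sd F x 1) :
    A ∈ F ∧ x ∉ A ∧ ∃ p q : ℤ, p < q ∧ A = Icc p q := by
  unfold Sd at hA
  rw [mem_filter, Pd_mem] at hA
  obtain ⟨⟨hAF, p, k, hk, hpk⟩, hxA⟩ := hA
  refine ⟨hAF, hxA, p, p + k, by omega, ?_⟩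
  ext y
  rw [hpk, mem_apset' le_rfl, mem_Icc]
  constructor
  · rintro ⟨h1, h2, -⟩
    refine ⟨h1, ?_⟩
    simpa using h2
  · rintro ⟨h1, h2⟩
    refine ⟨h1, by simpa using h2, by simp⟩

theorem thmNearCount : SNearCount := by
  intro N F x k a b h
  have hx := mem_Icc.1 h.hx
  have key : ∀ A ∈ Sd F x 1, ∃ p q : ℤ, A = Icc p q ∧ x < p ∧ p ≤ x + a + 1 ∧ (N : ℤ) - b ≤ q ∧
      q ≤ N ∧ p < q := by
    intro A hA
    obtain ⟨hAF, hxA, p, q, hpq, rfl⟩ := nc_mem hA
    have hp : p ∈ Icc p q := mem_Icc.2 ⟨le_rfl, hpq.le⟩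
    have hq : q ∈ Icc p q := mem_Icc.2 ⟨hpq.le, le_rfl⟩
    have h1 := h.right _ hA p hp
    have h2 := mem_Icc.1 (h.ha _ hA)
    have h3 := mem_Icc.1 (h.hb _ hA)
    have h4 := mem_Icc.1 (h.fam.sub _ hAF hq)
    exact ⟨p, q, rfl, h1, h2.1, h3.2, h4.2, hpq⟩
  have hsub : Sd F x 1 ⊆
      ((Icc ((N : ℤ) - b) N).image (fun q => Icc (x + 1) q)) ∪
      (((Icc (x + 2) (x + a + 1)).image (fun p => Icc p (N : ℤ))) ∪
        ((Forb N F x).image (fun p => Icc (p.1 + 1) (p.2 - 1)))) := by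
    intro A hA
    obtain ⟨p, q, rfl, h1, h2, h3, h4, h5⟩ := key A hA
    rw [mem_union, mem_union, mem_image, mem_image, mem_image]
    by_cases hp : p = x + 1
    · left
      exact ⟨q, mem_Icc.2 ⟨h3, h4⟩, by rw [hp]⟩
    by_cases hq : q = N
    · right; left
      exact ⟨p, mem_Icc.2 ⟨by omega, h2⟩, by rw [hq]⟩
    · right; right
      refine ⟨(p - 1, q + 1), ?_, ?_⟩
      · unfold Forb Prs
        rw [mem_filter, mem_filter, mem_product, mem_Icc, mem_Icc]
        refine ⟨⟨⟨⟨?_, ?_⟩, ⟨?_, ?_⟩⟩, ?_, ?_, ?_⟩, ?_, Icc p q, hA, ?_⟩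
        · show 1 ≤ p - 1
          omega
        · show p - 1 ≤ (N : ℤ)
          omega
        · show 1 ≤ q + 1
          omega
        · show q + 1 ≤ (N : ℤ)
          omega
        · show p - 1 < q + 1
          omega
        · show p - 1 ≠ x
          omega
        · show q + 1 ≠ x
          omega
        · show x < p - 1
          omega
        · intro y hy
          rw [mem_Icc] at hy
          show p - 1 < y ∧ y < q + 1
          omega
      · show Icc (p - 1 + 1) (q + 1 - 1) = Icc p q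
        rw [sub_add_cancel, add_sub_cancel_right]
  have hc := card_le_card hsub
  have hc1 := hc.trans ((card_union_le _ _).trans (Nat.add_le_add_left (card_union_le _ _) _))
  have e1 := card_image_le (s := Icc ((N : ℤ) - b) N) (f := fun q => Icc (x + 1) q)
  have e2 := card_image_le (s := Icc (x + 2) (x + a + 1)) (f := fun p => Icc p (N : ℤ))
  have e3 := card_image_le (s := Forb N F x) (f := fun p : ℤ × ℤ => Icc (p.1 + 1) (p.2 - 1))
  rw [Int.card_Icc] at e1 e2
  have f1 : ((N : ℤ) + 1 - ((N : ℤ) - b)).toNat = b + 1 := by omega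
  have f2 : (x + a + 1 + 1 - (x + 2)).toNat = a := by omega
  rw [f1] at e1
  rw [f2] at e2
  omega

end Pool.Agent.Work.MP_1d0aa8_co

end

section

/-!
# MP_1d0aa8_co: item NEARSMALL
-/

set_option autoImplicit false

namespace Pool.Agent.Work.MP_1d0aa8_co

open Finset
open scoped Classical

theorem ns_mem {F : Finset (Finset ℤ)} {x : ℤ} {A : Finset ℤ} (hA : A ∈ Sd F x 1) :
    A ∈ F ∧ x ∉ A := by
  unfold Sd at hA
  rw [mem_filter, Pd_mem] at hA
  exact ⟨hA.1.1, hA.2⟩

theorem thmNearSmall : SNearSmall := by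
  intro N F x k a b h
  have hx := mem_Icc.1 h.hx
  obtain ⟨A, hA, hA'⟩ := h.ha'
  obtain ⟨B, hB, hB'⟩ := h.hb'
  have h2 := hB' _ (h.ha B hB)
  have meet : ∀ C ∈ F, x ∈ C → ∀ D ∈ Sd F x 1, ∃ y ∈ C, y ≠ x ∧ y ∈ D := by
    intro C hC hxC D hD
    obtain ⟨hDF, hxD⟩ := ns_mem hD
    have hne : C ≠ D := by
      rintro rfl
      exact hxD hxC
    obtain ⟨y, hy⟩ := h.fam.meet hC hDF hne
    rw [mem_inter] at hy
    refine ⟨y, hy.1, ?_, hy.2⟩
    rintro rfl
    exact hxD hy.2
  have hsub : F.filter (fun A => x ∈ A ∧ A.card ≤ 2) ⊆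
      (Icc (x + a + 1) ((N : ℤ) - b)).image (fun y => ({x, y} : Finset ℤ)) := by
    intro C hC
    rw [mem_filter] at hC
    obtain ⟨hCF, hxC, hcard⟩ := hC
    obtain ⟨y, hyC, hyx, hyA⟩ := meet C hCF hxC A hA
    have hpair : ({x, y} : Finset ℤ) ⊆ C := by
      intro z hz
      rw [mem_insert, mem_singleton] at hz
      rcases hz with rfl | rfl <;> assumption
    have hc2 : ({x, y} : Finset ℤ).card = 2 := card_pair (Ne.symm hyx)
    have heq : ({x, y} : Finset ℤ) = C := eq_of_subset_of_card_le hpair (by omega)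
    have hyB : y ∈ B := by
      obtain ⟨z, hzC, hzx, hzB⟩ := meet C hCF hxC B hB
      rw [← heq, mem_insert, mem_singleton] at hzC
      rcases hzC with rfl | rfl
      · exact absurd rfl hzx
      · exact hzB
    rw [mem_image]
    exact ⟨y, mem_Icc.2 ⟨hA' y hyA, hB' y hyB⟩, heq⟩
  have hc := (card_le_card hsub).trans card_image_le
  rw [Int.card_Icc] at hc
  omega

end Pool.Agent.Work.MP_1d0aa8_co

end

section

/-!
# MP_1d0aa8_co: item NTC (the number of pairs missing an interval)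
-/

set_option autoImplicit false

namespace Pool.Agent.Work.MP_1d0aa8_co

open Finset
open scoped Classical

namespace ItNTC

theorem card_lt_pairs (S : Finset ℤ) :
    2 * ((S ×ˢ S).filter (fun p : ℤ × ℤ => p.1 < p.2)).card + S.card = S.card * S.card := by
  have h1 := card_filter_add_card_filter_not (s := S ×ˢ S) (fun p : ℤ × ℤ => p.1 < p.2)
  rw [card_product] at h1
  have h2 := card_filter_add_card_filter_not
    (s := (S ×ˢ S).filter (fun p : ℤ × ℤ => ¬ p.1 < p.2)) (fun p : ℤ × ℤ => p.1 = p.2)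
  have h3 : (((S ×ˢ S).filter (fun p : ℤ × ℤ => ¬ p.1 < p.2)).filter
      (fun p : ℤ × ℤ => p.1 = p.2)).card = S.card := by
    symm
    apply card_bij (fun (y : ℤ) _ => (y, y))
    · intro y hy
      rw [mem_filter, mem_filter, mem_product]
      exact ⟨⟨⟨hy, hy⟩, lt_irrefl _⟩, rfl⟩
    · intro y _ z _ h
      exact (Prod.mk.inj h).1
    · rintro ⟨u, v⟩ hp
      simp only [mem_filter, mem_product] at hp
      exact ⟨u, hp.1.1.1, by rw [hp.2]⟩
  have h4 : (((S ×ˢ S).filter (fun p : ℤ × ℤ => ¬ p.1 < p.2)).filter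
      (fun p : ℤ × ℤ => ¬ p.1 = p.2)).card =
      ((S ×ˢ S).filter (fun p : ℤ × ℤ => p.1 < p.2)).card := by
    apply card_bij (fun (p : ℤ × ℤ) _ => (p.2, p.1))
    · rintro ⟨u, v⟩ hp
      simp only [mem_filter, mem_product] at hp ⊢
      exact ⟨⟨hp.1.1.2, hp.1.1.1⟩, lt_of_le_of_ne (not_lt.1 hp.1.2) (fun h => hp.2 h.symm)⟩
    · rintro ⟨u, v⟩ _ ⟨u', v'⟩ _ h
      have := Prod.mk.inj h
      exact Prod.ext this.2 this.1
    · rintro ⟨u, v⟩ hp
      simp only [mem_filter, mem_product] at hp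
      refine ⟨(v, u), ?_, rfl⟩
      simp only [mem_filter, mem_product]
      exact ⟨⟨⟨hp.1.2, hp.1.1⟩, not_lt.2 hp.2.le⟩, fun h => hp.2.ne h.symm⟩
  rw [h3, h4] at h2
  omega

/-- The members of `Sd F x 1` are intervals. -/
theorem Sd_interval {N : ℕ} {F : Finset (Finset ℤ)} (hF : Fam N F) {x : ℤ}
    (hr : ∀ A ∈ Sd F x 1, ∀ y ∈ A, x < y) {A : Finset ℤ} (hA : A ∈ Sd F x 1) :
    ∃ p q : ℤ, x < p ∧ p < q ∧ q ≤ N ∧ A = Icc p q := by
  have hA' := hA
  unfold Sd Pd at hA
  rw [mem_filter, mem_filter] at hA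
  obtain ⟨⟨hAF, a, k, hk, rfl⟩, -⟩ := hA
  have hIcc : apset a 1 k = Icc a (a + k) := by
    ext y
    rw [mem_apset' le_rfl, mem_Icc]
    simp
  have h1 : a ∈ apset a 1 k := by
    rw [hIcc, mem_Icc]; constructor <;> omega
  have h2 : a + k ∈ apset a 1 k := by
    rw [hIcc, mem_Icc]; constructor <;> omega
  refine ⟨a, a + k, hr _ hA' _ h1, by omega, ?_, hIcc⟩
  have := hF.sub _ hAF h2
  rw [mem_Icc] at this
  exact this.2

/-- Two members of `Sd F x 1` meet. -/
theorem Sd_meet {N : ℕ} {F : Finset (Finset ℤ)} (hF : Fam N F) {x : ℤ}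
    {p q p' q' : ℤ} (hpq : p < q)
    (hA : Icc p q ∈ Sd F x 1) (hB : Icc p' q' ∈ Sd F x 1) : p ≤ q' ∧ p' ≤ q := by
  unfold Sd Pd at hA hB
  rw [mem_filter, mem_filter] at hA hB
  by_cases h : Icc p q = Icc p' q'
  · have h1 : p ∈ Icc p' q' := by rw [← h, mem_Icc]; exact ⟨le_rfl, hpq.le⟩
    have h2 : q ∈ Icc p' q' := by rw [← h, mem_Icc]; exact ⟨hpq.le, le_rfl⟩
    rw [mem_Icc] at h1 h2
    exact ⟨h1.2, h2.1⟩
  · obtain ⟨z, hz⟩ := (hF.ap _ hA.1.1 _ hB.1.1 h).1
    rw [mem_inter, mem_Icc, mem_Icc] at hz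
    exact ⟨by omega, by omega⟩

end ItNTC

open ItNTC in
theorem thmNTc : SNTc := by
  intro N F x a b hF hx hr hIa hIb
  obtain ⟨I1, hI1, h1⟩ := hIa
  obtain ⟨I2, hI2, h2⟩ := hIb
  obtain ⟨p1, q1, hp1, hpq1, hq1, rfl⟩ := Sd_interval hF hr hI1
  obtain ⟨p2, q2, hp2, hpq2, hq2, rfl⟩ := Sd_interval hF hr hI2
  rw [mem_Icc] at hx
  have h1' : x + a ≤ p1 := h1 p1 (by rw [mem_Icc]; exact ⟨le_rfl, hpq1.le⟩)
  have h2' : q2 ≤ (N : ℤ) - b := h2 q2 (by rw [mem_Icc]; exact ⟨hpq2.le, le_rfl⟩)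
  have h12 := Sd_meet hF hpq1 hI1 hI2
  -- the three groups
  set S1 : Finset ℤ := Ioo x (x + a) with hS1
  set S2 : Finset ℤ := Ioc ((N : ℤ) - b) N with hS2
  set G1 := (S1 ×ˢ S1).filter (fun p : ℤ × ℤ => p.1 < p.2) with hG1
  set G2 := (S2 ×ˢ S2).filter (fun p : ℤ × ℤ => p.1 < p.2) with hG2
  set G3 := ((Icc 1 (N : ℤ)) ×ˢ (Icc 1 (N : ℤ))).filter
    (fun p : ℤ × ℤ => x < p.1 ∧ Icc (p.1 + 1) (p.2 - 1) ∈ Sd F x 1) with hG3
  have hG3mem : ∀ p ∈ G3, x < p.1 ∧ p.2 ≤ N ∧ 1 ≤ p.1 ∧ p.1 + 1 < p.2 - 1 ∧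
      Icc (p.1 + 1) (p.2 - 1) ∈ Sd F x 1 := by
    intro p hp
    rw [hG3, mem_filter, mem_product, mem_Icc, mem_Icc] at hp
    obtain ⟨p', q', _, hpq', _, he⟩ := Sd_interval hF hr hp.2.2
    refine ⟨hp.2.1, hp.1.2.2, hp.1.1.1, ?_, hp.2.2⟩
    have h3 : p' ∈ Icc (p.1 + 1) (p.2 - 1) := by rw [he, mem_Icc]; exact ⟨le_rfl, hpq'.le⟩
    have h4 : q' ∈ Icc (p.1 + 1) (p.2 - 1) := by rw [he, mem_Icc]; exact ⟨hpq'.le, le_rfl⟩
    rw [mem_Icc] at h3 h4
    omega
  have hsub : G1 ∪ G2 ∪ G3 ⊆ NTp N F x := by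
    intro p hp
    unfold NTp Prs
    rw [mem_filter, mem_filter, mem_product, mem_Icc, mem_Icc]
    rw [mem_union, mem_union] at hp
    rcases hp with (hp | hp) | hp
    · rw [hG1, mem_filter, mem_product, hS1, mem_Ioo, mem_Ioo] at hp
      refine ⟨⟨⟨⟨by omega, by omega⟩, ⟨by omega, by omega⟩⟩, hp.2, by omega, by omega⟩, Icc p1 q1, hI1,
        ?_, ?_⟩
      · rw [mem_Icc]; omega
      · rw [mem_Icc]; omega
    · rw [hG2, mem_filter, mem_product, hS2, mem_Ioc, mem_Ioc] at hp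
      refine ⟨⟨⟨⟨by omega, by omega⟩, ⟨by omega, by omega⟩⟩, hp.2, by omega, by omega⟩, Icc p2 q2, hI2,
        ?_, ?_⟩
      · rw [mem_Icc]; omega
      · rw [mem_Icc]; omega
    · obtain ⟨h3, h4, h5, h6, h7⟩ := hG3mem p hp
      refine ⟨⟨⟨⟨by omega, by omega⟩, ⟨by omega, by omega⟩⟩, by omega, by omega, by omega⟩, _, h7,
        ?_, ?_⟩
      · rw [mem_Icc]; omega
      · rw [mem_Icc]; omega
  have hd12 : Disjoint G1 G2 := by
    rw [disjoint_left]
    intro p hp hp'
    rw [hG1, mem_filter, mem_product, hS1, mem_Ioo, mem_Ioo] at hp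
    rw [hG2, mem_filter, mem_product, hS2, mem_Ioc, mem_Ioc] at hp'
    omega
  have hd3 : Disjoint (G1 ∪ G2) G3 := by
    rw [disjoint_left]
    intro p hp hp'
    obtain ⟨h3, h4, h5, h6, h7⟩ := hG3mem p hp'
    rw [mem_union] at hp
    rcases hp with hp | hp
    · rw [hG1, mem_filter, mem_product, hS1, mem_Ioo, mem_Ioo] at hp
      have := Sd_meet hF h6 h7 hI1
      omega
    · rw [hG2, mem_filter, mem_product, hS2, mem_Ioc, mem_Ioc] at hp
      have := Sd_meet hF h6 h7 hI2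
      omega
  have hcard : G1.card + G2.card + G3.card ≤ (NTp N F x).card := by
    rw [← card_union_of_disjoint hd12, ← card_union_of_disjoint hd3]
    exact card_le_card hsub
  -- the intervals
  have hSd : (Sd F x 1).card ≤ G3.card + (N + N) := by
    have hsub2 : Sd F x 1 ⊆ G3.image (fun p : ℤ × ℤ => Icc (p.1 + 1) (p.2 - 1)) ∪
        ((Icc 1 (N : ℤ)).image (fun q : ℤ => Icc (x + 1) q) ∪
          (Icc 1 (N : ℤ)).image (fun p : ℤ => Icc p N)) := by
      intro A hA
      obtain ⟨p, q, hp, hpq, hq, rfl⟩ := Sd_interval hF hr hA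
      rw [mem_union, mem_union, mem_image, mem_image, mem_image]
      by_cases hpx : p = x + 1
      · right; left
        exact ⟨q, by rw [mem_Icc]; omega, by rw [hpx]⟩
      by_cases hqN : q = N
      · right; right
        exact ⟨p, by rw [mem_Icc]; omega, by rw [hqN]⟩
      left
      refine ⟨(p - 1, q + 1), ?_, ?_⟩
      · rw [hG3, mem_filter, mem_product, mem_Icc, mem_Icc]
        refine ⟨⟨⟨by simp only; omega, by simp only; omega⟩, ⟨by simp only; omega, by simp only; omega⟩⟩,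
          by simp only; omega, ?_⟩
        simpa using hA
      · simp
    have hN : ((Icc 1 (N : ℤ))).card = N := by
      rw [Int.card_Icc]; omega
    calc (Sd F x 1).card ≤ _ := card_le_card hsub2
      _ ≤ _ := card_union_le _ _
      _ ≤ G3.card + (N + N) := by
          apply Nat.add_le_add card_image_le
          refine (card_union_le _ _).trans (Nat.add_le_add ?_ ?_)
          · exact card_image_le.trans hN.le
          · exact card_image_le.trans hN.le
  -- numbers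
  have e1 := card_lt_pairs S1
  have e2 := card_lt_pairs S2
  have c1 : a ≤ S1.card + 1 := by
    rw [hS1, Int.card_Ioo]; omega
  have c2 : S2.card = b := by
    rw [hS2, Int.card_Ioc]; omega
  have c1' : S1.card ≤ N := by
    rw [hS1, Int.card_Ioo]; omega
  have hbN : b ≤ N := by omega
  rw [c2] at e2
  rw [← hG1] at e1
  rw [← hG2] at e2
  have e1' : 2 * (G1.card : ℝ) + S1.card = (S1.card : ℝ) * S1.card := by exact_mod_cast e1
  have e2' : 2 * (G2.card : ℝ) + b = (b : ℝ) * b := by exact_mod_cast e2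
  have c1r : (a : ℝ) ≤ S1.card + 1 := by exact_mod_cast c1
  have c1r' : (S1.card : ℝ) ≤ N := by exact_mod_cast c1'
  have hbr : (b : ℝ) ≤ N := by exact_mod_cast hbN
  have hcr : (G1.card : ℝ) + G2.card + G3.card ≤ (NTp N F x).card := by exact_mod_cast hcard
  have hSr : ((Sd F x 1).card : ℝ) ≤ G3.card + (N + N) := by exact_mod_cast hSd
  have hN1 : (1 : ℝ) ≤ N := by
    have : 1 ≤ N := by omega
    exact_mod_cast this
  have ha0 : (0 : ℝ) ≤ a := Nat.cast_nonneg a
  have hs0 : (0 : ℝ) ≤ S1.card := Nat.cast_nonneg _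
  have ha2 : (a : ℝ) ^ 2 ≤ (S1.card : ℝ) * S1.card + 2 * S1.card + 1 := by
    have : (a : ℝ) ^ 2 ≤ (S1.card + 1 : ℝ) ^ 2 := by
      apply pow_le_pow_left₀ ha0 c1r
    nlinarith
  nlinarith

end Pool.Agent.Work.MP_1d0aa8_co

end

section

/-!
# MP_1d0aa8_co: NUM0
-/

set_option autoImplicit false

namespace Pool.Agent.Work.MP_1d0aa8_co

theorem thmNum0 : SNum0 := by
  intro κ h1 h2
  have m1 : (max (2 * κ - 1) 0) ^ 2 = if 1 / 2 ≤ κ then (2 * κ - 1) ^ 2 else 0 := by
    split_ifs with h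
    · rw [max_eq_left (by linarith)]
    · rw [max_eq_right (by push Not at h; linarith)]; norm_num
  have m2 : (max (3 * κ - 2) 0) ^ 2 = if 2 / 3 ≤ κ then (3 * κ - 2) ^ 2 else 0 := by
    split_ifs with h
    · rw [max_eq_left (by linarith)]
    · rw [max_eq_right (by push Not at h; linarith)]; norm_num
  have m3 : (max (4 * κ - 3) 0) ^ 2 = if 3 / 4 ≤ κ then (4 * κ - 3) ^ 2 else 0 := by
    split_ifs with h
    · rw [max_eq_left (by linarith)]
    · rw [max_eq_right (by push Not at h; linarith)]; norm_num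
  rw [m1, m2, m3]
  split_ifs with g1 g2 g3 g3 g2 g3 g3
  · nlinarith [mul_nonneg (sub_nonneg.2 g3) (sub_nonneg.2 h2)]
  · push Not at g3
    nlinarith [mul_nonneg (sub_nonneg.2 g2) (sub_nonneg.2 g3.le)]
  · exfalso; linarith
  · push Not at g2
    nlinarith [mul_nonneg (sub_nonneg.2 g1) (sub_nonneg.2 g2.le)]
  · exfalso; linarith
  · exfalso; linarith
  · exfalso; linarith
  · nlinarith [mul_nonneg (sub_nonneg.2 h1) (sub_nonneg.2 h1)]

end Pool.Agent.Work.MP_1d0aa8_co

end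

section

/-!
# MP_1d0aa8_co: NUM1
-/

set_option autoImplicit false

namespace Pool.Agent.Work.MP_1d0aa8_co

theorem thmNum1 : SNum1 := by
  intro k L a δ hk0 hk1 hL0 hLk ha0 hLa hLa1 ⟨u0, _, u2, _, _⟩
  by_cases h : a ≤ k - L
  · have h3 := u2 h
    have h4 : (k ^ 2 / 2 - δ) * (L + a) ≥ (k ^ 2 / 2 - (a * (k - L) - a ^ 2 / 2)) * (L + a) := by
      apply mul_le_mul_of_nonneg_right _ hLa.le
      linarith
    have h5 : (k ^ 2 / 2 - (a * (k - L) - a ^ 2 / 2)) * (L + a) - 0.426 * k ^ 2 * L =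
        0.074 * k ^ 2 * L + a * ((k - L - a) ^ 2 + L ^ 2 + a * L) / 2 := by ring
    have h6 : 0 ≤ a * ((k - L - a) ^ 2 + L ^ 2 + a * L) / 2 := by positivity
    have h7 : 0 ≤ k ^ 2 * L * (1 - (L + a)) := by
      apply mul_nonneg (by positivity); linarith
    have h8 : 0 ≤ k ^ 2 * L := by positivity
    nlinarith
  · push Not at h
    have h4 : (k ^ 2 / 2 - δ) * (L + a) ≥ (k ^ 2 / 2 - (k - L) ^ 2 / 2) * (L + a) := by
      apply mul_le_mul_of_nonneg_right _ hLa.le
      linarith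
    have h5 : k ≤ L + a := by linarith
    have h6 : 0 ≤ (2 * k - L - 0.14 * k ^ 2) - 0.93 * k := by nlinarith
    have h7 : 0.93 * k * k ≤ (2 * k - L - 0.14 * k ^ 2) * (L + a) := by
      have h8 : 0 ≤ 0.93 * k := by positivity
      calc 0.93 * k * k ≤ 0.93 * k * (L + a) := mul_le_mul_of_nonneg_left h5 h8
        _ ≤ (2 * k - L - 0.14 * k ^ 2) * (L + a) := mul_le_mul_of_nonneg_right (by linarith) hLa.le
    have h9 : 0 ≤ L * ((2 * k - L - 0.14 * k ^ 2) * (L + a) - 0.852 * k ^ 2) := by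
      apply mul_nonneg hL0
      nlinarith [sq_nonneg k]
    nlinarith

end Pool.Agent.Work.MP_1d0aa8_co

end

section

/-!
# NUM3b
-/

set_option autoImplicit false

namespace Pool.Agent.Work.MP_1d0aa8_co

open Finset
open scoped Classical

namespace ItNUM3b

theorem gg0 {t : ℝ} (h : t ≤ 0) : gg t = 0 := by
  unfold gg
  rw [max_eq_right h, max_eq_right (by linarith)]
  norm_num

theorem gg1 {t : ℝ} (h : 0 ≤ t) (h2 : t ≤ 1 / 2) : gg t = t ^ 2 / 2 := by
  unfold gg
  rw [max_eq_left h, max_eq_right (by linarith)]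
  ring

theorem gg2 {t : ℝ} (h2 : 1 / 2 ≤ t) : gg t = -t ^ 2 / 2 + t - 1 / 4 := by
  unfold gg
  rw [max_eq_left (by linarith), max_eq_left (by linarith)]
  ring

theorem h3_eq (k : ℝ) : h3 k = gg (1 - 3 * (1 - k)) / 9 + gg (1 - 4 * (1 - k)) / 16
    + gg (1 - 5 * (1 - k)) / 25 + gg (1 - 6 * (1 - k)) / 36 + gg (1 - 7 * (1 - k)) / 49
    + gg (1 - 8 * (1 - k)) / 64 + gg (1 - 9 * (1 - k)) / 81 + gg (1 - 10 * (1 - k)) / 100 := by
  unfold h3
  rw [show (Icc 3 10 : Finset ℕ) = {3, 4, 5, 6, 7, 8, 9, 10} from by decide]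
  simp
  ring

/-- The value of `h3` on the seven intervals. -/
theorem h3_cases (k : ℝ) (h1 : 0.77 ≤ k) (h2 : k ≤ 0.908) :
    (k ≤ 0.8 ∧ h3 k = (1 - 3 * (1 - k)) ^ 2 / 18 + (1 - 4 * (1 - k)) ^ 2 / 32) ∨
    (0.8 ≤ k ∧ k ≤ 5 / 6 ∧ h3 k = (1 - 3 * (1 - k)) ^ 2 / 18 + (1 - 4 * (1 - k)) ^ 2 / 32
      + (1 - 5 * (1 - k)) ^ 2 / 50) ∨
    (5 / 6 ≤ k ∧ k ≤ 6 / 7 ∧ h3 k =
      (-(1 - 3 * (1 - k)) ^ 2 / 2 + (1 - 3 * (1 - k)) - 1 / 4) / 9 + (1 - 4 * (1 - k)) ^ 2 / 32
      + (1 - 5 * (1 - k)) ^ 2 / 50 + (1 - 6 * (1 - k)) ^ 2 / 72) ∨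
    (6 / 7 ≤ k ∧ k ≤ 7 / 8 ∧ h3 k =
      (-(1 - 3 * (1 - k)) ^ 2 / 2 + (1 - 3 * (1 - k)) - 1 / 4) / 9 + (1 - 4 * (1 - k)) ^ 2 / 32
      + (1 - 5 * (1 - k)) ^ 2 / 50 + (1 - 6 * (1 - k)) ^ 2 / 72
      + (1 - 7 * (1 - k)) ^ 2 / 98) ∨
    (7 / 8 ≤ k ∧ k ≤ 8 / 9 ∧ h3 k =
      (-(1 - 3 * (1 - k)) ^ 2 / 2 + (1 - 3 * (1 - k)) - 1 / 4) / 9
      + (-(1 - 4 * (1 - k)) ^ 2 / 2 + (1 - 4 * (1 - k)) - 1 / 4) / 16
      + (1 - 5 * (1 - k)) ^ 2 / 50 + (1 - 6 * (1 - k)) ^ 2 / 72
      + (1 - 7 * (1 - k)) ^ 2 / 98 + (1 - 8 * (1 - k)) ^ 2 / 128) ∨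
    (8 / 9 ≤ k ∧ k ≤ 0.9 ∧ h3 k =
      (-(1 - 3 * (1 - k)) ^ 2 / 2 + (1 - 3 * (1 - k)) - 1 / 4) / 9
      + (-(1 - 4 * (1 - k)) ^ 2 / 2 + (1 - 4 * (1 - k)) - 1 / 4) / 16
      + (1 - 5 * (1 - k)) ^ 2 / 50 + (1 - 6 * (1 - k)) ^ 2 / 72
      + (1 - 7 * (1 - k)) ^ 2 / 98 + (1 - 8 * (1 - k)) ^ 2 / 128
      + (1 - 9 * (1 - k)) ^ 2 / 162) ∨
    (0.9 ≤ k ∧ k ≤ 0.908 ∧ h3 k =
      (-(1 - 3 * (1 - k)) ^ 2 / 2 + (1 - 3 * (1 - k)) - 1 / 4) / 9
      + (-(1 - 4 * (1 - k)) ^ 2 / 2 + (1 - 4 * (1 - k)) - 1 / 4) / 16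
      + (-(1 - 5 * (1 - k)) ^ 2 / 2 + (1 - 5 * (1 - k)) - 1 / 4) / 25
      + (1 - 6 * (1 - k)) ^ 2 / 72
      + (1 - 7 * (1 - k)) ^ 2 / 98 + (1 - 8 * (1 - k)) ^ 2 / 128
      + (1 - 9 * (1 - k)) ^ 2 / 162 + (1 - 10 * (1 - k)) ^ 2 / 200) := by
  rw [h3_eq]
  rcases le_total k 0.8 with c1 | c1
  · left
    refine ⟨c1, ?_⟩
    rw [gg1 (by linarith) (by linarith), gg1 (by linarith) (by linarith), gg0 (by linarith),
      gg0 (by linarith), gg0 (by linarith), gg0 (by linarith), gg0 (by linarith),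
      gg0 (by linarith)]
    ring
  right
  rcases le_total k (5 / 6) with c2 | c2
  · left
    refine ⟨c1, c2, ?_⟩
    rw [gg1 (by linarith) (by linarith), gg1 (by linarith) (by linarith),
      gg1 (by linarith) (by linarith),
      gg0 (by linarith), gg0 (by linarith), gg0 (by linarith), gg0 (by linarith),
      gg0 (by linarith)]
    ring
  right
  rcases le_total k (6 / 7) with c3 | c3
  · left
    refine ⟨c2, c3, ?_⟩
    rw [gg2 (by linarith), gg1 (by linarith) (by linarith),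
      gg1 (by linarith) (by linarith), gg1 (by linarith) (by linarith),
      gg0 (by linarith), gg0 (by linarith), gg0 (by linarith),
      gg0 (by linarith)]
    ring
  right
  rcases le_total k (7 / 8) with c4 | c4
  · left
    refine ⟨c3, c4, ?_⟩
    rw [gg2 (by linarith), gg1 (by linarith) (by linarith),
      gg1 (by linarith) (by linarith), gg1 (by linarith) (by linarith),
      gg1 (by linarith) (by linarith), gg0 (by linarith), gg0 (by linarith),
      gg0 (by linarith)]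
    ring
  right
  rcases le_total k (8 / 9) with c5 | c5
  · left
    refine ⟨c4, c5, ?_⟩
    rw [gg2 (by linarith), gg2 (by linarith),
      gg1 (by linarith) (by linarith), gg1 (by linarith) (by linarith),
      gg1 (by linarith) (by linarith), gg1 (by linarith) (by linarith), gg0 (by linarith),
      gg0 (by linarith)]
    ring
  right
  rcases le_total k 0.9 with c6 | c6
  · left
    refine ⟨c5, c6, ?_⟩
    rw [gg2 (by linarith), gg2 (by linarith),
      gg1 (by linarith) (by linarith), gg1 (by linarith) (by linarith),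
      gg1 (by linarith) (by linarith), gg1 (by linarith) (by linarith),
      gg1 (by linarith) (by linarith), gg0 (by linarith)]
    ring
  right
  refine ⟨c6, h2, ?_⟩
  rw [gg2 (by linarith), gg2 (by linarith),
    gg2 (by linarith), gg1 (by linarith) (by linarith),
    gg1 (by linarith) (by linarith), gg1 (by linarith) (by linarith),
    gg1 (by linarith) (by linarith), gg1 (by linarith) (by linarith)]
  ring

end ItNUM3b

open ItNUM3b in
theorem thmNum3b : SNum3b := by
  intro k h1 h2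
  rcases h3_cases k h1 h2 with ⟨c, h⟩ | ⟨c, c', h⟩ | ⟨c, c', h⟩ | ⟨c, c', h⟩ | ⟨c, c', h⟩ |
    ⟨c, c', h⟩ | ⟨c, c', h⟩ <;> rw [h]
  · nlinarith
  · nlinarith
  · nlinarith
  · nlinarith
  · nlinarith
  · nlinarith
  · nlinarith

end Pool.Agent.Work.MP_1d0aa8_co

end

section

/-!
# NUM4
-/

set_option autoImplicit false

namespace Pool.Agent.Work.MP_1d0aa8_co

open Finset
open scoped Classical

namespace ItNUM4

theorem key (κ : ℝ) (h1 : 0.076 ≤ κ) (h2 : κ ≤ 0.65) :
    0.0003 ≤ κ ^ 2 / 16 - (max (2 * κ - 1) 0) ^ 2 / 8 := by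
  rcases le_total (2 * κ - 1) 0 with h | h
  · rw [max_eq_right h]
    nlinarith
  · rw [max_eq_left h]
    nlinarith

end ItNUM4

open ItNUM4 in
theorem thmNum4 : SNum4 := by
  intro κ a b δ hκ1 hκ2 ha hb ⟨hT, hab, hA, hB, hAB⟩
  have hk := key κ hκ1 hκ2
  set H := (max (2 * κ - 1) 0) ^ 2 / 8 with hH
  have hκ0 : 0 < κ := by linarith
  rcases le_total a κ with haκ | haκ
  · rcases le_total b κ with hbκ | hbκ
    · rcases le_total κ (a + b) with hu | hu
      · have h := hAB haκ hbκ hu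
        rcases le_total (a + b - κ) (κ / 2) with h5 | h5
        · left
          nlinarith [sq_nonneg (a - b), sq_nonneg (κ - (a + b - κ)),
            mul_nonneg (show 0 ≤ κ / 2 - (a + b - κ) by linarith)
              (show 0 ≤ 3 * κ / 2 - (a + b - κ) by linarith)]
        · right
          nlinarith [sq_nonneg (a - b),
            mul_nonneg (show 0 ≤ (a + b - κ) - κ / 2 by linarith)
              (show 0 ≤ (a + b - κ) + κ / 2 by linarith)]
      · left
        nlinarith [sq_nonneg (a - b), mul_nonneg (show 0 ≤ κ - (a + b) by linarith)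
          (show 0 ≤ κ + (a + b) by linarith)]
    · have h := hA haκ
      rcases le_total a (κ / 2) with h5 | h5
      · left
        nlinarith [mul_nonneg (show 0 ≤ κ / 2 - a by linarith)
          (show 0 ≤ 3 * κ / 2 - a by linarith)]
      · right
        nlinarith [mul_nonneg (show 0 ≤ b - κ by linarith) (show 0 ≤ b + κ by linarith),
          sq_nonneg (κ - a), mul_nonneg (show 0 ≤ a - κ / 2 by linarith)
          (show 0 ≤ a + κ / 2 by linarith)]
  · rcases le_total b κ with hbκ | hbκ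
    · have h := hB hbκ
      rcases le_total b (κ / 2) with h5 | h5
      · left
        nlinarith [mul_nonneg (show 0 ≤ κ / 2 - b by linarith)
          (show 0 ≤ 3 * κ / 2 - b by linarith)]
      · right
        nlinarith [mul_nonneg (show 0 ≤ a - κ by linarith) (show 0 ≤ a + κ by linarith),
          sq_nonneg (κ - b), mul_nonneg (show 0 ≤ b - κ / 2 by linarith)
          (show 0 ≤ b + κ / 2 by linarith)]
    · right
      nlinarith [mul_nonneg (show 0 ≤ a - κ by linarith) (show 0 ≤ a + κ by linarith),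
        mul_nonneg (show 0 ≤ b - κ by linarith) (show 0 ≤ b + κ by linarith)]

end Pool.Agent.Work.MP_1d0aa8_co

end

section

/-!
# The four regions for the numerical inequalities NUM2, NUM2b, NUM3
-/

set_option autoImplicit false

namespace Pool.Agent.Work.MP_1d0aa8_co

open Finset
open scoped Classical

namespace ItNUMReg

/-- Region 1: `a ≤ κ - L`. -/
theorem R1 (k L a δ H c ρ : ℝ) (hL : 0 ≤ L) (ha : 0 ≤ a)
    (haT : a ≤ k - L) (hδ : δ ≤ a * (k - L) - a ^ 2 / 2) (hc : 0 ≤ c)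
    (c1 : 2 * H ≤ (1 - 2 * ρ) * k ^ 2 - 2 * c * k)
    (hq : 2 * H ≤ (k - L - a) ^ 2 + L ^ 2 + a * L) :
    0 ≤ (k ^ 2 / 2 - δ - H) * (L + a) - ρ * k ^ 2 * L - c * L * (L + a) := by
  have e1 : 0 ≤ L * ((1 - 2 * ρ) * k ^ 2 - 2 * c * k - 2 * H) := mul_nonneg hL (by linarith)
  have e2 : 0 ≤ a * ((k - L - a) ^ 2 + L ^ 2 + a * L - 2 * H) := mul_nonneg ha (by linarith)
  have e3 : 0 ≤ (c * L) * (k - L - a) := mul_nonneg (mul_nonneg hc hL) (by linarith)
  have e4 : 0 ≤ (L + a) * (a * (k - L) - a ^ 2 / 2 - δ) := mul_nonneg (by linarith) (by linarith)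
  nlinarith [e1, e2, e3, e4]

/-- Region 2: `a ≥ κ - L`. -/
theorem R2 (k L a δ H c ρ : ℝ) (hk : 0 ≤ k) (hk1 : k < 1) (hL : 0 ≤ L) (ha : 0 ≤ a)
    (hLk : L ≤ k) (haT : k - L ≤ a) (hLm : 2 * k - 1 ≤ L) (hδ : δ ≤ (k - L) ^ 2 / 2)
    (hρ : 0 ≤ ρ)
    (c1 : 2 * H ≤ (1 - 2 * ρ) * k ^ 2 - 2 * c * k)
    (c3 : 2 * H ≤ (2 * k - 1) * ((2 - 2 * ρ) * k - 2 * c - (2 * k - 1))) :
    0 ≤ (k ^ 2 / 2 - δ - H) * (L + a) - ρ * k ^ 2 * L - c * L * (L + a) := by
  have hP : 0 ≤ L * ((2 - 2 * ρ) * k - 2 * c - L) - 2 * H := by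
    have h1 : 0 ≤ (1 - k) * (L * ((2 - 2 * ρ) * k - 2 * c - L) - 2 * H) := by
      have e1 : 0 ≤ (k - L) * ((2 * k - 1) * ((2 - 2 * ρ) * k - 2 * c - (2 * k - 1)) - 2 * H) :=
        mul_nonneg (by linarith) (by linarith)
      have e2 : 0 ≤ (L - (2 * k - 1)) * ((1 - 2 * ρ) * k ^ 2 - 2 * c * k - 2 * H) :=
        mul_nonneg (by linarith) (by linarith)
      have e3 : 0 ≤ (1 - k) * ((L - (2 * k - 1)) * (k - L)) :=
        mul_nonneg (by linarith) (mul_nonneg (by linarith) (by linarith))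
      nlinarith [e1, e2, e3]
    exact nonneg_of_mul_nonneg_right h1 (by linarith)
  have e1 := mul_nonneg hP (show 0 ≤ L + a by linarith)
  have e2 : 0 ≤ ρ * k * L * (L + a - k) :=
    mul_nonneg (mul_nonneg (mul_nonneg hρ hk) hL) (by linarith)
  have e4 : 0 ≤ (L + a) * ((k - L) ^ 2 / 2 - δ) := mul_nonneg (by linarith) (by linarith)
  nlinarith [e1, e2, e4]

/-- Region 3. -/
theorem R3 (k L a δ H c ρ : ℝ) (hL : 0 ≤ L) (ha : 0 ≤ a) (hs : L + a ≤ 1)
    (hδ : δ ≤ a * (1 - L - a) - (1 - k) ^ 2 / 2) (hc : 0 ≤ c)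
    (c4 : H ≤ 1 / 4 + (2 * k - 1) ^ 2 / 4 - ρ * k ^ 2 - c) (c4' : H ≤ (2 * k - 1) ^ 2 / 4) :
    0 ≤ (k ^ 2 / 2 - δ - H) * (L + a) - ρ * k ^ 2 * L - c * L * (L + a) := by
  have e1 : 0 ≤ a * ((L + a - 1 / 2) ^ 2 + ((2 * k - 1) ^ 2 / 4 - H)) :=
    mul_nonneg ha (by nlinarith [sq_nonneg (L + a - 1 / 2)])
  have e2 : 0 ≤ L * (1 / 4 + (2 * k - 1) ^ 2 / 4 - ρ * k ^ 2 - c - H) :=
    mul_nonneg hL (by linarith)
  have e3 : 0 ≤ (c * L) * (1 - L - a) := mul_nonneg (mul_nonneg hc hL) (by linarith)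
  have e4 : 0 ≤ (L + a) * (a * (1 - L - a) - (1 - k) ^ 2 / 2 - δ) :=
    mul_nonneg (by linarith) (by linarith)
  nlinarith [e1, e2, e3, e4]

/-- Region 4. -/
theorem R4 (k L a δ H c ρ : ℝ) (hk : 1 / 2 ≤ k) (hk1 : k < 1) (hL : 0 ≤ L)
    (hb : 0 ≤ 1 - L - a) (haw : 1 - k ≤ a) (hbw : 1 - L - a ≤ 1 - k)
    (hδ : δ ≤ (1 - L - a) * (k - L) - (1 - L - a) ^ 2 / 2) (hc : 0 ≤ c)
    (c2 : H ≤ (2 * k - 1) ^ 2 / 2)
    (c5 : H ≤ k * (k / 2 - ρ * k ^ 2 - c))
    (c6 : H * k ≤ (2 * k - 1) * (k / 2 - ρ * k ^ 2 - c)) :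
    0 ≤ (k ^ 2 / 2 - δ - H) * (L + a) - ρ * k ^ 2 * L - c * L * (L + a) := by
  obtain ⟨b, hbdef⟩ : ∃ b, b = 1 - L - a := ⟨_, rfl⟩
  rw [← hbdef] at hb hbw hδ
  have hs : L + a = 1 - b := by linarith
  have hLb : L ≤ k - b := by linarith
  rw [hs]
  -- value at `L = 0`
  have v0 : 0 ≤ ((k - b) ^ 2 / 2 - H) * (1 - b) := by
    apply mul_nonneg _ (by linarith)
    nlinarith
  -- value at `L = k - b`
  have v2 : 0 ≤ (k - b) * (k / 2 - ρ * k ^ 2 - c) - H * (1 - b) := by
    have h1 : 0 ≤ (1 - k) * ((k - b) * (k / 2 - ρ * k ^ 2 - c) - H * (1 - b)) := by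
      have e1 := mul_nonneg (show 0 ≤ 1 - k - b by linarith)
        (show 0 ≤ k * (k / 2 - ρ * k ^ 2 - c) - H by linarith)
      have e2 := mul_nonneg hb
        (show 0 ≤ (2 * k - 1) * (k / 2 - ρ * k ^ 2 - c) - H * k by linarith)
      nlinarith [e1, e2]
    exact nonneg_of_mul_nonneg_right h1 (by linarith)
  have hkb : 0 ≤ k - b := by linarith
  have v1 : 0 ≤ ((k ^ 2 - b ^ 2) / 2 - H) * (1 - b) - ρ * k ^ 2 * (k - b)
      - c * (k - b) * (1 - b) := by
    have e1 : 0 ≤ (k - b) * (b * (1 - k - b)) :=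
      mul_nonneg hkb (mul_nonneg hb (by linarith))
    have e2 : 0 ≤ (c * (k - b)) * b := mul_nonneg (mul_nonneg hc hkb) hb
    nlinarith [e1, e2, v2]
  have e4 : 0 ≤ (1 - b) * (b * (k - L) - b ^ 2 / 2 - δ) :=
    mul_nonneg (by linarith) (by linarith)
  have v3 : 0 ≤ (k ^ 2 / 2 - (b * (k - L) - b ^ 2 / 2) - H) * (1 - b) - ρ * k ^ 2 * L
      - c * L * (1 - b) := by
    rcases eq_or_lt_of_le hkb with h0 | h0
    · have hL0 : L = 0 := by linarith
      have hbk : b = k := by linarith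
      rw [hL0]
      rw [hbk] at v0 ⊢
      nlinarith [v0]
    · have h1 : 0 ≤ (k - b) * ((k ^ 2 / 2 - (b * (k - L) - b ^ 2 / 2) - H) * (1 - b)
          - ρ * k ^ 2 * L - c * L * (1 - b)) := by
        have e1 := mul_nonneg (show 0 ≤ k - b - L by linarith) v0
        have e2 := mul_nonneg hL v1
        nlinarith [e1, e2]
      exact nonneg_of_mul_nonneg_right h1 h0
  nlinarith [v3, e4]

/-- All four regions together. -/
theorem core (k L a δ H c ρ : ℝ) (hk : 1 / 2 ≤ k) (hk1 : k < 1) (hL : 0 ≤ L) (hLk : L ≤ k)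
    (ha : 0 ≤ a) (hs : L + a ≤ 1) (hA : AreaBd a (1 - L - a) (k - L) δ 0)
    (hc : 0 ≤ c) (hρ : 0 ≤ ρ)
    (c1 : 2 * H ≤ (1 - 2 * ρ) * k ^ 2 - 2 * c * k)
    (hq : a ≤ 1 - k → a ≤ k - L → 2 * H ≤ (k - L - a) ^ 2 + L ^ 2 + a * L)
    (c3 : 2 * H ≤ (2 * k - 1) * ((2 - 2 * ρ) * k - 2 * c - (2 * k - 1)))
    (c2 : H ≤ (2 * k - 1) ^ 2 / 2)
    (c5 : H ≤ k * (k / 2 - ρ * k ^ 2 - c))
    (c6 : H * k ≤ (2 * k - 1) * (k / 2 - ρ * k ^ 2 - c))
    (h3 : 1 - k ≤ a → a ≤ k - L → δ ≤ a * (1 - L - a) - (1 - k) ^ 2 / 2 →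
      0 ≤ (k ^ 2 / 2 - δ - H) * (L + a) - ρ * k ^ 2 * L - c * L * (L + a)) :
    0 ≤ (k ^ 2 / 2 - δ - H) * (L + a) - ρ * k ^ 2 * L - c * L * (L + a) := by
  obtain ⟨hT, hab, hAa, hAb, hAB⟩ := hA
  simp only [add_zero] at hT hab hAa hAb hAB
  rcases le_total a (1 - k) with haw | haw
  · rcases le_total a (k - L) with haT | haT
    · exact R1 k L a δ H c ρ hL ha haT (hAa haT) hc c1 (hq haw haT)
    · exact R2 k L a δ H c ρ (by linarith) hk1 hL ha hLk haT (by linarith) hT hρ c1 c3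
  · rcases le_total a (k - L) with haT | haT
    · apply h3 haw haT
      have := hAB haT (by linarith) (by linarith)
      nlinarith [this]
    · exact R4 k L a δ H c ρ hk hk1 hL (by linarith) haw (by linarith)
        (hAb (by linarith)) hc c2 c5 c6

end ItNUMReg

end Pool.Agent.Work.MP_1d0aa8_co

end

section

/-!
# MP_1d0aa8_co: PDCARD
-/

set_option autoImplicit false

namespace Pool.Agent.Work.MP_1d0aa8_co

open Finset
open scoped Classical

/-- The ends of a progression in `[N]`. -/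
theorem apset_ends {N : ℕ} {a : ℤ} {d k : ℕ} (h : apset a d k ⊆ Icc 1 (N : ℤ)) :
    1 ≤ a ∧ a + k * d ≤ N := by
  have h1 : a ∈ apset a d k := mem_apset.2 ⟨0, Nat.zero_le _, by simp⟩
  have h2 : a + k * d ∈ apset a d k := mem_apset.2 ⟨k, le_rfl, rfl⟩
  exact ⟨(Finset.mem_Icc.1 (h h1)).1, (Finset.mem_Icc.1 (h h2)).2⟩

theorem thmPdCard : SPdCard := by
  intro N F d A hF hd hA
  obtain ⟨hAF, a, k, hk, rfl⟩ := Pd_mem.1 hA
  rw [card_apset hd]
  obtain ⟨h1, h2⟩ := apset_ends (hF.sub _ hAF)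
  have h3 : ((d * k + 1 : ℕ) : ℤ) ≤ N := by
    push_cast
    nlinarith
  have h4 : d * k + 1 ≤ N := by exact_mod_cast h3
  simpa using h4

end Pool.Agent.Work.MP_1d0aa8_co

end

section

/-! MP_1d0aa8_co, item PSI: pairs with a common divisor against coprime pairs. -/

set_option autoImplicit false

namespace Pool.Agent.Work.MP_1d0aa8_co

open Finset
open scoped Classical

/-- The coprime pair attached to a pair `(i, j)` with `i < j` and a common divisor. -/
def psiMap (p : ℕ × ℕ) : ℕ × ℕ :=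
  if p.1 = 0 then (1, p.2)
  else (p.2 / Nat.gcd p.1 p.2, (Nat.gcd p.1 p.2 - 1) * (p.2 / Nat.gcd p.1 p.2) + p.1 / Nat.gcd p.1 p.2)

/-- The inverse of `psiMap`. -/
def psiInv (q : ℕ × ℕ) : ℕ × ℕ :=
  if q.1 = 1 then (0, q.2)
  else ((q.2 / q.1 + 1) * (q.2 % q.1), (q.2 / q.1 + 1) * q.1)

/-- Basic facts on `psiMap`. -/
theorem psi_facts (i j : ℕ) (hij : i < j) (hg : 2 ≤ Nat.gcd i j) :
    1 ≤ (psiMap (i, j)).1 ∧ (psiMap (i, j)).1 < (psiMap (i, j)).2 ∧
      Nat.Coprime (psiMap (i, j)).1 (psiMap (i, j)).2 ∧ (psiMap (i, j)).2 ≤ j ∧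
      psiInv (psiMap (i, j)) = (i, j) := by
  rcases Nat.eq_zero_or_pos i with h0 | hi
  · subst h0
    have hj : 2 ≤ j := by simpa using hg
    refine ⟨?_, ?_, ?_, ?_, ?_⟩
    · simp [psiMap]
    · simp [psiMap]; omega
    · simp [psiMap]
    · simp [psiMap]
    · simp [psiMap, psiInv]
  · obtain ⟨i', j', hcop, hi', hj'⟩ := Nat.exists_coprime i j
    set g := Nat.gcd i j with hgdef
    have hgpos : 0 < g := by omega
    have hi'pos : 0 < i' := by
      rcases Nat.eq_zero_or_pos i' with h | h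
      · rw [h] at hi'; omega
      · exact h
    have hlt : i' < j' := by
      by_contra hcon
      have : j' * g ≤ i' * g := Nat.mul_le_mul_right _ (by omega)
      omega
    have hdi : i / g = i' := by rw [hi']; exact Nat.mul_div_cancel _ hgpos
    have hdj : j / g = j' := by rw [hj']; exact Nat.mul_div_cancel _ hgpos
    have hval : psiMap (i, j) = (j', (g - 1) * j' + i') := by
      unfold psiMap
      simp only [← hgdef]
      rw [if_neg (by omega), hdi, hdj]
    obtain ⟨r, hr⟩ : ∃ r, g = r + 2 := ⟨g - 2, by omega⟩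
    have hg1 : g - 1 = r + 1 := by omega
    rw [hval, hg1]
    refine ⟨?_, ?_, ?_, ?_, ?_⟩
    · show 1 ≤ j'
      omega
    · show j' < (r + 1) * j' + i'
      nlinarith
    · show Nat.Coprime j' ((r + 1) * j' + i')
      have h1 : Nat.Coprime j' i' := hcop.symm
      rw [Nat.add_comm]
      exact (Nat.coprime_add_mul_right_right j' i' (r + 1)).mpr h1
    · show (r + 1) * j' + i' ≤ j
      rw [hj', hr]
      nlinarith
    · have hne : ¬ (j' = 1) := by omega
      have hmod : ((r + 1) * j' + i') % j' = i' := by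
        rw [Nat.mul_comm, Nat.mul_add_mod]
        exact Nat.mod_eq_of_lt hlt
      have hdiv : ((r + 1) * j' + i') / j' = r + 1 := by
        rw [Nat.mul_comm, Nat.mul_add_div (by omega), Nat.div_eq_of_lt hlt]
      simp only [psiInv]
      rw [if_neg hne, hmod, hdiv]
      have e1 : (r + 1 + 1) * i' = i := by rw [hi', hr]; ring
      have e2 : (r + 1 + 1) * j' = j := by rw [hj', hr]; ring
      rw [e1, e2]

/-- One side. -/
theorem psi_side (n : ℕ) (A : Finset (ℕ × ℕ))
    (hA : ∀ p ∈ A, p.1 < p.2 ∧ p.2 ≤ n ∧ 2 ≤ Nat.gcd p.1 p.2) :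
    A.card + (n - 1 - n / 2) ≤ Phi n := by
  have hinj : Set.InjOn psiMap (A : Set (ℕ × ℕ)) := by
    intro p hp q hq hpq
    have h1 := hA p hp
    have h2 := hA q hq
    have e1 := (psi_facts p.1 p.2 h1.1 h1.2.2).2.2.2.2
    have e2 := (psi_facts q.1 q.2 h2.1 h2.2.2).2.2.2.2
    rw [Prod.mk.eta] at e1 e2
    rw [← e1, ← e2, hpq]
  have hcardA : (A.image psiMap).card = A.card := Finset.card_image_of_injOn hinj
  set S : Finset (ℕ × ℕ) := (Icc (n / 2 + 1) (n - 1)).image (fun t => (t, t + 1)) with hS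
  have hcardS : S.card = n - 1 - n / 2 := by
    rw [hS, Finset.card_image_of_injective _ (fun a b h => by simpa using h), Nat.card_Icc]
    omega
  have hdisj : Disjoint (A.image psiMap) S := by
    rw [Finset.disjoint_left]
    intro q hq hqS
    obtain ⟨p, hp, rfl⟩ := Finset.mem_image.mp hq
    obtain ⟨t, ht, htq⟩ := Finset.mem_image.mp hqS
    rw [Finset.mem_Icc] at ht
    have h1 := hA p hp
    have e1 := (psi_facts p.1 p.2 h1.1 h1.2.2).2.2.2.2
    rw [Prod.mk.eta, ← htq] at e1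
    have ht2 : 2 ≤ t := by omega
    have hd : (t + 1) / t = 1 := by
      rw [Nat.add_div_left _ (by omega : 0 < t)]
      rw [Nat.div_eq_of_lt (by omega)]
    simp only [psiInv] at e1
    rw [if_neg (by omega), hd] at e1
    have e2 : (1 + 1) * t = p.2 := congrArg Prod.snd e1
    omega
  have hsub : A.image psiMap ∪ S ⊆
      ((Icc 1 n) ×ˢ (Icc 1 n)).filter (fun p : ℕ × ℕ => p.1 < p.2 ∧ Nat.Coprime p.1 p.2) := by
    intro q hq
    rw [Finset.mem_union] at hq
    rw [Finset.mem_filter, Finset.mem_product, Finset.mem_Icc, Finset.mem_Icc]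
    rcases hq with hq | hq
    · obtain ⟨p, hp, rfl⟩ := Finset.mem_image.mp hq
      have h1 := hA p hp
      have f := psi_facts p.1 p.2 h1.1 h1.2.2
      rw [Prod.mk.eta] at f
      obtain ⟨f1, f2, f3, f4, -⟩ := f
      exact ⟨⟨⟨f1, by omega⟩, ⟨by omega, by omega⟩⟩, f2, f3⟩
    · obtain ⟨t, ht, rfl⟩ := Finset.mem_image.mp hq
      rw [Finset.mem_Icc] at ht
      refine ⟨⟨⟨?_, ?_⟩, ⟨?_, ?_⟩⟩, ?_, ?_⟩
      · show 1 ≤ t
        omega
      · show t ≤ n
        omega
      · show 1 ≤ t + 1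
        omega
      · show t + 1 ≤ n
        omega
      · show t < t + 1
        omega
      · show Nat.Coprime t (t + 1)
        simp
  have hle := Finset.card_le_card hsub
  rw [Finset.card_union_of_disjoint hdisj, hcardA, hcardS] at hle
  exact hle

theorem thmPsi : SPsi := by
  intro X m n hX
  set A := X.filter (fun p => p.1 < p.2) with hA
  set B := X.filter (fun p => p.2 < p.1) with hB
  set D := X.filter (fun p => p.1 = p.2) with hD
  have hcard : X.card ≤ A.card + B.card + D.card := by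
    have hsub : X ⊆ (A ∪ B) ∪ D := by
      intro p hp
      rw [Finset.mem_union, Finset.mem_union, hA, hB, hD, Finset.mem_filter, Finset.mem_filter,
        Finset.mem_filter]
      rcases lt_trichotomy p.1 p.2 with h | h | h
      · exact Or.inl (Or.inl ⟨hp, h⟩)
      · exact Or.inr ⟨hp, h⟩
      · exact Or.inl (Or.inr ⟨hp, h⟩)
    calc X.card ≤ ((A ∪ B) ∪ D).card := Finset.card_le_card hsub
      _ ≤ (A ∪ B).card + D.card := Finset.card_union_le _ _
      _ ≤ A.card + B.card + D.card := by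
        have := Finset.card_union_le A B
        omega
  have h1 : A.card + (n - 1 - n / 2) ≤ Phi n := by
    apply psi_side
    intro p hp
    rw [hA, Finset.mem_filter] at hp
    have h := hX p hp.1
    exact ⟨hp.2, h.2.1, h.2.2.1⟩
  have h2 : B.card + (m - 1 - m / 2) ≤ Phi m := by
    have hc : (B.image Prod.swap).card = B.card :=
      Finset.card_image_of_injective _ Prod.swap_injective
    rw [← hc]
    apply psi_side
    intro p hp
    obtain ⟨q, hq, rfl⟩ := Finset.mem_image.mp hp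
    rw [hB, Finset.mem_filter] at hq
    have h := hX q hq.1
    refine ⟨hq.2, h.1, ?_⟩
    show 2 ≤ Nat.gcd q.2 q.1
    rw [Nat.gcd_comm]
    exact h.2.2.1
  have h3 : D.card ≤ min m n - 2 := by
    have hinj : Set.InjOn (fun p : ℕ × ℕ => p.1) (D : Set (ℕ × ℕ)) := by
      intro p hp q hq hpq
      have hp' := (Finset.mem_filter.mp hp).2
      have hq' := (Finset.mem_filter.mp hq).2
      have : p.1 = q.1 := hpq
      exact Prod.ext this (by rw [← hp', ← hq']; exact this)
    have hmap : ∀ p ∈ D, p.1 ∈ Icc 3 (min m n) := by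
      intro p hp
      have hp' := Finset.mem_filter.mp hp
      obtain ⟨a1, a2, a3, a4⟩ := hX p hp'.1
      have e : p.1 = p.2 := hp'.2
      rw [← e, Nat.gcd_self] at a3
      rw [Finset.mem_Icc]
      have hne : p.1 ≠ 2 := by
        intro h
        apply a4
        exact Prod.ext h (by rw [← e]; exact h)
      have a2' : p.1 ≤ n := by rw [e]; exact a2
      exact ⟨by omega, le_min a1 a2'⟩
    have := Finset.card_le_card_of_injOn (fun p : ℕ × ℕ => p.1) hmap hinj
    rw [Nat.card_Icc] at this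
    omega
  omega

end Pool.Agent.Work.MP_1d0aa8_co

end

section

/-!
# MP_1d0aa8_co, item QUASI
-/

set_option autoImplicit false

namespace Pool.Agent.Work.MP_1d0aa8_co

open Finset
open scoped Classical

namespace ItQUASI

/-- The decomposition `(a, d, k)` of `A`. -/
def Dec (θ : ℕ) (A : Finset ℤ) (a : ℤ) (d k : ℕ) : Prop :=
  apset a d k ⊆ A ∧ (A \ apset a d k).Nonempty ∧
    (A \ apset a d k).card < θ ∧ ∀ w ∈ A \ apset a d k, ¬ (d : ℤ) ∣ w - a

theorem mem_apset {a : ℤ} {d k : ℕ} {y : ℤ} :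
    y ∈ apset a d k ↔ ∃ i : ℕ, i ≤ k ∧ y = a + i * d := by
  unfold apset
  simp only [mem_image, mem_range]
  constructor
  · rintro ⟨i, hi, rfl⟩
    exact ⟨i, by omega, rfl⟩
  · rintro ⟨i, hi, rfl⟩
    exact ⟨i, by omega, rfl⟩

theorem card_apset {a : ℤ} {d k : ℕ} (hd : 1 ≤ d) : (apset a d k).card = k + 1 := by
  unfold apset
  rw [card_image_of_injective, card_range]
  intro i j hij
  have h1 : (i : ℤ) * d = (j : ℤ) * d := by
    have : a + (i : ℤ) * d = a + (j : ℤ) * d := hij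
    omega
  have h2 : (d : ℤ) ≠ 0 := by omega
  exact_mod_cast mul_right_cancel₀ h2 h1

/-- The own data of `A` for `e`. -/
noncomputable def own (A : Finset ℤ) (d : ℕ) (e : ℤ) : Finset ℤ :=
  A.filter (fun u => u + d ∈ A ∧ e ∈ A ∧ ¬ hull u (u + d) e ⊆ A)

theorem own_count {A : Finset ℤ} {a e : ℤ} {d k : ℕ} (hd : 1 ≤ d) (hU : apset a d k ⊆ A)
    (hE : ∀ w ∈ A \ apset a d k, ¬ (d : ℤ) ∣ w - a) (he : e ∈ A \ apset a d k) :
    k ≤ ((own A d e).filter (fun u => (d : ℤ) ∣ u - a)).card + (A \ apset a d k).card := by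
  have hd0 : (0 : ℤ) < d := by exact_mod_cast hd
  have heA : e ∈ A := (mem_sdiff.1 he).1
  set S : Finset ℤ := (range k).image (fun i : ℕ => a + (i : ℤ) * (d : ℤ)) with hS
  have hScard : S.card = k := by
    rw [hS, card_image_of_injective, card_range]
    intro i j hij
    have h1 : (i : ℤ) * d = (j : ℤ) * d := by
      have : a + (i : ℤ) * d = a + (j : ℤ) * d := hij
      omega
    exact_mod_cast mul_right_cancel₀ hd0.ne' h1
  have hSmem : ∀ u ∈ S, u ∈ A ∧ u + d ∈ A ∧ (d : ℤ) ∣ u - a := by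
    intro u hu
    rw [hS, mem_image] at hu
    obtain ⟨i, hi, rfl⟩ := hu
    rw [mem_range] at hi
    refine ⟨hU (mem_apset.2 ⟨i, hi.le, rfl⟩), hU (mem_apset.2 ⟨i + 1, hi, ?_⟩), ⟨i, by ring⟩⟩
    push_cast
    ring
  have hsplit : S ⊆ ((own A d e).filter (fun u => (d : ℤ) ∣ u - a)) ∪
      S.filter (fun u => hull u (u + d) e ⊆ A) := by
    intro u hu
    rw [mem_union]
    by_cases h : hull u (u + d) e ⊆ A
    · exact Or.inr (mem_filter.2 ⟨hu, h⟩)
    · left
      obtain ⟨h1, h2, h3⟩ := hSmem u hu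
      exact mem_filter.2 ⟨mem_filter.2 ⟨h1, h2, heA, h⟩, h3⟩
  have hinj : (S.filter (fun u => hull u (u + d) e ⊆ A)).card ≤ (A \ apset a d k).card := by
    have hg : ∀ u ∈ S, 0 < ((Int.gcd (u + d - u) (e - u) : ℕ) : ℤ) ∧
        ((Int.gcd (u + d - u) (e - u) : ℕ) : ℤ) < d := by
      intro u hu
      obtain ⟨h1, h2, h3⟩ := hSmem u hu
      have hdv : ((Int.gcd (u + d - u) (e - u) : ℕ) : ℤ) ∣ (d : ℤ) := by
        have h0 : u + (d : ℤ) - u = d := by ring
        exact (Int.gcd_dvd_left (a := u + d - u) (b := e - u)).trans (dvd_of_eq h0)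
      have hpos : 0 < ((Int.gcd (u + d - u) (e - u) : ℕ) : ℤ) := by
        rw [add_sub_cancel_left]
        have : 0 < Int.gcd (d : ℤ) (e - u) := Int.gcd_pos_of_ne_zero_left _ hd0.ne'
        exact_mod_cast this
      refine ⟨hpos, lt_of_le_of_ne (Int.le_of_dvd hd0 hdv) fun heq => ?_⟩
      have h4 : (d : ℤ) ∣ e - u := by
        have h5 := Int.gcd_dvd_right (a := u + d - u) (b := e - u)
        rwa [heq] at h5
      apply hE e he
      have : e - a = (e - u) + (u - a) := by ring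
      rw [this]
      exact dvd_add h4 h3
    refine card_le_card_of_injOn
      (fun u => u + ((Int.gcd (u + d - u) (e - u) : ℕ) : ℤ)) ?_ ?_
    · intro u hu
      have hu := mem_filter.1 (mem_coe.1 hu)
      obtain ⟨h1, h2, h3⟩ := hSmem u hu.1
      obtain ⟨hg1, hg2⟩ := hg u hu.1
      change u + ((Int.gcd (u + d - u) (e - u) : ℕ) : ℤ) ∈ ((A \ apset a d k : Finset ℤ) : Set ℤ)
      rw [mem_coe, mem_sdiff]
      constructor
      · apply hu.2
        unfold hull
        rw [mem_filter, mem_Icc]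
        refine ⟨⟨?_, ?_⟩, ?_⟩
        · exact (min_le_left _ _).trans (by omega)
        · refine le_trans ?_ (le_max_of_le_right (le_max_left _ _))
          omega
        · rw [add_sub_cancel_left (a := u) (b := ((Int.gcd (u + d - u) (e - u) : ℕ) : ℤ))]
      · intro hmem
        obtain ⟨i, hi, hi2⟩ := mem_apset.1 hmem
        have h4 : (d : ℤ) ∣ ((Int.gcd (u + d - u) (e - u) : ℕ) : ℤ) := by
          have : ((Int.gcd (u + d - u) (e - u) : ℕ) : ℤ) = (i : ℤ) * d - (u - a) := by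
            have : u + ((Int.gcd (u + d - u) (e - u) : ℕ) : ℤ) = a + (i : ℤ) * d := hi2
            omega
          rw [this]
          exact dvd_sub (Dvd.intro_left _ rfl) h3
        have := Int.le_of_dvd hg1 h4
        omega
    · intro u hu u' hu' heq
      have hu := (mem_filter.1 (mem_coe.1 hu)).1
      have hu' := (mem_filter.1 (mem_coe.1 hu')).1
      obtain ⟨hg1, hg2⟩ := hg u hu
      obtain ⟨hg1', hg2'⟩ := hg u' hu'
      have heq : u + ((Int.gcd (u + d - u) (e - u) : ℕ) : ℤ) =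
        u' + ((Int.gcd (u' + d - u') (e - u') : ℕ) : ℤ) := heq
      have h3 := (hSmem u hu).2.2
      have h3' := (hSmem u' hu').2.2
      obtain ⟨c, hc⟩ := dvd_sub h3 h3'
      have h4 : u - u' = d * c := by linarith
      have h5 : c = 0 := by
        have h6 : d * c < d := by omega
        have h7 : -(d : ℤ) < d * c := by omega
        have h8 : c < 1 := by
          by_contra hcc
          have : (d : ℤ) * 1 ≤ d * c := mul_le_mul_of_nonneg_left (by omega) hd0.le
          omega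
        have h9 : -1 < c := by
          by_contra hcc
          have : (d : ℤ) * c ≤ d * (-1) := mul_le_mul_of_nonneg_left (by omega) hd0.le
          omega
        omega
      rw [h5, mul_zero] at h4
      omega
  calc k = S.card := hScard.symm
    _ ≤ _ := (card_le_card hsplit).trans (card_union_le _ _)
    _ ≤ _ := Nat.add_le_add_left hinj _

/-- Disjoint data. -/
theorem disj_count {α β : Type*} (G : Finset α) (O : α → Finset β) (W : Finset β) (κ : ℝ)
    (h1 : ∀ A ∈ G, O A ⊆ W) (h2 : ∀ A ∈ G, ∀ A' ∈ G, A ≠ A' → Disjoint (O A) (O A'))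
    (h3 : ∀ A ∈ G, κ ≤ ((O A).card : ℝ)) : (G.card : ℝ) * κ ≤ (W.card : ℝ) := by
  have h4 : (G.biUnion O).card = ∑ A ∈ G, (O A).card := card_biUnion fun A hA A' hA' h =>
    h2 A hA A' hA' h
  have h5 : (G.biUnion O).card ≤ W.card := card_le_card (biUnion_subset.2 h1)
  have h6 : (G.card : ℝ) * κ ≤ ∑ A ∈ G, ((O A).card : ℝ) := by
    rw [← nsmul_eq_mul]
    exact card_nsmul_le_sum _ _ _ h3
  refine h6.trans ?_
  rw [← Nat.cast_sum, ← h4]
  exact_mod_cast h5

theorem own_unique {N : ℕ} {F : Finset (Finset ℤ)} (hF : Fam N F) {A A' : Finset ℤ} (hA : A ∈ F)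
    (hA' : A' ∈ F) {d : ℕ} {e u : ℤ} (hu : u ∈ own A d e) (hu' : u ∈ own A' d e) : A = A' := by
  by_contra hne
  unfold own at hu hu'
  rw [mem_filter] at hu hu'
  obtain ⟨h1, h2, h3, h4⟩ := hu
  obtain ⟨h1', h2', h3', -⟩ := hu'
  have h := (hF.ap A hA A' hA' hne).2 u (mem_inter.2 ⟨h1, h1'⟩) (u + d) (mem_inter.2 ⟨h2, h2'⟩) e
    (mem_inter.2 ⟨h3, h3'⟩)
  exact h4 (h.trans inter_subset_left)

theorem class_card (N d : ℕ) (hd : 1 ≤ d) (c : ℤ) :
    (((Icc 1 (N : ℤ)).filter (fun u => (d : ℤ) ∣ u - c)).card : ℝ) ≤ (N : ℝ) / d + 1 := by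
  have hd0 : (0 : ℤ) < d := by exact_mod_cast hd
  have h1 : (Icc 1 (N : ℤ)).filter (fun u => (d : ℤ) ∣ u - c) =
      (Ioc 0 (N : ℤ)).filter (fun u => u ≡ c [ZMOD d]) := by
    ext u
    simp only [mem_filter, mem_Icc, mem_Ioc]
    constructor
    · rintro ⟨h, h'⟩
      exact ⟨by omega, ((Int.modEq_iff_dvd).2 h').symm⟩
    · rintro ⟨h, h'⟩
      exact ⟨by omega, Int.modEq_iff_dvd.1 h'.symm⟩
  have h2 := Int.Ioc_filter_modEq_card 0 (N : ℤ) hd0 c
  rw [h1]
  have h3 : (((#{x ∈ Ioc 0 (N : ℤ) | x ≡ c [ZMOD d]} : ℕ) : ℤ) : ℚ) ≤ (N : ℚ) / d + 1 := by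
    rw [h2]
    push_cast
    rw [max_le_iff]
    constructor
    · have e1 := Int.floor_le (((N : ℚ) - c) / (d : ℚ))
      have e2 := Int.lt_floor_add_one ((0 - (c : ℚ)) / (d : ℚ))
      have e3 : ((N : ℚ) - c) / (d : ℚ) = (N : ℚ) / d + (0 - (c : ℚ)) / d := by ring
      linarith
    · positivity
  have h4 := (Rat.cast_le (K := ℝ)).2 h3
  push_cast at h4
  exact h4

variable {N : ℕ} {F : Finset (Finset ℤ)}

/-- (SL) -/
theorem SL (hF : Fam N F) {θ d : ℕ} (hd : 1 ≤ d) (c : ℤ) (κ : ℝ) (G : Finset (Finset ℤ))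
    (hG : G ⊆ F) (h : ∀ A ∈ G, ∃ (a : ℤ) (k : ℕ), (d : ℤ) ∣ a - c ∧ Dec θ A a d k ∧
      κ + θ ≤ (k : ℝ)) : (G.card : ℝ) * κ ≤ ((N : ℝ) / d + 1) * N := by
  choose! a k hac hdec hk using h
  have hex : ∀ A ∈ G, ∃ e, e ∈ A \ apset (a A) d (k A) := fun A hA => (hdec A hA).2.1
  choose! e he using hex
  refine (disj_count G (fun A => ((own A d (e A)).filter (fun u => (d : ℤ) ∣ u - a A)).image
    (fun u => (u, e A))) (((Icc 1 (N : ℤ)).filter (fun u => (d : ℤ) ∣ u - c)) ×ˢ Icc 1 (N : ℤ)) κ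
    ?_ ?_ ?_).trans ?_
  · intro A hA p hp
    obtain ⟨u, hu, rfl⟩ := mem_image.1 hp
    rw [mem_filter] at hu
    have hu1 := hu.1
    unfold own at hu1
    rw [mem_filter] at hu1
    rw [mem_product, mem_filter]
    refine ⟨⟨hF.sub A (hG hA) hu1.1, ?_⟩, hF.sub A (hG hA) hu1.2.2.1⟩
    have : u - c = (u - a A) + (a A - c) := by ring
    rw [this]
    exact dvd_add hu.2 (hac A hA)
  · intro A hA A' hA' hne
    rw [disjoint_left]
    intro p hp hp'
    obtain ⟨u, hu, rfl⟩ := mem_image.1 hp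
    obtain ⟨u', hu', h2⟩ := mem_image.1 hp'
    have h3 : u' = u := congrArg Prod.fst h2
    have h4 : e A' = e A := congrArg Prod.snd h2
    subst h3
    rw [h4] at hu'
    exact hne (own_unique hF (hG hA) (hG hA') (mem_filter.1 hu).1 (mem_filter.1 hu').1)
  · intro A hA
    rw [card_image_of_injective _ (fun u v h => congrArg Prod.fst h)]
    obtain ⟨h1, h2, h3, h4⟩ := hdec A hA
    have h5 := own_count hd h1 h4 (he A hA)
    have h6 : (k A : ℝ) ≤ (((own A d (e A)).filter (fun u => (d : ℤ) ∣ u - a A)).card : ℝ) +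
        ((A \ apset (a A) d (k A)).card : ℝ) := by exact_mod_cast h5
    have h7 : ((A \ apset (a A) d (k A)).card : ℝ) ≤ θ := by exact_mod_cast h3.le
    have h8 := hk A hA
    linarith
  · rw [card_product, Nat.cast_mul, Int.card_Icc]
    have h1 : (((N : ℤ) + 1 - 1).toNat : ℝ) = N := by
      have : ((N : ℤ) + 1 - 1).toNat = N := by omega
      rw [this]
    rw [h1]
    exact mul_le_mul_of_nonneg_right (class_card N d hd c) (Nat.cast_nonneg N)

/-- (PE) -/
theorem PE (hF : Fam N F) {θ d : ℕ} (hd : 1 ≤ d) (p : ℤ) (κ : ℝ) (G : Finset (Finset ℤ))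
    (hG : G ⊆ F) (h : ∀ A ∈ G, ∃ (a : ℤ) (k : ℕ), p ∈ A \ apset a d k ∧ Dec θ A a d k ∧
      κ + θ ≤ (k : ℝ)) : (G.card : ℝ) * κ ≤ (N : ℝ) := by
  choose! a k hac hdec hk using h
  refine (disj_count G (fun A => own A d p) (Icc 1 (N : ℤ)) κ ?_ ?_ ?_).trans ?_
  · intro A hA u hu
    unfold own at hu
    rw [mem_filter] at hu
    exact hF.sub A (hG hA) hu.1
  · intro A hA A' hA' hne
    rw [disjoint_left]
    intro u hu hu'
    exact hne (own_unique hF (hG hA) (hG hA') hu hu')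
  · intro A hA
    obtain ⟨h1, h2, h3, h4⟩ := hdec A hA
    have h5 := (own_count hd h1 h4 (hac A hA)).trans
      (Nat.add_le_add_right (card_le_card (filter_subset _ _)) _)
    have h6 : (k A : ℝ) ≤ ((own A d p).card : ℝ) +
        ((A \ apset (a A) d (k A)).card : ℝ) := by exact_mod_cast h5
    have h7 : ((A \ apset (a A) d (k A)).card : ℝ) ≤ θ := by exact_mod_cast h3.le
    have h8 := hk A hA
    linarith
  · rw [Int.card_Icc]
    have : ((N : ℤ) + 1 - 1).toNat = N := by omega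
    rw [this]

/-- The bound for one difference. -/
theorem one_diff (hF : Fam N F) {θ d : ℕ} (hd : 1 ≤ d) (κ R : ℝ) (hκ : 0 ≤ κ)
    (G : Finset (Finset ℤ)) (hG : G ⊆ F)
    (h : ∀ A ∈ G, ∃ (a : ℤ) (k : ℕ), Dec θ A a d k ∧ κ + θ ≤ (k : ℝ))
    (hR : ∀ A ∈ G, (A.card : ℝ) ≤ R) (hR0 : 0 ≤ R) :
    (G.card : ℝ) * κ ≤ (θ + 1) * (((N : ℝ) / d + 1) * N) + R * N := by
  rcases G.eq_empty_or_nonempty with hemp | ⟨A1, hA1⟩
  · rw [hemp]
    simp only [card_empty, Nat.cast_zero, zero_mul]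
    positivity
  obtain ⟨a1, k1, hdec1, hk1⟩ := h A1 hA1
  set SLs : ℤ → Finset (Finset ℤ) := fun c => G.filter (fun A => ∃ (a : ℤ) (k : ℕ),
    (d : ℤ) ∣ a - c ∧ Dec θ A a d k ∧ κ + θ ≤ (k : ℝ)) with hSLs
  set PEs : ℤ → Finset (Finset ℤ) := fun p => G.filter (fun A => ∃ (a : ℤ) (k : ℕ),
    p ∈ A \ apset a d k ∧ Dec θ A a d k ∧ κ + θ ≤ (k : ℝ)) with hPEs
  have hcov : G ⊆ SLs a1 ∪ (A1.biUnion PEs ∪ (A1 \ apset a1 d k1).biUnion SLs) := by
    intro A hA
    by_cases hAA : A = A1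
    · subst hAA
      exact mem_union_left _ (mem_filter.2 ⟨hA, a1, k1, by simp, hdec1, hk1⟩)
    obtain ⟨a2, k2, hdec2, hk2⟩ := h A hA
    obtain ⟨p, hp⟩ := (hF.ap A (hG hA) A1 (hG hA1) hAA).1
    rw [mem_inter] at hp
    by_cases hpU : p ∈ apset a2 d k2
    · obtain ⟨i, hi, hi2⟩ := mem_apset.1 hpU
      by_cases hpU1 : p ∈ apset a1 d k1
      · obtain ⟨j, hj, hj2⟩ := mem_apset.1 hpU1
        refine mem_union_left _ (mem_filter.2 ⟨hA, a2, k2, ⟨(j : ℤ) - i, ?_⟩, hdec2, hk2⟩)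
        have : a2 + (i : ℤ) * d = a1 + (j : ℤ) * d := by rw [← hi2, ← hj2]
        linear_combination this
      · refine mem_union_right _ (mem_union_right _ (mem_biUnion.2
          ⟨p, mem_sdiff.2 ⟨hp.2, hpU1⟩, mem_filter.2 ⟨hA, a2, k2, ⟨-(i : ℤ), ?_⟩, hdec2, hk2⟩⟩))
        linear_combination -hi2
    · exact mem_union_right _ (mem_union_left _ (mem_biUnion.2 ⟨p, hp.2,
        mem_filter.2 ⟨hA, a2, k2, mem_sdiff.2 ⟨hp.1, hpU⟩, hdec2, hk2⟩⟩))
  have hSLb : ∀ c, ((SLs c).card : ℝ) * κ ≤ ((N : ℝ) / d + 1) * N := by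
    intro c
    refine SL (θ := θ) hF hd c κ (SLs c) ((filter_subset _ _).trans hG) (fun A hA => ?_)
    exact (mem_filter.1 hA).2
  have hPEb : ∀ p, ((PEs p).card : ℝ) * κ ≤ N := by
    intro p
    refine PE (θ := θ) hF hd p κ (PEs p) ((filter_subset _ _).trans hG) (fun A hA => ?_)
    exact (mem_filter.1 hA).2
  have h1 : G.card ≤ (SLs a1).card + (∑ p ∈ A1, (PEs p).card +
      ∑ c ∈ A1 \ apset a1 d k1, (SLs c).card) := by
    refine (card_le_card hcov).trans ((card_union_le _ _).trans ?_)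
    refine Nat.add_le_add_left ((card_union_le _ _).trans ?_) _
    exact Nat.add_le_add card_biUnion_le card_biUnion_le
  have h2 : (G.card : ℝ) ≤ ((SLs a1).card : ℝ) + (∑ p ∈ A1, ((PEs p).card : ℝ) +
      ∑ c ∈ A1 \ apset a1 d k1, ((SLs c).card : ℝ)) := by exact_mod_cast h1
  have h3 : (∑ p ∈ A1, ((PEs p).card : ℝ)) * κ ≤ R * N := by
    rw [sum_mul]
    refine (sum_le_sum fun p _ => hPEb p).trans ?_
    rw [sum_const, nsmul_eq_mul]
    exact mul_le_mul_of_nonneg_right (hR A1 hA1) (Nat.cast_nonneg N)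
  have h4 : (∑ c ∈ A1 \ apset a1 d k1, ((SLs c).card : ℝ)) * κ ≤
      θ * (((N : ℝ) / d + 1) * N) := by
    rw [sum_mul]
    refine (sum_le_sum fun c _ => hSLb c).trans ?_
    rw [sum_const, nsmul_eq_mul]
    refine mul_le_mul_of_nonneg_right ?_ (by positivity)
    exact_mod_cast hdec1.2.2.1.le
  have h5 := mul_le_mul_of_nonneg_right h2 hκ
  have h6 := hSLb a1
  rw [add_mul, add_mul] at h5
  linarith

theorem sum_inv_le (N : ℕ) : ∑ d ∈ Icc 1 N, (1 : ℝ) / d ≤ lg N := by
  have h := harmonic_le_one_add_log N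
  rw [harmonic_eq_sum_Icc] at h
  push_cast at h
  unfold lg
  simpa only [one_div] using h

end ItQUASI

open ItQUASI in
/-- QUASI -/
theorem thmQuasi : SQuasi := by
  intro η C θ hη hC hθ
  refine ⟨2 / η * ((θ + 1) * (1 + 2 / η) + 2 * C / η), ⌈(4 * (θ : ℝ) / η) ^ 2⌉₊ + 1, ?_⟩
  intro N hN F hF
  have hN1 : (1 : ℝ) ≤ N := by
    have : 1 ≤ N := by omega
    exact_mod_cast this
  have hN0 : (4 * (θ : ℝ) / η) ^ 2 ≤ N := by
    refine (Nat.le_ceil _).trans ?_
    have : ⌈(4 * (θ : ℝ) / η) ^ 2⌉₊ ≤ N := by omega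
    exact_mod_cast this
  set s := Real.sqrt N with hs
  have hs0 : 0 ≤ s := Real.sqrt_nonneg _
  have hss : s * s = N := Real.mul_self_sqrt (by linarith)
  have hs1 : 1 ≤ s := by
    rw [hs]
    exact Real.one_le_sqrt.2 hN1
  have hsθ : 4 * (θ : ℝ) ≤ η * s := by
    have h1 : 4 * (θ : ℝ) / η ≤ s := by
      rw [hs]
      exact Real.le_sqrt_of_sq_le hN0
    rw [div_le_iff₀ hη] at h1
    linarith
  set κ := η * s / 2 with hκ
  have hκ0 : 0 < κ := by positivity
  set F' := F.filter (fun A => Quasi θ A ∧ η * s ≤ (A.card : ℝ) ∧ (A.card : ℝ) ≤ C * s) with hF'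
  set Ds := (Icc 1 N).filter (fun d : ℕ => (d : ℝ) * κ ≤ N) with hDs
  set Gd : ℕ → Finset (Finset ℤ) := fun d => F'.filter (fun A => ∃ (a : ℤ) (k : ℕ),
    Dec θ A a d k ∧ κ + θ ≤ (k : ℝ)) with hGd
  have hθ1 : (1 : ℝ) ≤ θ := by exact_mod_cast hθ
  have hcov : F' ⊆ Ds.biUnion Gd := by
    intro A hA
    have hA' := hA
    rw [hF', mem_filter] at hA'
    obtain ⟨hAF, ⟨a, d, k, hd, hU, hne, hcard, hdiv⟩, hc1, hc2⟩ := hA'
    have h1 : A.card = (A \ apset a d k).card + (k + 1) := by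
      rw [← card_apset (a := a) (k := k) hd]
      exact (card_sdiff_add_card_eq_card hU).symm
    have h2 : (A.card : ℝ) ≤ θ + k := by
      have : A.card ≤ θ + k := by omega
      exact_mod_cast this
    have hk : κ + θ ≤ (k : ℝ) := by
      rw [hκ]
      linarith
    have hfirst : a ∈ A := hU (mem_apset.2 ⟨0, Nat.zero_le _, by simp⟩)
    have hlast : a + (k : ℤ) * d ∈ A := hU (mem_apset.2 ⟨k, le_refl _, rfl⟩)
    have h3 := mem_Icc.1 (hF.sub A hAF hfirst)
    have h4 := mem_Icc.1 (hF.sub A hAF hlast)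
    have h5 : (k : ℤ) * d ≤ N := by linarith
    have h6 : k * d ≤ N := by exact_mod_cast h5
    have hk1 : 1 ≤ k := by
      have : (0 : ℝ) < k := by linarith
      exact_mod_cast this
    rw [mem_biUnion]
    refine ⟨d, ?_, ?_⟩
    · rw [hDs, mem_filter, mem_Icc]
      refine ⟨⟨hd, le_trans ?_ h6⟩, ?_⟩
      · exact Nat.le_mul_of_pos_left _ hk1
      · have h7 : (k : ℝ) * d ≤ N := by exact_mod_cast h6
        have h8 : κ ≤ k := by linarith
        have h9 := mul_le_mul_of_nonneg_right h8 (Nat.cast_nonneg (α := ℝ) d)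
        linarith
    · rw [hGd]
      exact mem_filter.2 ⟨hA, a, k, ⟨hU, hne, hcard, hdiv⟩, hk⟩
  have hone : ∀ d ∈ Ds, ((Gd d).card : ℝ) * κ ≤
      (θ + 1) * (((N : ℝ) / d + 1) * N) + C * s * N := by
    intro d hd
    rw [hDs, mem_filter, mem_Icc] at hd
    refine one_diff hF hd.1.1 κ (C * s) hκ0.le (Gd d) ?_ ?_ ?_ (by positivity)
    · exact (filter_subset _ _).trans (filter_subset _ _)
    · intro A hA
      exact (mem_filter.1 hA).2
    · intro A hA
      exact (mem_filter.1 (mem_filter.1 hA).1).2.2.2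
  have hDcard : (Ds.card : ℝ) * κ ≤ N := by
    have h1 : Ds ⊆ Icc 1 ⌊(N : ℝ) / κ⌋₊ := by
      intro d hd
      rw [hDs, mem_filter, mem_Icc] at hd
      rw [mem_Icc]
      refine ⟨hd.1.1, Nat.le_floor ?_⟩
      rw [le_div_iff₀ hκ0]
      exact hd.2
    have h2 := card_le_card h1
    rw [Nat.card_Icc, Nat.add_sub_cancel] at h2
    have h3 : (Ds.card : ℝ) ≤ (N : ℝ) / κ :=
      (Nat.cast_le.2 h2).trans (Nat.floor_le (by positivity))
    rwa [le_div_iff₀ hκ0] at h3
  have hinv : ∑ d ∈ Ds, (1 : ℝ) / d ≤ lg N := by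
    refine le_trans (sum_le_sum_of_subset_of_nonneg (filter_subset _ _) ?_) (sum_inv_le N)
    intro i _ _
    positivity
  have h1 : (F'.card : ℝ) ≤ ∑ d ∈ Ds, ((Gd d).card : ℝ) := by
    have := (card_le_card hcov).trans card_biUnion_le
    exact_mod_cast this
  have h2 : (F'.card : ℝ) * κ ≤ ∑ d ∈ Ds, ((θ + 1) * (((N : ℝ) / d + 1) * N) + C * s * N) := by
    refine (mul_le_mul_of_nonneg_right h1 hκ0.le).trans ?_
    rw [sum_mul]
    exact sum_le_sum hone
  have h3 : ∑ d ∈ Ds, ((θ + 1 : ℝ) * (((N : ℝ) / d + 1) * N) + C * s * N) =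
      (θ + 1) * (N * N * ∑ d ∈ Ds, (1 : ℝ) / d + Ds.card * N) + Ds.card * (C * s * N) := by
    rw [sum_add_distrib, sum_const, nsmul_eq_mul]
    congr 1
    have e0 : (Ds.card : ℝ) * N = ∑ _d ∈ Ds, (N : ℝ) := by rw [sum_const, nsmul_eq_mul]
    rw [e0, mul_sum, ← sum_add_distrib, mul_sum]
    refine sum_congr rfl fun d _ => ?_
    ring
  rw [h3] at h2
  have hL : 1 ≤ lg N := by
    unfold lg
    have := Real.log_nonneg hN1
    linarith
  have hDc : (Ds.card : ℝ) ≤ 2 * s / η := by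
    have h4 : (Ds.card : ℝ) * κ ≤ 2 * s / η * κ := by
      refine hDcard.trans (le_of_eq ?_)
      rw [hκ, ← hss]
      field_simp
    exact le_of_mul_le_mul_right h4 hκ0
  have h5 : (F'.card : ℝ) * κ ≤ (2 / η * ((θ + 1) * (1 + 2 / η) + 2 * C / η) * N * s * lg N) * κ := by
    refine h2.trans ?_
    have e1 : (θ + 1 : ℝ) * (N * N * ∑ d ∈ Ds, (1 : ℝ) / d + Ds.card * N) ≤
        (θ + 1) * (N * N * lg N + 2 * s / η * N) := by
      refine mul_le_mul_of_nonneg_left (add_le_add ?_ ?_) (by positivity)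
      · exact mul_le_mul_of_nonneg_left hinv (by positivity)
      · exact mul_le_mul_of_nonneg_right hDc (by positivity)
    have e2 : (Ds.card : ℝ) * (C * s * N) ≤ 2 * s / η * (C * s * N) :=
      mul_le_mul_of_nonneg_right hDc (by positivity)
    have e3 : 2 * s / η * N ≤ 2 / η * (N * N * lg N) := by
      have e4 : s * N ≤ N * N * lg N := by
        have e5 : s ≤ N := by nlinarith
        calc s * N ≤ N * N * 1 := by nlinarith
          _ ≤ N * N * lg N := mul_le_mul_of_nonneg_left hL (by positivity)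
      calc 2 * s / η * N = 2 / η * (s * N) := by ring
        _ ≤ _ := mul_le_mul_of_nonneg_left e4 (by positivity)
    have e6 : 2 * s / η * (C * s * N) ≤ 2 * C / η * (N * N * lg N) := by
      have e7 : 2 * s / η * (C * s * N) = 2 * C / η * (N * N * 1) := by
        have : 2 * s / η * (C * s * N) = 2 * C / η * ((s * s) * N) := by ring
        rw [this, hss]; ring
      rw [e7]
      exact mul_le_mul_of_nonneg_left (mul_le_mul_of_nonneg_left hL (by positivity))
        (by positivity)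
    have e8 : 2 / η * ((θ + 1) * (1 + 2 / η) + 2 * C / η) * N * s * lg N * κ =
        (θ + 1) * (N * N * lg N + 2 / η * (N * N * lg N)) + 2 * C / η * (N * N * lg N) := by
      rw [hκ]
      have : 2 / η * ((θ + 1) * (1 + 2 / η) + 2 * C / η) * N * s * lg N * (η * s / 2) =
        (2 / η * (η / 2)) * ((θ + 1) * (1 + 2 / η) + 2 * C / η) * N * (s * s) * lg N := by ring
      rw [this, hss]
      have h2 : 2 / η * (η / 2) = 1 := by field_simp
      rw [h2]
      ring
    rw [e8]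
    have e9 : (θ + 1 : ℝ) * (N * N * lg N + 2 * s / η * N) ≤
        (θ + 1) * (N * N * lg N + 2 / η * (N * N * lg N)) :=
      mul_le_mul_of_nonneg_left (by linarith) (by positivity)
    linarith
  exact le_of_mul_le_mul_right h5 hκ0

end Pool.Agent.Work.MP_1d0aa8_co

end

section

/-!
# MP_1d0aa8_co: REFL
-/

set_option autoImplicit false

namespace Pool.Agent.Work.MP_1d0aa8_co

open Finset
open scoped Classical

namespace ReflAux

lemma mem_rf (c : ℤ) (A : Finset ℤ) (y : ℤ) : y ∈ A.image (fun y => c - y) ↔ c - y ∈ A := by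
  rw [mem_image]
  constructor
  · rintro ⟨z, hz, rfl⟩
    simpa using hz
  · intro h
    exact ⟨c - y, h, by ring⟩

lemma rf_rf (c : ℤ) (A : Finset ℤ) : (A.image (fun y => c - y)).image (fun y => c - y) = A := by
  ext y
  rw [mem_rf, mem_rf]
  simp

lemma mem_hull_rf (c x u v y : ℤ) : y ∈ hull (c - x) (c - u) (c - v) ↔ c - y ∈ hull x u v := by
  rw [mem_hull, mem_hull]
  have h1 : Int.gcd (c - u - (c - x)) (c - v - (c - x)) = Int.gcd (u - x) (v - x) := by
    have e1 : c - u - (c - x) = -(u - x) := by ring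
    have e2 : c - v - (c - x) = -(v - x) := by ring
    rw [e1, e2, Int.gcd_neg, Int.neg_gcd]
  rw [h1]
  have h2 : y - (c - x) = -(c - y - x) := by ring
  rw [h2, dvd_neg]
  apply and_congr_left
  intro _
  simp only [min_le_iff, le_max_iff]
  omega

lemma apc_rf (c : ℤ) {A : Finset ℤ} (h : APc A) : APc (A.image (fun y => c - y)) := by
  refine ⟨h.1.image _, ?_⟩
  intro x hx u hu v hv y hy
  rw [mem_rf] at hx hu hv ⊢
  apply h.2 _ hx _ hu _ hv
  rw [← mem_hull_rf c]
  simpa using hy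

end ReflAux

open ReflAux in
theorem thmRefl : SRefl := by
  intro N F hF
  have hinj : Function.Injective (fun A : Finset ℤ => A.image (fun y => (N : ℤ) + 1 - y)) := by
    intro A B hAB
    have := congrArg (fun A : Finset ℤ => A.image (fun y => (N : ℤ) + 1 - y)) hAB
    simp only [rf_rf] at this
    exact this
  have hmem : ∀ A ∈ refl N F, A.image (fun y => (N : ℤ) + 1 - y) ∈ F := by
    intro A hA
    unfold refl at hA
    rw [mem_image] at hA
    obtain ⟨B, hB, rfl⟩ := hA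
    rw [rf_rf]
    exact hB
  refine ⟨⟨?_, ?_⟩, ?_, hmem, ?_⟩
  · intro A hA y hy
    have h1 := hmem A hA
    have h2 : (N : ℤ) + 1 - y ∈ A.image (fun y => (N : ℤ) + 1 - y) := by
      rw [mem_rf]; simpa using hy
    have h3 := hF.sub _ h1 h2
    rw [Finset.mem_Icc] at h3 ⊢
    omega
  · intro A hA B hB hne
    have h1 := hF.ap _ (hmem A hA) _ (hmem B hB) (fun h => hne (hinj h))
    have h2 := apc_rf ((N : ℤ) + 1) h1
    have h3 : ((A.image (fun y => (N : ℤ) + 1 - y)) ∩ (B.image (fun y => (N : ℤ) + 1 - y))).image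
        (fun y => (N : ℤ) + 1 - y) = A ∩ B := by
      ext y
      rw [mem_rf, mem_inter, mem_rf, mem_rf, mem_inter]
      simp
    rw [h3] at h2
    exact h2
  · unfold refl
    exact card_image_of_injective _ hinj
  · intro x A hA
    unfold Sd at hA ⊢
    rw [mem_filter] at hA ⊢
    obtain ⟨hA, hx⟩ := hA
    obtain ⟨hAF, a, k, hk, he⟩ := Pd_mem.1 hA
    refine ⟨Pd_mem.2 ⟨hmem A hAF, (N : ℤ) + 1 - a - k, k, hk, ?_⟩, ?_⟩
    · ext y
      rw [mem_rf, he, mem_apset' le_rfl, mem_apset' le_rfl]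
      simp only [Nat.cast_one, mul_one, one_dvd, and_true]
      omega
    · rw [mem_rf]
      simpa using hx

end Pool.Agent.Work.MP_1d0aa8_co

end

section

/-!
# MP_1d0aa8_co: item SCALE
-/

set_option autoImplicit false

namespace Pool.Agent.Work.MP_1d0aa8_co

open Finset
open scoped Classical

namespace Scale

/-- The index pairs of `XS`. -/
noncomputable def Xi (N : ℕ) (F : Finset (Finset ℤ)) (x : ℤ) (d : ℕ) : Finset (ℕ × ℕ) :=
  ((range (N + 1)) ×ˢ (range (N + 1))).filter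
    (fun q => apset (x - q.1 * d) d (q.1 + q.2) ∈ F ∧ 2 ≤ Nat.gcd q.1 q.2 ∧ q ≠ (2, 2))

theorem mem_line {x : ℤ} {d i j : ℕ} (t : ℤ) (h1 : -(i : ℤ) ≤ t) (h2 : t ≤ j) :
    x + t * d ∈ apset (x - i * d) d (i + j) := by
  rw [mem_apset]
  refine ⟨(t + i).toNat, by omega, ?_⟩
  rw [Int.toNat_of_nonneg (by omega)]
  ring

theorem bounds {N : ℕ} {F : Finset (Finset ℤ)} (hF : Fam N F) {x : ℤ} {d i j : ℕ}
    (hA : apset (x - i * d) d (i + j) ∈ F) : 1 ≤ x - i * d ∧ x + j * d ≤ N := by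
  have h1 := hF.sub _ hA (mem_line (x := x) (d := d) (i := i) (j := j) (-(i : ℤ)) le_rfl (by omega))
  have h2 := hF.sub _ hA (mem_line (x := x) (d := d) (i := i) (j := j) (j : ℤ) (by omega) le_rfl)
  rw [mem_Icc] at h1 h2
  refine ⟨by linarith [h1.1], by linarith [h2.2]⟩

theorem XS_card_le {N : ℕ} {F : Finset (Finset ℤ)} (hF : Fam N F) {x : ℤ}
    (hx : x ∈ Icc 1 (N : ℤ)) {d : ℕ} (hd : 1 ≤ d) : (XS F x d).card ≤ (Xi N F x d).card := by
  have hsub : XS F x d ⊆ (Xi N F x d).image (fun q => apset (x - q.1 * d) d (q.1 + q.2)) := by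
    intro A hA
    unfold XS at hA
    rw [mem_filter] at hA
    obtain ⟨hAF, i, j, rfl, hg, hne⟩ := hA
    rw [mem_image]
    refine ⟨(i, j), ?_, rfl⟩
    unfold Xi
    rw [mem_filter, mem_product, mem_range, mem_range]
    obtain ⟨h1, h2⟩ := bounds hF hAF
    rw [mem_Icc] at hx
    have e1 : (i : ℤ) ≤ i * d := by
      have : (1 : ℤ) ≤ d := by exact_mod_cast hd
      nlinarith
    have e2 : (j : ℤ) ≤ j * d := by
      have : (1 : ℤ) ≤ d := by exact_mod_cast hd
      nlinarith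
    refine ⟨⟨?_, ?_⟩, hAF, hg, hne⟩
    · simp only; omega
    · simp only; omega
  exact (card_le_card hsub).trans card_image_le

/-- coprime pairs at scale `d` inside a member are covered. -/
theorem cov_mem {N : ℕ} {F : Finset (Finset ℤ)} (hF : Fam N F) {x : ℤ} {d i j : ℕ} (hd : 1 ≤ d)
    (hA : apset (x - i * d) d (i + j) ∈ F) {s t : ℤ} (hs : -(i : ℤ) ≤ s) (ht : t ≤ j)
    (hst : s < t) (hs0 : s ≠ 0) (ht0 : t ≠ 0) (hg : Int.gcd s t = 1) :
    (x + s * d, x + t * d) ∈ CovS N F x d := by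
  have hd' : (0 : ℤ) < d := by exact_mod_cast hd
  have m1 := mem_line (x := x) (d := d) (i := i) (j := j) s hs (by omega)
  have m2 := mem_line (x := x) (d := d) (i := i) (j := j) t (by omega) ht
  have m0 := mem_line (x := x) (d := d) (i := i) (j := j) 0 (by omega) (by omega)
  have b1 := hF.sub _ hA m1
  have b2 := hF.sub _ hA m2
  rw [zero_mul, add_zero] at m0
  unfold CovS Cov Prs
  rw [mem_filter, mem_filter, mem_filter, mem_product]
  have hsd : s * (d : ℤ) ≠ 0 := mul_ne_zero hs0 hd'.ne'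
  have htd : t * (d : ℤ) ≠ 0 := mul_ne_zero ht0 hd'.ne'
  have hlt : s * (d : ℤ) < t * d := mul_lt_mul_of_pos_right hst hd'
  refine ⟨⟨⟨⟨b1, b2⟩, ?_, ?_, ?_⟩, _, hA, APc_apset _ _ _, m0, m1, m2⟩, ?_⟩
  · simp only; linarith
  · simp only
    intro h; exact hsd (by linarith)
  · simp only
    intro h; exact htd (by linarith)
  · simp only
    have e1 : x + s * (d : ℤ) - x = s * d := by ring
    have e2 : x + t * (d : ℤ) - x = t * d := by ring
    rw [e1, e2, Int.gcd_mul_right, hg, one_mul, Int.natAbs_natCast]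

/-- the set counted by `Phi`. -/
noncomputable def cp (n : ℕ) : Finset (ℕ × ℕ) :=
  ((Icc 1 n) ×ˢ (Icc 1 n)).filter (fun p : ℕ × ℕ => p.1 < p.2 ∧ Nat.Coprime p.1 p.2)

theorem card_cp (n : ℕ) : (cp n).card = Phi n := by
  unfold cp Phi
  congr!

theorem mem_cp {n : ℕ} {p : ℕ × ℕ} :
    p ∈ cp n ↔ (1 ≤ p.1 ∧ p.1 < p.2 ∧ p.2 ≤ n) ∧ Nat.Coprime p.1 p.2 := by
  unfold cp
  rw [mem_filter, mem_product, mem_Icc, mem_Icc]
  constructor
  · rintro ⟨⟨⟨h1, h2⟩, h3, h4⟩, h5, h6⟩
    exact ⟨⟨h1, h5, h4⟩, h6⟩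
  · rintro ⟨⟨h1, h2, h3⟩, h4⟩
    exact ⟨⟨⟨h1, by omega⟩, by omega, h3⟩, h2, h4⟩

theorem phi_ineq (k a b d m n : ℕ) (hd : 1 ≤ d) (had : d ≤ a) (h1 : m * d + a ≤ k)
    (h2 : m * d + b ≤ k) (h3 : 12 * k < n * d) :
    ((m : ℝ) + 1) * (n + 1) + ((a / d : ℕ) : ℝ) * (((b / d : ℕ) : ℝ) + 1)
      ≤ 0.27 * (n : ℝ) ^ 2 - n / 2 := by
  have ha : a / d * d ≤ a := Nat.div_mul_le_self a d
  have hb : b / d * d ≤ b := Nat.div_mul_le_self b d
  have ha1 : 1 ≤ a / d := (Nat.one_le_div_iff (by omega)).2 had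
  set α := a / d with hα
  set β := b / d with hβ
  have e1 : (m + α) * d ≤ k := by
    calc (m + α) * d = m * d + α * d := by ring
      _ ≤ k := by omega
  have e2 : (m + β) * d ≤ k := by
    calc (m + β) * d = m * d + β * d := by ring
      _ ≤ k := by omega
  have f1 : 12 * (m + α) < n := by
    by_contra hcon
    push Not at hcon
    have : n * d ≤ 12 * (m + α) * d := Nat.mul_le_mul_right _ hcon
    have : n * d ≤ 12 * ((m + α) * d) := by linarith
    omega
  have f2 : 12 * (m + β) < n := by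
    by_contra hcon
    push Not at hcon
    have : n * d ≤ 12 * (m + β) * d := Nat.mul_le_mul_right _ hcon
    have : n * d ≤ 12 * ((m + β) * d) := by linarith
    omega
  have g1 : 12 * ((m : ℝ) + α) + 1 ≤ n := by exact_mod_cast f1
  have g2 : 12 * ((m : ℝ) + β) + 1 ≤ n := by exact_mod_cast f2
  have g3 : (1 : ℝ) ≤ α := by exact_mod_cast ha1
  have g4 : (0 : ℝ) ≤ m := by positivity
  have g5 : (0 : ℝ) ≤ β := by positivity
  have p1 : ((m : ℝ) + 1) * (n + 1) ≤ ((n : ℝ) / 12) * (n + 1) := by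
    apply mul_le_mul_of_nonneg_right _ (by positivity)
    linarith
  have p2 : (α : ℝ) * ((β : ℝ) + 1) ≤ ((n : ℝ) / 12) * ((n : ℝ) / 12 + 1) := by
    apply mul_le_mul _ _ (by positivity) (by positivity)
    · linarith
    · linarith
  have hn : (13 : ℝ) ≤ n := by linarith
  nlinarith

end Scale

open Scale

theorem thmScale (h1 : SPsi) (h2 : SPhi) (h3 : SNearAB) : SScale := by
  intro N F x k a b d hN hd
  obtain ⟨ha1, hb1, hcore⟩ := h3 N F x k a b hN
  have hk := hN.hk
  have hx := mem_Icc.1 hN.hx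
  have hd' : (0 : ℤ) < d := by exact_mod_cast hd
  have hforb : ∀ p ∈ Forb N F x, x < p.1 ∧ p.1 ≤ x + a ∧ (N : ℤ) - b < p.2 := by
    intro p hp
    unfold Forb at hp
    rw [mem_filter] at hp
    obtain ⟨_, hp1, I, hI, hI'⟩ := hp
    have h4 := hI' _ (hN.ha I hI)
    have h5 := hI' _ (hN.hb I hI)
    exact ⟨hp1, by omega, by omega⟩
  refine (XS_card_le hN.fam hN.hx hd).trans ?_
  set T := (CovS N F x d).filter (fun p => (x < p.1 ∨ p.2 < x) ∧ p ∉ Forb N F x) with hT
  rcases (Xi N F x d).eq_empty_or_nonempty with hX | hX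
  · rw [hX, card_empty]; exact Nat.zero_le _
  have hXmem : ∀ q ∈ Xi N F x d, apset (x - q.1 * d) d (q.1 + q.2) ∈ F ∧ 2 ≤ Nat.gcd q.1 q.2 ∧
      q ≠ (2, 2) := by
    intro q hq
    unfold Xi at hq
    rw [mem_filter] at hq
    exact hq.2
  obtain ⟨qn, hqn, hnmax⟩ := exists_max_image (Xi N F x d) (fun q => q.2) hX
  obtain ⟨qm, hqm, hmmax⟩ := exists_max_image (Xi N F x d) (fun q => q.1) hX
  set n := qn.2 with hn
  set m := qm.1 with hm
  -- right and left pairs
  have hright : ∀ p ∈ cp n, (x + (p.1 : ℤ) * d, x + (p.2 : ℤ) * d) ∈ CovS N F x d := by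
    intro p hp
    rw [mem_cp] at hp
    apply cov_mem hN.fam hd (hXmem qn hqn).1
    · omega
    · omega
    · omega
    · omega
    · omega
    · rw [Int.gcd_natCast_natCast]; exact hp.2
  have hleft : ∀ p ∈ cp m, (x + (-(p.2 : ℤ)) * d, x + (-(p.1 : ℤ)) * d) ∈ CovS N F x d := by
    intro p hp
    rw [mem_cp] at hp
    apply cov_mem hN.fam hd (hXmem qm hqm).1
    · omega
    · omega
    · omega
    · omega
    · omega
    · rw [Int.gcd_neg, Int.neg_gcd, Int.gcd_natCast_natCast, Nat.gcd_comm]; exact hp.2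
  have hinjR : Function.Injective (fun p : ℕ × ℕ => (x + (p.1 : ℤ) * d, x + (p.2 : ℤ) * d)) := by
    intro p q hpq
    simp only [Prod.mk.injEq, add_right_inj] at hpq
    have e1 := mul_right_cancel₀ hd'.ne' hpq.1
    have e2 := mul_right_cancel₀ hd'.ne' hpq.2
    exact Prod.ext (by exact_mod_cast e1) (by exact_mod_cast e2)
  have hinjL : Function.Injective
      (fun p : ℕ × ℕ => (x + (-(p.2 : ℤ)) * d, x + (-(p.1 : ℤ)) * d)) := by
    intro p q hpq
    simp only [Prod.mk.injEq, add_right_inj] at hpq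
    have e1 := mul_right_cancel₀ hd'.ne' hpq.1
    have e2 := mul_right_cancel₀ hd'.ne' hpq.2
    exact Prod.ext (by omega) (by omega)
  by_cases hcase : (n : ℤ) * d ≤ (N : ℤ) - b - x ∨ a < d
  · -- no forbidden pairs
    have hPsi := h1 (Xi N F x d) m n (fun q hq => ⟨hmmax q hq, hnmax q hq, (hXmem q hq).2.1,
      (hXmem q hq).2.2⟩)
    refine hPsi.trans ?_
    rw [← card_cp, ← card_cp, add_comm, ← card_image_of_injective (cp n) hinjR,
      ← card_image_of_injective (cp m) hinjL, ← card_union_of_disjoint]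
    · apply card_le_card
      intro p hp
      rw [mem_union, mem_image, mem_image] at hp
      rw [hT, mem_filter]
      rcases hp with ⟨q, hq, rfl⟩ | ⟨q, hq, rfl⟩
      · have hq' := mem_cp.1 hq
        refine ⟨hright q hq, Or.inl ?_, ?_⟩
        · simp only
          have : (0 : ℤ) < (q.1 : ℤ) * d := mul_pos (by omega) hd'
          linarith
        · intro hf
          obtain ⟨_, f2, f3⟩ := hforb _ hf
          simp only at f2 f3
          rcases hcase with hc | hc
          · have : (q.2 : ℤ) * d ≤ n * d := mul_le_mul_of_nonneg_right (by omega) hd'.le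
            linarith
          · have : (1 : ℤ) * d ≤ q.1 * d := mul_le_mul_of_nonneg_right (by omega) hd'.le
            have : (a : ℤ) < d := by exact_mod_cast hc
            linarith
      · have hq' := mem_cp.1 hq
        have : (0 : ℤ) < (q.1 : ℤ) * d := mul_pos (by omega) hd'
        have h20 : (0 : ℤ) < (q.2 : ℤ) * d := mul_pos (by omega) hd'
        refine ⟨hleft q hq, Or.inr ?_, ?_⟩
        · simp only
          linarith
        · intro hf
          obtain ⟨f1, _, _⟩ := hforb _ hf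
          simp only at f1
          linarith
    · rw [disjoint_left]
      intro p hp hp'
      rw [mem_image] at hp hp'
      obtain ⟨q, hq, rfl⟩ := hp
      obtain ⟨r, hr, hqr⟩ := hp'
      simp only [Prod.mk.injEq] at hqr
      have hq' := mem_cp.1 hq
      have hr' := mem_cp.1 hr
      have h10 : (0 : ℤ) < (q.1 : ℤ) * d := mul_pos (by omega) hd'
      have h20 : (0 : ℤ) < (r.2 : ℤ) * d := mul_pos (by omega) hd'
      linarith [hqr.1]
  · push Not at hcase
    obtain ⟨hc1, hc2⟩ := hcase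
    obtain ⟨bm1, _⟩ := bounds hN.fam (hXmem qm hqm).1
    obtain ⟨_, bn2⟩ := bounds hN.fam (hXmem qn hqn).1
    rw [← hm] at bm1
    rw [← hn] at bn2
    -- count of X
    have hXc : (Xi N F x d).card ≤ (m + 1) * (n + 1) := by
      have : Xi N F x d ⊆ (range (m + 1)) ×ˢ (range (n + 1)) := by
        intro q hq
        rw [mem_product, mem_range, mem_range]
        have e1 := hmmax q hq
        have e2 := hnmax q hq
        exact ⟨Nat.lt_succ_of_le e1, Nat.lt_succ_of_le e2⟩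
      calc (Xi N F x d).card ≤ _ := card_le_card this
        _ = _ := by rw [card_product, card_range, card_range]
    -- good right pairs
    set Gd := (cp n).filter (fun p => ¬ (p.1 * d ≤ a ∧ (N : ℤ) - b < x + (p.2 : ℤ) * d)) with hGd
    set Bd := (cp n).filter (fun p => (p.1 * d ≤ a ∧ (N : ℤ) - b < x + (p.2 : ℤ) * d)) with hBd
    have hsum : Bd.card + Gd.card = Phi n := by
      rw [← card_cp, hGd, hBd]
      exact card_filter_add_card_filter_not (s := cp n) _
    have hGT : Gd.card ≤ T.card := by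
      rw [← card_image_of_injective Gd hinjR]
      apply card_le_card
      intro p hp
      rw [mem_image] at hp
      obtain ⟨q, hq, rfl⟩ := hp
      rw [hGd, mem_filter] at hq
      have hq' := mem_cp.1 hq.1
      rw [hT, mem_filter]
      refine ⟨hright q hq.1, Or.inl ?_, ?_⟩
      · simp only
        have : (0 : ℤ) < (q.1 : ℤ) * d := mul_pos (by omega) hd'
        linarith
      · intro hf
        obtain ⟨_, f2, f3⟩ := hforb _ hf
        simp only at f2 f3
        apply hq.2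
        refine ⟨?_, f3⟩
        have : (q.1 : ℤ) * d ≤ a := by linarith
        exact_mod_cast this
    have hBc : Bd.card ≤ (a / d) * (b / d + 1) := by
      -- f ranges over the integers with N - b - x < f d ≤ N - x
      have hf : Bd ⊆ (Icc 1 (a / d)) ×ˢ ((Icc 1 n).filter
          (fun f : ℕ => (N : ℤ) - b < x + (f : ℤ) * d)) := by
        intro p hp
        rw [hBd, mem_filter] at hp
        have hp' := mem_cp.1 hp.1
        rw [mem_product, mem_Icc, mem_filter, mem_Icc]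
        refine ⟨⟨hp'.1.1, ?_⟩, ⟨by omega, hp'.1.2.2⟩, hp.2.2⟩
        exact (Nat.le_div_iff_mul_le (by omega)).2 hp.2.1
      have hcount : ((Icc 1 n).filter (fun f : ℕ => (N : ℤ) - b < x + (f : ℤ) * d)).card
          ≤ b / d + 1 := by
        have hs : (Icc 1 n).filter (fun f : ℕ => (N : ℤ) - b < x + (f : ℤ) * d) ⊆
            Icc (n - b / d) n := by
          intro f hf
          rw [mem_filter, mem_Icc] at hf
          rw [mem_Icc]
          refine ⟨?_, hf.1.2⟩
          obtain ⟨⟨hf1, hf2⟩, hf3⟩ := hf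
          have : ((n : ℤ) - f) * d ≤ b := by
            have : ((n : ℤ) - f) * d = (n : ℤ) * d - f * d := by ring
            linarith
          have h4 : (n - f) * d ≤ b := by
            have h5 : (((n - f : ℕ) : ℤ)) * d ≤ b := by
              rw [Nat.cast_sub hf2]; exact this
            exact_mod_cast h5
          have h6 := (Nat.le_div_iff_mul_le (by omega : 0 < d)).2 h4
          omega
        refine (card_le_card hs).trans ?_
        rw [Nat.card_Icc]
        generalize b / d = t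
        clear_value n
        clear * -
        omega
      calc Bd.card ≤ _ := card_le_card hf
        _ = (a / d) * _ := by rw [card_product, Nat.card_Icc]; simp
        _ ≤ _ := Nat.mul_le_mul_left _ hcount
    have hmd : m * d + a ≤ k := by
      have : (m : ℤ) * d + a ≤ k := by linarith
      exact_mod_cast this
    have hmd' : m * d + b ≤ k := by
      have : (m : ℤ) * d + b ≤ k := by linarith
      exact_mod_cast this
    have hnd : 12 * k < n * d := by
      have : (12 : ℤ) * k < n * d := by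
        have : (13 : ℤ) * k + 1 ≤ N := by exact_mod_cast hk
        linarith
      exact_mod_cast this
    have hineq := phi_ineq k a b d m n hd hc2 hmd hmd' hnd
    have hPhi := h2 n
    have hXc' : ((Xi N F x d).card : ℝ) ≤ ((m : ℝ) + 1) * (n + 1) := by exact_mod_cast hXc
    have hBc' : (Bd.card : ℝ) ≤ ((a / d : ℕ) : ℝ) * (((b / d : ℕ) : ℝ) + 1) := by
      exact_mod_cast hBc
    have hsum' : (Bd.card : ℝ) + Gd.card = Phi n := by exact_mod_cast hsum
    have hGT' : (Gd.card : ℝ) ≤ T.card := by exact_mod_cast hGT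
    have : ((Xi N F x d).card : ℝ) ≤ T.card := by linarith
    exact_mod_cast this

end Pool.Agent.Work.MP_1d0aa8_co

end
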