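import Pool.Agent.Work.MP_1d0aa8_co.Stmts
import Pool.Agent.Work.MP_1d0aa8_co.Bd.B01
import Pool.Agent.Work.MP_1d0aa8_co.Bd.B02

/-! Bundle of small proof modules (one section per former module). -/

section

/-!
# MP_1d0aa8_co: item SCALE0 (slots of the one-sided and non-coprime AP members)
-/

set_option autoImplicit false

namespace Pool.Agent.Work.MP_1d0aa8_co

open Finset
open scoped Classical

namespace ItSCALE0

/-- `apset a d k` is a progression. -/
theorem apc_apset (a : ℤ) (d k : ℕ) (hd : 1 ≤ d) : APc (apset a d k) := by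
  have hd0 : (0 : ℤ) < (d : ℤ) := by exact_mod_cast hd
  refine ⟨⟨a, ?_⟩, ?_⟩
  · unfold apset
    rw [Finset.mem_image]
    exact ⟨0, Finset.mem_range.2 (Nat.succ_pos k), by simp⟩
  · intro x hx u hu v hv y hy
    unfold apset at hx hu hv ⊢
    rw [Finset.mem_image] at hx hu hv ⊢
    obtain ⟨i, hi, rfl⟩ := hx
    obtain ⟨j, hj, rfl⟩ := hu
    obtain ⟨l, hl, rfl⟩ := hv
    rw [Finset.mem_range] at hi hj hl
    unfold hull at hy
    rw [Finset.mem_filter, Finset.mem_Icc] at hy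
    obtain ⟨⟨hy1, hy2⟩, hy3⟩ := hy
    have hdvd : (d : ℤ) ∣ y - (a + (i : ℤ) * (d : ℤ)) := by
      refine dvd_trans ?_ hy3
      rw [Int.natCast_dvd_natCast, Int.dvd_gcd_iff]
      constructor
      · exact ⟨(j : ℤ) - i, by ring⟩
      · exact ⟨(l : ℤ) - i, by ring⟩
    obtain ⟨t, ht⟩ := hdvd
    have hyt : y = a + ((i : ℤ) + t) * (d : ℤ) := by linarith
    have hlow : (0 : ℤ) ≤ (i : ℤ) + t := by
      have h1 : a ≤ y := by
        refine le_trans (le_min ?_ (le_min ?_ ?_)) hy1 <;> nlinarith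
      by_contra hneg
      push Not at hneg
      have : ((i : ℤ) + t) * (d : ℤ) < 0 := mul_neg_of_neg_of_pos hneg hd0
      linarith
    have hhigh : (i : ℤ) + t ≤ k := by
      have hk : ∀ s : ℕ, s < k + 1 → a + (s : ℤ) * (d : ℤ) ≤ a + (k : ℤ) * (d : ℤ) := by
        intro s hs
        have : (s : ℤ) ≤ (k : ℤ) := by exact_mod_cast Nat.lt_succ_iff.1 hs
        nlinarith
      have h1 : y ≤ a + (k : ℤ) * (d : ℤ) := hy2.trans (max_le (hk i hi) (max_le (hk j hj) (hk l hl)))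
      have h2 : ((i : ℤ) + t) * (d : ℤ) ≤ (k : ℤ) * (d : ℤ) := by linarith
      exact le_of_mul_le_mul_right h2 hd0
    refine ⟨((i : ℤ) + t).toNat, ?_, ?_⟩
    · rw [Finset.mem_range]
      omega
    · rw [Int.toNat_of_nonneg hlow, hyt]

theorem mem_apset_iff (x : ℤ) (d i j : ℕ) (e : ℤ) (h1 : -(i : ℤ) ≤ e) (h2 : e ≤ (j : ℤ)) :
    x + e * d ∈ apset (x - i * d) d (i + j) := by
  unfold apset
  rw [Finset.mem_image]
  refine ⟨(e + i).toNat, ?_, ?_⟩
  · rw [Finset.mem_range]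
    omega
  · rw [Int.toNat_of_nonneg (by omega)]
    ring

/-- The pairs at scale `d` inside a member are covered. -/
theorem mem_covS (N : ℕ) (F : Finset (Finset ℤ)) (x : ℤ) (d : ℕ) (hF : Fam N F) (hd : 1 ≤ d)
    (i j : ℕ) (hA : apset (x - i * d) d (i + j) ∈ F) (e f : ℤ) (he : -(i : ℤ) ≤ e)
    (hf : f ≤ (j : ℤ)) (hef : e < f) (he0 : e ≠ 0) (hf0 : f ≠ 0) (hg : Int.gcd e f = 1) :
    (x + e * d, x + f * d) ∈ CovS N F x d := by
  have hd0 : (0 : ℤ) < (d : ℤ) := by exact_mod_cast hd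
  have hem := mem_apset_iff x d i j e he (by omega)
  have hfm := mem_apset_iff x d i j f (by omega) hf
  have hxm : x ∈ apset (x - i * d) d (i + j) := by
    have := mem_apset_iff x d i j 0 (by omega) (by omega)
    simpa using this
  unfold CovS Cov Prs
  rw [Finset.mem_filter, Finset.mem_filter, Finset.mem_filter, Finset.mem_product]
  refine ⟨⟨⟨⟨hF.sub _ hA hem, hF.sub _ hA hfm⟩, ?_, ?_, ?_⟩, ?_⟩, ?_⟩
  · show x + e * d < x + f * d
    nlinarith
  · show x + e * d ≠ x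
    intro h
    have : e * (d : ℤ) = 0 := by linarith
    rcases mul_eq_zero.1 this with h' | h'
    · exact he0 h'
    · exact hd0.ne' h'
  · show x + f * d ≠ x
    intro h
    have : f * (d : ℤ) = 0 := by linarith
    rcases mul_eq_zero.1 this with h' | h'
    · exact hf0 h'
    · exact hd0.ne' h'
  · exact ⟨_, hA, apc_apset _ _ _ hd, hxm, hem, hfm⟩
  · show Int.gcd (x + e * d - x) (x + f * d - x) = d
    rw [add_sub_cancel_left, add_sub_cancel_left, Int.gcd_mul_right, hg]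
    simp

end ItSCALE0

open ItSCALE0 in
theorem thmScale0 (h : SPsi) : SScale0 := by
  intro N F x d hF hx hd
  have hd0 : (0 : ℤ) < (d : ℤ) := by exact_mod_cast hd
  have hxI := Finset.mem_Icc.1 hx
  set X : Finset (ℕ × ℕ) := ((range (N + 1)) ×ˢ (range (N + 1))).filter
    (fun q => apset (x - q.1 * d) d (q.1 + q.2) ∈ F ∧ 2 ≤ Nat.gcd q.1 q.2 ∧ q ≠ (2, 2)) with hX
  have hXS : XS F x d ⊆ X.image (fun q => apset (x - q.1 * d) d (q.1 + q.2)) := by
    intro A hA
    unfold XS at hA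
    rw [Finset.mem_filter] at hA
    obtain ⟨hAF, i, j, hAe, hg, hne⟩ := hA
    rw [Finset.mem_image]
    refine ⟨(i, j), ?_, hAe.symm⟩
    rw [hX, Finset.mem_filter, Finset.mem_product, Finset.mem_range, Finset.mem_range]
    have hsub := hF.sub A hAF
    have h1 := mem_apset_iff x d i j (-(i : ℤ)) le_rfl (by omega)
    have h2 := mem_apset_iff x d i j (j : ℤ) (by omega) le_rfl
    rw [← hAe] at h1 h2
    have h1' := Finset.mem_Icc.1 (hsub h1)
    have h2' := Finset.mem_Icc.1 (hsub h2)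
    have hi : (i : ℤ) ≤ (i : ℤ) * d := by nlinarith [Int.natCast_nonneg i]
    have hj : (j : ℤ) ≤ (j : ℤ) * d := by nlinarith [Int.natCast_nonneg j]
    refine ⟨⟨?_, ?_⟩, ?_, hg, hne⟩
    · show i < N + 1
      have : (i : ℤ) ≤ N := by linarith [h1'.1]
      omega
    · show j < N + 1
      have : (j : ℤ) ≤ N := by linarith [h2'.2]
      omega
    · show apset (x - i * d) d (i + j) ∈ F
      rw [← hAe]
      exact hAF
  have hcard1 : (XS F x d).card ≤ X.card :=
    (Finset.card_le_card hXS).trans Finset.card_image_le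
  refine hcard1.trans ?_
  rcases X.eq_empty_or_nonempty with he | hne
  · rw [he, Finset.card_empty]
    exact Nat.zero_le _
  obtain ⟨q1, hq1, hm⟩ := Finset.exists_mem_eq_sup X hne Prod.fst
  obtain ⟨q2, hq2, hn⟩ := Finset.exists_mem_eq_sup X hne Prod.snd
  set m := X.sup Prod.fst with hmdef
  set n := X.sup Prod.snd with hndef
  have hXmem : ∀ q ∈ X, apset (x - q.1 * d) d (q.1 + q.2) ∈ F ∧ 2 ≤ Nat.gcd q.1 q.2 ∧
      q ≠ (2, 2) := fun q hq => (Finset.mem_filter.1 hq).2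
  have hPhi : X.card ≤ Phi m + Phi n := by
    refine h X m n fun p hp => ⟨Finset.le_sup (f := Prod.fst) hp, Finset.le_sup (f := Prod.snd) hp,
      (hXmem p hp).2.1, (hXmem p hp).2.2⟩
  refine hPhi.trans ?_
  unfold Phi
  set R := ((Icc 1 n) ×ˢ (Icc 1 n)).filter
    (fun p : ℕ × ℕ => p.1 < p.2 ∧ Nat.Coprime p.1 p.2) with hR
  set Lf := ((Icc 1 m) ×ˢ (Icc 1 m)).filter
    (fun p : ℕ × ℕ => p.1 < p.2 ∧ Nat.Coprime p.1 p.2) with hLf
  let g1 : ℕ × ℕ → ℤ × ℤ := fun p => (x + (p.1 : ℤ) * d, x + (p.2 : ℤ) * d)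
  let g2 : ℕ × ℕ → ℤ × ℤ := fun p => (x + (-(p.2 : ℤ)) * d, x + (-(p.1 : ℤ)) * d)
  have hg1 : Function.Injective g1 := by
    intro p p' hpp
    have e1 : x + (p.1 : ℤ) * d = x + (p'.1 : ℤ) * d := congrArg Prod.fst hpp
    have e2 : x + (p.2 : ℤ) * d = x + (p'.2 : ℤ) * d := congrArg Prod.snd hpp
    have e3 : (p.1 : ℤ) = p'.1 := mul_right_cancel₀ hd0.ne' (by linarith)
    have e4 : (p.2 : ℤ) = p'.2 := mul_right_cancel₀ hd0.ne' (by linarith)
    exact Prod.ext (by exact_mod_cast e3) (by exact_mod_cast e4)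
  have hg2 : Function.Injective g2 := by
    intro p p' hpp
    have e1 : x + (-(p.2 : ℤ)) * d = x + (-(p'.2 : ℤ)) * d := congrArg Prod.fst hpp
    have e2 : x + (-(p.1 : ℤ)) * d = x + (-(p'.1 : ℤ)) * d := congrArg Prod.snd hpp
    have e3 : (p.2 : ℤ) = p'.2 := mul_right_cancel₀ hd0.ne' (by linarith)
    have e4 : (p.1 : ℤ) = p'.1 := mul_right_cancel₀ hd0.ne' (by linarith)
    exact Prod.ext (by exact_mod_cast e4) (by exact_mod_cast e3)
  have hdisj : Disjoint (Lf.image g2) (R.image g1) := by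
    rw [Finset.disjoint_left]
    intro p hp hp'
    rw [Finset.mem_image] at hp hp'
    obtain ⟨a, ha, rfl⟩ := hp
    obtain ⟨b, hb, hab⟩ := hp'
    have e1 : x + (b.1 : ℤ) * d = x + (-(a.2 : ℤ)) * d := congrArg Prod.fst hab
    rw [hR, Finset.mem_filter, Finset.mem_product, Finset.mem_Icc] at hb
    have hb1 : (1 : ℤ) ≤ b.1 := by exact_mod_cast hb.1.1.1
    have ha2 : (0 : ℤ) ≤ a.2 := Int.natCast_nonneg _
    nlinarith
  have hsub : Lf.image g2 ∪ R.image g1 ⊆
      (CovS N F x d).filter (fun p => x < p.1 ∨ p.2 < x) := by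
    intro p hp
    rw [Finset.mem_union, Finset.mem_image, Finset.mem_image] at hp
    rw [Finset.mem_filter]
    rcases hp with ⟨a, ha, rfl⟩ | ⟨a, ha, rfl⟩
    · rw [hLf, Finset.mem_filter, Finset.mem_product, Finset.mem_Icc, Finset.mem_Icc] at ha
      obtain ⟨⟨⟨h1, h2⟩, h3, h4⟩, h5, h6⟩ := ha
      have hA := (hXmem q1 hq1).1
      refine ⟨mem_covS N F x d hF hd q1.1 q1.2 hA (-(a.2 : ℤ)) (-(a.1 : ℤ)) ?_ ?_ ?_ ?_ ?_ ?_,
        Or.inr ?_⟩
      · rw [hm] at h4
        omega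
      · omega
      · omega
      · omega
      · omega
      · rw [Int.neg_gcd, Int.gcd_neg, Int.gcd_natCast_natCast, Nat.gcd_comm]
        exact h6
      · show x + (-(a.1 : ℤ)) * d < x
        have : (1 : ℤ) ≤ a.1 := by exact_mod_cast h1
        nlinarith
    · rw [hR, Finset.mem_filter, Finset.mem_product, Finset.mem_Icc, Finset.mem_Icc] at ha
      obtain ⟨⟨⟨h1, h2⟩, h3, h4⟩, h5, h6⟩ := ha
      have hA := (hXmem q2 hq2).1
      refine ⟨mem_covS N F x d hF hd q2.1 q2.2 hA (a.1 : ℤ) (a.2 : ℤ) ?_ ?_ ?_ ?_ ?_ ?_,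
        Or.inl ?_⟩
      · omega
      · rw [hn] at h4
        omega
      · omega
      · omega
      · omega
      · rw [Int.gcd_natCast_natCast]
        exact h6
      · show x < x + (a.1 : ℤ) * d
        have : (1 : ℤ) ≤ a.1 := by exact_mod_cast h1
        nlinarith
  calc Lf.card + R.card = (Lf.image g2).card + (R.image g1).card := by
        rw [Finset.card_image_of_injective _ hg2, Finset.card_image_of_injective _ hg1]
    _ = (Lf.image g2 ∪ R.image g1).card := (Finset.card_union_of_disjoint hdisj).symm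
    _ ≤ _ := Finset.card_le_card hsub

end Pool.Agent.Work.MP_1d0aa8_co

end

section

/-!
# MP_1d0aa8_co, item SLOT
-/

set_option autoImplicit false

namespace Pool.Agent.Work.MP_1d0aa8_co

open Finset
open scoped Classical

namespace ItSLOT

theorem mem_Prs {N : ℕ} {x : ℤ} {p : ℤ × ℤ} : p ∈ Prs N x ↔
    (p.1 ∈ Icc 1 (N : ℤ) ∧ p.2 ∈ Icc 1 (N : ℤ)) ∧ p.1 < p.2 ∧ p.1 ≠ x ∧ p.2 ≠ x := by
  unfold Prs
  rw [mem_filter, mem_product]

theorem mem_Cov {N : ℕ} {F : Finset (Finset ℤ)} {x : ℤ} {p : ℤ × ℤ} : p ∈ Cov N F x ↔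
    p ∈ Prs N x ∧ ∃ A ∈ F, APc A ∧ x ∈ A ∧ p.1 ∈ A ∧ p.2 ∈ A := by
  unfold Cov
  rw [mem_filter]

theorem mem_CovS {N : ℕ} {F : Finset (Finset ℤ)} {x : ℤ} {e : ℕ} {p : ℤ × ℤ} :
    p ∈ CovS N F x e ↔ p ∈ Cov N F x ∧ Int.gcd (p.1 - x) (p.2 - x) = e := by
  unfold CovS
  rw [mem_filter]

theorem card_lt_pairs (S : Finset ℤ) :
    ((S ×ˢ S).filter (fun p : ℤ × ℤ => p.1 < p.2)).card = S.card.choose 2 := by
  have h1 : ((S ×ˢ S).filter (fun p : ℤ × ℤ => p.1 < p.2)).card =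
      ((S ×ˢ S).filter (fun p : ℤ × ℤ => p.2 < p.1)).card := by
    refine card_bij (fun p _ => (p.2, p.1)) ?_ ?_ ?_
    · intro p hp
      rw [mem_filter, mem_product] at hp ⊢
      exact ⟨⟨hp.1.2, hp.1.1⟩, hp.2⟩
    · rintro ⟨a, b⟩ _ ⟨c, d⟩ _ h
      simp only [Prod.mk.injEq] at h ⊢
      exact ⟨h.2, h.1⟩
    · rintro ⟨a, b⟩ hp
      rw [mem_filter, mem_product] at hp
      refine ⟨(b, a), ?_, rfl⟩
      rw [mem_filter, mem_product]
      exact ⟨⟨hp.1.2, hp.1.1⟩, hp.2⟩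
  have h2 : ((S ×ˢ S).filter (fun p : ℤ × ℤ => p.1 < p.2)).card +
      ((S ×ˢ S).filter (fun p : ℤ × ℤ => p.2 < p.1)).card = S.offDiag.card := by
    rw [← card_union_of_disjoint]
    · congr 1
      ext p
      rw [mem_union, mem_filter, mem_filter, mem_offDiag, mem_product]
      constructor
      · rintro (⟨h, h'⟩ | ⟨h, h'⟩)
        · exact ⟨h.1, h.2, h'.ne⟩
        · exact ⟨h.1, h.2, h'.ne'⟩
      · rintro ⟨h, h', h''⟩
        rcases lt_or_gt_of_ne h'' with h3 | h3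
        · exact Or.inl ⟨⟨h, h'⟩, h3⟩
        · exact Or.inr ⟨⟨h, h'⟩, h3⟩
    · rw [disjoint_left]
      intro p hp hp'
      rw [mem_filter] at hp hp'
      exact absurd hp.2 (not_lt.2 hp'.2.le)
  rw [offDiag_card] at h2
  rw [Nat.choose_two_right, ← h1] at *
  have h3 : S.card * S.card - S.card = S.card * (S.card - 1) := by
    rw [Nat.mul_sub, mul_one]
  omega

theorem card_Prs {N : ℕ} {x : ℤ} (hx : x ∈ Icc 1 (N : ℤ)) : (Prs N x).card = (N - 1).choose 2 := by
  have h1 : Prs N x = ((((Icc 1 (N : ℤ)).erase x) ×ˢ ((Icc 1 (N : ℤ)).erase x)).filter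
      (fun p : ℤ × ℤ => p.1 < p.2)) := by
    ext p
    rw [mem_Prs, mem_filter, mem_product, mem_erase, mem_erase]
    tauto
  rw [h1, card_lt_pairs, card_erase_of_mem hx, Int.card_Icc]
  simp

/-- progressions through `x` with coprime numbers of steps on both sides -/
noncomputable def Cop (F : Finset (Finset ℤ)) (x : ℤ) : Finset (Finset ℤ) :=
  F.filter (fun A => ∃ (d i j : ℕ), 1 ≤ d ∧ 1 ≤ i ∧ 1 ≤ j ∧ Nat.Coprime i j ∧
    A = apset (x - i * d) d (i + j))

theorem gcd_slot (x : ℤ) (d i j : ℕ) (h : Nat.Coprime i j) :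
    Int.gcd ((x - i * d) - x) ((x + j * d) - x) = d := by
  have e1 : (x - i * d) - x = -((i * d : ℕ) : ℤ) := by push_cast; ring
  have e2 : (x + j * d) - x = ((j * d : ℕ) : ℤ) := by push_cast; ring
  rw [e1, e2, Int.neg_gcd, Int.gcd_natCast_natCast, Nat.gcd_mul_right]
  rw [Nat.Coprime] at h
  rw [h, one_mul]

theorem split {N : ℕ} {F : Finset (Finset ℤ)} (hF : Fam N F) {x : ℤ} :
    F.filter (fun A => x ∈ A ∧ 3 ≤ A.card) ⊆
      NA F x ∪ (Cop F x ∪ ((Icc 1 N).biUnion (XS F x) ∪ C5 F x)) := by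
  intro A hA
  rw [mem_filter] at hA
  obtain ⟨hAF, hxA, hc⟩ := hA
  by_cases hap : APc A
  · obtain ⟨a, d, k, hd, rfl⟩ := hap.exists_apset
    have hck := card_apset (a := a) (k := k) hd
    rw [hck] at hc
    obtain ⟨i, hi, hxi⟩ := mem_apset.1 hxA
    obtain ⟨j, hj⟩ : ∃ j, k = i + j := ⟨k - i, by omega⟩
    have ha : a = x - i * d := by rw [hxi]; ring
    subst hj
    rw [ha] at hAF hxA ⊢
    have hdN : d ≤ N := by
      have h1 := hF.mem_Icc hAF (y := x - i * d) (mem_apset.2 ⟨0, Nat.zero_le _, by simp⟩)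
      have h2 := hF.mem_Icc hAF (y := x - i * d + (i + j : ℕ) * d)
        (mem_apset.2 ⟨i + j, le_rfl, rfl⟩)
      have h3 : (2 : ℤ) ≤ ((i + j : ℕ) : ℤ) := by omega
      have h4 : (1 : ℤ) ≤ (d : ℤ) := by exact_mod_cast hd
      have h5 : (2 : ℤ) * d ≤ ((i + j : ℕ) : ℤ) * d := by nlinarith
      have h6 : (d : ℤ) ≤ N := by linarith [h1.1, h2.2]
      exact_mod_cast h6
    rw [mem_union, mem_union, mem_union]
    right
    by_cases hg : Nat.Coprime i j
    · left
      rw [Cop, mem_filter]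
      refine ⟨hAF, d, i, j, hd, ?_, ?_, hg, rfl⟩
      · rcases Nat.eq_zero_or_pos i with h | h
        · rw [h, Nat.coprime_zero_left] at hg; omega
        · exact h
      · rcases Nat.eq_zero_or_pos j with h | h
        · rw [h, Nat.coprime_zero_right] at hg; omega
        · exact h
    · right
      have hg2 : 2 ≤ Nat.gcd i j := by
        have h1 : Nat.gcd i j ≠ 0 := by
          intro h; rw [Nat.gcd_eq_zero_iff] at h; omega
        have h2 : Nat.gcd i j ≠ 1 := hg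
        omega
      by_cases h22 : (i, j) = (2, 2)
      · right
        rw [C5, mem_filter]
        simp only [Prod.mk.injEq] at h22
        obtain ⟨rfl, rfl⟩ := h22
        exact ⟨hAF, d, hd, rfl⟩
      · left
        rw [mem_biUnion]
        refine ⟨d, mem_Icc.2 ⟨hd, hdN⟩, ?_⟩
        rw [XS, mem_filter]
        exact ⟨hAF, i, j, rfl, hg2, h22⟩
  · rw [mem_union]
    left
    rw [NA, mem_filter]
    exact ⟨hAF, hxA, hap⟩

end ItSLOT

open ItSLOT in
theorem thmSlot : SSlot := by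
  intro N F x P hF hx hP hPx hown hXS
  -- the four parts
  have hcard : (F.filter (fun A => x ∈ A ∧ 3 ≤ A.card)).card ≤
      (NA F x).card + ((Cop F x).card + (((Icc 1 N).biUnion (XS F x)).card + (C5 F x).card)) := by
    refine (card_le_card (split hF)).trans ?_
    refine (card_union_le _ _).trans (Nat.add_le_add_left ?_ _)
    refine (card_union_le _ _).trans (Nat.add_le_add_left ?_ _)
    exact card_union_le _ _
  -- slots of the non-AP members
  have hNA : (NA F x).card ≤ ((Prs N x).filter (fun p => p ∉ Cov N F x ∧ p ∉ P)).card := by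
    choose! u hu v hv huv hux hvx hnot hPn using hown
    refine card_le_card_of_injOn (fun A => (u A, v A)) ?_ ?_
    · intro A hA
      have hA' := hA
      rw [mem_coe, NA, mem_filter] at hA'
      obtain ⟨hAF, hxA, hnap⟩ := hA'
      rw [mem_coe] at hA
      rw [mem_coe, mem_filter, mem_Prs]
      refine ⟨⟨⟨hF.sub A hAF (hu A hA), hF.sub A hAF (hv A hA)⟩, huv A hA, hux A hA, hvx A hA⟩,
        ?_, hPn A hA⟩
      intro hc
      rw [mem_Cov] at hc
      obtain ⟨-, B, hB, hBap, hxB, huB, hvB⟩ := hc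
      have := hF.own_unique hAF hB hxA (hu A hA) (hv A hA) hxB huB hvB (hnot A hA)
      rw [this] at hnap
      exact hnap hBap
    · intro A hA B hB hAB
      rw [mem_coe] at hA hB
      have hA' := hA
      have hB' := hB
      rw [NA, mem_filter] at hA' hB'
      simp only [Prod.mk.injEq] at hAB
      refine hF.own_unique hA'.1 hB'.1 hA'.2.1 (hu A hA) (hv A hA) hB'.2.1 ?_ ?_ (hnot A hA)
      · rw [hAB.1]; exact hu B hB
      · rw [hAB.2]; exact hv B hB
  -- slots of the coprime progressions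
  have hCop : (Cop F x).card ≤
      ((Cov N F x).filter (fun p => p.1 < x ∧ x < p.2)).card := by
    have hex : ∀ A ∈ Cop F x, ∃ d i j : ℕ, 1 ≤ d ∧ 1 ≤ i ∧ 1 ≤ j ∧ Nat.Coprime i j ∧
        A = apset (x - i * d) d (i + j) := by
      intro A hA
      rw [Cop, mem_filter] at hA
      exact hA.2
    choose! d i j hd hi hj hco hA using hex
    refine card_le_card_of_injOn (fun A => (x - i A * d A, x + j A * d A)) ?_ ?_
    · intro A hAC
      rw [mem_coe] at hAC
      have hAF : A ∈ F := by rw [Cop, mem_filter] at hAC; exact hAC.1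
      have hd' : (1 : ℤ) ≤ (d A : ℤ) := by exact_mod_cast hd A hAC
      have hi' : (1 : ℤ) ≤ (i A : ℤ) := by exact_mod_cast hi A hAC
      have hj' : (1 : ℤ) ≤ (j A : ℤ) := by exact_mod_cast hj A hAC
      have hid : (1 : ℤ) ≤ (i A : ℤ) * d A := by nlinarith
      have hjd : (1 : ℤ) ≤ (j A : ℤ) * d A := by nlinarith
      have m1 : x - i A * d A ∈ A := by
        have := mem_apset.2 ⟨0, Nat.zero_le (i A + j A), (by simp :
          x - (i A : ℤ) * d A = (x - (i A : ℤ) * d A) + ((0 : ℕ) : ℤ) * (d A : ℤ))⟩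
        rwa [← hA A hAC] at this
      have m2 : x ∈ A := by
        have := mem_apset.2 ⟨i A, Nat.le_add_right (i A) (j A), (by ring :
          x = (x - (i A : ℤ) * d A) + ((i A : ℕ) : ℤ) * (d A : ℤ))⟩
        rwa [← hA A hAC] at this
      have m3 : x + j A * d A ∈ A := by
        have := mem_apset.2 ⟨i A + j A, le_rfl, (by push_cast; ring :
          x + (j A : ℤ) * d A = (x - (i A : ℤ) * d A) + ((i A + j A : ℕ) : ℤ) * (d A : ℤ))⟩
        rwa [← hA A hAC] at this
      rw [mem_coe, mem_filter, mem_Cov, mem_Prs]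
      refine ⟨⟨⟨⟨hF.sub A hAF m1, hF.sub A hAF m3⟩, ?_, ?_, ?_⟩, A, hAF, ?_, m2, m1, m3⟩, ?_, ?_⟩
      · dsimp only; linarith
      · dsimp only; intro h; linarith
      · dsimp only; intro h; linarith
      · rw [hA A hAC]; exact APc_apset _ _ _
      · dsimp only; linarith
      · dsimp only; linarith
    · intro A hAC B hBC hAB
      rw [mem_coe] at hAC hBC
      simp only [Prod.mk.injEq] at hAB
      have g1 := gcd_slot x (d A) (i A) (j A) (hco A hAC)
      have g2 := gcd_slot x (d B) (i B) (j B) (hco B hBC)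
      rw [hAB.1, hAB.2, g2] at g1
      have hdB : (1 : ℤ) ≤ (d B : ℤ) := by exact_mod_cast hd B hBC
      have hd0 : (d B : ℤ) ≠ 0 := by linarith
      have hAB1 := hAB.1
      have hAB2 := hAB.2
      rw [← g1] at hAB1 hAB2
      have e1 : (i A : ℤ) * d B = i B * d B := by linarith
      have e2 : (j A : ℤ) * d B = j B * d B := by linarith
      have e1' : i A = i B := by exact_mod_cast mul_right_cancel₀ hd0 e1
      have e2' : j A = j B := by exact_mod_cast mul_right_cancel₀ hd0 e2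
      rw [hA A hAC, hA B hBC, e1', e2', g1]
  -- slots of the others
  have hX : ((Icc 1 N).biUnion (XS F x)).card ≤
      ((Cov N F x).filter (fun p => (x < p.1 ∨ p.2 < x) ∧ p ∉ P)).card := by
    refine card_biUnion_le.trans ?_
    refine (sum_le_sum fun d hd => hXS d (mem_Icc.1 hd).1).trans ?_
    rw [← card_biUnion]
    · refine card_le_card ?_
      intro p hp
      rw [mem_biUnion] at hp
      obtain ⟨d, -, hp⟩ := hp
      rw [mem_filter, mem_CovS] at hp
      rw [mem_filter]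
      exact ⟨hp.1.1, hp.2⟩
    · intro d _ e _ hne
      change Disjoint _ _
      rw [disjoint_left]
      intro p hp hp'
      beta_reduce at hp hp'
      rw [mem_filter, mem_CovS] at hp hp'
      exact hne (hp.1.2.symm.trans hp'.1.2)
  -- disjointness
  have htot : ((Prs N x).filter (fun p => p ∉ Cov N F x ∧ p ∉ P)).card +
      (((Cov N F x).filter (fun p => p.1 < x ∧ x < p.2)).card +
        (((Cov N F x).filter (fun p => (x < p.1 ∨ p.2 < x) ∧ p ∉ P)).card + P.card)) ≤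
      (Prs N x).card := by
    have hCP : Cov N F x ⊆ Prs N x := filter_subset _ _
    rw [← card_union_of_disjoint, ← card_union_of_disjoint, ← card_union_of_disjoint]
    · refine card_le_card ?_
      refine union_subset (filter_subset _ _) (union_subset ((filter_subset _ _).trans hCP)
        (union_subset ((filter_subset _ _).trans hCP) hP))
    · rw [disjoint_left]
      intro p hp hp'
      rw [mem_filter] at hp
      rw [mem_union, mem_union, mem_filter, mem_filter] at hp'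
      rcases hp' with h | h | h
      · exact hp.2.1 h.1
      · exact hp.2.1 h.1
      · exact hp.2.2 h
    · rw [disjoint_left]
      intro p hp hp'
      rw [mem_filter] at hp
      rw [mem_union, mem_filter] at hp'
      rcases hp' with h | h
      · rcases h.2.1 with h2 | h2
        · linarith [hp.2.1]
        · linarith [hp.2.2]
      · linarith [hp.2.1, hPx p h]
    · rw [disjoint_left]
      intro p hp hp'
      rw [mem_filter] at hp
      exact hp.2.2 hp'
  rw [card_Prs hx] at htot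
  omega

end Pool.Agent.Work.MP_1d0aa8_co

end

section

set_option autoImplicit false

namespace Pool.Agent.Work.MP_1d0aa8_co

open Finset
open scoped Classical

namespace ItSTAR

theorem mem_hull {x u v y : ℤ} : y ∈ hull x u v ↔
    (min x (min u v) ≤ y ∧ y ≤ max x (max u v)) ∧
      ((Int.gcd (u - x) (v - x) : ℕ) : ℤ) ∣ y - x := by
  rw [hull, Finset.mem_filter, Finset.mem_Icc]

theorem hull_comm (x u v : ℤ) : hull x u v = hull x v u := by
  ext y
  rw [mem_hull, mem_hull, min_comm u v, max_comm u v, Int.gcd_comm]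

theorem mem_pair {x u y : ℤ} (h1 : min x u ≤ y) (h2 : y ≤ max x u) (h3 : u - x ∣ y - x) :
    y = x ∨ y = u := by
  obtain ⟨k, hk⟩ := h3
  rcases le_total x u with hxu | hxu
  · rw [min_eq_left hxu] at h1
    rw [max_eq_right hxu] at h2
    rcases hxu.eq_or_lt with h | h
    · left; omega
    · have hk0 : 0 ≤ k := by
        by_contra hneg
        have : k ≤ -1 := by omega
        nlinarith
      have hk1 : k ≤ 1 := by
        by_contra hneg
        have : 2 ≤ k := by omega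
        nlinarith
      have : k = 0 ∨ k = 1 := by omega
      rcases this with rfl | rfl
      · left; linarith
      · right; linarith
  · rw [min_eq_right hxu] at h1
    rw [max_eq_left hxu] at h2
    rcases hxu.eq_or_lt with h | h
    · left; omega
    · have hk0 : 0 ≤ k := by
        by_contra hneg
        have : k ≤ -1 := by omega
        nlinarith
      have hk1 : k ≤ 1 := by
        by_contra hneg
        have : 2 ≤ k := by omega
        nlinarith
      have : k = 0 ∨ k = 1 := by omega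
      rcases this with rfl | rfl
      · left; linarith
      · right; linarith

theorem hull_self_right (x u y : ℤ) (h : y ∈ hull x u u) : y = x ∨ y = u := by
  rw [mem_hull, min_self, max_self, Int.gcd_self] at h
  exact mem_pair h.1.1 h.1.2 ((Int.natAbs_dvd.1 h.2))

theorem hull_self_left (x v y : ℤ) (h : y ∈ hull x x v) : y = x ∨ y = v := by
  rw [mem_hull, sub_self, Int.gcd_zero_left, ← min_assoc, min_self, ← max_assoc, max_self] at h
  exact mem_pair h.1.1 h.1.2 ((Int.natAbs_dvd.1 h.2))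

/-- A set closed under `hull x` is a progression. -/
theorem apc_of_closed {A : Finset ℤ} {x : ℤ} (hx : x ∈ A)
    (h : ∀ u ∈ A, ∀ v ∈ A, hull x u v ⊆ A) : APc A := by
  refine ⟨⟨x, hx⟩, ?_⟩
  by_cases hA : ∃ y ∈ A, y ≠ x
  · -- the smallest distance
    have hne : (A.erase x).Nonempty := by
      obtain ⟨y, hy, hyx⟩ := hA
      exact ⟨y, Finset.mem_erase.2 ⟨hyx, hy⟩⟩
    obtain ⟨z, hz, hmin⟩ := Finset.exists_min_image (A.erase x) (fun y => (y - x).natAbs) hne
    rw [Finset.mem_erase] at hz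
    have hd0 : 0 < (z - x).natAbs := Int.natAbs_pos.2 (sub_ne_zero.2 hz.1)
    have hdvd : ∀ w ∈ A, (z - x) ∣ (w - x) := by
      intro w hw
      set g := Int.gcd (z - x) (w - x) with hg
      have hgz : (g : ℤ) ∣ z - x := Int.gcd_dvd_left _ _
      have hg0 : 0 < g := Int.gcd_pos_of_ne_zero_left _ (sub_ne_zero.2 hz.1)
      have hgle : g ≤ (z - x).natAbs := Nat.le_of_dvd hd0 (Int.natCast_dvd.1 hgz)
      -- the point at distance g towards z
      have hpt : x + (z - x).sign * g ∈ A := by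
        refine h z hz.2 w hw ?_
        rw [mem_hull, ← hg]
        refine ⟨?_, ?_⟩
        · rcases lt_or_gt_of_ne hz.1 with hlt | hlt
          · rw [Int.sign_eq_neg_one_of_neg (by omega)]
            omega
          · rw [Int.sign_eq_one_of_pos (by omega)]
            omega
        · rw [add_sub_cancel_left]
          exact Dvd.intro_left _ rfl
      have hne' : x + (z - x).sign * g ≠ x := by
        intro heq
        have h0 : (z - x).sign * (g : ℤ) = 0 := by omega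
        rcases mul_eq_zero.1 h0 with h0 | h0
        · exact hz.1 (sub_eq_zero.1 (Int.sign_eq_zero_iff_zero.1 h0))
        · omega
      have hle : (z - x).natAbs ≤ (x + (z - x).sign * (g : ℤ) - x).natAbs :=
        hmin _ (Finset.mem_erase.2 ⟨hne', hpt⟩)
      rw [add_sub_cancel_left, Int.natAbs_mul, Int.natAbs_natCast] at hle
      have hs : (z - x).sign.natAbs = 1 := Int.natAbs_sign_of_ne_zero (sub_ne_zero.2 hz.1)
      rw [hs, one_mul] at hle
      have hgd : g = (z - x).natAbs := le_antisymm hgle hle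
      have : (g : ℤ) ∣ w - x := Int.gcd_dvd_right _ _
      rw [hgd] at this
      exact Int.natAbs_dvd.1 this
    have hfull : ∀ w ∈ A, ∀ y : ℤ, min x w ≤ y → y ≤ max x w → (z - x) ∣ y - x → y ∈ A := by
      intro w hw y h1 h2 h3
      refine h z hz.2 w hw ?_
      rw [mem_hull]
      refine ⟨⟨?_, ?_⟩, ?_⟩
      · exact le_trans (le_min (min_le_left _ _) (le_trans (min_le_right _ _) (min_le_right _ _))) h1
      · exact le_trans h2 (max_le (le_max_left _ _) (le_trans (le_max_right _ _) (le_max_right _ _)))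
      · have : ((Int.gcd (z - x) (w - x) : ℕ) : ℤ) ∣ z - x := Int.gcd_dvd_left _ _
        exact this.trans h3
    intro a ha u hu v hv y hy
    rw [mem_hull] at hy
    have hdy : (z - x) ∣ y - x := by
      have h1 : (z - x) ∣ u - a := by
        have := dvd_sub (hdvd u hu) (hdvd a ha)
        rwa [show u - x - (a - x) = u - a by ring] at this
      have h2 : (z - x) ∣ v - a := by
        have := dvd_sub (hdvd v hv) (hdvd a ha)
        rwa [show v - x - (a - x) = v - a by ring] at this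
      have h3 : (z - x) ∣ ((Int.gcd (u - a) (v - a) : ℕ) : ℤ) := Int.dvd_coe_gcd h1 h2
      have h4 := h3.trans hy.2
      have := dvd_add h4 (hdvd a ha)
      rwa [show y - a + (a - x) = y - x by ring] at this
    -- y is between x and one of a, u, v
    rcases le_total x y with hxy | hxy
    · have : y ≤ a ∨ y ≤ u ∨ y ≤ v := by
        have := hy.1.2
        rw [le_max_iff, le_max_iff] at this
        exact this
      rcases this with h1 | h1 | h1
      · exact hfull a ha y ((min_le_left _ _).trans hxy) (h1.trans (le_max_right _ _)) hdy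
      · exact hfull u hu y ((min_le_left _ _).trans hxy) (h1.trans (le_max_right _ _)) hdy
      · exact hfull v hv y ((min_le_left _ _).trans hxy) (h1.trans (le_max_right _ _)) hdy
    · have : a ≤ y ∨ u ≤ y ∨ v ≤ y := by
        have := hy.1.1
        rw [min_le_iff, min_le_iff] at this
        exact this
      rcases this with h1 | h1 | h1
      · exact hfull a ha y ((min_le_right _ _).trans h1) (hxy.trans (le_max_left _ _)) hdy
      · exact hfull u hu y ((min_le_right _ _).trans h1) (hxy.trans (le_max_left _ _)) hdy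
      · exact hfull v hv y ((min_le_right _ _).trans h1) (hxy.trans (le_max_left _ _)) hdy
  · push Not at hA
    intro a ha u hu v hv y hy
    rw [hA a ha, hA u hu, hA v hv] at hy
    rcases hull_self_left x x y hy with h1 | h1 <;> rw [h1] <;> exact hx

theorem own_exists {A : Finset ℤ} {x : ℤ} (hx : x ∈ A) (hA : ¬ APc A) :
    ∃ u ∈ A, ∃ v ∈ A, u < v ∧ u ≠ x ∧ v ≠ x ∧ ¬ hull x u v ⊆ A := by
  by_contra hcon
  push Not at hcon
  apply hA
  refine apc_of_closed hx fun u hu v hv => ?_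
  by_cases hux : u = x
  · rw [hux]
    intro y hy
    rcases hull_self_left x v y hy with h1 | h1 <;> rw [h1]
    · exact hx
    · exact hv
  by_cases hvx : v = x
  · rw [hvx, hull_comm]
    intro y hy
    rcases hull_self_left x u y hy with h1 | h1 <;> rw [h1]
    · exact hx
    · exact hu
  rcases lt_trichotomy u v with h1 | h1 | h1
  · exact hcon u hu v hv h1 hux hvx
  · rw [h1]
    intro y hy
    rcases hull_self_right x v y hy with h2 | h2 <;> rw [h2]
    · exact hx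
    · exact hv
  · rw [hull_comm]
    exact hcon v hv u hu h1 hvx hux

theorem choose_step {N : ℕ} (hN : 1 ≤ N) : N.choose 2 = (N - 1).choose 2 + (N - 1) := by
  obtain ⟨m, rfl⟩ : ∃ m, N = m + 1 := ⟨N - 1, by omega⟩
  have h1 : (m + 1).choose 2 = m.choose 1 + m.choose 2 := Nat.choose_succ_succ' m 1
  rw [Nat.choose_one_right] at h1
  have h2 : m + 1 - 1 = m := by omega
  rw [h2, h1, add_comm]

end ItSTAR

open ItSTAR in
theorem thmStar (h1 : SSlot) (h2 : SScale0) : SStar := by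
  intro N F x hN hF hx
  have hslot := h1 N F x ∅ hF hx (Finset.empty_subset _) (by simp)
    (fun A hA => by
      rw [NA, Finset.mem_filter] at hA
      obtain ⟨u, hu, v, hv, h3⟩ := own_exists hA.2.1 hA.2.2
      exact ⟨u, hu, v, hv, h3.1, h3.2.1, h3.2.2.1, h3.2.2.2, by simp⟩)
    (fun d hd => by
      have := h2 N F x d hF hx hd
      simpa using this)
  rw [Finset.card_empty, add_zero] at hslot
  -- small members
  set S2 := F.filter (fun A => x ∈ A ∧ A.card ≤ 2) with hS2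
  have hsplit : (F.filter (fun A => x ∈ A)).card ≤
      (F.filter (fun A => x ∈ A ∧ 3 ≤ A.card)).card + S2.card := by
    rw [← Finset.card_union_of_disjoint]
    · refine Finset.card_le_card fun A hA => ?_
      rw [Finset.mem_filter] at hA
      rw [Finset.mem_union, Finset.mem_filter, hS2, Finset.mem_filter]
      by_cases h3 : 3 ≤ A.card
      · exact Or.inl ⟨hA.1, hA.2, h3⟩
      · exact Or.inr ⟨hA.1, hA.2, by omega⟩
    · rw [Finset.disjoint_left]
      intro A hA hA'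
      rw [Finset.mem_filter] at hA
      rw [hS2, Finset.mem_filter] at hA'
      omega
  have hsmall : S2.card ≤ (N - 1) + (if {x} ∈ F then 1 else 0) := by
    have hsub : S2 ⊆ (((Icc 1 (N : ℤ)).erase x).image (fun y => ({x, y} : Finset ℤ))) ∪
        (if {x} ∈ F then {{x}} else ∅) := by
      intro A hA
      rw [hS2, Finset.mem_filter] at hA
      obtain ⟨hAF, hxA, hc⟩ := hA
      rw [Finset.mem_union]
      by_cases hA1 : A = {x}
      · right
        rw [if_pos (hA1 ▸ hAF), Finset.mem_singleton]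
        exact hA1
      · left
        have hne : (A.erase x).Nonempty := by
          rw [Finset.nonempty_iff_ne_empty]
          intro h
          rw [Finset.erase_eq_empty_iff] at h
          rcases h with h | h
          · rw [h] at hxA
            exact absurd hxA (Finset.notMem_empty _)
          · exact hA1 h
        obtain ⟨y, hy⟩ := hne
        rw [Finset.mem_erase] at hy
        rw [Finset.mem_image]
        refine ⟨y, Finset.mem_erase.2 ⟨hy.1, hF.sub A hAF hy.2⟩, ?_⟩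
        refine Finset.eq_of_subset_of_card_le ?_ ?_
        · intro w hw
          rw [Finset.mem_insert, Finset.mem_singleton] at hw
          rcases hw with rfl | rfl
          · exact hxA
          · exact hy.2
        · rw [Finset.card_pair (Ne.symm hy.1)]
          exact hc
    refine (Finset.card_le_card hsub).trans ((Finset.card_union_le _ _).trans ?_)
    refine add_le_add ?_ ?_
    · refine Finset.card_image_le.trans ?_
      rw [Finset.card_erase_of_mem hx, Int.card_Icc, add_sub_cancel_right, Int.toNat_natCast]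
    · split_ifs
      · rw [Finset.card_singleton]
      · rw [Finset.card_empty]
  have hchoose : N.choose 2 = (N - 1).choose 2 + (N - 1) := by
    exact choose_step hN
  omega

end Pool.Agent.Work.MP_1d0aa8_co

end

section

/-!
# MP_1d0aa8_co: item TRANSFER
-/

set_option autoImplicit false

namespace Pool.Agent.Work.MP_1d0aa8_co

open Finset
open scoped Classical

theorem thmTransfer : STransfer := by
  intro N G hG
  obtain ⟨hG1, hG2⟩ := hG
  have hcast : Function.Injective (fun n : ℕ => (n : ℤ)) := Nat.cast_injective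
  have hinj : Function.Injective (fun A : Finset ℕ => A.image (fun n : ℕ => (n : ℤ))) :=
    Finset.image_injective hcast
  refine ⟨G.image (fun A : Finset ℕ => A.image (fun n : ℕ => (n : ℤ))), ⟨?_, ?_⟩, ?_⟩
  · intro A hA y hy
    obtain ⟨A', hA', rfl⟩ := mem_image.1 hA
    obtain ⟨n, hn, rfl⟩ := mem_image.1 hy
    have h1 := mem_powerset.1 (hG1 hA') hn
    rw [Finset.mem_Icc] at h1 ⊢
    constructor
    · exact_mod_cast h1.1
    · exact_mod_cast h1.2
  · intro A hA B hB hne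
    obtain ⟨A', hA', rfl⟩ := mem_image.1 hA
    obtain ⟨B', hB', rfl⟩ := mem_image.1 hB
    have hne' : A' ≠ B' := fun h => hne (by rw [h])
    obtain ⟨a, d, k, hk⟩ := hG2 A' hA' B' hB' hne'
    have h1 : (A'.image (fun n : ℕ => (n : ℤ))) ∩ (B'.image (fun n : ℕ => (n : ℤ)))
        = apset (a : ℤ) d k := by
      rw [← Finset.image_inter _ _ hcast, hk, Finset.image_image]
      unfold apset
      refine Finset.image_congr ?_
      intro i _
      simp
    rw [h1]
    exact APc_apset _ _ _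
  · exact Finset.card_image_of_injective _ hinj

end Pool.Agent.Work.MP_1d0aa8_co

end

section

set_option autoImplicit false

namespace Pool.Agent.Work.MP_1d0aa8_co

open Finset
open scoped Classical

namespace ItTYPEAB

/-- The hull of `x`, `x + s m`, `w` contains the run of step `gcd (s m) (w - x)` between `x` and
`x + s m`. -/
theorem run_mem {x s w : ℤ} (hs : s = 1 ∨ s = -1) {m j : ℕ} (hj : j ≤ m)
    (hg : ((Int.gcd (s * m) (w - x) : ℕ) : ℤ) ∣ (j : ℤ)) : x + s * j ∈ hull x (x + s * m) w := by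
  rw [mem_hull]
  have h1 : x + s * m - x = s * m := by ring
  have h2 : x + s * j - x = s * j := by ring
  rw [h1, h2]
  have hjm : (j : ℤ) ≤ m := by exact_mod_cast hj
  refine ⟨⟨?_, ?_⟩, hg.mul_left s⟩
  · rcases hs with rfl | rfl
    · exact (min_le_left _ _).trans (by omega)
    · exact (min_le_right _ _).trans ((min_le_left _ _).trans (by omega))
  · rcases hs with rfl | rfl
    · exact le_trans (by omega) ((le_max_left _ _).trans (le_max_right _ _))
    · exact le_trans (by omega) (le_max_left _ _)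

theorem hull_run {x s : ℤ} (hs : s = 1 ∨ s = -1) {m e : ℕ} (hem : e ∣ m) (hm : 1 ≤ m)
    {S : Finset ℤ} :
    hull x (x + s * m) (x + s * e) ⊆ S ↔ ∀ j : ℕ, j ≤ m → e ∣ j → x + s * j ∈ S := by
  constructor
  · intro h j hj hej
    apply h
    apply run_mem hs hj
    have h1 : x + s * e - x = s * e := by ring
    rw [h1]
    have h2 : ((Int.gcd (s * m) (s * e) : ℕ) : ℤ) ∣ s * e := Int.gcd_dvd_right _ _
    have h3 : s * (e : ℤ) ∣ (j : ℤ) := by
      have h4 : (e : ℤ) ∣ (j : ℤ) := by exact_mod_cast hej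
      rcases hs with rfl | rfl
      · rwa [one_mul]
      · rw [neg_one_mul]; exact (neg_dvd).2 h4
    exact h2.trans h3
  · intro h y hy
    rw [mem_hull] at hy
    have h1 : x + s * m - x = s * m := by ring
    have h2 : x + s * e - x = s * e := by ring
    rw [h1, h2] at hy
    obtain ⟨⟨hy1, hy2⟩, hy3⟩ := hy
    have hle : e ≤ m := Nat.le_of_dvd (by omega) hem
    have hle' : (e : ℤ) ≤ m := by exact_mod_cast hle
    have hem' : (e : ℤ) ∣ (m : ℤ) := by exact_mod_cast hem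
    have hed : (e : ℤ) ∣ y - x := by
      refine dvd_trans ?_ hy3
      exact Int.dvd_coe_gcd (hem'.mul_left s) (Dvd.intro_left s rfl)
    rcases hs with rfl | rfl
    · have h3 : x ≤ y := by
        refine le_trans (le_min le_rfl (le_min ?_ ?_)) hy1 <;> omega
      have h4 : y ≤ x + m := by
        refine hy2.trans (max_le ?_ (max_le ?_ ?_)) <;> omega
      have h5 : ((y - x).toNat : ℤ) = y - x := Int.toNat_of_nonneg (by omega)
      have h6 := h (y - x).toNat (by omega) (by rw [← Int.natCast_dvd_natCast, h5]; exact hed)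
      rw [h5] at h6
      have h7 : x + 1 * (y - x) = y := by ring
      rwa [h7] at h6
    · have h3 : y ≤ x := by
        refine hy2.trans (max_le le_rfl (max_le ?_ ?_)) <;> omega
      have h4 : x - m ≤ y := by
        refine le_trans (le_min ?_ (le_min ?_ ?_)) hy1 <;> omega
      have h5 : ((x - y).toNat : ℤ) = x - y := Int.toNat_of_nonneg (by omega)
      have hed' : (e : ℤ) ∣ x - y := by
        have h8 : x - y = -(y - x) := by ring
        rw [h8]; exact (dvd_neg).2 hed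
      have h6 := h (x - y).toNat (by omega) (by rw [← Int.natCast_dvd_natCast, h5]; exact hed')
      rw [h5] at h6
      have h7 : x + -1 * (x - y) = y := by ring
      rwa [h7] at h6

/-- Data of type A. -/
def PA (x s : ℤ) (A : Finset ℤ) (t : ℕ × ℕ × ℕ) : Prop :=
  t.2.1 ∣ t.1 ∧ t.2.2 ∣ t.1 ∧ 1 ≤ t.1 ∧ ¬ t.2.1 ∣ t.2.2 ∧ x + s * t.1 ∈ A ∧ x + s * t.2.1 ∈ A ∧
    x + s * t.2.2 ∈ A ∧
    ∀ e : ℕ, 1 ≤ e → e < t.2.1 → e ∣ t.1 → ¬ ∀ j : ℕ, j ≤ t.1 → e ∣ j → x + s * j ∈ A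

/-- Data of type B. -/
def PB (x s r : ℤ) (A : Finset ℤ) (t : ℕ × ℕ × ℕ) : Prop :=
  x + s * t.2.1 ∈ A ∧ x + r * t.1 ∈ A ∧ ¬ hull x (x + s * t.2.1) (x + r * t.1) ⊆ A

theorem PA_unique {N : ℕ} {F : Finset (Finset ℤ)} (hF : Fam N F) {x s : ℤ}
    (hs : s = 1 ∨ s = -1) {A B : Finset ℤ} (hA : A ∈ F) (hB : B ∈ F) (hxA : x ∈ A) (hxB : x ∈ B)
    {t : ℕ × ℕ × ℕ} (h1 : PA x s A t) (h2 : PA x s B t) : A = B := by
  obtain ⟨m, d, g⟩ := t
  obtain ⟨hdm, hgm, hm, hdg, hmA, hdA, hgA, hmin⟩ := h1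
  obtain ⟨-, -, -, -, hmB, hdB, hgB, -⟩ := h2
  simp only at hdm hgm hm hdg hmA hdA hgA hmin hmB hdB hgB
  by_contra hne
  have hap := hF.ap A hA B hB hne
  have hd1 : 1 ≤ d := Nat.pos_of_dvd_of_pos hdm hm
  have hg1 : 1 ≤ g := Nat.pos_of_dvd_of_pos hgm hm
  set e := Nat.gcd d g with he
  have hed : e ∣ d := Nat.gcd_dvd_left _ _
  have heg : e ∣ g := Nat.gcd_dvd_right _ _
  have he1 : 1 ≤ e := Nat.gcd_pos_of_pos_left _ hd1
  have hlt : e < d := by
    refine lt_of_le_of_ne (Nat.le_of_dvd hd1 hed) ?_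
    intro h
    exact hdg (h ▸ heg)
  have h3 : x + s * e ∈ A ∩ B := by
    refine hap.hull_sub (mem_inter.2 ⟨hxA, hxB⟩) (mem_inter.2 ⟨hdA, hdB⟩)
      (mem_inter.2 ⟨hgA, hgB⟩) (run_mem hs hlt.le ?_)
    have h4 : x + s * g - x = s * g := by ring
    have h5 : Int.gcd (s * d) (s * g) = e := by
      rw [Int.gcd_mul_left]
      have h6 : s.natAbs = 1 := by rcases hs with rfl | rfl <;> rfl
      rw [h6, one_mul, Int.gcd_natCast_natCast]
    rw [h4, h5]
  have h7 := hap.hull_sub (mem_inter.2 ⟨hxA, hxB⟩) (mem_inter.2 ⟨hmA, hmB⟩) h3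
  have h8 := (hull_run hs (hed.trans hdm) hm).1 h7
  exact hmin e he1 hlt (hed.trans hdm) fun j hj hej => (mem_inter.1 (h8 j hj hej)).1

/-- The classification. -/
theorem classify {A : Finset ℤ} {x y : ℤ} {θ : ℕ} (hx : x ∈ A) (hAP : ¬ APc A)
    (hQ : ¬ Quasi θ A) (hy : y ∈ A) (hyx : y ≠ x) (hexc : (Exc A x y).card < θ) :
    (∃ s : ℤ, (s = 1 ∨ s = -1) ∧ ∃ t : ℕ × ℕ × ℕ, 1 ≤ t.2.1 ∧ PA x s A t) ∨
    (∃ s r : ℤ, (s = 1 ∨ s = -1) ∧ (r = 1 ∨ r = -1) ∧ ∃ t : ℕ × ℕ × ℕ, 1 ≤ t.1 ∧ 1 ≤ t.2.1 ∧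
      t.2.1 ∣ t.1 ∧ t.2.2 = 1 ∧ PB x s r A t) := by
  -- sign and distance of y
  obtain ⟨s, m, hs, hm, rfl⟩ : ∃ (s : ℤ) (m : ℕ), (s = 1 ∨ s = -1) ∧ 1 ≤ m ∧ y = x + s * m := by
    rcases lt_or_gt_of_ne hyx with h | h
    · refine ⟨-1, (x - y).toNat, Or.inr rfl, by omega, ?_⟩
      rw [Int.toNat_of_nonneg (by omega)]; ring
    · refine ⟨1, (y - x).toNat, Or.inl rfl, by omega, ?_⟩
      rw [Int.toNat_of_nonneg (by omega)]; ring
  have hs0 : s ≠ 0 := by rcases hs with rfl | rfl <;> norm_num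
  have hsm : s * (m : ℤ) ≠ 0 := mul_ne_zero hs0 (by exact_mod_cast (by omega : m ≠ 0))
  -- the least step
  have hex : ∃ e : ℕ, 1 ≤ e ∧ e ∣ m ∧ ∀ j : ℕ, j ≤ m → e ∣ j → x + s * j ∈ A := by
    refine ⟨m, hm, dvd_rfl, fun j hj hmj => ?_⟩
    rcases Nat.eq_zero_or_pos j with h0 | h0
    · rw [h0]; simpa using hx
    · have : j = m := le_antisymm hj (Nat.le_of_dvd h0 hmj)
      rw [this]; exact hy
  obtain ⟨d, ⟨hd1, hdm, hdrun⟩, hdmin⟩ : ∃ d : ℕ,
      (1 ≤ d ∧ d ∣ m ∧ ∀ j : ℕ, j ≤ m → d ∣ j → x + s * j ∈ A) ∧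
      ∀ e : ℕ, e < d → ¬ (1 ≤ e ∧ e ∣ m ∧ ∀ j : ℕ, j ≤ m → e ∣ j → x + s * j ∈ A) :=
    ⟨Nat.find hex, Nat.find_spec hex, fun e he => Nat.find_min hex he⟩
  have hdA : x + s * d ∈ A := hdrun d (Nat.le_of_dvd hm hdm) dvd_rfl
  by_cases hA' : ∃ w ∈ A, hull x (x + s * m) w ⊆ A ∧ ¬ d ∣ Int.gcd (s * m) (w - x)
  · -- type A
    left
    obtain ⟨w, hw, hwA, hnd⟩ := hA'
    set g := Int.gcd (s * m) (w - x) with hg
    have hgm : g ∣ m := by
      have h1 : (g : ℤ) ∣ s * m := Int.gcd_dvd_left _ _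
      have h2 : (g : ℤ) ∣ (m : ℤ) := by
        rcases hs with rfl | rfl
        · rwa [one_mul] at h1
        · rw [neg_one_mul] at h1; exact (dvd_neg).1 h1
      exact_mod_cast h2
    have hg1 : 1 ≤ g := Nat.pos_of_dvd_of_pos hgm hm
    have hgA : x + s * g ∈ A := hwA (run_mem hs (Nat.le_of_dvd hm hgm) (by rw [← hg]))
    refine ⟨s, hs, (m, d, g), hd1, hdm, hgm, hm, hnd, hy, hdA, hgA, ?_⟩
    intro e he1 hed hem hrun
    exact hdmin e hed ⟨he1, hem, hrun⟩
  push Not at hA'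
  have hnon : ∀ w ∈ A, hull x (x + s * m) w ⊆ A → (d : ℤ) ∣ w - x := by
    intro w hw hwA
    have h1 := hA' w hw hwA
    have h2 : (d : ℤ) ∣ ((Int.gcd (s * m) (w - x) : ℕ) : ℤ) := by exact_mod_cast h1
    exact h2.trans (Int.gcd_dvd_right _ _)
  by_cases hB' : ∃ w ∈ A, (d : ℤ) ∣ w - x ∧ ¬ hull x (x + s * d) w ⊆ A
  · -- type B
    right
    obtain ⟨w, hw, hdw, hown⟩ := hB'
    have hwx : w ≠ x := by
      rintro rfl
      apply hown
      rw [hull_left]
      intro z hz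
      rw [mem_insert, mem_singleton] at hz
      rcases hz with rfl | rfl
      · exact hw
      · exact hdA
    obtain ⟨r, n, hr, hn, rfl⟩ : ∃ (r : ℤ) (n : ℕ), (r = 1 ∨ r = -1) ∧ 1 ≤ n ∧ w = x + r * n := by
      rcases lt_or_gt_of_ne hwx with h | h
      · refine ⟨-1, (x - w).toNat, Or.inr rfl, by omega, ?_⟩
        rw [Int.toNat_of_nonneg (by omega)]; ring
      · refine ⟨1, (w - x).toNat, Or.inl rfl, by omega, ?_⟩
        rw [Int.toNat_of_nonneg (by omega)]; ring
    have hdn : d ∣ n := by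
      have h1 : x + r * n - x = r * n := by ring
      rw [h1] at hdw
      have h2 : (d : ℤ) ∣ (n : ℤ) := by
        rcases hr with rfl | rfl
        · rwa [one_mul] at hdw
        · rw [neg_one_mul] at hdw; exact (dvd_neg).1 hdw
      exact_mod_cast h2
    exact ⟨s, r, hs, hr, (n, d, 1), hn, hd1, hdn, rfl, hdA, hw, hown⟩
  push Not at hB'
  -- quasi
  exfalso
  apply hQ
  set U := A.filter (fun w => (d : ℤ) ∣ w - x) with hU
  have hxU : x ∈ U := by rw [hU, mem_filter]; exact ⟨hx, by simp⟩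
  have hbetw : ∀ w ∈ U, ∀ z : ℤ, min x w ≤ z → z ≤ max x w → (d : ℤ) ∣ z - x → z ∈ U := by
    intro w hw z h1 h2 h3
    rw [hU, mem_filter] at hw ⊢
    refine ⟨hB' w hw.1 hw.2 ?_, h3⟩
    rw [mem_hull]
    refine ⟨⟨?_, ?_⟩, ?_⟩
    · exact le_trans (le_min (min_le_left _ _) ((min_le_right _ _).trans (min_le_right _ _))) h1
    · exact le_trans h2 (max_le (le_max_left _ _) ((le_max_right _ _).trans (le_max_right _ _)))
    · have h4 : x + s * d - x = s * d := by ring
      rw [h4]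
      have h5 : ((Int.gcd (s * d) (w - x) : ℕ) : ℤ) ∣ s * d := Int.gcd_dvd_left _ _
      have h6 : s * (d : ℤ) ∣ z - x := by
        rcases hs with rfl | rfl
        · rwa [one_mul]
        · rw [neg_one_mul]; exact (neg_dvd).2 h3
      exact h5.trans h6
  have hUne : U.Nonempty := ⟨x, hxU⟩
  set a := U.min' hUne with ha
  set M := U.max' hUne with hM
  have haU : a ∈ U := U.min'_mem hUne
  have hMU : M ∈ U := U.max'_mem hUne
  have hax : a ≤ x := U.min'_le _ hxU
  have hxM : x ≤ M := U.le_max' _ hxU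
  have hda : (d : ℤ) ∣ a - x := (mem_filter.1 haU).2
  have hdM : (d : ℤ) ∣ M - x := (mem_filter.1 hMU).2
  obtain ⟨c, hc⟩ : (d : ℤ) ∣ M - a := by
    have h1 : M - a = (M - x) - (a - x) := by ring
    rw [h1]; exact dvd_sub hdM hda
  have hdpos : (0 : ℤ) < d := by exact_mod_cast hd1
  have hc0 : 0 ≤ c := by
    by_contra hn
    have : (d : ℤ) * c < 0 := mul_neg_of_pos_of_neg hdpos (by linarith)
    linarith
  have hcc : ((c.toNat : ℕ) : ℤ) = c := Int.toNat_of_nonneg hc0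
  have hap : apset a d c.toNat = U := by
    ext z
    rw [mem_apset' hd1, hcc]
    constructor
    · rintro ⟨h1, h2, h3⟩
      have h4 : z ≤ M := by
        have : M = a + c * d := by linarith [mul_comm (d : ℤ) c]
        rw [this]; exact h2
      have h5 : (d : ℤ) ∣ z - x := by
        have h6 : z - x = (z - a) + (a - x) := by ring
        rw [h6]; exact dvd_add h3 hda
      rcases le_total z x with h7 | h7
      · exact hbetw a haU z ((min_le_right _ _).trans h1) (h7.trans (le_max_left _ _)) h5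
      · exact hbetw M hMU z ((min_le_left _ _).trans h7) (h4.trans (le_max_right _ _)) h5
    · intro hz
      refine ⟨U.min'_le _ hz, ?_, ?_⟩
      · have h1 : z ≤ M := U.le_max' _ hz
        have : M = a + c * d := by linarith [mul_comm (d : ℤ) c]
        rw [← this]; exact h1
      · have h1 : z - a = (z - x) - (a - x) := by ring
        rw [h1]; exact dvd_sub (mem_filter.1 hz).2 hda
  have hsub : A \ U ⊆ Exc A x (x + s * m) := by
    intro w hw
    rw [mem_sdiff] at hw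
    rw [Exc, mem_filter]
    refine ⟨hw.1, fun h => hw.2 ?_⟩
    rw [hU, mem_filter]
    exact ⟨hw.1, hnon w hw.1 h⟩
  refine ⟨a, d, c.toNat, hd1, ?_, ?_, ?_, ?_⟩
  · rw [hap]; exact filter_subset _ _
  · rw [hap, nonempty_iff_ne_empty]
    intro h0
    rw [sdiff_eq_empty_iff_subset] at h0
    have h1 : A = U := Subset.antisymm h0 (filter_subset _ _)
    apply hAP
    rw [h1]
    exact APc_of_step hxU (fun w hw => (mem_filter.1 hw).2) hbetw
  · rw [hap]; exact lt_of_le_of_lt (card_le_card hsub) hexc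
  · rw [hap]
    intro w hw hdw
    rw [mem_sdiff] at hw
    apply hw.2
    rw [hU, mem_filter]
    refine ⟨hw.1, ?_⟩
    have h1 : w - x = (w - a) + (a - x) := by ring
    rw [h1]; exact dvd_add hdw hda

theorem sgn_abs_le {N : ℕ} {x s : ℤ} {m : ℕ} (hs : s = 1 ∨ s = -1) (hx : x ∈ Icc 1 (N : ℤ))
    (h : x + s * m ∈ Icc 1 (N : ℤ)) : m ≤ N := by
  rw [mem_Icc] at hx h
  rcases hs with rfl | rfl <;> omega

end ItTYPEAB

open ItTYPEAB in
theorem thmTypeAB (hdiv : SDiv) : STypeAB := by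
  intro N F x θ hN hF hx
  set T : Finset (ℕ × ℕ × ℕ) := ((Icc 1 N) ×ˢ ((Icc 1 N) ×ˢ (Icc 1 N))).filter
    (fun t : ℕ × ℕ × ℕ => t.2.1 ∣ t.1 ∧ t.2.2 ∣ t.1) with hT
  have hTcard : (T.card : ℝ) ≤ N * lg N ^ 3 := hdiv N hN
  set G := F.filter (fun A => x ∈ A ∧ ¬ APc A ∧ ¬ Quasi θ A ∧
    ∃ y ∈ A, y ≠ x ∧ (Exc A x y).card < θ) with hG
  -- the classes
  set GA : ℤ → Finset (Finset ℤ) := fun s => F.filter (fun A => x ∈ A ∧ ∃ t ∈ T, PA x s A t)
    with hGA
  set GB : ℤ → ℤ → Finset (Finset ℤ) := fun s r =>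
    F.filter (fun A => x ∈ A ∧ ∃ t ∈ T, PB x s r A t) with hGB
  have hGAc : ∀ s : ℤ, (s = 1 ∨ s = -1) → (GA s).card ≤ T.card := by
    intro s hs
    refine Finset.card_le_card_of_forall_subsingleton (fun A t => PA x s A t) ?_ ?_
    · intro A hA
      rw [hGA, mem_filter] at hA
      obtain ⟨-, -, t, ht, h⟩ := hA
      exact ⟨t, ht, h⟩
    · intro t _ A hA B hB
      obtain ⟨hA1, hA2⟩ := hA
      obtain ⟨hB1, hB2⟩ := hB
      rw [hGA, mem_filter] at hA1 hB1
      exact PA_unique hF hs hA1.1 hB1.1 hA1.2.1 hB1.2.1 hA2 hB2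
  have hGBc : ∀ s r : ℤ, (GB s r).card ≤ T.card := by
    intro s r
    refine Finset.card_le_card_of_forall_subsingleton (fun A t => PB x s r A t) ?_ ?_
    · intro A hA
      rw [hGB, mem_filter] at hA
      obtain ⟨-, -, t, ht, h⟩ := hA
      exact ⟨t, ht, h⟩
    · intro t _ A hA B hB
      obtain ⟨hA1, hA2⟩ := hA
      obtain ⟨hB1, hB2⟩ := hB
      rw [hGB, mem_filter] at hA1 hB1
      exact hF.own_unique hA1.1 hB1.1 hA1.2.1 hA2.1 hA2.2.1 hB1.2.1 hB2.1 hB2.2.1 hA2.2.2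
  have hsub : G ⊆ (GA 1 ∪ GA (-1)) ∪ ((GB 1 1 ∪ GB 1 (-1)) ∪ (GB (-1) 1 ∪ GB (-1) (-1))) := by
    intro A hA
    rw [hG, mem_filter] at hA
    obtain ⟨hAF, hxA, hAP, hQ, y, hy, hyx, hexc⟩ := hA
    have hin : ∀ (s : ℤ) (m : ℕ), (s = 1 ∨ s = -1) → x + s * m ∈ A → m ≤ N :=
      fun s m hs h => sgn_abs_le hs hx (hF.sub A hAF h)
    rcases classify hxA hAP hQ hy hyx hexc with ⟨s, hs, t, ht1, hPA⟩ | ⟨s, r, hs, hr, t, ht1, ht2,
      ht3, ht4, hPB⟩
    · have htT : t ∈ T := by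
        obtain ⟨h1, h2, h3, -, h5, h6, h7, -⟩ := hPA
        rw [hT, mem_filter, mem_product, mem_product, mem_Icc, mem_Icc, mem_Icc]
        exact ⟨⟨⟨h3, hin s _ hs h5⟩, ⟨ht1, hin s _ hs h6⟩,
          ⟨Nat.pos_of_dvd_of_pos h2 h3, hin s _ hs h7⟩⟩, h1, h2⟩
      have : A ∈ GA s := by
        rw [hGA, mem_filter]; exact ⟨hAF, hxA, t, htT, hPA⟩
      rcases hs with rfl | rfl
      · exact mem_union_left _ (mem_union_left _ this)
      · exact mem_union_left _ (mem_union_right _ this)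
    · have htT : t ∈ T := by
        obtain ⟨h1, h2, -⟩ := hPB
        rw [hT, mem_filter, mem_product, mem_product, mem_Icc, mem_Icc, mem_Icc]
        refine ⟨⟨⟨ht1, hin r _ hr h2⟩, ⟨ht2, hin s _ hs h1⟩, ?_⟩, ht3, ?_⟩
        · rw [ht4]; exact ⟨le_rfl, hN⟩
        · rw [ht4]; exact one_dvd _
      have : A ∈ GB s r := by
        rw [hGB, mem_filter]; exact ⟨hAF, hxA, t, htT, hPB⟩
      rcases hs with rfl | rfl <;> rcases hr with rfl | rfl
      · exact mem_union_right _ (mem_union_left _ (mem_union_left _ this))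
      · exact mem_union_right _ (mem_union_left _ (mem_union_right _ this))
      · exact mem_union_right _ (mem_union_right _ (mem_union_left _ this))
      · exact mem_union_right _ (mem_union_right _ (mem_union_right _ this))
  have hcard : G.card ≤ 6 * T.card := by
    refine (card_le_card hsub).trans ?_
    refine (card_union_le _ _).trans ?_
    have h1 := card_union_le (GA 1) (GA (-1))
    have h2 := card_union_le (GB 1 1 ∪ GB 1 (-1)) (GB (-1) 1 ∪ GB (-1) (-1))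
    have h3 := card_union_le (GB 1 1) (GB 1 (-1))
    have h4 := card_union_le (GB (-1) 1) (GB (-1) (-1))
    have h5 := hGAc 1 (Or.inl rfl)
    have h6 := hGAc (-1) (Or.inr rfl)
    have h7 := hGBc 1 1
    have h8 := hGBc 1 (-1)
    have h9 := hGBc (-1) 1
    have h10 := hGBc (-1) (-1)
    omega
  have hcard' : (G.card : ℝ) ≤ 6 * T.card := by exact_mod_cast hcard
  calc (G.card : ℝ) ≤ 6 * T.card := hcard'
    _ ≤ 6 * (N * lg N ^ 3) := by linarith
    _ = 6 * N * lg N ^ 3 := by ring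

end Pool.Agent.Work.MP_1d0aa8_co

end

section

/-!
# MP_1d0aa8_co, item ZETA
-/

set_option autoImplicit false

namespace Pool.Agent.Work.MP_1d0aa8_co

open Finset
open scoped Classical

theorem thmZeta : SZeta := by
  intro N
  have h : ∑ d ∈ Icc 1 N, (1 : ℝ) / (d : ℝ) ^ 2 ≤ Real.pi ^ 2 / 6 :=
    sum_le_hasSum (Icc 1 N) (fun i _ => by positivity) hasSum_zeta_two
  have h1 : Real.pi < 3.1416 := Real.pi_lt_d4
  have h2 : 0 < Real.pi := Real.pi_pos
  nlinarith

end Pool.Agent.Work.MP_1d0aa8_co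

end

section

/-!
# MP_1d0aa8_co, T2: preparations for the middle regime
-/

set_option autoImplicit false

namespace Pool.Agent.Work.MP_1d0aa8_co

open Finset
open scoped Classical

/-- The error terms are small. -/
theorem lg_small (ε : ℝ) (hε : 0 < ε) : ∃ N0 : ℕ, ∀ N : ℕ, N0 ≤ N → lg N ^ 3 ≤ ε * N := by
  have h1 : (fun x : ℝ => Real.log x ^ 3) =o[Filter.atTop] (id : ℝ → ℝ) :=
    Real.isLittleO_pow_log_id_atTop
  have h2 := h1.def (c := ε / 8) (by positivity)
  rw [Filter.eventually_atTop] at h2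
  obtain ⟨a, ha⟩ := h2
  refine ⟨max 3 (Nat.ceil a), ?_⟩
  intro N hN
  have hN3 : 3 ≤ N := (le_max_left _ _).trans hN
  have hNa : a ≤ N := (Nat.le_ceil a).trans (by exact_mod_cast (le_max_right _ _).trans hN)
  have h3 := ha N hNa
  have hlog : 1 ≤ Real.log N := by
    rw [Real.le_log_iff_exp_le (by positivity)]
    have : Real.exp 1 < 2.7182818286 := Real.exp_one_lt_d9
    have h4 : (3 : ℝ) ≤ N := by exact_mod_cast hN3
    linarith
  simp only [id, Real.norm_eq_abs] at h3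
  rw [abs_of_nonneg (by positivity), abs_of_nonneg (by positivity)] at h3
  have h5 : lg N ≤ 2 * Real.log N := by unfold lg; linarith
  have h6 : 0 ≤ lg N := by unfold lg; linarith
  calc lg N ^ 3 ≤ (2 * Real.log N) ^ 3 := pow_le_pow_left₀ h6 h5 3
    _ = 8 * Real.log N ^ 3 := by ring
    _ ≤ 8 * (ε / 8 * N) := by linarith
    _ = ε * N := by ring

/-- Scaling of the area bounds. -/
theorem AreaBd.scale {a b T δ E n : ℝ} (hn : 0 < n) (h : AreaBd a b T δ E) :
    AreaBd (a / n) (b / n) (T / n) ((δ - E) / n ^ 2) 0 := by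
  obtain ⟨h0, h4, h1, h3, h2⟩ := h
  have hn2 : (0 : ℝ) < n ^ 2 := by positivity
  refine ⟨?_, ?_, ?_, ?_, ?_⟩
  · rw [div_le_iff₀ hn2]
    have : ((T / n) ^ 2 / 2 + 0) * n ^ 2 = T ^ 2 / 2 := by field_simp; ring
    rw [this]; linarith
  · rw [div_le_iff₀ hn2]
    have : (a / n * (b / n) + 0) * n ^ 2 = a * b := by field_simp; ring
    rw [this]; linarith
  · intro haT
    have h := h1 ((div_le_div_iff_of_pos_right hn).1 haT)
    rw [div_le_iff₀ hn2]
    have : (a / n * (T / n) - (a / n) ^ 2 / 2 + 0) * n ^ 2 = a * T - a ^ 2 / 2 := by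
      field_simp; ring
    rw [this]; linarith
  · intro haT
    have h := h3 ((div_le_div_iff_of_pos_right hn).1 haT)
    rw [div_le_iff₀ hn2]
    have : (b / n * (T / n) - (b / n) ^ 2 / 2 + 0) * n ^ 2 = b * T - b ^ 2 / 2 := by
      field_simp; ring
    rw [this]; linarith
  · intro haT hbT hTab
    have hTab' : T ≤ a + b := by
      rw [← add_div] at hTab
      exact (div_le_div_iff_of_pos_right hn).1 hTab
    have h := h2 ((div_le_div_iff_of_pos_right hn).1 haT) ((div_le_div_iff_of_pos_right hn).1 hbT)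
      hTab'
    rw [div_le_iff₀ hn2]
    have : (a / n * (b / n) - (a / n + b / n - T / n) ^ 2 / 2 + 0) * n ^ 2
        = a * b - (a + b - T) ^ 2 / 2 := by
      field_simp; ring
    rw [this]; linarith

/-- Monotonicity in `δ`. -/
theorem AreaBd.mono {a b T δ δ' E : ℝ} (h : AreaBd a b T δ E) (hd : δ' ≤ δ) :
    AreaBd a b T δ' E :=
  ⟨hd.trans h.1, hd.trans h.2.1, fun x => hd.trans (h.2.2.1 x), fun x => hd.trans (h.2.2.2.1 x),
    fun x y z => hd.trans (h.2.2.2.2 x y z)⟩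

section counts

variable {N : ℕ} {F : Finset (Finset ℤ)} {x : ℤ}

theorem card_split3 : F.card = (NA F x).card + (QA F x).card + (Av F x).card := by
  have h1 : F.card = (F.filter (fun A => x ∈ A)).card + (F.filter (fun A => ¬ x ∈ A)).card :=
    (card_filter_add_card_filter_not _).symm
  have h2 : (F.filter (fun A => x ∈ A)).card
      = ((F.filter (fun A => x ∈ A)).filter (fun A => APc A)).card
        + ((F.filter (fun A => x ∈ A)).filter (fun A => ¬ APc A)).card :=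
    (card_filter_add_card_filter_not _).symm
  rw [filter_filter, filter_filter] at h2
  unfold NA QA Av
  omega

theorem QA_card_le (hSplit : SSplit) (hF : Fam N F) :
    (QA F x).card ≤ 1 + ∑ d ∈ Icc 1 N, (Qd F x d).card := by
  have h := hSplit N F (QA F x) hF (filter_subset _ _)
  have h1 : (QA F x).filter (fun A => APc A) = QA F x := by
    rw [filter_eq_self]
    intro A hA
    exact (mem_filter.1 hA).2.2
  rw [h1] at h
  refine h.trans (Nat.add_le_add_left (sum_le_sum ?_) 1)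
  intro d _
  apply card_le_card
  intro A hA
  rw [mem_filter] at hA
  exact mem_filter.2 ⟨hA.1, (mem_filter.1 hA.2).2.1⟩

theorem AvAP_card_le (hSplit : SSplit) (hF : Fam N F) :
    ((Av F x).filter (fun A => APc A)).card ≤ 1 + ∑ d ∈ Icc 1 N, (Sd F x d).card := by
  have h := hSplit N F (Av F x) hF (filter_subset _ _)
  refine h.trans (Nat.add_le_add_left (sum_le_sum ?_) 1)
  intro d _
  apply card_le_card
  intro A hA
  rw [mem_filter] at hA
  exact mem_filter.2 ⟨hA.1, (mem_filter.1 hA.2).2⟩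

theorem Av_card_le (hSplit : SSplit) (hLarge : SLarge) (hF : Fam N F) {C : ℝ} (hC : 4 ≤ C)
    (hN : 1 ≤ N) (hbig : ∀ B ∈ F, x ∉ B → C * Real.sqrt N < (B.card : ℝ)) :
    ((Av F x).card : ℝ) ≤ 8 / C ^ 2 * (N : ℝ) ^ 2 + 1 + ((∑ d ∈ Icc 1 N, (Sd F x d).card : ℕ) : ℝ) := by
  have hn : (1 : ℝ) ≤ N := by exact_mod_cast hN
  have hs : 1 ≤ Real.sqrt N := by
    rw [Real.one_le_sqrt]; exact hn
  have h1 : (Av F x).card = ((Av F x).filter (fun A => APc A)).card
      + ((Av F x).filter (fun A => ¬ APc A)).card := (card_filter_add_card_filter_not _).symm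
  have h2 : ((Av F x).filter (fun A => ¬ APc A)) ⊆
      F.filter (fun A => ¬ APc A ∧ C * Real.sqrt N ≤ (A.card : ℝ)) := by
    intro A hA
    rw [mem_filter] at hA
    have hA1 := mem_filter.1 hA.1
    exact mem_filter.2 ⟨hA1.1, hA.2, (hbig A hA1.1 hA1.2).le⟩
  have h3 := hLarge N F (C * Real.sqrt N) hF (by nlinarith)
  have h4 : (((Av F x).filter (fun A => ¬ APc A)).card : ℝ) ≤ 8 / C ^ 2 * (N : ℝ) ^ 2 := by
    have h5 : (((Av F x).filter (fun A => ¬ APc A)).card : ℝ) ≤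
        ((F.filter (fun A => ¬ APc A ∧ C * Real.sqrt N ≤ (A.card : ℝ))).card : ℝ) := by
      exact_mod_cast card_le_card h2
    have h6 : (C * Real.sqrt N) ^ 2 = C ^ 2 * N := by
      rw [mul_pow, Real.sq_sqrt (by positivity)]
    rw [h6] at h3
    have hpos : 0 < C ^ 2 * (N : ℝ) := by positivity
    have h7 : ((F.filter (fun A => ¬ APc A ∧ C * Real.sqrt N ≤ (A.card : ℝ))).card : ℝ)
        ≤ 8 * (N : ℝ) ^ 3 / (C ^ 2 * N) := by
      rw [le_div_iff₀ hpos]; exact h3
    refine h5.trans (h7.trans (le_of_eq ?_))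
    field_simp
  have h8 : (((Av F x).filter (fun A => APc A)).card : ℝ)
      ≤ 1 + ((∑ d ∈ Icc 1 N, (Sd F x d).card : ℕ) : ℝ) := by
    exact_mod_cast AvAP_card_le hSplit hF
  rw [h1]
  push_cast at h8 ⊢
  linarith

/-- Bound for `Pd`. -/
theorem Pd_bound (hCount : SCount) (hF : Fam N F) (hN : 1 ≤ N) {d : ℕ} (hd : 1 ≤ d) (hdN : d ≤ N) :
    ((Pd F d).card : ℝ) ≤ (N : ℝ) ^ 2 * (1 / (d : ℝ) ^ 2) / 4 + 10 * ((N : ℝ) / d + 1) := by
  have h := hCount N F (Pd F d) d 0 hN hF hd hdN (Subset.refl _) (fun A _ => by positivity) le_rfl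
  have hd' : (0 : ℝ) < d := by exact_mod_cast hd
  have hn : (0 : ℝ) < N := by exact_mod_cast hN
  have h1 : 0 ≤ (N : ℝ) / d := by positivity
  rw [sub_zero, sub_zero, max_eq_left h1, max_eq_left (by positivity)] at h
  refine h.trans (le_of_eq ?_)
  field_simp
  ring

/-- Bound for `Sd`. -/
theorem Sd_bound (hCount : SCount) (hF : Fam N F) (hN : 1 ≤ N) {d : ℕ} (hd : 1 ≤ d) (hdN : d ≤ N)
    {κ : ℝ} (hκ1 : κ ≤ 1) (hmin : ∀ A ∈ F, x ∉ A → (1 - κ) * N ≤ (A.card : ℝ)) :
    ((Sd F x d).card : ℝ) ≤ (N : ℝ) ^ 2 * (gg (1 - (d : ℝ) * (1 - κ)) / (d : ℝ) ^ 2)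
      + 10 * ((N : ℝ) / d + 1) := by
  have hd' : (0 : ℝ) < d := by exact_mod_cast hd
  have hn : (0 : ℝ) < N := by exact_mod_cast hN
  have h := hCount N F (Sd F x d) d ((1 - κ) * N) hN hF hd hdN (filter_subset _ _)
    (fun A hA => by
      rw [Sd, mem_filter, Pd_mem] at hA
      exact hmin A hA.1.1 hA.2) (mul_nonneg (by linarith) hn.le)
  have e1 : max ((N : ℝ) / d - (1 - κ) * N) 0 = N / d * max (1 - (d : ℝ) * (1 - κ)) 0 := by
    rw [mul_max_of_nonneg _ _ (by positivity), mul_zero]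
    congr 1
    field_simp
  have e2 : max ((N : ℝ) / d / 2 - (1 - κ) * N) 0
      = N / d * max (1 - (d : ℝ) * (1 - κ) - 1 / 2) 0 := by
    rw [mul_max_of_nonneg _ _ (by positivity), mul_zero]
    congr 1
    field_simp
    ring
  rw [e1, e2] at h
  refine h.trans (le_of_eq ?_)
  unfold gg
  field_simp

/-- `Sd` is empty for large `d`. -/
theorem Sd_empty (hPdc : SPdCard) (hF : Fam N F) {d : ℕ} (hd : 1 ≤ d)
    {β : ℝ} (hmin : ∀ A ∈ F, x ∉ A → β ≤ (A.card : ℝ)) (hβ : (N : ℝ) / d + 1 < β) :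
    Sd F x d = ∅ := by
  rw [eq_empty_iff_forall_notMem]
  intro A hA
  rw [Sd, mem_filter] at hA
  have h1 := hPdc N F d A hF hd hA.1
  have h2 := hmin A (Pd_mem.1 hA.1).1 hA.2
  have hd' : (0 : ℝ) < d := by exact_mod_cast hd
  have hpos : 0 < A.card := by
    obtain ⟨a, k, -, rfl⟩ := (Pd_mem.1 hA.1).2
    rw [card_apset hd]; omega
  have h3 : (d : ℝ) * ((A.card : ℝ) - 1) ≤ N := by
    have : d * (A.card - 1) ≤ N := by omega
    have h4 : ((d * (A.card - 1) : ℕ) : ℝ) ≤ N := by exact_mod_cast this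
    rw [Nat.cast_mul, Nat.cast_sub hpos, Nat.cast_one] at h4
    exact h4
  have h5 : (A.card : ℝ) - 1 ≤ N / d := by
    rw [le_div_iff₀ hd']; linarith
  linarith

/-- The scales of the covered pairs are disjoint. -/
theorem CovS_sum_le (s : Finset ℕ) :
    ∑ e ∈ s, (CovS N F x e).card ≤ (Cov N F x).card := by
  have h1 : ∀ e ∈ s, ∀ e' ∈ s, e ≠ e' → Disjoint (CovS N F x e) (CovS N F x e') := by
    intro e _ e' _ hne
    rw [disjoint_left]
    intro p hp hp'
    rw [CovS, mem_filter] at hp hp'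
    exact hne (hp.2.symm.trans hp'.2)
  rw [← card_biUnion h1]
  apply card_le_card
  intro p hp
  rw [mem_biUnion] at hp
  obtain ⟨e, -, he⟩ := hp
  exact (mem_filter.1 he).1

theorem harm_le (hN : 1 ≤ N) : ∑ d ∈ Icc 1 N, (1 : ℝ) / d ≤ lg N := by
  have h := harmonic_le_one_add_log N
  unfold lg
  rw [harmonic_eq_sum_Icc] at h
  push_cast at h
  simpa [one_div] using h

/-- Sum of COVER over all differences. -/
theorem cover_sum (hCov : SCover) (hF : Fam N F) (hN : 1 ≤ N) (hx : x ∈ Icc 1 (N : ℤ)) {a : ℕ}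
    (ha : x + a ≤ N) (hreach : ∀ A ∈ F, x ∈ A → APc A → ∃ y ∈ A, x + a ≤ y) :
    1.174 * (((x : ℝ) - 1) + a) * ((∑ d ∈ Icc 1 N, (Qd F x d).card : ℕ) : ℝ)
      ≤ ((x : ℝ) - 1) * ((Cov N F x).card : ℝ) + 5000 * (N : ℝ) ^ 2 * lg N := by
  have hx1 : (0 : ℝ) ≤ (x : ℝ) - 1 := by
    have : (1 : ℤ) ≤ x := (mem_Icc.1 hx).1
    have : (1 : ℝ) ≤ x := by exact_mod_cast this
    linarith
  have h1 : ∀ d ∈ Icc 1 N, 1.174 * (((x : ℝ) - 1) + a) * ((Qd F x d).card : ℝ)
      ≤ ((x : ℝ) - 1) * ((CovS N F x d).card : ℝ) + 5000 * (N : ℝ) ^ 2 * (1 / d) := by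
    intro d hd
    rw [mem_Icc] at hd
    have := hCov N F x a d hN hF hx hd.1 hd.2 ha hreach
    rw [mul_one_div]
    exact this
  have h2 := sum_le_sum h1
  rw [← mul_sum, sum_add_distrib, ← mul_sum, ← mul_sum] at h2
  have h3 : (∑ d ∈ Icc 1 N, ((CovS N F x d).card : ℝ)) ≤ ((Cov N F x).card : ℝ) := by
    exact_mod_cast CovS_sum_le (N := N) (F := F) (x := x) (Icc 1 N)
  have h4 := harm_le hN
  push_cast
  have h5 : ((x : ℝ) - 1) * (∑ d ∈ Icc 1 N, ((CovS N F x d).card : ℝ))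
      ≤ ((x : ℝ) - 1) * ((Cov N F x).card : ℝ) := mul_le_mul_of_nonneg_left h3 hx1
  have h6 : 5000 * (N : ℝ) ^ 2 * (∑ d ∈ Icc 1 N, (1 : ℝ) / d) ≤ 5000 * (N : ℝ) ^ 2 * lg N :=
    mul_le_mul_of_nonneg_left h4 (by positivity)
  linarith

/-- The version of `cover_sum` for Case II: scales `1, 2` by `Q_1` and scales `≥ 3`. -/
theorem cover_sum2 (hCov : SCover) (hCov2 : SCover2) (hF : Fam N F) (hN : 3 ≤ N)
    (hx : x ∈ Icc 1 (N : ℤ)) {a : ℕ} (ha : x + a ≤ N)
    (hreach : ∀ A ∈ F, x ∈ A → APc A → ∃ y ∈ A, x + a ≤ y) :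
    1.174 * (((x : ℝ) - 1) + a) * (1.25 * ((Qd F x 1).card : ℝ) +
        ((∑ d ∈ Icc 3 N, (Qd F x d).card : ℕ) : ℝ))
      ≤ ((x : ℝ) - 1) * ((Cov N F x).card : ℝ) + 15000 * (N : ℝ) ^ 2 * lg N := by
  have hx1 : (0 : ℝ) ≤ (x : ℝ) - 1 := by
    have : (1 : ℤ) ≤ x := (mem_Icc.1 hx).1
    have : (1 : ℝ) ≤ x := by exact_mod_cast this
    linarith
  have hN1 : 1 ≤ N := by omega
  have h1 : ∀ d ∈ Icc 3 N, 1.174 * (((x : ℝ) - 1) + a) * ((Qd F x d).card : ℝ)
      ≤ ((x : ℝ) - 1) * ((CovS N F x d).card : ℝ) + 5000 * (N : ℝ) ^ 2 * (1 / d) := by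
    intro d hd
    rw [mem_Icc] at hd
    have := hCov N F x a d hN1 hF hx (by omega) hd.2 ha hreach
    rw [mul_one_div]
    exact this
  have h2 := sum_le_sum h1
  rw [← mul_sum, sum_add_distrib, ← mul_sum, ← mul_sum] at h2
  have hc1 := hCov N F x a 1 hN1 hF hx le_rfl hN1 ha hreach
  have hc2 := hCov2 N F x a (by omega) hF hx ha hreach
  have h3 : ((CovS N F x 1).card : ℝ) + ((CovS N F x 2).card : ℝ) +
      (∑ d ∈ Icc 3 N, ((CovS N F x d).card : ℝ)) ≤ ((Cov N F x).card : ℝ) := by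
    have h := CovS_sum_le (N := N) (F := F) (x := x) (insert 1 (insert 2 (Icc 3 N)))
    rw [sum_insert (by simp), sum_insert (by simp)] at h
    have h' : (((CovS N F x 1).card + ((CovS N F x 2).card +
      ∑ d ∈ Icc 3 N, (CovS N F x d).card) : ℕ) : ℝ) ≤ ((Cov N F x).card : ℝ) := by exact_mod_cast h
    push_cast at h'
    linarith
  have h4 := harm_le hN1
  have h4' : ∑ d ∈ Icc 3 N, (1 : ℝ) / d ≤ lg N := by
    refine le_trans (sum_le_sum_of_subset_of_nonneg ?_ ?_) h4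
    · intro d hd; rw [mem_Icc] at hd ⊢; omega
    · intro d _ _; positivity
  have hlg := lg_one_le hN1
  push_cast
  have h5 : ((x : ℝ) - 1) * (((CovS N F x 1).card : ℝ) + ((CovS N F x 2).card : ℝ) +
      (∑ d ∈ Icc 3 N, ((CovS N F x d).card : ℝ)))
      ≤ ((x : ℝ) - 1) * ((Cov N F x).card : ℝ) := mul_le_mul_of_nonneg_left h3 hx1
  have h6 : 5000 * (N : ℝ) ^ 2 * (∑ d ∈ Icc 3 N, (1 : ℝ) / d) ≤ 5000 * (N : ℝ) ^ 2 * lg N :=
    mul_le_mul_of_nonneg_left h4' (by positivity)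
  have h7 : 5000 * (N : ℝ) ^ 2 ≤ 5000 * (N : ℝ) ^ 2 * lg N := by
    have : 0 ≤ 5000 * (N : ℝ) ^ 2 := by positivity
    nlinarith
  have hc1' : 5000 * (N : ℝ) ^ 2 / ((1 : ℕ) : ℝ) = 5000 * (N : ℝ) ^ 2 := by simp
  rw [hc1'] at hc1
  nlinarith

end counts

end Pool.Agent.Work.MP_1d0aa8_co

end

section

/-!
# MP_1d0aa8_co: C5CARD
-/

set_option autoImplicit false

namespace Pool.Agent.Work.MP_1d0aa8_co

open Finset
open scoped Classical

theorem thmC5 : SC5 := by
  intro N F x hF hx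
  have key : ∀ m : ℕ, (∀ d : ℕ, 1 ≤ d → apset (x - 2 * d) d 4 ∈ F → 2 * d ≤ m) →
      2 * (C5 F x).card ≤ m := by
    intro m hm
    have h1 : C5 F x ⊆ (Icc 1 (m / 2)).image (fun d : ℕ => apset (x - 2 * d) d 4) := by
      intro A hA
      unfold C5 at hA
      rw [mem_filter] at hA
      obtain ⟨hAF, d, hd, rfl⟩ := hA
      rw [mem_image]
      refine ⟨d, ?_, rfl⟩
      rw [mem_Icc]
      have := hm d hd hAF
      omega
    have h2 := (card_le_card h1).trans card_image_le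
    rw [Nat.card_Icc] at h2
    omega
  constructor
  · apply key
    intro d hd hA
    obtain ⟨h1, h2⟩ := apset_ends (hF.sub _ hA)
    omega
  · apply key
    intro d hd hA
    obtain ⟨h1, h2⟩ := apset_ends (hF.sub _ hA)
    push_cast at h2
    omega

end Pool.Agent.Work.MP_1d0aa8_co

end

section

/-!
# MP_1d0aa8_co, item NT
-/

set_option autoImplicit false

namespace Pool.Agent.Work.MP_1d0aa8_co

open Finset
open scoped Classical

/-- The own pairs of `A`. -/
noncomputable def ntO (N : ℕ) (x : ℤ) (A : Finset ℤ) : Finset (ℤ × ℤ) :=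
  (Prs N x).filter (fun p => p.1 ∈ A ∧ p.2 ∈ A ∧ ¬ hull x p.1 p.2 ⊆ A)

/-- The weights. -/
noncomputable def ntW (N : ℕ) (F : Finset (Finset ℤ)) (x : ℤ) (p : ℤ × ℤ) : ℕ :=
  if p ∈ NTp N F x then 1 else 2

theorem nt_cover {N : ℕ} {F : Finset (Finset ℤ)} {x : ℤ} {A : Finset ℤ} (hF : Fam N F)
    (hA : A ∈ F) (hxA : x ∈ A) (hno : ¬ ∃ y ∈ A, y ≠ x ∧ BadAt A x y) {y : ℤ} (hy : y ∈ A)
    (hyx : y ≠ x) : ∃ p ∈ ntO N x A, y = p.1 ∨ y = p.2 := by
  have h1 : ¬ BadAt A x y := fun hc => hno ⟨y, hy, hyx, hc⟩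
  unfold BadAt at h1
  push Not at h1
  obtain ⟨w, hw, hh⟩ := h1
  have hwx : w ≠ x := by
    rintro rfl
    apply hh
    rw [hull_left]
    intro z hz
    rcases mem_insert.1 hz with rfl | hz
    · exact hw
    · rw [mem_singleton.1 hz]; exact hy
  have hwy : w ≠ y := by
    rintro rfl
    apply hh
    rw [hull_same]
    intro z hz
    rcases mem_insert.1 hz with rfl | hz
    · exact hxA
    · rw [mem_singleton.1 hz]; exact hy
  have hyI := hF.sub A hA hy
  have hwI := hF.sub A hA hw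
  rcases lt_or_gt_of_ne hwy with h | h
  · refine ⟨(w, y), ?_, Or.inr rfl⟩
    refine mem_filter.2 ⟨mem_filter.2 ⟨mem_product.2 ⟨hwI, hyI⟩, h, hwx, hyx⟩, hw, hy, ?_⟩
    rw [hull_comm]; exact hh
  · refine ⟨(y, w), ?_, Or.inl rfl⟩
    exact mem_filter.2 ⟨mem_filter.2 ⟨mem_product.2 ⟨hyI, hwI⟩, h, hyx, hwx⟩, hy, hw, hh⟩

theorem nt_key {N : ℕ} {F : Finset (Finset ℤ)} {x : ℤ} {A : Finset ℤ} (hF : Fam N F)
    (hA : A ∈ F) (hxA : x ∈ A) (hnap : ¬ APc A) (hno : ¬ ∃ y ∈ A, y ≠ x ∧ BadAt A x y) :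
    2 ≤ ∑ p ∈ ntO N x A, ntW N F x p := by
  have h1 : ∃ y ∈ A, y ≠ x := by
    by_contra hcon
    push Not at hcon
    apply hnap
    apply APc_of_card_le_two ⟨x, hxA⟩
    have : A ⊆ {x} := fun z hz => mem_singleton.2 (hcon z hz)
    have h2 := card_le_card this
    rw [card_singleton] at h2
    omega
  obtain ⟨y, hy, hyx⟩ := h1
  obtain ⟨p, hp, _⟩ := nt_cover hF hA hxA hno hy hyx
  by_cases h2 : ∃ q ∈ ntO N x A, q ≠ p
  · obtain ⟨q, hq, hqp⟩ := h2
    have h3 : ({p, q} : Finset (ℤ × ℤ)) ⊆ ntO N x A := by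
      intro z hz
      rcases mem_insert.1 hz with rfl | hz
      · exact hp
      · rw [mem_singleton.1 hz]; exact hq
    have h4 : ∑ z ∈ ({p, q} : Finset (ℤ × ℤ)), ntW N F x z ≤ ∑ z ∈ ntO N x A, ntW N F x z :=
      sum_le_sum_of_subset h3
    rw [sum_pair hqp.symm] at h4
    have h5 : ∀ z, 1 ≤ ntW N F x z := by
      intro z; unfold ntW; split_ifs <;> omega
    have h6 := h5 p
    have h7 := h5 q
    omega
  · push Not at h2
    have h3 : p ∉ NTp N F x := by
      intro hc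
      obtain ⟨_, B, hB, hp1, hp2⟩ := mem_filter.1 hc
      unfold Sd at hB
      rw [mem_filter, Pd_mem] at hB
      have hne : A ≠ B := by
        rintro rfl
        exact hB.2 hxA
      obtain ⟨z, hz⟩ := hF.meet hA hB.1.1 hne
      rw [mem_inter] at hz
      have hzx : z ≠ x := by
        rintro rfl
        exact hB.2 hz.2
      obtain ⟨q, hq, hzq⟩ := nt_cover hF hA hxA hno hz.1 hzx
      rw [h2 q hq] at hzq
      rcases hzq with rfl | rfl
      · exact hp1 hz.2
      · exact hp2 hz.2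
    have h4 : ntW N F x p ≤ ∑ z ∈ ntO N x A, ntW N F x z :=
      single_le_sum (f := ntW N F x) (fun _ _ => Nat.zero_le _) hp
    have h5 : ntW N F x p = 2 := by
      unfold ntW; rw [if_neg h3]
    omega

theorem thmNT (h : SBad) : SNT := by
  intro N F x hN hF hx
  have hbad := h N F x hN hF hx
  set Bd := (NA F x).filter (fun A => ∃ y ∈ A, y ≠ x ∧ BadAt A x y) with hBd
  set G := (NA F x).filter (fun A => ¬ ∃ y ∈ A, y ≠ x ∧ BadAt A x y) with hG
  have hsplit : (NA F x).card = Bd.card + G.card := by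
    rw [hBd, hG, card_filter_add_card_filter_not]
  have hGF : ∀ A ∈ G, A ∈ F ∧ x ∈ A ∧ ¬ APc A ∧ ¬ ∃ y ∈ A, y ≠ x ∧ BadAt A x y := by
    intro A hA
    obtain ⟨h1, h2⟩ := mem_filter.1 hA
    rw [NA, mem_filter] at h1
    exact ⟨h1.1, h1.2.1, h1.2.2, h2⟩
  have hdisj : Set.PairwiseDisjoint (G : Set (Finset ℤ)) (ntO N x) := by
    intro A hA B hB hAB
    rw [Function.onFun, disjoint_left]
    intro p hpA hpB
    obtain ⟨a1, a2, _, _⟩ := hGF A hA
    obtain ⟨b1, b2, _, _⟩ := hGF B hB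
    obtain ⟨_, c1, c2, c3⟩ := mem_filter.1 hpA
    obtain ⟨_, d1, d2, _⟩ := mem_filter.1 hpB
    exact hAB (hF.own_unique a1 b1 a2 c1 c2 b2 d1 d2 c3)
  have h1 : 2 * G.card ≤ ∑ A ∈ G, ∑ p ∈ ntO N x A, ntW N F x p := by
    have : ∑ A ∈ G, 2 ≤ ∑ A ∈ G, ∑ p ∈ ntO N x A, ntW N F x p := by
      refine sum_le_sum fun A hA => ?_
      obtain ⟨a1, a2, a3, a4⟩ := hGF A hA
      exact nt_key hF a1 a2 a3 a4
    rw [sum_const, smul_eq_mul, mul_comm] at this
    exact this
  rw [← sum_biUnion hdisj] at h1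
  have h2 : ∑ p ∈ G.biUnion (ntO N x), ntW N F x p ≤ ∑ p ∈ Prs N x, ntW N F x p := by
    apply sum_le_sum_of_subset
    intro p hp
    obtain ⟨A, _, hA⟩ := mem_biUnion.1 hp
    exact (mem_filter.1 hA).1
  have h3 : (∑ p ∈ Prs N x, ntW N F x p) + (NTp N F x).card = 2 * (Prs N x).card := by
    have h4 : NTp N F x = (Prs N x).filter (fun p => p ∈ NTp N F x) := by
      ext p
      rw [mem_filter]
      exact ⟨fun hp => ⟨(mem_filter.1 hp).1, hp⟩, fun hp => hp.2⟩
    have h5 : (NTp N F x).card = ∑ p ∈ Prs N x, (if p ∈ NTp N F x then 1 else 0) := by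
      rw [← card_filter, ← h4]
    rw [h5, ← sum_add_distrib, mul_comm, ← smul_eq_mul, ← sum_const]
    refine sum_congr rfl fun p _ => ?_
    unfold ntW
    split_ifs <;> rfl
  rw [ItMEET.card_Prs N hx] at h3
  have h6 : 2 * G.card + (NTp N F x).card ≤ 2 * (N - 1).choose 2 := by omega
  have h7 : (2 : ℝ) * G.card + ((NTp N F x).card : ℝ) ≤ 2 * (((N - 1).choose 2 : ℕ) : ℝ) := by
    exact_mod_cast h6
  have h8 : ((NA F x).card : ℝ) = Bd.card + G.card := by exact_mod_cast hsplit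
  rw [h8]
  linarith

end Pool.Agent.Work.MP_1d0aa8_co

end

section

/-!
# NUM2
-/

set_option autoImplicit false

namespace Pool.Agent.Work.MP_1d0aa8_co

open Finset
open scoped Classical

namespace ItNUM2

/-- The number `h`. -/
noncomputable def hh (k : ℝ) : ℝ :=
  (2 * k - 1) ^ 2 / 8 + (max (3 * k - 2) 0) ^ 2 / 18 + (max (4 * k - 3) 0) ^ 2 / 32

/-- The three cases for `h`. -/
theorem hh_cases (k : ℝ) (hk1 : k ≤ 0.77) :
    (k ≤ 2 / 3 ∧ hh k = (2 * k - 1) ^ 2 / 8) ∨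
    (2 / 3 ≤ k ∧ k ≤ 3 / 4 ∧ hh k = (2 * k - 1) ^ 2 / 8 + (3 * k - 2) ^ 2 / 18) ∨
    (3 / 4 ≤ k ∧ k ≤ 0.77 ∧
      hh k = (2 * k - 1) ^ 2 / 8 + (3 * k - 2) ^ 2 / 18 + (4 * k - 3) ^ 2 / 32) := by
  unfold hh
  rcases le_total k (2 / 3) with h | h
  · left
    refine ⟨h, ?_⟩
    rw [max_eq_right (by linarith), max_eq_right (by linarith)]
    ring
  · right
    rcases le_total k (3 / 4) with h' | h'
    · left
      refine ⟨h, h', ?_⟩
      rw [max_eq_left (by linarith), max_eq_right (by linarith)]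
      ring
    · right
      refine ⟨h', hk1, ?_⟩
      rw [max_eq_left (by linarith), max_eq_left (by linarith)]

theorem hh_le (k : ℝ) (_hk : 1 / 2 ≤ k) (hk1 : k ≤ 0.77) :
    hh k ≤ 0.145 * (2 * k - 1) ^ 2 := by
  rcases hh_cases k hk1 with ⟨h1, h⟩ | ⟨h1, h2, h⟩ | ⟨h1, h2, h⟩ <;> rw [h]
  · nlinarith
  · nlinarith
  · nlinarith

theorem cc1 (k : ℝ) (hk : 1 / 2 ≤ k) (hk1 : k ≤ 0.77) :
    2 * hh k ≤ 0.148 * k ^ 2 - 0.004 * k := by
  rcases hh_cases k hk1 with ⟨h1, h⟩ | ⟨h1, h2, h⟩ | ⟨h1, h2, h⟩ <;> rw [h]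
  · nlinarith
  · nlinarith
  · nlinarith

theorem cc1b (k : ℝ) (hk : 0.65 ≤ k) (hk1 : k ≤ 0.77) :
    2 * hh k + 0.003 ≤ 0.148 * k ^ 2 := by
  rcases hh_cases k hk1 with ⟨h1, h⟩ | ⟨h1, h2, h⟩ | ⟨h1, h2, h⟩ <;> rw [h]
  · nlinarith
  · nlinarith
  · nlinarith

theorem hh_eq (k : ℝ) (hk : 1 / 2 ≤ k) (x : ℝ) :
    x - (max (2 * k - 1) 0) ^ 2 / 8 - (max (3 * k - 2) 0) ^ 2 / 18
    - (max (4 * k - 3) 0) ^ 2 / 32 = x - hh k := by
  unfold hh
  rw [max_eq_left (show 0 ≤ 2 * k - 1 by linarith)]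
  ring

end ItNUM2

open ItNUM2 ItNUMReg in
theorem thmNum2 : SNum2 := by
  intro k L a δ hk hk1 hL hLk ha hs0 hs hA
  rw [hh_eq k hk]
  have hm := hh_le k hk hk1
  have hc1 := cc1 k hk hk1
  have hm0 : 0 ≤ 2 * k - 1 := by linarith
  have hmm : 0 ≤ (2 * k - 1) * (0.54 - (2 * k - 1)) := mul_nonneg hm0 (by linarith)
  have := core k L a δ (hh k) 0.002 0.426 hk (by linarith) hL hLk ha hs hA (by norm_num)
    (by norm_num) (by linarith) (by
      intro haw haT
      nlinarith [sq_nonneg (k - L - a - L), mul_nonneg ha hL,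
        mul_nonneg (show 0 ≤ k - a - (2 * k - 1) by linarith)
          (show 0 ≤ k - a + (2 * k - 1) by linarith)])
    (by nlinarith) (by nlinarith) (by nlinarith) (by nlinarith) (by
      intro haw haT hδ
      exact R3 k L a δ (hh k) 0.002 0.426 hL ha hs hδ (by norm_num) (by nlinarith)
        (by nlinarith))
  linarith

end Pool.Agent.Work.MP_1d0aa8_co

end

section

/-!
# NUM3
-/

set_option autoImplicit false

namespace Pool.Agent.Work.MP_1d0aa8_co

open Finset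
open scoped Classical

namespace ItNUM3

open ItNUM3b

/-- The combination for region 3. -/
theorem comb (k : ℝ) (h1 : 0.77 ≤ k) (h2 : k ≤ 0.908) :
    ∃ μ : ℝ, 0 < μ ∧ μ ≤ 1 ∧
      1 / 16 + h3 k + 0.001 + 0.0198 * μ ≤ (2 * k - 1) ^ 2 / 4 ∧
      1 / 16 + h3 k + 0.001 + 0.0198 * μ ≤
        1 / 4 + (2 * k - 1) ^ 2 / 4 - (0.426 - 0.0852 * μ) * k ^ 2 := by
  rcases h3_cases k h1 h2 with ⟨c, h⟩ | ⟨c, c', h⟩ | ⟨c, c', h⟩ | ⟨c, c', h⟩ | ⟨c, c', h⟩ |
    ⟨c, c', h⟩ | ⟨c, c', h⟩ <;> rw [h]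
  · rcases le_total k 0.79 with h3 | h3
    · exact ⟨0.15, by norm_num, by norm_num, by nlinarith, by nlinarith⟩
    · exact ⟨0.4, by norm_num, by norm_num, by nlinarith, by nlinarith⟩
  · exact ⟨0.6, by norm_num, by norm_num, by nlinarith, by nlinarith⟩
  · exact ⟨1, by norm_num, by norm_num, by nlinarith, by nlinarith⟩
  · exact ⟨1, by norm_num, by norm_num, by nlinarith, by nlinarith⟩
  · exact ⟨1, by norm_num, by norm_num, by nlinarith, by nlinarith⟩
  · exact ⟨1, by norm_num, by norm_num, by nlinarith, by nlinarith⟩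
  · exact ⟨1, by norm_num, by norm_num, by nlinarith, by nlinarith⟩

end ItNUM3

open ItNUM3 ItNUMReg in
theorem thmNum3 : SNum3 := by
  intro k L a δ hk hk1 hL hLk ha hs0 hs hA
  have hb := thmNum3b k hk hk1
  obtain ⟨H, hH⟩ : ∃ H, H = 1 / 16 + h3 k + 0.0208 := ⟨_, rfl⟩
  have hH1 : H ≤ 0.1592 * k ^ 2 := by rw [hH]; linarith
  have e0 : 0 ≤ (k - 0.77) * (0.908 - k) := mul_nonneg (by linarith) (by linarith)
  have e1 : 0 ≤ (k - 0.77) * ((k - 0.77) * (0.908 - k)) := mul_nonneg (by linarith) e0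
  have key : ¬ (0.426 * k ^ 2 * L ≤ (k ^ 2 / 2 - δ - 1 / 16 - h3 k - 0.001) * (L + a)) →
      0 ≤ (k ^ 2 / 2 - δ - H) * (L + a) - 0.3408 * k ^ 2 * L - 0 * L * (L + a) := by
    intro hnot
    refine core k L a δ H 0 0.3408 (by linarith) (by linarith) hL hLk ha hs hA (by norm_num)
      (by norm_num) (by linarith) ?_ (by nlinarith) (by nlinarith) (by nlinarith)
      (by nlinarith) ?_
    · intro haw haT
      have h5 : (1 - k) ^ 2 ≥ a ^ 2 := by nlinarith
      have h6 : k * a ≤ k * (1 - k) := mul_le_mul_of_nonneg_left haw (by linarith)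
      nlinarith [sq_nonneg (4 * L - (2 * k - 3 * a))]
    · intro haw haT hδ
      obtain ⟨μ, hμ0, hμ1, hA1, hA2⟩ := comb k hk hk1
      have h7 := R3 k L a δ (1 / 16 + h3 k + 0.001 + 0.0198 * μ) 0 (0.426 - 0.0852 * μ) hL ha hs
        hδ (by norm_num) (by linarith) hA1
      rw [not_le] at hnot
      by_contra hcon
      rw [not_le] at hcon
      rw [hH] at hcon
      have h8 := mul_pos hμ0 (show 0 < -((k ^ 2 / 2 - δ - (1 / 16 + h3 k + 0.0208)) * (L + a) -
        0.3408 * k ^ 2 * L - 0 * L * (L + a)) by linarith)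
      have h9 := mul_nonneg (show 0 ≤ 1 - μ by linarith)
        (show 0 ≤ 0.426 * k ^ 2 * L - (k ^ 2 / 2 - δ - 1 / 16 - h3 k - 0.001) * (L + a) by
          linarith)
      nlinarith [h7, h8, h9]
  by_cases hn : 0.426 * k ^ 2 * L ≤ (k ^ 2 / 2 - δ - 1 / 16 - h3 k - 0.001) * (L + a)
  · exact Or.inl hn
  · right
    have := key hn
    rw [hH] at this
    linarith

end Pool.Agent.Work.MP_1d0aa8_co

end

section

/-!
# MP_1d0aa8_co: QSMALL
-/

set_option autoImplicit false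

namespace Pool.Agent.Work.MP_1d0aa8_co

open Finset
open scoped Classical

namespace QsmallAux

lemma inv_sq (N : ℕ) : ∑ d ∈ Icc 1 N, (1 : ℝ) / (d : ℝ) ^ 2 ≤ 2 := by
  have h : ∀ n : ℕ, ∑ d ∈ Icc 1 (n + 1), (1 : ℝ) / (d : ℝ) ^ 2 ≤ 2 - 1 / ((n : ℝ) + 1) := by
    intro n
    induction n with
    | zero => simp; norm_num
    | succ n ih =>
      rw [sum_Icc_succ_top (by omega)]
      have h1 : (0 : ℝ) < (n : ℝ) + 1 := by positivity
      have h2 : (1 : ℝ) / (((n + 1 + 1 : ℕ) : ℝ)) ^ 2 ≤ 1 / ((n : ℝ) + 1) - 1 / ((n : ℝ) + 1 + 1) := by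
        have e : (1 : ℝ) / ((n : ℝ) + 1) - 1 / ((n : ℝ) + 1 + 1) =
            1 / (((n : ℝ) + 1) * ((n : ℝ) + 1 + 1)) := by
          field_simp
          ring
        rw [e]
        push_cast
        apply one_div_le_one_div_of_le (by positivity)
        nlinarith
      push_cast at h2 ⊢
      linarith
  rcases Nat.eq_zero_or_pos N with h0 | h0
  · subst h0; simp
  · obtain ⟨n, rfl⟩ : ∃ n, N = n + 1 := ⟨N - 1, by omega⟩
    refine (h n).trans ?_
    have : (0 : ℝ) ≤ 1 / ((n : ℝ) + 1) := by positivity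
    linarith

lemma qd_card {N : ℕ} {F : Finset (Finset ℤ)} (hF : Fam N F) (x : ℤ) (d : ℕ) (hd : 1 ≤ d) :
    (Qd F x d).card ≤ ((x - 1).toNat / d + 1) * (((N : ℤ) - x).toNat / d + 1) := by
  have h1 : Qd F x d ⊆ (range ((x - 1).toNat / d + 1) ×ˢ range (((N : ℤ) - x).toNat / d + 1)).image
      (fun p : ℕ × ℕ => apset (x - p.1 * d) d (p.1 + p.2)) := by
    intro A hA
    unfold Qd at hA
    rw [mem_filter] at hA
    obtain ⟨hA, hx⟩ := hA
    obtain ⟨hAF, a, k, hk, rfl⟩ := Pd_mem.1 hA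
    obtain ⟨i, hik, hi⟩ := mem_apset.1 hx
    obtain ⟨e1, e2⟩ := apset_ends (hF.sub _ hAF)
    obtain ⟨j, hj⟩ : ∃ j, k = i + j := ⟨k - i, by omega⟩
    rw [mem_image]
    refine ⟨(i, j), ?_, ?_⟩
    · rw [mem_product, mem_range, mem_range]
      have hi0 : (0 : ℤ) ≤ i * d := by positivity
      have hj0 : (0 : ℤ) ≤ j * d := by positivity
      constructor
      · apply Nat.lt_succ_of_le
        rw [Nat.le_div_iff_mul_le (by omega)]
        have : ((i * d : ℕ) : ℤ) ≤ x - 1 := by push_cast; linarith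
        simp only
        omega
      · apply Nat.lt_succ_of_le
        rw [Nat.le_div_iff_mul_le (by omega)]
        have : ((j * d : ℕ) : ℤ) ≤ (N : ℤ) - x := by
          rw [hj] at e2
          push_cast at e2 ⊢
          rw [hi]
          linarith
        simp only
        omega
    · simp only
      rw [← hj]
      congr 1
      rw [hi]; ring
  refine (card_le_card h1).trans (card_image_le.trans ?_)
  rw [card_product, card_range, card_range]

end QsmallAux

open QsmallAux in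
theorem thmQsmall : SQsmall := by
  intro N F x hN hF hx
  rw [Finset.mem_Icc] at hx
  set X : ℕ := (x - 1).toNat with hX
  set Y : ℕ := ((N : ℤ) - x).toNat with hY
  have hXx : (X : ℝ) = (x : ℝ) - 1 := by
    have : (X : ℤ) = x - 1 := Int.toNat_of_nonneg (by omega)
    have h2 : ((X : ℤ) : ℝ) = ((x - 1 : ℤ) : ℝ) := by rw [this]
    push_cast at h2
    exact h2
  have hXN : (X : ℝ) ≤ N := by
    have : X ≤ N := by omega
    exact_mod_cast this
  have hYN : (Y : ℝ) ≤ N := by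
    have : Y ≤ N := by omega
    exact_mod_cast this
  have hX0 : (0 : ℝ) ≤ X := Nat.cast_nonneg _
  have hY0 : (0 : ℝ) ≤ Y := Nat.cast_nonneg _
  have hN0 : (0 : ℝ) ≤ N := Nat.cast_nonneg _
  rw [← hXx]
  push_cast
  have h1 : ∀ d ∈ Icc 1 N, ((Qd F x d).card : ℝ) ≤
      X * N * (1 / (d : ℝ) ^ 2) + 2 * N * (1 / (d : ℝ)) + 1 := by
    intro d hd
    rw [mem_Icc] at hd
    have h2 := qd_card hF x d hd.1
    have hd0 : (0 : ℝ) < d := by exact_mod_cast hd.1
    have h3 : ((Qd F x d).card : ℝ) ≤ (((X / d : ℕ) : ℝ) + 1) * (((Y / d : ℕ) : ℝ) + 1) := by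
      exact_mod_cast h2
    have h4 : ((X / d : ℕ) : ℝ) ≤ X / d := Nat.cast_div_le
    have h5 : ((Y / d : ℕ) : ℝ) ≤ Y / d := Nat.cast_div_le
    calc ((Qd F x d).card : ℝ) ≤ (((X / d : ℕ) : ℝ) + 1) * (((Y / d : ℕ) : ℝ) + 1) := h3
      _ ≤ ((X : ℝ) / d + 1) * ((Y : ℝ) / d + 1) := by gcongr
      _ = X * Y * (1 / (d : ℝ) ^ 2) + (X + Y) * (1 / (d : ℝ)) + 1 := by
        field_simp
        ring
      _ ≤ X * N * (1 / (d : ℝ) ^ 2) + 2 * N * (1 / (d : ℝ)) + 1 := by
        have : (X : ℝ) + Y ≤ 2 * N := by linarith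
        gcongr
  refine (sum_le_sum h1).trans ?_
  rw [sum_add_distrib, sum_add_distrib, ← mul_sum, ← mul_sum]
  have h2 := inv_sq N
  have h3 := DivAux.harm N
  have h4 : ∑ _i ∈ Icc 1 N, (1 : ℝ) = N := by simp
  rw [h4]
  have h5 : (1 : ℝ) ≤ lg N := lg_one_le hN
  have h6 : (X : ℝ) * N * ∑ d ∈ Icc 1 N, (1 : ℝ) / (d : ℝ) ^ 2 ≤ X * N * 2 :=
    mul_le_mul_of_nonneg_left h2 (by positivity)
  have h7 : 2 * (N : ℝ) * ∑ i ∈ Icc 1 N, (1 : ℝ) / (i : ℝ) ≤ 2 * N * lg N :=
    mul_le_mul_of_nonneg_left h3 (by positivity)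
  nlinarith

end Pool.Agent.Work.MP_1d0aa8_co

end

section

/-!
# MP_1d0aa8_co: SIDE
-/

set_option autoImplicit false

namespace Pool.Agent.Work.MP_1d0aa8_co

open Finset
open scoped Classical

theorem thmSide : SSide := by
  intro N F x hF
  have key : ∀ A ∈ Sd F x 1, (∀ y ∈ A, x < y) ∨ (∀ y ∈ A, y < x) := by
    intro A hA
    unfold Sd at hA
    rw [mem_filter] at hA
    obtain ⟨hA, hx⟩ := hA
    obtain ⟨_, a, k, hk, rfl⟩ := Pd_mem.1 hA
    rw [mem_apset' le_rfl] at hx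
    simp only [mem_apset' le_rfl]
    by_cases h : a ≤ x
    · right
      intro y hy
      by_contra hxy
      push Not at hxy
      exact hx ⟨h, hxy.trans hy.2.1, by simp⟩
    · left
      intro y hy
      push Not at h
      exact lt_of_lt_of_le h hy.1
  by_contra hcon
  push Not at hcon
  obtain ⟨⟨A, hA, y, hy, hyx⟩, ⟨B, hB, z, hz, hzx⟩⟩ := hcon
  have hA' : ∀ w ∈ A, w < x := by
    rcases key A hA with h | h
    · exact absurd (h y hy) (not_lt.2 hyx)
    · exact h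
  have hB' : ∀ w ∈ B, x < w := by
    rcases key B hB with h | h
    · exact h
    · exact absurd (h z hz) (not_lt.2 hzx)
  have hne : A ≠ B := by
    rintro rfl
    have h1 := hA' y hy
    have h2 := hB' y hy
    exact lt_asymm h1 h2
  have hAF : A ∈ F := by
    unfold Sd at hA
    exact (Pd_mem.1 (mem_filter.1 hA).1).1
  have hBF : B ∈ F := by
    unfold Sd at hB
    exact (Pd_mem.1 (mem_filter.1 hB).1).1
  obtain ⟨w, hw⟩ := hF.meet hAF hBF hne
  rw [mem_inter] at hw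
  exact lt_asymm (hA' w hw.1) (hB' w hw.2)

end Pool.Agent.Work.MP_1d0aa8_co

end

section

/-!
# MP_1d0aa8_co: SPLIT
-/

set_option autoImplicit false

namespace Pool.Agent.Work.MP_1d0aa8_co

open Finset
open scoped Classical

theorem thmSplit : SSplit := by
  intro N F G hF hG
  have h1 : G.filter (fun A => APc A) ⊆ (G.filter (fun A => A.card = 1)) ∪
      (Icc 1 N).biUnion (fun d => (Pd F d).filter (fun A => A ∈ G)) := by
    intro A hA
    rw [mem_filter] at hA
    rw [mem_union]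
    obtain ⟨a, d, k, hd, hAe⟩ := hA.2.exists_apset
    rcases Nat.eq_zero_or_pos k with hk | hk
    · left
      rw [mem_filter]
      refine ⟨hA.1, ?_⟩
      rw [hAe, card_apset hd, hk]
    · right
      rw [mem_biUnion]
      have hAF := hG hA.1
      obtain ⟨h2, h3⟩ := apset_ends (by rw [← hAe]; exact hF.sub _ hAF)
      have h4 : (d : ℤ) ≤ N := by
        have : (1 : ℤ) ≤ k := by exact_mod_cast hk
        have hd' : (0 : ℤ) ≤ d := Int.natCast_nonneg _
        nlinarith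
      refine ⟨d, ?_, ?_⟩
      · rw [mem_Icc]
        exact ⟨hd, by exact_mod_cast h4⟩
      · rw [mem_filter]
        exact ⟨Pd_mem.2 ⟨hAF, a, k, hk, hAe⟩, hA.1⟩
  have h2 : (G.filter (fun A => A.card = 1)).card ≤ 1 := by
    rw [card_le_one]
    intro A hA B hB
    rw [mem_filter] at hA hB
    by_contra hne
    obtain ⟨y, hy⟩ := hF.meet (hG hA.1) (hG hB.1) hne
    rw [mem_inter] at hy
    obtain ⟨a, ha⟩ := card_eq_one.1 hA.2
    obtain ⟨b, hb⟩ := card_eq_one.1 hB.2
    rw [ha, hb, mem_singleton, mem_singleton] at hy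
    apply hne
    rw [ha, hb, ← hy.1, ← hy.2]
  refine (card_le_card h1).trans ((card_union_le _ _).trans ?_)
  exact Nat.add_le_add h2 card_biUnion_le

end Pool.Agent.Work.MP_1d0aa8_co

end

section

/-!
# MP_1d0aa8_co, T2: main inequalities of the middle regime
-/

set_option autoImplicit false

namespace Pool.Agent.Work.MP_1d0aa8_co

open Finset
open scoped Classical

/-- General core inequality (normalized). -/
theorem core_ineq {κ L a X q s c : ℝ} (hL : 0 ≤ L) (ha : 0 ≤ a)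
    (hc0 : 0 ≤ c) (hc1 : c ≤ 1)
    (hX : κ ^ 2 / 2 - 1e-13 ≤ X) (hsum : X ≤ c * q + s + 1e-13)
    (hcov : 1.174 * (L + a) * q ≤ L * X + 1e-15) :
    (κ ^ 2 / 2 - s) * (L + a) - c * 0.426 * κ ^ 2 * L ≤ 1e-12 * (L + a) + 1e-15 := by
  have hLa : 0 ≤ L + a := by linarith
  have h1 : 1.174 * (L + a) * X ≤ c * (L * X + 1e-15) + 1.174 * (L + a) * (s + 1e-13) := by
    have h2 : 1.174 * (L + a) * X ≤ 1.174 * (L + a) * (c * q + s + 1e-13) :=
      mul_le_mul_of_nonneg_left hsum (by positivity)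
    have h3 : c * (1.174 * (L + a) * q) ≤ c * (L * X + 1e-15) := mul_le_mul_of_nonneg_left hcov hc0
    have h4 : 1.174 * (L + a) * (c * q + s + 1e-13)
        = c * (1.174 * (L + a) * q) + 1.174 * (L + a) * (s + 1e-13) := by ring
    linarith
  have h4 : 0 ≤ 1.174 * (L + a) - c * L := by nlinarith
  have h5 : (κ ^ 2 / 2 - 1e-13) * (1.174 * (L + a) - c * L) ≤ X * (1.174 * (L + a) - c * L) :=
    mul_le_mul_of_nonneg_right hX h4
  have h6 : 0 ≤ c * L := mul_nonneg hc0 hL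
  have h7 : 0 ≤ κ ^ 2 * (c * L) := mul_nonneg (sq_nonneg κ) h6
  have h8 : X * (1.174 * (L + a) - c * L) = 1.174 * (L + a) * X - c * (L * X) := by ring
  have h9 : (κ ^ 2 / 2 - 1e-13) * (1.174 * (L + a) - c * L)
      = 1.174 * (κ ^ 2 / 2 * (L + a)) - κ ^ 2 * (c * L) / 2 - 1e-13 * (1.174 * (L + a))
        + 1e-13 * (c * L) := by ring
  have h10 : 1.174 * (κ ^ 2 / 2 * (L + a)) - κ ^ 2 * (c * L) / 2
      ≤ 1.174 * ((L + a) * (s + 2e-13)) + 1e-15 := by
    have : c * 1e-15 ≤ 1e-15 := by nlinarith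
    rw [h8, h9] at h5
    nlinarith
  have h11 : (κ ^ 2 / 2 - s) * (L + a) = κ ^ 2 / 2 * (L + a) - s * (L + a) := by ring
  have h12 : (L + a) * (s + 2e-13) = s * (L + a) + 2e-13 * (L + a) := by ring
  have h13 : c * 0.426 * κ ^ 2 * L = 0.426 * (κ ^ 2 * (c * L)) := by ring
  rw [h11, h13]
  rw [h12] at h10
  nlinarith

/-- All the items used in the middle regime. -/
structure HT2 : Prop where
  split : SSplit
  large : SLarge
  meet : SMeet
  nt : SNT
  count : SCount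
  zeta : SZeta
  qsmall : SQsmall
  pdc : SPdCard
  cov : SCover
  cov2 : SCover2
  delta : SDelta
  ntc : SNTc
  num0 : SNum0
  num1 : SNum1
  num2 : SNum2
  num2b : SNum2b
  num3 : SNum3
  num3b : SNum3b
  num4 : SNum4

/-- The situation of the middle regime. -/
structure Cfg (N : ℕ) (F : Finset (Finset ℤ)) (x : ℤ) (β : ℕ) : Prop where
  fam : Fam N F
  hx : x ∈ Icc 1 (N : ℤ)
  hN : 1 ≤ N
  small : lg N ^ 3 ≤ 1e-20 * N
  right : ∀ A ∈ Sd F x 1, ∀ y ∈ A, x < y
  big : ∀ B ∈ F, x ∉ B → 3e7 * Real.sqrt N < (B.card : ℝ)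
  hB : ∃ B ∈ F, x ∉ B ∧ B.card = β
  hmin : ∀ B ∈ F, x ∉ B → β ≤ B.card
  hβ : 13 * β + 13 ≤ 12 * N
  contra : bnd N < F.card

section main

variable {N : ℕ} {F : Finset (Finset ℤ)} {x : ℤ} {β : ℕ}

/-- Total number of AP members through `x`. -/
noncomputable def QT (N : ℕ) (F : Finset (Finset ℤ)) (x : ℤ) : ℝ :=
  ((∑ d ∈ Icc 1 N, (Qd F x d).card : ℕ) : ℝ)

/-- Total number of AP members avoiding `x`. -/
noncomputable def ST (N : ℕ) (F : Finset (Finset ℤ)) (x : ℤ) : ℝ :=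
  ((∑ d ∈ Icc 1 N, (Sd F x d).card : ℕ) : ℝ)

theorem Cfg.lg1 (c : Cfg N F x β) : 1 ≤ lg N := lg_one_le c.hN

theorem Cfg.one_small (c : Cfg N F x β) : 1 ≤ 1e-20 * (N : ℝ) := by
  have h1 := c.lg1
  have h2 := c.small
  have h3 : (1 : ℝ) ≤ lg N ^ 3 := one_le_pow₀ h1
  linarith

theorem Cfg.lg_le (c : Cfg N F x β) : lg N ≤ 1e-20 * (N : ℝ) := by
  have h1 := c.lg1
  have h2 := c.small
  have h3 : lg N ≤ lg N ^ 3 := by
    calc lg N = lg N ^ 1 := (pow_one _).symm
      _ ≤ lg N ^ 3 := pow_le_pow_right₀ h1 (by norm_num)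
  linarith

theorem Cfg.M_ge (c : Cfg N F x β) : (1e20 : ℝ) ≤ N := by
  have := c.one_small
  linarith

/-- The main inequalities. -/
theorem Cfg.main (H : HT2) (c : Cfg N F x β) :
    max (((N - 1 - β).choose 2 : ℕ) : ℝ) ((Cov N F x).card : ℝ) ≤
      QT N F x + ST N F x + 1e-13 / 2 * (N : ℝ) ^ 2 ∧
    ((NTp N F x).card : ℝ) ≤ 2 * QT N F x + 2 * ST N F x + 1e-13 * (N : ℝ) ^ 2 := by
  obtain ⟨B, hB, hxB, hBc⟩ := c.hB
  have h1 := H.meet N F x B c.hN c.fam c.hx hB hxB
  have h2 := H.nt N F x c.hN c.fam c.hx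
  rw [hBc] at h1
  have hs : (F.card : ℝ) = (NA F x).card + (QA F x).card + (Av F x).card := by
    exact_mod_cast card_split3 (F := F) (x := x)
  have h3 : ((QA F x).card : ℝ) ≤ 1 + QT N F x := by
    unfold QT
    exact_mod_cast QA_card_le (x := x) H.split c.fam
  have h4 : ((Av F x).card : ℝ) ≤ 8 / (3e7) ^ 2 * (N : ℝ) ^ 2 + 1 + ST N F x :=
    Av_card_le H.split H.large c.fam (by norm_num) c.hN c.big
  have h5 : (N : ℝ) ^ 2 / 2 - N / 2 ≤ F.card := by
    have h := c.contra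
    unfold bnd at h
    have h' : N.choose 2 ≤ F.card := by omega
    have h'' : ((N.choose 2 : ℕ) : ℝ) ≤ F.card := by exact_mod_cast h'
    rw [Nat.cast_choose_two] at h''
    have e : (N : ℝ) ^ 2 / 2 - N / 2 = N * (N - 1) / 2 := by ring
    rw [e]; exact h''
  have h6 : (((N - 1).choose 2 : ℕ) : ℝ) ≤ (N : ℝ) ^ 2 / 2 := by
    have : (((N - 1).choose 2 : ℕ) : ℝ) ≤ ((N.choose 2 : ℕ) : ℝ) := by
      exact_mod_cast Nat.choose_le_choose 2 (Nat.sub_le N 1)
    have e := Nat.cast_choose_two ℝ N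
    rw [e] at this
    have hn : (0 : ℝ) ≤ N := by positivity
    nlinarith
  have h7 := c.small
  have h8 := c.one_small
  have h9 := c.lg_le
  have hn : (0 : ℝ) < N := by
    have := c.M_ge; linarith
  have h10 : (N : ℝ) * lg N ^ 3 ≤ 1e-20 * (N : ℝ) ^ 2 := by
    calc (N : ℝ) * lg N ^ 3 ≤ N * (1e-20 * N) := mul_le_mul_of_nonneg_left h7 hn.le
      _ = 1e-20 * (N : ℝ) ^ 2 := by ring
  have h11 : (N : ℝ) ≤ 1e-20 * (N : ℝ) ^ 2 := by
    calc (N : ℝ) = N * 1 := (mul_one _).symm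
      _ ≤ N * (1e-20 * N) := mul_le_mul_of_nonneg_left h8 hn.le
      _ = 1e-20 * (N : ℝ) ^ 2 := by ring
  have h12 : (1 : ℝ) ≤ N := by have := c.M_ge; linarith
  constructor
  · have h13 : 8 / (3e7 : ℝ) ^ 2 ≤ 1e-14 := by norm_num
    have h14 : 8 / (3e7 : ℝ) ^ 2 * (N : ℝ) ^ 2 ≤ 1e-14 * (N : ℝ) ^ 2 :=
      mul_le_mul_of_nonneg_right h13 (by positivity)
    linarith
  · have h13 : 8 / (3e7 : ℝ) ^ 2 ≤ 1e-14 := by norm_num
    have h14 : 8 / (3e7 : ℝ) ^ 2 * (N : ℝ) ^ 2 ≤ 1e-14 * (N : ℝ) ^ 2 :=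
      mul_le_mul_of_nonneg_right h13 (by positivity)
    linarith

/-! ### Normalized quantities -/

/-- `1 - β / N` -/
noncomputable def kN (N β : ℕ) : ℝ := 1 - (β : ℝ) / N

/-- `(x - 1) / N` -/
noncomputable def LN (N : ℕ) (x : ℤ) : ℝ := ((x : ℝ) - 1) / N

/-- The main gain. -/
noncomputable def XN (N : ℕ) (F : Finset (Finset ℤ)) (x : ℤ) (β : ℕ) : ℝ :=
  max (((N - 1 - β).choose 2 : ℕ) : ℝ) ((Cov N F x).card : ℝ) / (N : ℝ) ^ 2

theorem Cfg.Npos (c : Cfg N F x β) : (0 : ℝ) < N := by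
  have := c.M_ge; linarith

theorem Cfg.kN_mul (c : Cfg N F x β) : (1 - kN N β) * N = β := by
  have := c.Npos
  unfold kN
  field_simp
  ring

theorem Cfg.kN_mul' (c : Cfg N F x β) : kN N β * N = N - β := by
  have := c.kN_mul
  linarith

theorem Cfg.kN_ge (c : Cfg N F x β) : 1 / 13 ≤ kN N β := by
  have h1 := c.hβ
  have h2 : (13 * β + 13 : ℝ) ≤ 12 * N := by exact_mod_cast h1
  have h3 := c.kN_mul'
  have h4 := c.Npos
  by_contra hn
  push Not at hn
  have : kN N β * N < 1 / 13 * N := mul_lt_mul_of_pos_right hn h4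
  linarith

theorem Cfg.kN_le (c : Cfg N F x β) : kN N β ≤ 1 := by
  have := c.Npos
  unfold kN
  have : 0 ≤ (β : ℝ) / N := by positivity
  linarith

theorem Cfg.LN_mul (c : Cfg N F x β) : LN N x * N = x - 1 := by
  have := c.Npos
  unfold LN
  field_simp

theorem Cfg.LN_nonneg (c : Cfg N F x β) : 0 ≤ LN N x := by
  have h1 := c.Npos
  have h2 : (1 : ℤ) ≤ x := (mem_Icc.1 c.hx).1
  have h3 : (1 : ℝ) ≤ x := by exact_mod_cast h2
  unfold LN
  exact div_nonneg (by linarith) h1.le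

theorem Cfg.XN_mul (c : Cfg N F x β) : XN N F x β * (N : ℝ) ^ 2 =
    max (((N - 1 - β).choose 2 : ℕ) : ℝ) ((Cov N F x).card : ℝ) := by
  have := c.Npos
  unfold XN
  field_simp

theorem Cfg.X_ge (c : Cfg N F x β) : kN N β ^ 2 / 2 - 1e-13 ≤ XN N F x β := by
  have h1 := c.Npos
  have h2 := c.M_ge
  have hn2 : (0 : ℝ) < (N : ℝ) ^ 2 := by positivity
  refine le_of_mul_le_mul_right ?_ hn2
  rw [c.XN_mul]
  refine le_trans ?_ (le_max_left _ _)
  have hb : β + 1 ≤ N := by have := c.hβ; omega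
  have e := Nat.cast_choose_two ℝ (N - 1 - β)
  rw [e]
  have e2 : ((N - 1 - β : ℕ) : ℝ) = kN N β * N - 1 := by
    have e3 : ((N - 1 - β : ℕ) : ℝ) = (N : ℝ) - 1 - β := by
      rw [Nat.sub_sub, Nat.cast_sub (by omega)]
      push_cast
      ring
    rw [e3, c.kN_mul']
    ring
  rw [e2]
  have h3 := c.kN_le
  have h4 := c.kN_ge
  have h5 : kN N β * N ≤ N := by nlinarith
  have h6 : (N : ℝ) ≤ 1e-20 * (N : ℝ) ^ 2 := by nlinarith
  have e4 : (kN N β ^ 2 / 2 - 1e-13) * (N : ℝ) ^ 2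
      = (kN N β * N) ^ 2 / 2 - 1e-13 * (N : ℝ) ^ 2 := by ring
  rw [e4]
  nlinarith

/-- Normalized sum of the members avoiding `x` with difference in `s`. -/
noncomputable def SN (N : ℕ) (F : Finset (Finset ℤ)) (x : ℤ) (s : Finset ℕ) : ℝ :=
  ((∑ d ∈ s, (Sd F x d).card : ℕ) : ℝ) / (N : ℝ) ^ 2

/-- Normalized sum of the members through `x` with difference in `s`. -/
noncomputable def QN (N : ℕ) (F : Finset (Finset ℤ)) (x : ℤ) (s : Finset ℕ) : ℝ :=
  ((∑ d ∈ s, (Qd F x d).card : ℕ) : ℝ) / (N : ℝ) ^ 2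

theorem SN_nonneg (s : Finset ℕ) : 0 ≤ SN N F x s := by unfold SN; positivity
theorem QN_nonneg (s : Finset ℕ) : 0 ≤ QN N F x s := by unfold QN; positivity

theorem SN_insert {d : ℕ} {s : Finset ℕ} (h : d ∉ s) :
    SN N F x (insert d s) = SN N F x {d} + SN N F x s := by
  unfold SN
  rw [sum_insert h, sum_singleton]
  push_cast
  ring

theorem QN_insert {d : ℕ} {s : Finset ℕ} (h : d ∉ s) :
    QN N F x (insert d s) = QN N F x {d} + QN N F x s := by
  unfold QN
  rw [sum_insert h, sum_singleton]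
  push_cast
  ring

theorem Icc_split {m n : ℕ} (h : m ≤ n) : Icc m n = insert m (Icc (m + 1) n) := by
  ext d
  rw [mem_insert, mem_Icc, mem_Icc]
  omega

theorem Cfg.N_ge (c : Cfg N F x β) : 20 ≤ N := by
  have := c.M_ge
  have h : (20 : ℝ) ≤ N := by linarith
  exact_mod_cast h

theorem Cfg.ST_split (c : Cfg N F x β) :
    ST N F x / (N : ℝ) ^ 2 = SN N F x {1} + SN N F x {2} + SN N F x (Icc 3 N) := by
  have h := c.N_ge
  have e : ST N F x / (N : ℝ) ^ 2 = SN N F x (Icc 1 N) := rfl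
  rw [e, Icc_split (show 1 ≤ N by omega), SN_insert (by simp), Icc_split (show 1 + 1 ≤ N by omega),
    SN_insert (by simp)]
  ring

theorem Cfg.QT_split (c : Cfg N F x β) :
    QT N F x / (N : ℝ) ^ 2 = QN N F x {1} + QN N F x {2} + QN N F x (Icc 3 N) := by
  have h := c.N_ge
  have e : QT N F x / (N : ℝ) ^ 2 = QN N F x (Icc 1 N) := rfl
  rw [e, Icc_split (show 1 ≤ N by omega), QN_insert (by simp), Icc_split (show 1 + 1 ≤ N by omega),
    QN_insert (by simp)]
  ring

theorem Cfg.mainN (H : HT2) (c : Cfg N F x β) :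
    XN N F x β ≤ QN N F x (Icc 1 N) + SN N F x (Icc 1 N) + 1e-13 / 2 ∧
    ((NTp N F x).card : ℝ) / (N : ℝ) ^ 2
      ≤ 2 * QN N F x (Icc 1 N) + 2 * SN N F x (Icc 1 N) + 1e-13 := by
  have h1 := c.main H
  have hn := c.Npos
  have hn2 : (0 : ℝ) < (N : ℝ) ^ 2 := by positivity
  have eQ : QN N F x (Icc 1 N) * (N : ℝ) ^ 2 = QT N F x := by
    unfold QN QT; field_simp
  have eS : SN N F x (Icc 1 N) * (N : ℝ) ^ 2 = ST N F x := by
    unfold SN ST; field_simp
  constructor
  · refine le_of_mul_le_mul_right ?_ hn2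
    rw [c.XN_mul, add_mul, add_mul, eQ, eS]
    linarith [h1.1]
  · rw [div_le_iff₀ hn2, add_mul, add_mul, mul_assoc, mul_assoc, eQ, eS]
    linarith [h1.2]

theorem Cfg.coverN (H : HT2) (c : Cfg N F x β) {a : ℕ} (ha : x + a ≤ N)
    (hreach : ∀ A ∈ F, x ∈ A → APc A → ∃ y ∈ A, x + a ≤ y) :
    1.174 * (LN N x + (a : ℝ) / N) * QN N F x (Icc 1 N) ≤ LN N x * XN N F x β + 1e-15 := by
  have h1 := cover_sum H.cov c.fam c.hN c.hx ha hreach
  have hn := c.Npos
  have hn3 : (0 : ℝ) < (N : ℝ) ^ 3 := by positivity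
  refine le_of_mul_le_mul_right ?_ hn3
  have eQ : QN N F x (Icc 1 N) * (N : ℝ) ^ 2 = ((∑ d ∈ Icc 1 N, (Qd F x d).card : ℕ) : ℝ) := by
    unfold QN; field_simp
  have e1 : 1.174 * (LN N x + (a : ℝ) / N) * QN N F x (Icc 1 N) * (N : ℝ) ^ 3
      = 1.174 * (LN N x * N + a) * (QN N F x (Icc 1 N) * (N : ℝ) ^ 2) := by
    field_simp
  have e2 : (LN N x * XN N F x β + 1e-15) * (N : ℝ) ^ 3
      = (LN N x * N) * (XN N F x β * (N : ℝ) ^ 2) + 1e-15 * (N : ℝ) ^ 3 := by ring
  rw [e1, e2, eQ, c.LN_mul, c.XN_mul]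
  have hx1 : (0 : ℝ) ≤ (x : ℝ) - 1 := by
    have : (1 : ℤ) ≤ x := (mem_Icc.1 c.hx).1
    have : (1 : ℝ) ≤ x := by exact_mod_cast this
    linarith
  have h2 : ((x : ℝ) - 1) * ((Cov N F x).card : ℝ) ≤ ((x : ℝ) - 1) *
      max (((N - 1 - β).choose 2 : ℕ) : ℝ) ((Cov N F x).card : ℝ) :=
    mul_le_mul_of_nonneg_left (le_max_right _ _) hx1
  have h3 : 5000 * (N : ℝ) ^ 2 * lg N ≤ 1e-15 * (N : ℝ) ^ 3 := by
    have h4 := c.lg_le
    have h5 : 5000 * (N : ℝ) ^ 2 * lg N ≤ 5000 * (N : ℝ) ^ 2 * (1e-20 * N) :=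
      mul_le_mul_of_nonneg_left h4 (by positivity)
    have h6 : 5000 * (N : ℝ) ^ 2 * (1e-20 * N) = 5e-17 * (N : ℝ) ^ 3 := by ring
    rw [h6] at h5
    nlinarith
  linarith

theorem Cfg.cover2N (H : HT2) (c : Cfg N F x β) {a : ℕ} (ha : x + a ≤ N)
    (hreach : ∀ A ∈ F, x ∈ A → APc A → ∃ y ∈ A, x + a ≤ y) :
    1.174 * (LN N x + (a : ℝ) / N) * (1.25 * QN N F x {1} + QN N F x (Icc 3 N))
      ≤ LN N x * XN N F x β + 1e-15 := by
  have h1 := cover_sum2 H.cov H.cov2 c.fam (by have := c.N_ge; omega) c.hx ha hreach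
  have hn := c.Npos
  have hn3 : (0 : ℝ) < (N : ℝ) ^ 3 := by positivity
  refine le_of_mul_le_mul_right ?_ hn3
  have eQ : QN N F x {1} * (N : ℝ) ^ 2 = ((Qd F x 1).card : ℝ) := by
    unfold QN; rw [sum_singleton]; field_simp
  have eQ3 : QN N F x (Icc 3 N) * (N : ℝ) ^ 2 = ((∑ d ∈ Icc 3 N, (Qd F x d).card : ℕ) : ℝ) := by
    unfold QN; field_simp
  have e1 : 1.174 * (LN N x + (a : ℝ) / N) * (1.25 * QN N F x {1} + QN N F x (Icc 3 N)) * (N : ℝ) ^ 3
      = 1.174 * (LN N x * N + a) * (1.25 * (QN N F x {1} * (N : ℝ) ^ 2)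
        + (QN N F x (Icc 3 N) * (N : ℝ) ^ 2)) := by
    field_simp
  have e2 : (LN N x * XN N F x β + 1e-15) * (N : ℝ) ^ 3
      = (LN N x * N) * (XN N F x β * (N : ℝ) ^ 2) + 1e-15 * (N : ℝ) ^ 3 := by ring
  rw [e1, e2, eQ, eQ3, c.LN_mul, c.XN_mul]
  have hx1 : (0 : ℝ) ≤ (x : ℝ) - 1 := by
    have : (1 : ℤ) ≤ x := (mem_Icc.1 c.hx).1
    have : (1 : ℝ) ≤ x := by exact_mod_cast this
    linarith
  have h2 : ((x : ℝ) - 1) * ((Cov N F x).card : ℝ) ≤ ((x : ℝ) - 1) *
      max (((N - 1 - β).choose 2 : ℕ) : ℝ) ((Cov N F x).card : ℝ) :=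
    mul_le_mul_of_nonneg_left (le_max_right _ _) hx1
  have h3 : 15000 * (N : ℝ) ^ 2 * lg N ≤ 1e-15 * (N : ℝ) ^ 3 := by
    have h4 := c.lg_le
    have h5 : 15000 * (N : ℝ) ^ 2 * lg N ≤ 15000 * (N : ℝ) ^ 2 * (1e-20 * N) :=
      mul_le_mul_of_nonneg_left h4 (by positivity)
    have h6 : 15000 * (N : ℝ) ^ 2 * (1e-20 * N) = 15e-17 * (N : ℝ) ^ 3 := by ring
    rw [h6] at h5
    nlinarith
  linarith

theorem Cfg.qsmallN (H : HT2) (c : Cfg N F x β) :
    QN N F x (Icc 1 N) ≤ 2 * LN N x + 1e-15 := by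
  have h1 := H.qsmall N F x c.hN c.fam c.hx
  have hn := c.Npos
  have hn2 : (0 : ℝ) < (N : ℝ) ^ 2 := by positivity
  refine le_of_mul_le_mul_right ?_ hn2
  have eQ : QN N F x (Icc 1 N) * (N : ℝ) ^ 2 = ((∑ d ∈ Icc 1 N, (Qd F x d).card : ℕ) : ℝ) := by
    unfold QN; field_simp
  have e2 : (2 * LN N x + 1e-15) * (N : ℝ) ^ 2
      = 2 * (LN N x * N) * N + 1e-15 * (N : ℝ) ^ 2 := by ring
  rw [e2, eQ, c.LN_mul]
  have h4 := c.lg_le
  have h3 : 4 * (N : ℝ) * lg N ≤ 4 * N * (1e-20 * N) :=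
    mul_le_mul_of_nonneg_left h4 (by positivity)
  nlinarith

end main

end Pool.Agent.Work.MP_1d0aa8_co

end

section

/-!
# NUM2b
-/

set_option autoImplicit false

namespace Pool.Agent.Work.MP_1d0aa8_co

open Finset
open scoped Classical

open ItNUM2 ItNUMReg in
theorem thmNum2b : SNum2b := by
  intro k L a δ hk hk1 hL hLk ha hs0 hs hA
  have hk2 : 1 / 2 ≤ k := by linarith
  rw [hh_eq k hk2]
  have hm := hh_le k hk2 hk1
  have hc1 := cc1b k hk hk1
  have hm0 : 0 ≤ 2 * k - 1 - 0.3 := by linarith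
  have hmm : 0 ≤ (2 * k - 1 - 0.3) * (0.54 - (2 * k - 1)) := mul_nonneg hm0 (by linarith)
  have := core k L a δ (hh k + 0.0015) 0 0.426 hk2 (by linarith) hL hLk ha hs hA (by norm_num)
    (by norm_num) (by linarith) (by
      intro haw haT
      nlinarith [sq_nonneg (k - L - a - L), mul_nonneg ha hL,
        mul_nonneg (show 0 ≤ k - a - (2 * k - 1) by linarith)
          (show 0 ≤ k - a + (2 * k - 1) by linarith)])
    (by nlinarith) (by nlinarith) (by nlinarith) (by nlinarith) (by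
      intro haw haT hδ
      exact R3 k L a δ (hh k + 0.0015) 0 0.426 hL ha hs hδ (by norm_num) (by nlinarith)
        (by nlinarith))
  linarith

end Pool.Agent.Work.MP_1d0aa8_co

end
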