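import Pool.Agent.Work.MP_1d0aa8_co.Bd.B03

/-! Bundle of small proof modules (one section per former module). -/

section

/-!
# MP_1d0aa8_co, T2: tails, intervals
-/

set_option autoImplicit false

namespace Pool.Agent.Work.MP_1d0aa8_co

open Finset
open scoped Classical

theorem gg_le (t : ℝ) : gg t ≤ (max t 0) ^ 2 / 2 := by
  unfold gg
  have : 0 ≤ (max (t - 1 / 2) 0) ^ 2 := sq_nonneg _
  linarith

section tails

variable {N : ℕ} {F : Finset (Finset ℤ)} {x : ℤ} {β : ℕ}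

theorem Cfg.minκ (c : Cfg N F x β) : ∀ A ∈ F, x ∉ A → (1 - kN N β) * N ≤ (A.card : ℝ) := by
  intro A hA hx
  rw [c.kN_mul]
  exact_mod_cast c.hmin A hA hx

theorem Cfg.N_le_sq (c : Cfg N F x β) : (N : ℝ) ≤ 1e-20 * (N : ℝ) ^ 2 := by
  have h1 := c.M_ge
  nlinarith

theorem Cfg.SN_single (H : HT2) (c : Cfg N F x β) {d : ℕ} (hd : 1 ≤ d) (hdN : d ≤ N) :
    SN N F x {d} ≤ gg (1 - (d : ℝ) * (1 - kN N β)) / (d : ℝ) ^ 2 + 1e-18 := by
  have h1 := Sd_bound H.count c.fam c.hN hd hdN c.kN_le c.minκ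
  have hn := c.Npos
  have hn2 : (0 : ℝ) < (N : ℝ) ^ 2 := by positivity
  unfold SN
  rw [sum_singleton, div_le_iff₀ hn2, add_mul, mul_comm _ ((N : ℝ) ^ 2)]
  have hd1 : (1 : ℝ) ≤ d := by exact_mod_cast hd
  have h2 : (N : ℝ) / d ≤ N := div_le_self hn.le hd1
  have h3 := c.N_le_sq
  have h4 := c.M_ge
  linarith

theorem Cfg.SN_zero (H : HT2) (c : Cfg N F x β) {d : ℕ} (hd : 1 ≤ d)
    (h : (N : ℝ) / d + 1 < (1 - kN N β) * N) : Sd F x d = ∅ :=
  Sd_empty H.pdc c.fam hd c.minκ h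

theorem Cfg.tailI (H : HT2) (c : Cfg N F x β) (hκ : kN N β ≤ 0.77) :
    SN N F x (Icc 2 N) ≤ (max (2 * kN N β - 1) 0) ^ 2 / 8 + (max (3 * kN N β - 2) 0) ^ 2 / 18
    + (max (4 * kN N β - 3) 0) ^ 2 / 32 + 1e-16 := by
  have hN := c.N_ge
  have hM := c.M_ge
  have h1 : SN N F x (Icc 2 N) = SN N F x (Icc 2 4) := by
    unfold SN
    congr 2
    symm
    apply sum_subset
    · intro d hd; rw [mem_Icc] at hd ⊢; omega
    · intro d hd hd'
      rw [mem_Icc] at hd hd'
      have hd5 : 5 ≤ d := by omega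
      rw [card_eq_zero]
      apply c.SN_zero H (by omega)
      have hd5' : (5 : ℝ) ≤ d := by exact_mod_cast hd5
      have h2 : (N : ℝ) / d ≤ N / 5 := div_le_div_of_nonneg_left c.Npos.le (by norm_num) hd5'
      have h3 : 0.23 * (N : ℝ) ≤ (1 - kN N β) * N :=
        mul_le_mul_of_nonneg_right (by linarith) c.Npos.le
      linarith
  have h2 : SN N F x (Icc 2 4) = SN N F x {2} + SN N F x {3} + SN N F x {4} := by
    rw [Icc_split (show 2 ≤ 4 by omega), SN_insert (by simp), Icc_split (show 2 + 1 ≤ 4 by omega),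
      SN_insert (by simp)]
    simp only [Nat.reduceAdd, Icc_self]
    ring
  have h3 := c.SN_single H (d := 2) (by omega) (by omega)
  have h4 := c.SN_single H (d := 3) (by omega) (by omega)
  have h5 := c.SN_single H (d := 4) (by omega) (by omega)
  have g2 := gg_le (1 - ((2 : ℕ) : ℝ) * (1 - kN N β))
  have g3 := gg_le (1 - ((3 : ℕ) : ℝ) * (1 - kN N β))
  have g4 := gg_le (1 - ((4 : ℕ) : ℝ) * (1 - kN N β))
  have e2 : 1 - ((2 : ℕ) : ℝ) * (1 - kN N β) = 2 * kN N β - 1 := by push_cast; ring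
  have e3 : 1 - ((3 : ℕ) : ℝ) * (1 - kN N β) = 3 * kN N β - 2 := by push_cast; ring
  have e4 : 1 - ((4 : ℕ) : ℝ) * (1 - kN N β) = 4 * kN N β - 3 := by push_cast; ring
  rw [e2] at h3 g2
  rw [e3] at h4 g3
  rw [e4] at h5 g4
  rw [h1, h2]
  push_cast at h3 h4 h5
  linarith

theorem Cfg.tailII (H : HT2) (c : Cfg N F x β) (hκ : kN N β ≤ 0.908) :
    SN N F x (Icc 3 N) ≤ h3 (kN N β) + 1e-16 := by
  have hN := c.N_ge
  have hM := c.M_ge
  have h1 : SN N F x (Icc 3 N) = SN N F x (Icc 3 10) := by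
    unfold SN
    congr 2
    symm
    apply sum_subset
    · intro d hd; rw [mem_Icc] at hd ⊢; omega
    · intro d hd hd'
      rw [mem_Icc] at hd hd'
      have hd5 : 11 ≤ d := by omega
      rw [card_eq_zero]
      apply c.SN_zero H (by omega)
      have hd5' : (11 : ℝ) ≤ d := by exact_mod_cast hd5
      have h2 : (N : ℝ) / d ≤ N / 11 := div_le_div_of_nonneg_left c.Npos.le (by norm_num) hd5'
      have h3 : 0.092 * (N : ℝ) ≤ (1 - kN N β) * N :=
        mul_le_mul_of_nonneg_right (by linarith) c.Npos.le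
      linarith
  have h2 : SN N F x (Icc 3 10) = ∑ d ∈ Icc 3 10, SN N F x {d} := by
    unfold SN
    push_cast
    rw [sum_div]
    simp only [sum_singleton]
  rw [h1, h2]
  unfold h3
  have h4 : ∀ d ∈ Icc 3 10, SN N F x {d} ≤ gg (1 - (d : ℝ) * (1 - kN N β)) / (d : ℝ) ^ 2 + 1e-18 := by
    intro d hd
    rw [mem_Icc] at hd
    exact c.SN_single H (by omega) (by omega)
  have h5 := sum_le_sum h4
  rw [sum_add_distrib, sum_const] at h5
  simp only [Nat.card_Icc, nsmul_eq_mul] at h5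
  norm_num at h5 ⊢
  linarith

/-- Normalized sum of all `Pd`. -/
theorem Cfg.Pd_sum (H : HT2) (c : Cfg N F x β) (s : Finset ℕ) (hs : s ⊆ Icc 1 N) :
    QN N F x s + SN N F x s ≤ (∑ d ∈ s, (1 : ℝ) / (d : ℝ) ^ 2) / 4 + 1e-18 := by
  have hn := c.Npos
  have hn2 : (0 : ℝ) < (N : ℝ) ^ 2 := by positivity
  have h0 : QN N F x s + SN N F x s = (∑ d ∈ s, ((Pd F d).card : ℝ)) / (N : ℝ) ^ 2 := by
    unfold QN SN
    rw [← add_div]
    congr 1
    push_cast
    rw [← sum_add_distrib]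
    refine sum_congr rfl fun d _ => ?_
    unfold Qd Sd
    exact_mod_cast card_filter_add_card_filter_not _
  rw [h0, div_le_iff₀ hn2]
  have h1 : ∀ d ∈ s, ((Pd F d).card : ℝ) ≤
      (N : ℝ) ^ 2 / 4 * (1 / (d : ℝ) ^ 2) + (10 * N * (1 / (d : ℝ)) + 10) := by
    intro d hd
    have h2 := mem_Icc.1 (hs hd)
    refine (Pd_bound H.count c.fam c.hN h2.1 h2.2).trans (le_of_eq ?_)
    ring
  refine (sum_le_sum h1).trans ?_
  rw [sum_add_distrib, sum_add_distrib, ← mul_sum, ← mul_sum, sum_const, nsmul_eq_mul]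
  have h3 : ∑ d ∈ s, (1 : ℝ) / (d : ℝ) ≤ lg N := by
    refine le_trans (sum_le_sum_of_subset_of_nonneg hs ?_) (harm_le c.hN)
    intro d _ _; positivity
  have h4 : (s.card : ℝ) ≤ N := by
    have := card_le_card hs
    rw [Nat.card_Icc] at this
    exact_mod_cast (by omega : s.card ≤ N)
  have h5 := c.lg_le
  have h6 := c.N_le_sq
  have h7 : 10 * (N : ℝ) * (∑ d ∈ s, (1 : ℝ) / (d : ℝ)) ≤ 10 * N * (1e-20 * N) :=
    mul_le_mul_of_nonneg_left (h3.trans h5) (by positivity)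
  have h8 : 10 * (N : ℝ) * (1e-20 * N) = 1e-19 * (N : ℝ) ^ 2 := by ring
  rw [h8] at h7
  have e : ((∑ d ∈ s, (1 : ℝ) / (d : ℝ) ^ 2) / 4 + 1e-18) * (N : ℝ) ^ 2
    = (N : ℝ) ^ 2 / 4 * (∑ d ∈ s, (1 : ℝ) / (d : ℝ) ^ 2) + 1e-18 * (N : ℝ) ^ 2 := by ring
  rw [e]
  linarith

theorem Cfg.P2N (H : HT2) (c : Cfg N F x β) : QN N F x {2} + SN N F x {2} ≤ 1 / 16 + 1e-18 := by
  have h := c.Pd_sum H {2} (by
    have := c.N_ge
    intro d hd; rw [mem_singleton] at hd; rw [mem_Icc]; omega)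
  rw [sum_singleton] at h
  norm_num at h ⊢
  linarith

theorem Cfg.ZN (H : HT2) (c : Cfg N F x β) : QN N F x (Icc 3 N) ≤ 0.0988 := by
  have h := c.Pd_sum H (Icc 3 N) (by intro d hd; rw [mem_Icc] at hd ⊢; omega)
  have h1 := H.zeta N
  have hN := c.N_ge
  rw [Icc_split (show 1 ≤ N by omega), sum_insert (by simp), Icc_split (show 1 + 1 ≤ N by omega),
    sum_insert (by simp)] at h1
  have h2 := SN_nonneg (N := N) (F := F) (x := x) (Icc 3 N)
  norm_num at h h1 ⊢
  linarith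

theorem Cfg.totN (H : HT2) (c : Cfg N F x β) :
    QN N F x (Icc 1 N) + SN N F x (Icc 1 N) ≤ 0.41126 := by
  have h := c.Pd_sum H (Icc 1 N) (Subset.refl _)
  have h1 := H.zeta N
  norm_num at h h1 ⊢
  linarith

theorem Cfg.card_le (c : Cfg N F x β) {A : Finset ℤ} (hA : A ∈ Sd F x 1) :
    (A.card : ℤ) ≤ N - x := by
  have h1 : A ⊆ Icc (x + 1) (N : ℤ) := by
    intro y hy
    have h2 := c.right A hA y hy
    have h3 := mem_Icc.1 (c.fam.sub A (Pd_mem.1 (mem_filter.1 hA).1).1 hy)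
    rw [mem_Icc]
    omega
  have h2 := card_le_card h1
  rw [Int.card_Icc] at h2
  have h3 := mem_Icc.1 c.hx
  omega

theorem Sd_nonempty' {d : ℕ} {A : Finset ℤ} (hA : A ∈ Sd F x d) : A.Nonempty := by
  obtain ⟨a, k, -, rfl⟩ := (Pd_mem.1 (mem_filter.1 hA).1).2
  exact ⟨a, mem_apset.2 ⟨0, by omega, by simp⟩⟩

end tails

end Pool.Agent.Work.MP_1d0aa8_co

end

section

/-!
# MP_1d0aa8_co, T2: intervals and the case analysis
-/

set_option autoImplicit false

namespace Pool.Agent.Work.MP_1d0aa8_co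

open Finset
open scoped Classical

section intervals

variable {N : ℕ} {F : Finset (Finset ℤ)} {x : ℤ} {β : ℕ}

theorem Cfg.exists_a (c : Cfg N F x β) (hne : (Sd F x 1).Nonempty) :
    ∃ a : ℕ, x + a ≤ N ∧ (∃ A ∈ Sd F x 1, ∀ y ∈ A, x + a ≤ y) ∧
      (∀ A ∈ Sd F x 1, ∃ y ∈ A, y ≤ x + a) := by
  set P : ℕ → Prop := fun t => ∃ A ∈ Sd F x 1, ∀ y ∈ A, x + t ≤ y with hP
  obtain ⟨A0, hA0⟩ := hne
  have hP0 : P 0 := ⟨A0, hA0, fun y hy => by have := c.right A0 hA0 y hy; push_cast; omega⟩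
  have hPa : P (Nat.findGreatest P N) := Nat.findGreatest_spec (Nat.zero_le N) hP0
  refine ⟨Nat.findGreatest P N, ?_, hPa, ?_⟩
  · obtain ⟨A, hA, hy⟩ := hPa
    obtain ⟨y, hyA⟩ := Sd_nonempty' hA
    have h1 := hy y hyA
    have h2 := mem_Icc.1 (c.fam.sub A (Pd_mem.1 (mem_filter.1 hA).1).1 hyA)
    omega
  · intro A hA
    by_contra hn
    push Not at hn
    obtain ⟨y, hyA⟩ := Sd_nonempty' hA
    have h2 := mem_Icc.1 (c.fam.sub A (Pd_mem.1 (mem_filter.1 hA).1).1 hyA)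
    have h3 := hn y hyA
    have h4 := mem_Icc.1 c.hx
    have h5 : ¬ P (Nat.findGreatest P N + 1) :=
      Nat.findGreatest_is_greatest (Nat.lt_succ_self _) (by omega)
    apply h5
    refine ⟨A, hA, fun z hz => ?_⟩
    have := hn z hz
    push_cast
    omega

theorem Cfg.exists_b (c : Cfg N F x β) (hne : (Sd F x 1).Nonempty) :
    ∃ b : ℕ, b ≤ N ∧ (∃ A ∈ Sd F x 1, ∀ y ∈ A, y ≤ (N : ℤ) - b) ∧
      (∀ A ∈ Sd F x 1, ∃ y ∈ A, (N : ℤ) - b ≤ y) := by
  set P : ℕ → Prop := fun t => ∃ A ∈ Sd F x 1, ∀ y ∈ A, y ≤ (N : ℤ) - t with hP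
  obtain ⟨A0, hA0⟩ := hne
  have hP0 : P 0 := ⟨A0, hA0, fun y hy => by
    have := mem_Icc.1 (c.fam.sub A0 (Pd_mem.1 (mem_filter.1 hA0).1).1 hy)
    push_cast; omega⟩
  have hPa : P (Nat.findGreatest P N) := Nat.findGreatest_spec (Nat.zero_le N) hP0
  refine ⟨Nat.findGreatest P N, Nat.findGreatest_le N, hPa, ?_⟩
  intro A hA
  by_contra hn
  push Not at hn
  obtain ⟨y, hyA⟩ := Sd_nonempty' hA
  have h2 := mem_Icc.1 (c.fam.sub A (Pd_mem.1 (mem_filter.1 hA).1).1 hyA)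
  have h3 := hn y hyA
  have h5 : ¬ P (Nat.findGreatest P N + 1) :=
    Nat.findGreatest_is_greatest (Nat.lt_succ_self _) (by omega)
  apply h5
  refine ⟨A, hA, fun z hz => ?_⟩
  have := hn z hz
  push_cast
  omega

theorem Cfg.reach (c : Cfg N F x β) {a : ℕ} (ha : ∃ A ∈ Sd F x 1, ∀ y ∈ A, x + a ≤ y)
    {B : Finset ℤ} (hB : B ∈ F) (hne : B.Nonempty) : ∃ y ∈ B, x + a ≤ y := by
  obtain ⟨A, hA, h⟩ := ha
  by_cases he : A = B
  · obtain ⟨y, hy⟩ := hne
    exact ⟨y, hy, h y (he ▸ hy)⟩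
  · obtain ⟨y, hy⟩ := (c.fam.ap A (Pd_mem.1 (mem_filter.1 hA).1).1 B hB he).1
    rw [mem_inter] at hy
    exact ⟨y, hy.2, h y hy.1⟩

theorem Cfg.L_le (c : Cfg N F x β) (hne : (Sd F x 1).Nonempty) : LN N x ≤ kN N β := by
  obtain ⟨A, hA⟩ := hne
  have h1 := c.card_le hA
  have h2 := c.hmin A (Pd_mem.1 (mem_filter.1 hA).1).1 (mem_filter.1 hA).2
  have hn := c.Npos
  refine le_of_mul_le_mul_right ?_ hn
  rw [c.LN_mul, c.kN_mul']
  have h3 : (β : ℤ) ≤ N - x := by have : (β : ℤ) ≤ A.card := by exact_mod_cast h2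
                                  omega
  have h4 : (β : ℝ) ≤ N - x := by exact_mod_cast h3
  linarith

theorem area_aux (c : Cfg N F x β) {a b T : ℕ} {a' b' T' : ℝ}
    (h : AreaBd a b T (Sd F x 1).card (3 * ((a : ℝ) + b + T + 1)))
    (ha : (a : ℝ) = a' * N) (hb : (b : ℝ) = b' * N) (hT : (T : ℝ) = T' * N)
    (ha1 : a' ≤ 1) (hb1 : b' ≤ 1) (hT1 : T' ≤ 1) :
    AreaBd a' b' T' (SN N F x {1} - 1e-18) 0 := by
  have hn := c.Npos
  have hn2 : (0 : ℝ) < (N : ℝ) ^ 2 := by positivity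
  have h1 := h.scale hn
  have e1 : (a : ℝ) / N = a' := by rw [ha]; field_simp
  have e2 : (b : ℝ) / N = b' := by rw [hb]; field_simp
  have e3 : (T : ℝ) / N = T' := by rw [hT]; field_simp
  rw [e1, e2, e3] at h1
  refine h1.mono ?_
  rw [le_div_iff₀ hn2, sub_mul]
  have e4 : SN N F x {1} * (N : ℝ) ^ 2 = ((Sd F x 1).card : ℝ) := by
    unfold SN; rw [sum_singleton, div_mul_cancel₀ _ hn2.ne']
  rw [e4]
  have h5 : a' * N ≤ N := by nlinarith
  have h6 : b' * N ≤ N := by nlinarith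
  have h7 : T' * N ≤ N := by nlinarith
  have h8 := c.N_le_sq
  have h9 := c.M_ge
  linarith

theorem Cfg.areaI (H : HT2) (c : Cfg N F x β) {a : ℕ} (haN : x + a ≤ N)
    (ha : ∃ A ∈ Sd F x 1, ∀ y ∈ A, x + a ≤ y) (ha' : ∀ A ∈ Sd F x 1, ∃ y ∈ A, y ≤ x + a) :
    AreaBd ((a : ℝ) / N) (1 - LN N x - (a : ℝ) / N) (kN N β - LN N x) (SN N F x {1} - 1e-18) 0 := by
  have hn := c.Npos
  have hx := mem_Icc.1 c.hx
  have hne : (Sd F x 1).Nonempty := by
    obtain ⟨A, hA, -⟩ := ha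
    exact ⟨A, hA⟩
  have hL := c.L_le hne
  have hL0 := c.LN_nonneg
  have hκ := c.kN_le
  obtain ⟨b, hb⟩ : ∃ b : ℕ, (b : ℤ) = N - x + 1 - a := ⟨((N : ℤ) - x + 1 - a).toNat, by omega⟩
  obtain ⟨T, hT⟩ : ∃ T : ℕ, (T : ℤ) = N - β - x + 1 := by
    refine ⟨((N : ℤ) - β - x + 1).toNat, ?_⟩
    have h1 : LN N x * N ≤ kN N β * N := mul_le_mul_of_nonneg_right hL hn.le
    rw [c.LN_mul, c.kN_mul'] at h1
    have h2 : ((x : ℝ) + β) ≤ N + 1 := by linarith
    have h3 : x + β ≤ N + 1 := by exact_mod_cast h2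
    omega
  have h := H.delta N F x a b T c.fam c.hx c.right ha'
    (fun A hA => by
      obtain ⟨y, hy, h⟩ := c.reach ha (Pd_mem.1 (mem_filter.1 hA).1).1 (Sd_nonempty' hA)
      exact ⟨y, hy, by omega⟩)
    (fun A hA => by
      have h2 := c.hmin A (Pd_mem.1 (mem_filter.1 hA).1).1 (mem_filter.1 hA).2
      have : (β : ℤ) ≤ A.card := by exact_mod_cast h2
      omega)
  have haR : (x : ℝ) + a ≤ N := by exact_mod_cast haN
  have hxR : (1 : ℝ) ≤ x := by exact_mod_cast hx.1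
  have hbR : (b : ℝ) = N - x + 1 - a := by exact_mod_cast hb
  have hTR : (T : ℝ) = N - β - x + 1 := by exact_mod_cast hT
  refine area_aux c h (by field_simp) ?_ ?_ ?_ ?_ ?_
  · rw [sub_mul, sub_mul, c.LN_mul, hbR]
    field_simp
    ring
  · rw [sub_mul, c.LN_mul, c.kN_mul', hTR]
    ring
  · rw [div_le_one hn]; linarith
  · have : 0 ≤ (a : ℝ) / N := by positivity
    linarith
  · linarith

theorem Cfg.areaIII (H : HT2) (c : Cfg N F x β) {a b : ℕ} (haN : x + a ≤ N) (hbN : b ≤ N)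
    (ha' : ∀ A ∈ Sd F x 1, ∃ y ∈ A, y ≤ x + a) (hb' : ∀ A ∈ Sd F x 1, ∃ y ∈ A, (N : ℤ) - b ≤ y) :
    AreaBd ((a : ℝ) / N) ((b : ℝ) / N) (kN N β) (SN N F x {1} - 1e-18) 0 := by
  have hn := c.Npos
  have hx := mem_Icc.1 c.hx
  have hκ := c.kN_le
  have hβN : β ≤ N := by have := c.hβ; omega
  have h := H.delta N F x a b (N - β) c.fam c.hx c.right ha' hb'
    (fun A hA => by
      have h2 := c.hmin A (Pd_mem.1 (mem_filter.1 hA).1).1 (mem_filter.1 hA).2
      have : (β : ℤ) ≤ A.card := by exact_mod_cast h2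
      omega)
  have haR : (x : ℝ) + a ≤ N := by exact_mod_cast haN
  have hxR : (1 : ℝ) ≤ x := by exact_mod_cast hx.1
  have hbR : (b : ℝ) ≤ N := by exact_mod_cast hbN
  refine area_aux c h (by field_simp) (by field_simp) ?_ ?_ ?_ hκ
  · rw [c.kN_mul', Nat.cast_sub hβN]
  · rw [div_le_one hn]; linarith
  · rw [div_le_one hn]; exact hbR

theorem Cfg.ntcN (H : HT2) (c : Cfg N F x β) {a b : ℕ}
    (ha : ∃ A ∈ Sd F x 1, ∀ y ∈ A, x + a ≤ y) (hb : ∃ A ∈ Sd F x 1, ∀ y ∈ A, y ≤ (N : ℤ) - b) :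
    (((a : ℝ) / N) ^ 2 + ((b : ℝ) / N) ^ 2) / 2 + SN N F x {1}
      ≤ ((NTp N F x).card : ℝ) / (N : ℝ) ^ 2 + 1e-18 := by
  have h := H.ntc N F x a b c.fam c.hx c.right ha hb
  have hn := c.Npos
  have hn2 : (0 : ℝ) < (N : ℝ) ^ 2 := by positivity
  refine le_of_mul_le_mul_right ?_ hn2
  have e4 : SN N F x {1} * (N : ℝ) ^ 2 = ((Sd F x 1).card : ℝ) := by
    unfold SN; rw [sum_singleton, div_mul_cancel₀ _ hn2.ne']
  rw [add_mul, e4, add_mul, div_mul_cancel₀ _ hn2.ne']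
  have e5 : (((a : ℝ) / N) ^ 2 + ((b : ℝ) / N) ^ 2) / 2 * (N : ℝ) ^ 2
      = ((a : ℝ) ^ 2 + (b : ℝ) ^ 2) / 2 := by
    field_simp
  rw [e5]
  have h8 := c.N_le_sq
  linarith

end intervals

end Pool.Agent.Work.MP_1d0aa8_co

end

section

/-!
# MP_1d0aa8_co, T2: the case analysis
-/

set_option autoImplicit false

namespace Pool.Agent.Work.MP_1d0aa8_co

open Finset
open scoped Classical

section cases

variable {N : ℕ} {F : Finset (Finset ℤ)} {x : ℤ} {β : ℕ}

theorem Cfg.S1_split (c : Cfg N F x β) :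
    SN N F x (Icc 1 N) = SN N F x {1} + SN N F x (Icc 2 N) := by
  have h := c.N_ge
  rw [Icc_split (show 1 ≤ N by omega), SN_insert (by simp)]

theorem Cfg.S2_split (c : Cfg N F x β) :
    SN N F x (Icc 2 N) = SN N F x {2} + SN N F x (Icc 3 N) := by
  have h := c.N_ge
  rw [Icc_split (show 2 ≤ N by omega), SN_insert (by simp)]

theorem Cfg.Q_split (c : Cfg N F x β) :
    QN N F x (Icc 1 N) = QN N F x {1} + QN N F x {2} + QN N F x (Icc 3 N) := by
  have h := c.N_ge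
  rw [Icc_split (show 1 ≤ N by omega), QN_insert (by simp), Icc_split (show 1 + 1 ≤ N by omega),
    QN_insert (by simp)]
  ring

theorem Cfg.S1_empty (he : Sd F x 1 = ∅) : SN N F x {1} = 0 := by
  unfold SN
  rw [sum_singleton, he]
  simp

theorem Cfg.case0 (H : HT2) (c : Cfg N F x β) (h : 0.908 ≤ kN N β) : False := by
  have h1 := c.X_ge
  have h2 := (c.mainN H).1
  have hs3 := c.totN H
  have h4 : (0.824 : ℝ) ≤ kN N β ^ 2 := by nlinarith
  nlinarith

theorem Cfg.reach0 : ∀ A ∈ F, x ∈ A → APc A → ∃ y ∈ A, x + ((0 : ℕ) : ℤ) ≤ y := by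
  intro A _ hxA _
  exact ⟨x, hxA, by simp⟩

theorem Cfg.caseI_em (H : HT2) (c : Cfg N F x β) (hκ : kN N β ≤ 0.77) (he : Sd F x 1 = ∅) :
    False := by
  have h1 := c.X_ge
  have h2 := (c.mainN H).1
  have hs3 := c.S1_split
  have h4 := Cfg.S1_empty (N := N) he
  have h5 := c.tailI H hκ
  have hκ0 := c.kN_ge
  have h6 := H.num0 (kN N β) (by linarith) hκ
  have hL0 := c.LN_nonneg
  rw [hs3, h4] at h2
  rcases le_total (LN N x) 1e-4 with hL | hL
  · have h7 := c.qsmallN H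
    have h8 : 0 ≤ kN N β ^ 2 := sq_nonneg _
    linarith
  · have h7 := c.coverN H (a := 0) (by push_cast; have := (mem_Icc.1 c.hx).2; omega) Cfg.reach0
    rw [Nat.cast_zero, zero_div, add_zero] at h7
    set κ := kN N β
    set L := LN N x
    set X := XN N F x β
    set q := QN N F x (Icc 1 N)
    have hL1 : 0 < L := by linarith
    -- q ≤ X / 1.174 + 1e-11
    have h8 : 1.174 * q ≤ X + 1e-11 := by
      by_contra hn
      push Not at hn
      have h9 : L * (X + 1e-11) < L * (1.174 * q) := mul_lt_mul_of_pos_left hn hL1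
      nlinarith
    have h9 : 0 ≤ κ ^ 2 := sq_nonneg _
    nlinarith

theorem Cfg.caseI_ne (H : HT2) (c : Cfg N F x β) (hκ : kN N β ≤ 0.77)
    (hne : (Sd F x 1).Nonempty) : False := by
  have h1 := c.X_ge
  have h2 := (c.mainN H).1
  have h2' := (c.mainN H).2
  have hs3 := c.S1_split
  have h5 := c.tailI H hκ
  have hκ0 := c.kN_ge
  have h6 := H.num0 (kN N β) (by linarith) hκ
  have hL0 := c.LN_nonneg
  have hLκ := c.L_le hne
  have h7 := c.qsmallN H
  obtain ⟨a, haN, ha, ha'⟩ := c.exists_a hne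
  obtain ⟨b, hbN, hb, hb'⟩ := c.exists_b hne
  have h8 := c.coverN H haN (fun A hA hxA _ => c.reach ha hA ⟨x, hxA⟩)
  have h9 := c.areaI H haN ha ha'
  have h10 := c.areaIII H haN hbN ha' hb'
  have h11 := c.ntcN H ha hb
  have hn := c.Npos
  have haR : (x : ℝ) + a ≤ N := by exact_mod_cast haN
  have ha0 : 0 ≤ (a : ℝ) / N := by positivity
  have hb0 : 0 ≤ (b : ℝ) / N := by positivity
  have hLa1 : LN N x + (a : ℝ) / N ≤ 1 := by
    unfold LN
    rw [← add_div, div_le_one hn]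
    linarith
  have hLκ' := hLκ
  rw [hs3] at h2 h2'
  set κ := kN N β
  set L := LN N x
  set X := XN N F x β
  set q := QN N F x (Icc 1 N)
  set s := SN N F x {1}
  set S := SN N F x (Icc 2 N)
  set a' : ℝ := (a : ℝ) / N
  set b' : ℝ := (b : ℝ) / N
  set nt := ((NTp N F x).card : ℝ) / (N : ℝ) ^ 2
  have hκ2 : (1 : ℝ) / 169 ≤ κ ^ 2 := by nlinarith
  by_cases hLa : 1e-4 ≤ L + a'
  · have hcore := core_ineq (κ := κ) (L := L) (a := a') (X := X) (q := q) (s := s + S) (c := 1)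
      hL0 ha0 zero_le_one le_rfl h1 (by linarith) h8
    by_cases hL : 1e-4 ≤ L
    · rcases le_total κ (1 / 2) with hk | hk
      · have hnum := H.num1 κ L a' (s - 1e-18) (by linarith) hk hL0 hLκ ha0 (by linarith) hLa1 h9
        have m2 : max (2 * κ - 1) 0 = 0 := max_eq_right (by linarith)
        have m3 : max (3 * κ - 2) 0 = 0 := max_eq_right (by linarith)
        have m4 : max (4 * κ - 3) 0 = 0 := max_eq_right (by linarith)
        rw [m2, m3, m4] at h5
        have h12 : S * (L + a') ≤ 1e-16 * (L + a') :=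
          mul_le_mul_of_nonneg_right (by linarith) (by linarith)
        have h13 : 1 / 169 * 1e-4 ≤ κ ^ 2 * L := mul_le_mul hκ2 hL (by norm_num) (sq_nonneg κ)
        have h14 : 4e-8 * (L + a') ≤ 0.07 * κ ^ 2 * L * (L + a') :=
          mul_le_mul_of_nonneg_right (by linarith) (by linarith)
        have h15 : (κ ^ 2 / 2 - (s - 1e-18)) * (L + a')
          = (κ ^ 2 / 2 - (s + S)) * (L + a') + S * (L + a') + 1e-18 * (L + a') := by ring
        rw [h15] at hnum
        linarith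
      · have hnum := H.num2 κ L a' (s - 1e-18) hk hκ hL0 hLκ ha0 (by linarith) hLa1 h9
        set T := (max (2 * κ - 1) 0) ^ 2 / 8 + (max (3 * κ - 2) 0) ^ 2 / 18
          + (max (4 * κ - 3) 0) ^ 2 / 32
        have h12 : S * (L + a') ≤ (T + 1e-16) * (L + a') :=
          mul_le_mul_of_nonneg_right (by linarith) (by linarith)
        have h13 : 2e-7 * (L + a') ≤ 0.002 * L * (L + a') :=
          mul_le_mul_of_nonneg_right (by linarith) (by linarith)
        have h14 : (κ ^ 2 / 2 - (s - 1e-18) - (max (2 * κ - 1) 0) ^ 2 / 8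
          - (max (3 * κ - 2) 0) ^ 2 / 18 - (max (4 * κ - 3) 0) ^ 2 / 32) * (L + a')
          = (κ ^ 2 / 2 - (s + S)) * (L + a') + S * (L + a') - T * (L + a')
            + 1e-18 * (L + a') := by ring
        rw [h14] at hnum
        linarith
    · push Not at hL
      rcases le_total κ 0.65 with hk | hk
      · have m3 : max (3 * κ - 2) 0 = 0 := max_eq_right (by linarith)
        have m4 : max (4 * κ - 3) 0 = 0 := max_eq_right (by linarith)
        rw [m3, m4] at h5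
        rcases H.num4 κ a' b' (s - 1e-18) (by linarith) hk ha0 hb0 h10 with h | h
        · linarith
        · linarith
      · have hnum := H.num2b κ L a' (s - 1e-18) hk hκ hL0 hLκ ha0 (by linarith) hLa1 h9
        set T := (max (2 * κ - 1) 0) ^ 2 / 8 + (max (3 * κ - 2) 0) ^ 2 / 18
          + (max (4 * κ - 3) 0) ^ 2 / 32
        have h12 : S * (L + a') ≤ (T + 1e-16) * (L + a') :=
          mul_le_mul_of_nonneg_right (by linarith) (by linarith)
        have h14 : (κ ^ 2 / 2 - (s - 1e-18) - (max (2 * κ - 1) 0) ^ 2 / 8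
          - (max (3 * κ - 2) 0) ^ 2 / 18 - (max (4 * κ - 3) 0) ^ 2 / 32) * (L + a')
          = (κ ^ 2 / 2 - (s + S)) * (L + a') + S * (L + a') - T * (L + a')
            + 1e-18 * (L + a') := by ring
        rw [h14] at hnum
        linarith
  · push Not at hLa
    have h12 : s ≤ a' * b' + 1e-18 := by have := h10.2.1; linarith
    have hb1 : b' ≤ 1 := by
      have : (b : ℝ) ≤ N := by exact_mod_cast hbN
      exact (div_le_one hn).2 this
    have h13 : a' * b' ≤ 1e-4 := by nlinarith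
    linarith

theorem Cfg.caseII_ne (H : HT2) (c : Cfg N F x β) (hκ : 0.77 ≤ kN N β) (hκ1 : kN N β ≤ 0.908)
    (hne : (Sd F x 1).Nonempty) : False := by
  have h1 := c.X_ge
  have h2 := (c.mainN H).1
  have hs3 := c.S1_split
  have hs3' := c.S2_split
  have h4 := c.Q_split
  have h5 := c.tailII H hκ1
  have h6 := c.P2N H
  have hZ := c.ZN H
  have hL0 := c.LN_nonneg
  have hLκ := c.L_le hne
  have h7 := c.qsmallN H
  obtain ⟨a, haN, ha, ha'⟩ := c.exists_a hne
  obtain ⟨b, hbN, hb, hb'⟩ := c.exists_b hne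
  have h8 := c.cover2N H haN (fun A hA hxA _ => c.reach ha hA ⟨x, hxA⟩)
  have h9 := c.areaI H haN ha ha'
  have h10 := c.areaIII H haN hbN ha' hb'
  have hn := c.Npos
  have haR : (x : ℝ) + a ≤ N := by exact_mod_cast haN
  have ha0 : 0 ≤ (a : ℝ) / N := by positivity
  have hb0 : 0 ≤ (b : ℝ) / N := by positivity
  have hLa1 : LN N x + (a : ℝ) / N ≤ 1 := by
    unfold LN
    rw [← add_div, div_le_one hn]
    linarith
  have hq1 := QN_nonneg (N := N) (F := F) (x := x) {1}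
  have hq2 := QN_nonneg (N := N) (F := F) (x := x) {2}
  have hq3 := QN_nonneg (N := N) (F := F) (x := x) (Icc 3 N)
  rw [hs3, hs3'] at h2
  set κ := kN N β
  set L := LN N x
  set X := XN N F x β
  set q := QN N F x (Icc 1 N)
  set q1 := QN N F x {1}
  set q2 := QN N F x {2}
  set Z := QN N F x (Icc 3 N)
  set s := SN N F x {1}
  set s2 := SN N F x {2}
  set S := SN N F x (Icc 3 N)
  set a' : ℝ := (a : ℝ) / N
  set b' : ℝ := (b : ℝ) / N
  by_cases hLa : 1e-4 ≤ L + a'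
  · rcases H.num3 κ L a' (s - 1e-18) hκ hκ1 hL0 hLκ ha0 (by linarith) hLa1 h9 with hnum | hnum
    · have hcore := core_ineq (κ := κ) (L := L) (a := a') (X := X) (q := 1.25 * q1 + Z)
        (s := s + 1 / 16 + h3 κ + 1e-14) (c := 1)
        hL0 ha0 zero_le_one le_rfl h1 (by linarith) h8
      have e : (κ ^ 2 / 2 - (s - 1e-18) - 1 / 16 - h3 κ - 0.001)
          * (L + a') = (κ ^ 2 / 2 - (s + 1 / 16 + h3 κ + 1e-14))
          * (L + a') + (1e-18 + 1e-14 - 0.001) * (L + a') := by ring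
      rw [e] at hnum
      linarith
    · have hcore := core_ineq (κ := κ) (L := L) (a := a') (X := X) (q := 1.25 * q1 + Z)
        (s := s + 1 / 16 + h3 κ + 0.0198) (c := 0.8)
        hL0 ha0 (by norm_num) (by norm_num) h1 (by linarith) h8
      have e : (κ ^ 2 / 2 - (s - 1e-18) - 1 / 16 - h3 κ - 0.0198
          - 0.001) * (L + a') = (κ ^ 2 / 2 - (s + 1 / 16 + h3 κ
          + 0.0198)) * (L + a') + (1e-18 - 0.001) * (L + a') := by ring
      rw [e] at hnum
      linarith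
  · push Not at hLa
    have h12 : s ≤ a' * b' + 1e-18 := by have := h10.2.1; linarith
    have hb1 : b' ≤ 1 := by
      have : (b : ℝ) ≤ N := by exact_mod_cast hbN
      exact (div_le_one hn).2 this
    have h13 : a' * b' ≤ 1e-4 := by nlinarith
    have h14 := H.num3b κ hκ hκ1
    have h15 : (0.59 : ℝ) ≤ κ ^ 2 := by nlinarith
    linarith

theorem Cfg.caseII_em (H : HT2) (c : Cfg N F x β) (hκ : 0.77 ≤ kN N β) (hκ1 : kN N β ≤ 0.908)
    (he : Sd F x 1 = ∅) : False := by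
  have h1 := c.X_ge
  have h2 := (c.mainN H).1
  have hs3 := c.S1_split
  have hs3' := c.S2_split
  have hs3'' := Cfg.S1_empty (N := N) he
  have h4 := c.Q_split
  have h5 := c.tailII H hκ1
  have h6 := c.P2N H
  have hZ := c.ZN H
  have hL0 := c.LN_nonneg
  have h7 := c.qsmallN H
  have h8 := c.cover2N H (a := 0) (by push_cast; have := (mem_Icc.1 c.hx).2; omega) Cfg.reach0
  have hn := c.Npos
  have hq1 := QN_nonneg (N := N) (F := F) (x := x) {1}
  have hq2 := QN_nonneg (N := N) (F := F) (x := x) {2}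
  have hq3 := QN_nonneg (N := N) (F := F) (x := x) (Icc 3 N)
  rw [hs3, hs3', hs3''] at h2
  rw [Nat.cast_zero, zero_div] at h8
  have h14 := H.num3b (kN N β) hκ hκ1
  have h15 : (0.59 : ℝ) ≤ kN N β ^ 2 := by nlinarith
  by_cases hL : 1e-4 ≤ LN N x
  · have hcore := core_ineq (κ := kN N β) (L := LN N x) (a := 0) (X := XN N F x β)
      (q := 1.25 * QN N F x {1} + QN N F x (Icc 3 N))
      (s := 1 / 16 + h3 (kN N β) + 0.0198) (c := 0.8)
      hL0 le_rfl (by norm_num) (by norm_num) h1 (by linarith) h8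
    have h16 : (0.8 * 0.426 * kN N β ^ 2) * LN N x ≤ (kN N β ^ 2 / 2 - 1 / 16
      - h3 (kN N β) - 0.0198 - 0.001) * LN N x :=
      mul_le_mul_of_nonneg_right h14 hL0
    nlinarith
  · push Not at hL
    linarith

theorem Cfg.false (H : HT2) (c : Cfg N F x β) : False := by
  rcases le_total (kN N β) 0.77 with h | h
  · rcases (Sd F x 1).eq_empty_or_nonempty with he | he
    · exact c.caseI_em H h he
    · exact c.caseI_ne H h he
  · rcases le_total (kN N β) 0.908 with h' | h'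
    · rcases (Sd F x 1).eq_empty_or_nonempty with he | he
      · exact c.caseII_em H h h' he
      · exact c.caseII_ne H h h' he
    · exact c.case0 H h'

end cases

/-- T2, one side. -/
theorem thmT2R (H : HT2) : ST2R := by
  obtain ⟨N0, hN0⟩ := lg_small 1e-20 (by norm_num)
  refine ⟨3e7, by norm_num, max N0 1, ?_⟩
  intro N hN F x hF hx hright hbig hex
  by_contra hcon
  push Not at hcon
  have hN1 : 1 ≤ N := (le_max_right _ _).trans hN
  -- the smallest member avoiding `x`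
  obtain ⟨B0, hB0, hxB0, hc0⟩ := hex
  have hne : (Av F x).Nonempty := ⟨B0, mem_filter.2 ⟨hB0, hxB0⟩⟩
  obtain ⟨B, hB, hmin⟩ := exists_min_image (Av F x) (fun A => A.card) hne
  have hB' := mem_filter.1 hB
  have c : Cfg N F x B.card :=
    { fam := hF
      hx := hx
      hN := hN1
      small := hN0 N ((le_max_left _ _).trans hN)
      right := hright
      big := hbig
      hB := ⟨B, hB'.1, hB'.2, rfl⟩
      hmin := fun A hA hxA => hmin A (mem_filter.2 ⟨hA, hxA⟩)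
      hβ := by
        have := hmin B0 (mem_filter.2 ⟨hB0, hxB0⟩)
        omega
      contra := hcon }
  exact c.false H

end Pool.Agent.Work.MP_1d0aa8_co

end

section

/-!
# MP_1d0aa8_co: T2, UPPER, FINAL
-/

set_option autoImplicit false

namespace Pool.Agent.Work.MP_1d0aa8_co

open Finset
open scoped Classical

/-- T2. -/
theorem thmT2 (H : HT2) (hside : SSide) (hrefl : SRefl) : ST2 := by
  obtain ⟨C, hC, N0, hT⟩ := thmT2R H
  refine ⟨C, hC, N0, ?_⟩
  intro N hN F x hF hx hbig hex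
  rcases hside N F x hF with h | h
  · exact hT N hN F x hF hx h hbig hex
  · obtain ⟨hR, hcard, hback, hSd⟩ := hrefl N F hF
    have hinj : Function.Injective (fun y : ℤ => (N : ℤ) + 1 - y) := by
      intro y z hyz
      simp only at hyz
      omega
    rw [← hcard]
    have hx' := mem_Icc.1 hx
    refine hT N hN (refl N F) ((N : ℤ) + 1 - x) hR (by rw [mem_Icc]; omega) ?_ ?_ ?_
    · intro A hA y hy
      have h1 := hSd _ A hA
      have h2 : (N : ℤ) + 1 - ((N : ℤ) + 1 - x) = x := by ring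
      rw [h2] at h1
      have h3 := h _ h1 ((N : ℤ) + 1 - y) (mem_image_of_mem (fun y : ℤ => (N : ℤ) + 1 - y) hy)
      omega
    · intro B hB hxB
      have h1 := hback B hB
      have h2 := hbig _ h1 (fun hmem => by
        obtain ⟨y, hy, hyx⟩ := mem_image.1 hmem
        apply hxB
        have : y = (N : ℤ) + 1 - x := by omega
        rw [← this]; exact hy)
      rw [card_image_of_injective _ hinj] at h2
      exact h2
    · obtain ⟨B, hB, hxB, hc⟩ := hex
      refine ⟨B.image (fun y => (N : ℤ) + 1 - y), mem_image_of_mem _ hB, ?_, ?_⟩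
      · intro hmem
        obtain ⟨y, hy, hyx⟩ := mem_image.1 hmem
        apply hxB
        have : y = x := by omega
        rw [← this]; exact hy
      · rw [card_image_of_injective _ hinj]; exact hc

/-- UPPER -/
theorem thmUpper (hS : SCaseS) (h1 : ST1) (h2 : ST2) : SUpper := by
  obtain ⟨C, hC, N2, hT2⟩ := h2
  obtain ⟨N1, hT1⟩ := h1
  obtain ⟨N3, hS3⟩ := hS C hC
  refine ⟨max N1 (max N2 (max N3 50)), ?_⟩
  intro N hN F hF
  have hN1 : N1 ≤ N := (le_max_left _ _).trans hN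
  have hN' := (le_max_right _ _).trans hN
  have hN2 : N2 ≤ N := (le_max_left _ _).trans hN'
  have hN'' := (le_max_right _ _).trans hN'
  have hN3 : N3 ≤ N := (le_max_left _ _).trans hN''
  have hN50 : 50 ≤ N := (le_max_right _ _).trans hN''
  by_contra hcon
  have hcon' := hcon
  push Not at hcon'
  have hbig : 0.49 * (N : ℝ) ^ 2 ≤ (F.card : ℝ) := by
    unfold bnd at hcon'
    have h' : N.choose 2 ≤ F.card := by omega
    have h'' : ((N.choose 2 : ℕ) : ℝ) ≤ F.card := by exact_mod_cast h'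
    rw [Nat.cast_choose_two] at h''
    have h3 : (50 : ℝ) ≤ N := by exact_mod_cast hN50
    nlinarith
  obtain ⟨x, hx, hxbig⟩ := hS3 N hN3 F hF hbig
  by_cases hall : ∀ B ∈ F, x ∉ B → N ≤ B.card + 1 + (N - 1) / 13
  · exact hcon (hT1 N hN1 F x ((N - 1) / 13) hF hx (by omega) hall)
  · push Not at hall
    obtain ⟨B, hB, hxB, hc⟩ := hall
    exact hcon (hT2 N hN2 F x hF hx hxbig ⟨B, hB, hxB, by omega⟩)

/-- FINAL -/
theorem thmFinal (hU : SUpper) (hL : SLower) (hT : STransfer) : SFinal := by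
  obtain ⟨N0, hN0⟩ := hU
  refine ⟨max N0 1, ?_⟩
  intro N hN
  have hN1 : 1 ≤ N := (le_max_right _ _).trans hN
  obtain ⟨F, hF, hcard, hstar⟩ := hL N hN1
  refine ⟨F, hF, ?_, hstar, hcard⟩
  intro G hG
  obtain ⟨F', hF', hc'⟩ := hT N G hG
  rw [hcard, ← hc']
  exact hN0 N ((le_max_left _ _).trans hN) F' hF'

end Pool.Agent.Work.MP_1d0aa8_co

end
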